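import Pool.Agent.MP_429080_ag.CI.Defs

namespace Pool.Agent.MP_429080_ag.H26

open MvPolynomial Filter Module Pool.Agent.EGH Pool.Agent.MP_d171e3_nt

set_option linter.unusedSectionVars false

section PartHFn

variable {f f' : Fn G2} {q q' : Polynomial ℤ} {d : ℕ}

theorem hfn_tt_pow (i : ℕ) : tt ^ i = sh (((i : ℤ), 0) : G2) := by
  rw [tt, ← sh_nsmul]
  simp

theorem hfn_mul (p q : Polynomial ℤ) : at1 (p * q) = at1 p * at1 q := map_mul _ p q

theorem hfn_add (p q : Polynomial ℤ) : at1 (p + q) = at1 p + at1 q := map_add _ p q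

theorem hfn_sub (p q : Polynomial ℤ) : at1 (p - q) = at1 p - at1 q := map_sub _ p q

theorem hfn_C (a : ℤ) : at1 (Polynomial.C a) = (a : RG G2) := by
  simp [at1]

theorem hfn_mono (i : ℕ) (a : ℤ) (f : Fn G2) (g : G2) :
    (at1 (Polynomial.monomial i a) • f) g = a * f (g - ((i : ℤ), 0)) := by
  rw [at1, Polynomial.aeval_monomial, hfn_tt_pow, mul_smul, eq_intCast, intCast_smul',
    Fn.zsmul_apply, sh_smul]

theorem hfn_zs (a : ℤ) (r : RG G2) (f : Fn G2) : r • (a • f) = a • (r • f) := by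
  rw [← intCast_smul', ← intCast_smul', smul_comm]

theorem hfn_dl (q : Polynomial ℤ) (g : G2) :
    (at1 q • dl G2) g = if 0 ≤ g.1 ∧ g.2 = 0 then q.coeff g.1.toNat else 0 := by
  induction q using Polynomial.induction_on' with
  | add p q hp hq =>
    rw [hfn_add, add_smul, Fn.add_apply, hp, hq, Polynomial.coeff_add]
    split_ifs <;> simp
  | monomial i a =>
    obtain ⟨x, y⟩ := g
    rw [hfn_mono, Polynomial.coeff_monomial]
    simp only [dl, Prod.mk_sub_mk, Prod.mk_eq_zero, sub_zero]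
    split_ifs <;> omega

theorem Sup.add (h : Sup f) (h' : Sup f') : Sup (f + f') := fun g hg => by
  by_cases h1 : f g = 0
  · exact h' g fun h2 => hg (by simp [h1, h2])
  · exact h g h1

theorem Sup.sub (h : Sup f) (h' : Sup f') : Sup (f - f') := fun g hg => by
  by_cases h1 : f g = 0
  · exact h' g fun h2 => hg (by simp [h1, h2])
  · exact h g h1

theorem Sup.zsmul (h : Sup f) (a : ℤ) : Sup (a • f) := fun g hg =>
  h g fun h1 => hg (by simp [h1])

theorem Sup.at1 (h : Sup f) (p : Polynomial ℤ) : Sup (at1 p • f) := by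
  induction p using Polynomial.induction_on' with
  | add p q hp hq =>
    rw [hfn_add, add_smul]
    exact hp.add hq
  | monomial i a =>
    intro g hg
    rw [hfn_mono] at hg
    have := h _ (right_ne_zero_of_mul hg)
    simp only [Prod.fst_sub, Prod.snd_sub, sub_zero] at this
    exact ⟨by omega, this.2⟩

theorem sup_dl : Sup (dl G2) := fun g hg => by
  have : g = 0 := by
    by_contra h
    exact hg (by simp [dl, h])
  subst this
  exact ⟨le_rfl, rfl⟩

theorem at1_X : at1 Polynomial.X = tt := Polynomial.aeval_X _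

theorem at1_one_sub_pow (e : ℕ) : at1 ((1 - Polynomial.X) ^ e) = (1 - tt) ^ e := by
  simp [at1]

theorem at1_dl_apply (q : Polynomial ℤ) (n : ℕ) : (at1 q • dl G2) ((n : ℤ), 0) = q.coeff n := by
  rw [hfn_dl]
  simp

theorem at1_dl_inj (h : at1 q • dl G2 = at1 q' • dl G2) : q = q' := by
  ext n
  rw [← at1_dl_apply, ← at1_dl_apply, h]

theorem at1_dl_mem (q : Polynomial ℤ) : at1 q • dl G2 ∈ Nall := fun a =>
  eventually_atTop.2 ⟨(q.natDegree : ℤ) + 1, fun n hn => by
    rw [hfn_dl]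
    split_ifs
    · exact Polynomial.coeff_eq_zero_of_natDegree_lt (by omega)
    · rfl⟩

theorem exists_num (hf : Sup f) (h : (1 - tt) ^ d • f ∈ Nall) : ∃ q, Num d f q := by
  have hs : Sup ((1 - tt) ^ d • f) := at1_one_sub_pow d ▸ hf.at1 _
  obtain ⟨K, hK⟩ := eventually_atTop.1 (h 0)
  refine ⟨∑ i ∈ Finset.range K.toNat, Polynomial.monomial i (((1 - tt) ^ d • f) ((i : ℤ), 0)), ?_⟩
  unfold Num
  generalize (1 - tt) ^ d • f = F at hs hK ⊢
  ext ⟨x, y⟩
  rw [hfn_dl]
  split_ifs with h1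
  · obtain ⟨h1, h2⟩ := h1
    obtain ⟨n, rfl⟩ := Int.eq_ofNat_of_zero_le h1
    obtain rfl : y = 0 := h2
    simp only [Polynomial.finsetSum_coeff, Polynomial.coeff_monomial, Int.toNat_natCast,
      Finset.sum_ite_eq', Finset.mem_range]
    split_ifs with h3
    · rfl
    · exact hK _ (by omega)
  · by_contra h2
    exact h1 (hs _ h2)

theorem Num.unique (h : Num d f q) (h' : Num d f q') : q = q' :=
  at1_dl_inj (h.symm.trans h')

theorem Num.succ (h : Num d f q) (e : ℕ) : Num (d + e) f ((1 - Polynomial.X) ^ e * q) := by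
  unfold Num at h ⊢
  rw [hfn_mul, at1_one_sub_pow, mul_smul, ← h, pow_add, mul_comm, mul_smul]

theorem Num.add (h : Num d f q) (h' : Num d f' q') : Num d (f + f') (q + q') := by
  unfold Num at h h' ⊢
  rw [hfn_add, add_smul, smul_add, h, h']

theorem Num.sub (h : Num d f q) (h' : Num d f' q') : Num d (f - f') (q - q') := by
  unfold Num at h h' ⊢
  rw [hfn_sub, sub_smul, smul_sub, h, h']

theorem Num.zsmul (h : Num d f q) (a : ℤ) : Num d (a • f) (Polynomial.C a * q) := by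
  unfold Num at h ⊢
  rw [hfn_mul, hfn_C, mul_smul, ← h, intCast_smul', hfn_zs]

theorem Num.at1 (h : Num d f q) (p : Polynomial ℤ) : Num d (at1 p • f) (p * q) := by
  unfold Num at h ⊢
  rw [hfn_mul, mul_smul, ← h, smul_comm]

theorem Num.sh_nat (h : Num d f q) (D : ℕ) :
    Num d (sh (((D : ℤ), 0) : G2) • f) (Polynomial.X ^ D * q) := by
  have := h.at1 (Polynomial.X ^ D)
  rwa [H26.at1, Polynomial.aeval_X_pow, hfn_tt_pow] at this

theorem num_cmp (hf : Sup f) (hf' : Sup f') (h : Num d f q) (h' : Num d f' q') {e : ℕ}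
    (he : e ≤ d) (hN : (1 - tt) ^ e • (f - f') ∈ Nall) :
    (1 - Polynomial.X) ^ (d - e) ∣ q - q' := by
  obtain ⟨r, hr⟩ := exists_num (hf.sub hf') hN
  have h1 := hr.succ (d - e)
  rw [Nat.add_sub_cancel' he] at h1
  exact ⟨r, (h.sub h').unique h1⟩

theorem sh_mem_iff (Λ : Submodule (RG G2) (Fn G2)) (e : G2) : sh e • f ∈ Λ ↔ f ∈ Λ := by
  refine ⟨fun h => ?_, fun h => Λ.smul_mem _ h⟩
  have := Λ.smul_mem (sh (-e)) h
  rwa [← mul_smul, ← sh_add, neg_add_cancel, sh_zero, one_smul] at this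

theorem sh_gamma (γ : ℕ) : sh (((γ : ℤ), 1) : G2) = tt ^ γ * ss := by
  rw [hfn_tt_pow, ss, ← sh_add]
  simp

theorem NV.congr {H H' : Fn G2} {e ν : ℕ} (h : NV H e ν) (h' : H' - H ∈ Nev) : NV H' e ν := by
  have h1 : ∀ r : RG G2, r • H' = r • H + r • (H' - H) := fun r => by
    rw [← smul_add, add_sub_cancel]
  refine ⟨fun i j hij => ?_, ?_, fun ω hω hm => h.ne ω hω ?_⟩
  · rw [h1]
    exact Nev.add_mem (h.tot i j hij) (Nev.smul_mem _ h')
  · rw [h1]
    exact Nev.add_mem h.lam (Nev.smul_mem _ h')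
  · rw [h1, smul_add] at hm
    have h2 := Nev.smul_mem (ω : RG G2) (Nev.smul_mem ((1 - tt) ^ e * (1 - ss) ^ ν) h')
    rw [intCast_smul'] at h2
    exact (Nev.add_mem_iff_left h2).1 hm

end PartHFn

section PartHPos

theorem hpos_apply (e : G2) (f : Fn G2) (k : G2) : ((1 - sh e) • f) k = f k - f (k - e) := by
  simp only [sub_smul, one_smul, Fn.sub_apply, sh_smul]

theorem hpos_step (u : ℤ → ℤ) (h : ∀ᶠ n in atTop, u n - u (n - 1) ≤ -1) :
    ∀ᶠ n in atTop, u n ≤ -1 := by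
  obtain ⟨N, hN⟩ := eventually_atTop.1 h
  have h1 : ∀ j : ℕ, u (N + j) ≤ u N - j := by
    intro j
    induction j with
    | zero => simp
    | succ j ih =>
      have := hN (N + (j + 1 : ℕ)) (by omega)
      rw [show N + ((j + 1 : ℕ) : ℤ) - 1 = N + j by push_cast; ring] at this
      push_cast at this ⊢
      omega
  refine eventually_atTop.2 ⟨N + |u N| + 1, fun n hn => ?_⟩
  have h2 := le_abs_self (u N)
  have h3 := abs_nonneg (u N)
  have := h1 (n - N).toNat
  rw [show N + ((n - N).toNat : ℤ) = n by omega] at this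
  omega

theorem hpos_neg (e k0 : G2) (m : ℕ) : ∀ f : Fn G2,
    (∀ᶠ n : ℤ in atTop, ((1 - sh e) ^ m • f) (k0 + n • e) ≤ -1) →
      ∀ᶠ n : ℤ in atTop, f (k0 + n • e) ≤ -1 := by
  induction m with
  | zero => intro f h; simpa using h
  | succ m ih =>
    intro f h
    rw [pow_succ, mul_smul] at h
    refine hpos_step (fun n => f (k0 + n • e)) ((ih _ h).mono fun n hn => ?_)
    rw [hpos_apply] at hn
    rwa [sub_smul, one_smul, ← add_sub_assoc]

theorem hpos_row (a : ℤ) (m : ℕ) (f : Fn G2)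
    (h : ∀ᶠ n : ℤ in atTop, ((1 - tt) ^ m • f) (n, a) ≤ -1) :
    ∀ᶠ n : ℤ in atTop, f (n, a) ≤ -1 := by
  have := hpos_neg (1, 0) (0, a) m f (by simpa [tt] using h)
  simpa using this

theorem hpos_col (n : ℤ) (m : ℕ) (f : Fn G2)
    (h : ∀ᶠ a : ℤ in atTop, ((1 - ss) ^ m • f) (n, a) ≤ -1) :
    ∀ᶠ a : ℤ in atTop, f (n, a) ≤ -1 := by
  have := hpos_neg (0, 1) (n, 0) m f (by simpa [ss] using h)
  simpa using this

theorem hpos_tt (f : Fn G2) (n a : ℤ) : ((1 - tt) • f) (n, a) = f (n, a) - f (n - 1, a) := by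
  rw [tt, hpos_apply]; simp

theorem hpos_ss (f : Fn G2) (n a : ℤ) : ((1 - ss) • f) (n, a) = f (n, a) - f (n, a - 1) := by
  rw [ss, hpos_apply]; simp

theorem hpos_const (u : ℤ → ℤ) (N : ℤ) (h : ∀ n, N ≤ n → u n - u (n - 1) = 0) (n : ℤ)
    (hn : N ≤ n) : u n = u N := by
  induction n, hn using Int.leInduction with
  | base => rfl
  | succ n hn ih =>
    have := h (n + 1) (by omega)
    rw [add_sub_cancel_right] at this
    omega

theorem pos2 {g : Fn G2} {e ν : ℕ} (h0 : ∀ k, 0 ≤ g k) (h1 : (1 - ss) ^ (ν + 1) • g ∈ Zs G2)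
    (h2 : ((1 - tt) ^ (e + 1) * (1 - ss) ^ ν) • g ∈ Zs G2) :
    ∃ c : ℤ, 0 ≤ c ∧ ∀ᶠ k in atTop, (((1 - tt) ^ e * (1 - ss) ^ ν) • g) k = c := by
  obtain ⟨u, hu⟩ : ∃ u, u = (1 - ss) ^ ν • g := ⟨_, rfl⟩
  obtain ⟨v, hv⟩ : ∃ v, v = (1 - tt) ^ e • u := ⟨_, rfl⟩
  have a1 : (1 - ss) • u ∈ Zs G2 := by rwa [hu, ← mul_smul, ← pow_succ']
  have a2 : (1 - tt) • v ∈ Zs G2 := by
    rwa [hv, hu, ← mul_smul, ← pow_succ', ← mul_smul]
  have a3 : (1 - ss) • v ∈ Zs G2 := by
    rw [hv, ← mul_smul, mul_comm, mul_smul]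
    exact Submodule.smul_mem _ _ a1
  rw [mul_smul, ← hu, ← hv]
  obtain ⟨K, hK⟩ := eventually_atTop.1 (((mem_Zs.1 a1).and (mem_Zs.1 a2)).and (mem_Zs.1 a3))
  have b1 : ∀ n a, K.1 ≤ n → K.2 ≤ a → u (n, a) = u (n, K.2) := fun n a hn ha =>
    hpos_const (fun a => u (n, a)) K.2
      (fun b hb => by rw [← hpos_ss]; exact (hK (n, b) ⟨hn, hb⟩).1.1) a ha
  have b2 : ∀ n a, K.1 ≤ n → K.2 ≤ a → v (n, a) = v (K.1, a) := fun n a hn ha =>
    hpos_const (fun n => v (n, a)) K.1
      (fun b hb => by rw [← hpos_tt]; exact (hK (b, a) ⟨hb, ha⟩).1.2) n hn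
  have b3 : ∀ n a, K.1 ≤ n → K.2 ≤ a → v (n, a) = v (n, K.2) := fun n a hn ha =>
    hpos_const (fun a => v (n, a)) K.2
      (fun b hb => by rw [← hpos_ss]; exact (hK (n, b) ⟨hn, hb⟩).2) a ha
  have b4 : ∀ n a, K.1 ≤ n → K.2 ≤ a → v (n, a) = v K := fun n a hn ha => by
    rw [b3 n a hn ha, b2 n K.2 hn le_rfl]
  refine ⟨v K, ?_, eventually_atTop.2 ⟨K, fun k hk => b4 k.1 k.2 hk.1 hk.2⟩⟩
  by_contra hc
  have c1 : ∀ᶠ n : ℤ in atTop, u (n, K.2) ≤ -1 :=
    hpos_row K.2 e u (eventually_atTop.2 ⟨K.1, fun n hn => by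
      rw [← hv, b4 n K.2 hn le_rfl]; omega⟩)
  obtain ⟨n, hn1, hn2⟩ := (c1.and (eventually_ge_atTop K.1)).exists
  have c2 : ∀ᶠ a : ℤ in atTop, g (n, a) ≤ -1 :=
    hpos_col n ν g (eventually_atTop.2 ⟨K.2, fun a ha => by
      rw [← hu, b1 n a hn2 ha]; exact hn1⟩)
  obtain ⟨a, ha⟩ := c2.exists
  have := h0 (n, a)
  omega

theorem pos1 {g : Fn G2} {e : ℕ} {q : Polynomial ℤ} (h0 : ∀ k, 0 ≤ g k) (hs : Sup g)
    (h : Num (e + 1) g q) : 0 ≤ q.eval 1 := by
  obtain ⟨v, hv⟩ : ∃ v, v = (1 - tt) ^ e • g := ⟨_, rfl⟩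
  have a1 : Sup v := by
    rw [hv, ← at1_one_sub_pow]
    exact hs.at1 _
  have a2 : (1 - tt) • v = at1 q • dl G2 := by
    rw [hv, ← mul_smul, ← pow_succ']
    exact h
  have a3 : v (-1, 0) = 0 := by
    by_contra hc
    have := (a1 _ hc).1
    simp at this
  have a4 : ∀ n : ℕ, v ((n : ℤ) - 1, 0) = ∑ i ∈ Finset.range n, q.coeff i := by
    intro n
    induction n with
    | zero => simpa using a3
    | succ n ih =>
      rw [Finset.sum_range_succ, ← ih, ← at1_dl_apply, ← a2, hpos_tt]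
      push_cast
      rw [add_sub_cancel_right]
      ring
  by_contra hc
  have c1 : ∀ᶠ n : ℤ in atTop, g (n, 0) ≤ -1 := by
    refine hpos_row 0 e g (eventually_atTop.2 ⟨q.natDegree, fun n hn => ?_⟩)
    have b1 := a4 (n + 1).toNat
    rw [show (((n + 1).toNat : ℕ) : ℤ) - 1 = n by omega] at b1
    have b2 := Polynomial.eval_eq_sum_range' (p := q) (n := (n + 1).toNat) (by omega) 1
    simp only [one_pow, mul_one] at b2
    rw [← hv, b1, ← b2]
    omega
  obtain ⟨n, hn⟩ := c1.exists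
  have := h0 (n, 0)
  omega

/-- the indicator function of the quadrant -/
def hpos_ind : Fn G2 := fun k => if 0 ≤ k.1 ∧ 0 ≤ k.2 then 1 else 0

theorem hpos_ind_apply (n a : ℤ) : hpos_ind (n, a) = if 0 ≤ n ∧ 0 ≤ a then 1 else 0 := rfl

theorem hpos_dl (n a : ℤ) : dl G2 (n, a) = if n = 0 ∧ a = 0 then 1 else 0 := by
  by_cases h : n = 0 ∧ a = 0
  · obtain ⟨rfl, rfl⟩ := h
    simp [dl, Prod.ext_iff]
  · rw [if_neg h]
    simpa [dl, Prod.ext_iff] using h

theorem hpos_ind_eq : (1 - tt) • ((1 - ss) • hpos_ind) = dl G2 := by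
  ext ⟨n, a⟩
  rw [hpos_tt, hpos_ss, hpos_ss, hpos_dl]
  simp only [hpos_ind_apply]
  split_ifs <;> omega

theorem quad_one {g : Fn G2} {e ν : ℕ} (φ : G2 →+ ℤ) (h1 : 0 < φ (1, 0)) (h2 : 0 < φ (0, 1))
    (hb : g ∈ Bdd φ) (h : ((1 - tt) ^ (e + 1) * (1 - ss) ^ (ν + 1)) • g = dl G2) :
    ∀ᶠ k in atTop, (((1 - tt) ^ e * (1 - ss) ^ ν) • g) k = 1 := by
  obtain ⟨v, hv⟩ : ∃ v, v = ((1 - tt) ^ e * (1 - ss) ^ ν) • g := ⟨_, rfl⟩
  have a1 : hpos_ind ∈ Bdd φ := by
    refine ⟨0, fun ⟨n, a⟩ hk => ?_⟩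
    rw [hpos_ind_apply, if_neg]
    rintro ⟨hn, ha⟩
    have : ((n, a) : G2) = n • ((1, 0) : G2) + a • ((0, 1) : G2) := by simp
    rw [this, map_add, map_zsmul, map_zsmul, smul_eq_mul, smul_eq_mul] at hk
    have b1 := mul_nonneg hn h1.le
    have b2 := mul_nonneg ha h2.le
    omega
  have a2 : v - hpos_ind ∈ Bdd φ := sub_mem (hv ▸ Submodule.smul_mem _ _ hb) a1
  have a3 : (1 - tt) • ((1 - ss) • (v - hpos_ind)) = 0 := by
    rw [smul_sub, smul_sub, hpos_ind_eq, ← h, hv, ← mul_smul, ← mul_smul, sub_eq_zero]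
    congr 1
    ring
  have a4 := cancel_one φ h2 a2 (cancel_one φ h1 (Submodule.smul_mem _ _ a2) a3)
  rw [← hv, sub_eq_zero.1 a4]
  refine eventually_atTop.2 ⟨(0, 0), fun ⟨n, a⟩ hk => ?_⟩
  rw [hpos_ind_apply, if_pos ⟨hk.1, hk.2⟩]

theorem not_nev_of_const {g : Fn G2} {c : ℤ} (hc : c ≠ 0) (h : ∀ᶠ k in atTop, g k = c) :
    g ∉ Nev := by
  intro hg
  obtain ⟨K, hK⟩ := eventually_atTop.1 h
  obtain ⟨a, ha, ha'⟩ := ((mem_Nev.1 hg).and (eventually_ge_atTop K.2)).exists
  obtain ⟨n, hn, hn'⟩ := (ha.and (eventually_ge_atTop K.1)).exists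
  exact hc ((hK (n, a) ⟨hn', ha'⟩).symm.trans hn)

end PartHPos

section PartHRoot

section aux
variable {R : Type} [CommRing R] [Algebra ℤ R]

theorem hroot_ev {Q : MvPolynomial (Fin 2) ℤ} {d : ℕ} (hQ : Q.IsHomogeneous d) (a b : R) :
    aeval ![a, b] Q = ∑ kl ∈ Finset.HasAntidiagonal.antidiagonal d,
      (((aeval ![Polynomial.X, 1] Q : Polynomial ℤ).coeff kl.1 : ℤ) : R) * (a ^ kl.1 * b ^ kl.2) := by
  conv_lhs => rw [← Polynomial.homogenize_eq_of_isHomogeneous hQ rfl]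
  rw [Polynomial.homogenize, map_sum]
  refine Finset.sum_congr rfl fun kl _ => ?_
  rw [aeval_monomial, Finsupp.prod_fintype _ _ (by simp), Fin.prod_univ_two]
  simp

theorem hroot_hom (I : Ideal R) {a b : R} (ha : a ∈ I) (hb : b ∈ I)
    {Q : MvPolynomial (Fin 2) ℤ} {d : ℕ} (hQ : Q.IsHomogeneous d) : aeval ![a, b] Q ∈ I ^ d := by
  rw [hroot_ev hQ]
  refine Ideal.sum_mem _ fun kl hkl => Ideal.mul_mem_left _ _ ?_
  rw [← Finset.HasAntidiagonal.mem_antidiagonal.1 hkl, pow_add]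
  exact Ideal.mul_mem_mul (Ideal.pow_mem_pow ha _) (Ideal.pow_mem_pow hb _)

theorem hroot_pow (I : Ideal R) {b b' : R} (hb : b ∈ I) (hb' : b' ∈ I) (h : b - b' ∈ I ^ 2)
    (l : ℕ) : b ^ l - b' ^ l ∈ I ^ (l + 1) := by
  induction l with
  | zero => simp
  | succ l ih =>
    have e : b ^ (l + 1) - b' ^ (l + 1) = (b ^ l - b' ^ l) * b + b' ^ l * (b - b') := by ring
    rw [e]
    refine Ideal.add_mem _ ?_ ?_
    · rw [pow_succ]
      exact Ideal.mul_mem_mul ih hb
    · rw [show l + 1 + 1 = l + 2 from rfl, pow_add]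
      exact Ideal.mul_mem_mul (Ideal.pow_mem_pow hb' _) h

theorem hroot_diff (I : Ideal R) {a b b' : R} (ha : a ∈ I) (hb : b ∈ I) (hb' : b' ∈ I)
    (h : b - b' ∈ I ^ 2) {Q : MvPolynomial (Fin 2) ℤ} {d : ℕ} (hQ : Q.IsHomogeneous d) :
    aeval ![a, b] Q - aeval ![a, b'] Q ∈ I ^ (d + 1) := by
  rw [hroot_ev hQ, hroot_ev hQ a b', ← Finset.sum_sub_distrib]
  refine Ideal.sum_mem _ fun kl hkl => ?_
  rw [← mul_sub, ← mul_sub, ← Finset.HasAntidiagonal.mem_antidiagonal.1 hkl, add_assoc, pow_add]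
  exact Ideal.mul_mem_left _ _
    (Ideal.mul_mem_mul (Ideal.pow_mem_pow ha _) (hroot_pow I hb hb' h _))

theorem hroot_high (I : Ideal R) {a b : R} (ha : a ∈ I) (hb : b ∈ I)
    {Q : MvPolynomial (Fin 2) ℤ} {d : ℕ} (hQ : ∀ d' < d, homogeneousComponent d' Q = 0) :
    aeval ![a, b] Q ∈ I ^ d := by
  rw [← sum_homogeneousComponent Q, map_sum]
  refine Ideal.sum_mem _ fun d' _ => ?_
  by_cases h : d' < d
  · rw [hQ d' h, map_zero]
    exact Ideal.zero_mem _
  · exact Ideal.pow_le_pow_right (not_lt.1 h)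
      (hroot_hom I ha hb (homogeneousComponent_isHomogeneous d' Q))

theorem hroot_lead (I : Ideal R) {a b b' : R} (ha : a ∈ I) (hb : b ∈ I) (hb' : b' ∈ I)
    (h : b - b' ∈ I ^ 2) {Q : MvPolynomial (Fin 2) ℤ} {d : ℕ}
    (hQ : ∀ d' < d, homogeneousComponent d' Q = 0) :
    aeval ![a, b] Q - aeval ![a, b'] (homogeneousComponent d Q) ∈ I ^ (d + 1) := by
  have h1 : aeval ![a, b] (Q - homogeneousComponent d Q) ∈ I ^ (d + 1) := by
    refine hroot_high I ha hb fun d' hd' => ?_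
    rw [map_sub, homogeneousComponent_of_mem (homogeneousComponent_mem d Q)]
    by_cases e : d' = d
    · rw [if_pos e, e, sub_self]
    · rw [if_neg e, hQ d' (by omega), sub_self]
  have h2 := hroot_diff I ha hb hb' h (homogeneousComponent_isHomogeneous d Q)
  have := Ideal.add_mem _ h1 h2
  rwa [map_sub, sub_add_sub_cancel] at this

theorem hroot_fil (A : Ideal R) (a b : R) (N : ℕ) (hA : ∀ i j, N < i + j → a ^ i * b ^ j ∈ A)
    (n : ℕ) : ∀ i j, N < i + j + n → ∀ x ∈ Ideal.span {a, b} ^ n, a ^ i * b ^ j * x ∈ A := by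
  induction n with
  | zero => exact fun i j h x _ => Ideal.mul_mem_right _ _ (hA i j h)
  | succ n ih =>
    intro i j h x hx
    rw [pow_succ] at hx
    refine Submodule.mul_induction_on hx (fun y hy z hz => ?_) fun y z hy hz => ?_
    · obtain ⟨α, β, rfl⟩ := Ideal.mem_span_pair.1 hz
      have e : a ^ i * b ^ j * (y * (α * a + β * b)) =
          α * (a ^ (i + 1) * b ^ j * y) + β * (a ^ i * b ^ (j + 1) * y) := by ring
      rw [e]
      exact Ideal.add_mem _ (Ideal.mul_mem_left _ _ (ih _ _ (by omega) y hy))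
        (Ideal.mul_mem_left _ _ (ih _ _ (by omega) y hy))
    · rw [mul_add]
      exact Ideal.add_mem _ hy hz

theorem hroot_sq (I : Ideal R) {a b : R} (ha : a ∈ I) (hb : b ∈ I) (γ : ℕ) :
    (1 - (1 - a) ^ γ * (1 - b)) - ((γ : R) * a + b) ∈ I ^ 2 := by
  induction γ with
  | zero => simp
  | succ γ ih =>
    have e : (1 - (1 - a) ^ (γ + 1) * (1 - b)) - (((γ + 1 : ℕ) : R) * a + b) =
        (1 - a) * ((1 - (1 - a) ^ γ * (1 - b)) - ((γ : R) * a + b)) - a * ((γ : R) * a + b) := by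
      push_cast
      ring
    rw [e]
    refine Ideal.sub_mem _ (Ideal.mul_mem_left _ _ ih) ?_
    rw [pow_two]
    exact Ideal.mul_mem_mul ha (Ideal.add_mem _ (Ideal.mul_mem_left _ _ ha) hb)

theorem hroot_coef (A : Ideal R) (a b : R) {e ν k d : ℕ} (hk : k + d ≤ e)
    (tot : ∀ i j, e + ν < i + j → a ^ i * b ^ j ∈ A) (lam : b ^ (ν + 1) ∈ A)
    (ne : ∀ ω : ℤ, (ω : R) * (a ^ e * b ^ ν) ∈ A → ω = 0) (ω : ℕ → ℤ) {x : R}
    (hx : x - ∑ kl ∈ Finset.HasAntidiagonal.antidiagonal d, (ω kl.1 : R) * (b ^ kl.1 * a ^ kl.2) ∈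
      Ideal.span {a, b} ^ (d + 1)) (hA : a ^ k * x ∈ A) (j : ℕ) : j ≤ ν → j ≤ d → ω j = 0 := by
  induction j using Nat.strong_induction_on with
  | _ j ih =>
    intro hj hjd
    obtain ⟨m, rfl⟩ := Nat.exists_eq_add_of_le hk
    obtain ⟨n, rfl⟩ := Nat.exists_eq_add_of_le hj
    obtain ⟨l, rfl⟩ := Nat.exists_eq_add_of_le hjd
    have h1 := hroot_fil A a b _ tot _ (k + m + j) n (by omega) _ hx
    have h2 : a ^ (k + m + j) * b ^ n * x ∈ A := by
      have e : a ^ (k + m + j) * b ^ n * x = a ^ (m + j) * b ^ n * (a ^ k * x) := by ring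
      rw [e]
      exact Ideal.mul_mem_left _ _ hA
    have h3 := Ideal.sub_mem _ h2 h1
    rw [← mul_sub, sub_sub_cancel, ← Finset.add_sum_erase _ _
      (Finset.HasAntidiagonal.mem_antidiagonal.2 (rfl : ((j, l) : ℕ × ℕ).1 + (j, l).2 = j + l)), mul_add] at h3
    have h4 : a ^ (k + m + j) * b ^ n * ∑ kl ∈ (Finset.HasAntidiagonal.antidiagonal (j + l)).erase (j, l),
        (ω kl.1 : R) * (b ^ kl.1 * a ^ kl.2) ∈ A := by
      rw [Finset.mul_sum]
      refine Ideal.sum_mem _ fun kl hkl => ?_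
      obtain ⟨hne, hkl⟩ := Finset.mem_erase.1 hkl
      rw [Finset.HasAntidiagonal.mem_antidiagonal] at hkl
      rcases lt_trichotomy kl.1 j with h | h | h
      · rw [ih _ h (by omega) (by omega)]
        simp
      · exact absurd (Prod.ext h (by dsimp only; omega)) hne
      · obtain ⟨r, hr⟩ := Nat.exists_eq_add_of_lt h
        have e : a ^ (k + m + j) * b ^ n * ((ω kl.1 : R) * (b ^ kl.1 * a ^ kl.2)) =
            (a ^ (k + m + j) * (ω kl.1 : R) * b ^ r * a ^ kl.2) * b ^ (j + n + 1) := by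
          conv_lhs => rw [show b ^ kl.1 = b ^ (j + r + 1) from congrArg _ hr]
          ring
        rw [e]
        exact Ideal.mul_mem_left _ _ lam
    have h5 := Ideal.sub_mem _ h3 h4
    rw [add_sub_cancel_right] at h5
    refine ne _ ?_
    convert h5 using 1
    ring

theorem hroot_comp (γ : ℕ) (Q : MvPolynomial (Fin 2) ℤ) (a b : R) :
    aeval ![b, a] (aeval (![X 1, C (γ : ℤ) * X 1 + X 0] : Fin 2 → MvPolynomial (Fin 2) ℤ) Q) =
      aeval ![a, (γ : R) * a + b] Q := by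
  rw [← AlgHom.comp_apply, comp_aeval]
  congr 2
  ext i
  fin_cases i <;> simp

end aux

theorem hroot_op (k c γ : ℕ) (q : ℕ → Polynomial ℤ) :
    op k c γ q = (1 - tt) ^ k *
      aeval ![1 - tt, 1 - (1 - (1 - tt)) ^ γ * (1 - (1 - ss))] (Qp c q) := by
  rw [op, Qp, map_sum]
  congr 1
  refine Finset.sum_congr rfl fun j _ => ?_
  rw [map_mul, map_mul, ← Polynomial.aeval_algHom_apply]
  simp [at1]

theorem root_dvd {k c γ ν d : ℕ} {q : ℕ → Polynomial ℤ}
    (hd : ∀ d' < d, homogeneousComponent d' (Qp c q) = 0) (hdc : d ≤ c) (h : Root k c γ ν q) :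
    (Polynomial.X - Polynomial.C (γ : ℤ)) ^ (ν + 1) ∣ low d (Qp c q) := by
  obtain ⟨H, e, hN, hk, hop⟩ := h
  set A : Ideal (RG G2) := Nev.comap (LinearMap.toSpanSingleton (RG G2) (Fn G2) H) with hA
  have hm : ∀ r : RG G2, r ∈ A ↔ r • H ∈ Nev := fun r => Iff.rfl
  set T : MvPolynomial (Fin 2) ℤ := aeval (![X 1, C (γ : ℤ) * X 1 + X 0] :
    Fin 2 → MvPolynomial (Fin 2) ℤ) (homogeneousComponent d (Qp c q)) with hT
  have hTh : T.IsHomogeneous d := by
    have := (homogeneousComponent_isHomogeneous d (Qp c q)).aeval (n := 1)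
      (![X 1, C (γ : ℤ) * X 1 + X 0] : Fin 2 → MvPolynomial (Fin 2) ℤ) fun i => by
        fin_cases i
        · exact isHomogeneous_X _ _
        · exact ((isHomogeneous_X _ _).C_mul _).add (isHomogeneous_X _ _)
    rwa [one_mul] at this
  have ha : (1 - tt) ∈ Ideal.span {1 - tt, 1 - ss} := Ideal.subset_span (by simp)
  have hb : (1 - ss) ∈ Ideal.span {1 - tt, 1 - ss} := Ideal.subset_span (by simp)
  have hu : (γ : RG G2) * (1 - tt) + (1 - ss) ∈ Ideal.span {1 - tt, 1 - ss} :=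
    Ideal.add_mem _ (Ideal.mul_mem_left _ _ ha) hb
  have hsq := hroot_sq _ ha hb γ
  have hu' : 1 - (1 - (1 - tt)) ^ γ * (1 - (1 - ss)) ∈ Ideal.span {1 - tt, 1 - ss} := by
    have := Ideal.add_mem _ (Ideal.pow_le_self two_ne_zero hsq) hu
    rwa [sub_add_cancel] at this
  have hx := hroot_lead _ ha hu' hu hsq hd
  rw [← hroot_comp, ← hT, hroot_ev hTh] at hx
  have hω := hroot_coef A (1 - tt) (1 - ss) (e := e) (ν := ν) (k := k) (d := d) (by omega)
    (fun i j hij => (hm _).2 (hN.tot i j hij)) ((hm _).2 hN.lam)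
    (fun ω hω => by
      by_contra h0
      refine hN.ne ω h0 ?_
      rw [hm, mul_smul, intCast_smul'] at hω
      exact hω) _ hx (by rw [← hroot_op]; exact (hm _).2 hop)
  have hc : (low d (Qp c q)).comp (Polynomial.X + Polynomial.C (γ : ℤ)) =
      aeval ![Polynomial.X, 1] T := by
    rw [hT, hroot_comp, low, Polynomial.comp_eq_aeval, ← AlgHom.comp_apply, comp_aeval]
    congr 2
    ext1 i
    fin_cases i <;> simp [add_comm]
  rw [Polynomial.X_sub_C_pow_dvd_iff, hc, hroot_ev hTh]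
  refine Finset.dvd_sum fun kl hkl => ?_
  rw [Finset.HasAntidiagonal.mem_antidiagonal] at hkl
  by_cases hj : kl.1 ≤ ν
  · rw [hω _ hj (by omega)]
    simp
  · exact Dvd.dvd.mul_left (Dvd.dvd.mul_right (pow_dvd_pow _ (by omega)) _) _

end PartHRoot

section PartHNum

theorem hnum_add (d : ℕ) (Q Q' : MvPolynomial (Fin 2) ℤ) :
    low d (Q + Q') = low d Q + low d Q' := by
  simp [low]

theorem hnum_mono (d : ℕ) (m : Fin 2 →₀ ℕ) (a : ℤ) :
    low d (monomial m a) = if m 0 + m 1 = d then Polynomial.monomial (m 1) a else 0 := by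
  have hm : (monomial m a : MvPolynomial (Fin 2) ℤ).IsHomogeneous (m 0 + m 1) :=
    isHomogeneous_monomial _ (by simp [Finsupp.degree_eq_sum, Fin.sum_univ_two])
  unfold low
  rw [homogeneousComponent_of_mem hm]
  by_cases h : m 0 + m 1 = d
  · rw [if_pos h.symm, if_pos h, aeval_monomial, Finsupp.prod_fintype _ _ (by simp)]
    simp [Fin.prod_univ_two, ← Polynomial.C_mul_X_pow_eq_monomial]
  · rw [if_neg (Ne.symm h), if_neg h, map_zero]

theorem hnum_coeff (d : ℕ) (Q : MvPolynomial (Fin 2) ℤ) (m : Fin 2 →₀ ℕ) (hm : m 0 + m 1 = d) :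
    (low d Q).coeff (m 1) = Q.coeff m := by
  classical
  induction Q using MvPolynomial.induction_on' with
  | add p q hp hq => rw [hnum_add, Polynomial.coeff_add, hp, hq, coeff_add]
  | monomial u a =>
    rw [hnum_mono, coeff_monomial]
    by_cases h : u = m
    · subst h
      simp [hm]
    · rw [if_neg h]
      split_ifs with h1
      · rw [Polynomial.coeff_monomial, if_neg]
        intro h2
        apply h
        ext i
        fin_cases i
        · show u 0 = m 0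
          omega
        · exact h2
      · simp

theorem hnum_deg (d : ℕ) (Q : MvPolynomial (Fin 2) ℤ) : (low d Q).natDegree ≤ d := by
  induction Q using MvPolynomial.induction_on' with
  | add p q hp hq =>
    rw [hnum_add]
    exact Polynomial.natDegree_add_le_of_degree_le hp hq
  | monomial u a =>
    rw [hnum_mono]
    split_ifs with h1
    · exact (Polynomial.natDegree_monomial_le a).trans (by omega)
    · simp

theorem hnum_inj {d : ℕ} {Q : MvPolynomial (Fin 2) ℤ} (h : low d Q = 0) :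
    homogeneousComponent d Q = 0 := by
  ext m
  rw [coeff_homogeneousComponent, coeff_zero]
  split_ifs with h1
  · rw [← hnum_coeff d Q m (by simpa [Finsupp.degree_eq_sum, Fin.sum_univ_two] using h1), h,
      Polynomial.coeff_zero]
  · rfl

theorem hnum_prod (A B : Polynomial ℤ) (a b : ℕ) :
    (low (a + b) (Polynomial.aeval (X 0) A * Polynomial.aeval (X 1) B)).coeff b =
      A.coeff a * B.coeff b := by
  induction A using Polynomial.induction_on' with
  | add p q hp hq =>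
    rw [map_add, add_mul, hnum_add, Polynomial.coeff_add, hp, hq, Polynomial.coeff_add, add_mul]
  | monomial i x =>
    induction B using Polynomial.induction_on' with
    | add p q hp hq =>
      rw [map_add, mul_add, hnum_add, Polynomial.coeff_add, hp, hq, Polynomial.coeff_add, mul_add]
    | monomial j y =>
      have : (Polynomial.aeval (X 0) (Polynomial.monomial i x) *
          Polynomial.aeval (X 1) (Polynomial.monomial j y) : MvPolynomial (Fin 2) ℤ) =
          monomial (Finsupp.single 0 i + Finsupp.single 1 j) (x * y) := by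
        rw [Polynomial.aeval_monomial, Polynomial.aeval_monomial, algebraMap_eq, C_mul_X_pow_eq_monomial,
          C_mul_X_pow_eq_monomial, monomial_mul]
      rw [this, hnum_mono]
      simp only [Finsupp.add_apply, Finsupp.single_eq_same, Polynomial.coeff_monomial]
      rw [Finsupp.single_eq_of_ne (by decide), Finsupp.single_eq_of_ne (by decide), add_zero,
        zero_add]
      by_cases hj : j = b
      · subst hj
        by_cases hi : i = a
        · subst hi
          simp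
        · rw [if_neg (by omega), if_neg hi]
          simp
      · rw [if_neg hj, mul_zero]
        split_ifs
        · rw [Polynomial.coeff_monomial, if_neg hj]
        · simp

theorem hnum_sum (d : ℕ) (s : Finset ℕ) (f : ℕ → MvPolynomial (Fin 2) ℤ) :
    low d (∑ j ∈ s, f j) = ∑ j ∈ s, low d (f j) := by
  simp [low]

theorem hnum_pow (m b : ℕ) : ((1 - Polynomial.X : Polynomial ℤ) ^ m).coeff b =
    (-1) ^ m * ((-1) ^ (m - b) * (m.choose b : ℤ)) := by
  have : (1 - Polynomial.X : Polynomial ℤ) ^ m =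
      Polynomial.C ((-1) ^ m) * (Polynomial.X + Polynomial.C (-1)) ^ m := by
    rw [map_pow, ← mul_pow]
    congr 1
    simp
    ring
  rw [this, Polynomial.coeff_C_mul, Polynomial.coeff_X_add_C_pow]

theorem hnum_qp (c : ℕ) (q : ℕ → Polynomial ℤ) (a b : ℕ) :
    (low (a + b) (Qp c q)).coeff b = ∑ j ∈ Finset.range (c + 1),
      (-1) ^ j * ((q j).comp (1 - Polynomial.X)).coeff a *
        ((-1) ^ (c - j) * ((-1) ^ (c - j - b) * ((c - j).choose b : ℤ))) := by
  rw [Qp, hnum_sum, Polynomial.finsetSum_coeff]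
  refine Finset.sum_congr rfl fun j _ => ?_
  rw [← hnum_pow, ← Polynomial.coeff_C_mul (p := (q j).comp _), ← hnum_prod]
  simp [Polynomial.aeval_comp]

theorem hnum_c0 (p : Polynomial ℤ) : (p.comp (1 - Polynomial.X)).coeff 0 = p.eval 1 := by
  simp [Polynomial.coeff_zero_eq_eval_zero, Polynomial.eval_comp]

theorem hnum_c1 (p : Polynomial ℤ) :
    (p.comp (1 - Polynomial.X)).coeff 1 = -p.derivative.eval 1 := by
  have := Polynomial.coeff_derivative (p.comp (1 - Polynomial.X)) 0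
  rw [Polynomial.coeff_zero_eq_eval_zero, Polynomial.derivative_comp] at this
  simpa [Polynomial.eval_comp] using this.symm

theorem hnum_top (c : ℕ) (q : ℕ → Polynomial ℤ) :
    (low c (Qp c q)).coeff c = (-1) ^ c * (q 0).eval 1 := by
  have := hnum_qp c q 0 c
  rw [zero_add] at this
  rw [this, Finset.sum_range_succ', Finset.sum_eq_zero, hnum_c0]
  · simp [mul_comm]
  · intro j hj
    rw [Nat.choose_eq_zero_of_lt (by have := Finset.mem_range.1 hj; omega)]
    simp

theorem hnum_next (c : ℕ) (q : ℕ → Polynomial ℤ) :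
    (low (c + 1) (Qp (c + 1) q)).coeff c =
      (-1) ^ c * ((q 1).derivative.eval 1 - (c + 1 : ℕ) * (q 0).derivative.eval 1) := by
  have := hnum_qp (c + 1) q 1 c
  rw [add_comm 1 c] at this
  rw [this, Finset.sum_range_succ', Finset.sum_range_succ', Finset.sum_eq_zero, hnum_c1, hnum_c1]
  · simp
    ring
  · intro j hj
    rw [Nat.choose_eq_zero_of_lt (by have := Finset.mem_range.1 hj; omega)]
    simp

theorem hnum_dvd {c : ℕ} (γ : Fin c → ℕ) {p : Polynomial ℤ}
    (h : ∀ β ν : ℕ, Fintype.card {i // γ i = β} = ν + 1 →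
      (Polynomial.X - Polynomial.C (β : ℤ)) ^ (ν + 1) ∣ p) :
    ∏ i, (Polynomial.X - Polynomial.C (γ i : ℤ)) ∣ p := by
  classical
  by_cases hp : p = 0
  · rw [hp]
    exact dvd_zero _
  have := (Multiset.prod_X_sub_C_dvd_iff_le_roots hp
    (Finset.univ.val.map fun i => (γ i : ℤ))).2 ?_
  · rwa [Multiset.map_map] at this
  rw [Multiset.le_iff_count]
  intro a
  rw [Polynomial.count_roots, Polynomial.le_rootMultiplicity_iff hp, Multiset.count_map]
  by_cases ha : ∃ i, (γ i : ℤ) = a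
  · obtain ⟨i, rfl⟩ := ha
    have h1 : (Multiset.filter (fun j => (γ i : ℤ) = γ j) Finset.univ.val).card =
        Fintype.card {j // γ j = γ i} := by
      rw [Fintype.card_subtype, Finset.card, Finset.filter_val]
      congr 1
      exact Multiset.filter_congr fun j _ => by omega
    have h2 : 0 < Fintype.card {j // γ j = γ i} := Fintype.card_pos_iff.2 ⟨⟨i, rfl⟩⟩
    obtain ⟨ν, hν⟩ := Nat.exists_eq_succ_of_ne_zero h2.ne'
    rw [h1, hν]
    exact h _ _ hν
  · rw [Multiset.filter_eq_nil.2 fun j _ hj => ha ⟨j, hj.symm⟩]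
    simp

theorem num_formula {k c : ℕ} {q : ℕ → Polynomial ℤ} (hc : 0 < c) (h0 : (q 0).eval 1 ≠ 0)
    (γ : Fin c → ℕ) (h : ∀ β ν, Fintype.card {i // γ i = β} = ν + 1 → Root k c β ν q) :
    (q 1).derivative.eval 1 - c * (q 0).derivative.eval 1 = (∑ i, γ i : ℕ) * (q 0).eval 1 := by
  have hW : (∏ i, (Polynomial.X - Polynomial.C (γ i : ℤ))).Monic :=
    Polynomial.monic_prod_X_sub_C _ _
  have hN : (∏ i, (Polynomial.X - Polynomial.C (γ i : ℤ))).natDegree = c := by
    rw [Polynomial.natDegree_finsetProd_X_sub_C_eq_card]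
    simp
  have key : ∀ d, (∀ d' < d, homogeneousComponent d' (Qp c q) = 0) → d ≤ c →
      ∏ i, (Polynomial.X - Polynomial.C (γ i : ℤ)) ∣ low d (Qp c q) := fun d hd hdc =>
    hnum_dvd γ fun β ν hν => root_dvd hd hdc (h β ν hν)
  have hz : ∀ d, d < c → homogeneousComponent d (Qp c q) = 0 := by
    intro d
    induction d using Nat.strong_induction_on with
    | _ d ih =>
      intro hd
      refine hnum_inj (Polynomial.eq_zero_of_dvd_of_natDegree_lt
        (key d (fun d' h' => ih d' h' (h'.trans hd)) hd.le) ?_)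
      rw [hN]
      exact (hnum_deg _ _).trans_lt hd
  have he := Polynomial.eq_mul_leadingCoeff_of_monic_of_dvd_of_natDegree_le hW (key c hz le_rfl)
    (by rw [hN]; exact hnum_deg _ _)
  generalize (low c (Qp c q)).leadingCoeff = L at he
  have h1 := hnum_top c q
  have h2 := Polynomial.prod_X_sub_C_coeff_card_pred Finset.univ (fun i => (γ i : ℤ))
    (by simpa using hc)
  have h3 := hW.coeff_natDegree
  rw [hN] at h3
  rw [he, Polynomial.coeff_mul_C, h3, one_mul] at h1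
  obtain ⟨c, rfl⟩ := Nat.exists_eq_succ_of_ne_zero hc.ne'
  have h4 := hnum_next c q
  rw [Finset.card_univ, Fintype.card_fin, Nat.succ_sub_one] at h2
  rw [he, Polynomial.coeff_mul_C, h2, h1] at h4
  have h5 : ((-1 : ℤ) ^ c) ≠ 0 := pow_ne_zero _ (by decide)
  apply mul_left_cancel₀ h5
  rw [← h4, pow_succ (-1 : ℤ) c]
  push_cast
  ring

end PartHNum

section PartHExt

theorem hext_rank {V : Type} [AddCommGroup V] [Module ℂ V] [Module.Finite ℂ V]
    (L : Submodule ℂ V) (j : ℕ) :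
    finrank ℂ ((L.map (ExteriorAlgebra.ι ℂ)) ^ j : Submodule ℂ (ExteriorAlgebra ℂ V)) =
      (finrank ℂ L).choose j := by
  have h1 := ExteriorAlgebra.ι_range_map_map (R := ℂ) L.subtype
  rw [Submodule.range_subtype] at h1
  rw [← h1, ← Submodule.map_pow, ← exteriorPower.finrank_eq ℂ j (M := L)]
  exact (Submodule.equivMapOfInjective _
    (ExteriorAlgebra.map_injective_field (Submodule.ker_subtype L)) _).finrank_eq.symm

theorem hext_ct {V : Type} [AddCommGroup V] [Module ℂ V] (L : Submodule ℂ V)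
    (d : Module.Dual ℂ V) (j : ℕ) :
    ∀ ω ∈ ((L.map (ExteriorAlgebra.ι ℂ)) ^ (j + 1) : Submodule ℂ (ExteriorAlgebra ℂ V)),
      CliffordAlgebra.contractLeft d ω ∈
        ((L.map (ExteriorAlgebra.ι ℂ)) ^ j : Submodule ℂ (ExteriorAlgebra ℂ V)) := by
  induction j with
  | zero =>
    intro ω h
    rw [zero_add, pow_one] at h
    obtain ⟨v, -, rfl⟩ := h
    rw [CliffordAlgebra.contractLeft_ι, pow_zero]
    exact Submodule.algebraMap_mem _
  | succ j ih =>
    intro ω h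
    rw [pow_succ'] at h
    refine Submodule.mul_induction_on h ?_ fun x y hx hy => by
      rw [map_add]; exact add_mem hx hy
    rintro _ ⟨v, hv, rfl⟩ x hx
    rw [CliffordAlgebra.contractLeft_ι_mul]
    refine sub_mem (Submodule.smul_mem _ _ hx) ?_
    rw [pow_succ']
    exact Submodule.mul_mem_mul ⟨v, hv, rfl⟩ (ih x hx)

theorem exists_extP (σ : Type) [Fintype σ] [DecidableEq σ] :
    ∃ (E : Type) (_ : Fintype E), Nonempty (ExtP σ E) := by
  classical
  let _ : LinearOrder σ := linearOrderOfSTO WellOrderingRel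
  let κ := (Pi.basisFun ℂ σ).ExteriorAlgebra.equivFun
  let M : (ExteriorAlgebra ℂ (σ → ℂ) →ₗ[ℂ] ExteriorAlgebra ℂ (σ → ℂ)) →
      Matrix (Finset σ) (Finset σ) ℂ :=
    fun f => LinearMap.toMatrix' (κ.toLinearMap ∘ₗ f ∘ₗ κ.symm.toLinearMap)
  have hM : ∀ f x, (M f).mulVec (κ x) = κ (f x) := fun f x => by
    simp only [M, LinearMap.toMatrix'_mulVec]; simp
  let wd : σ → Matrix (Finset σ) (Finset σ) ℂ :=
    fun s => M (LinearMap.mulLeft ℂ (ExteriorAlgebra.ι ℂ (Pi.single s (1 : ℂ) : σ → ℂ)))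
  let ct : σ → Matrix (Finset σ) (Finset σ) ℂ :=
    fun s => M (CliffordAlgebra.contractLeft (LinearMap.proj s : Module.Dual ℂ (σ → ℂ)))
  have hW : ∀ (v : σ → ℂ) x, (∑ s, v s • wd s).mulVec (κ x) = κ (ExteriorAlgebra.ι ℂ v * x) := by
    intro v x
    rw [Matrix.sum_mulVec]
    simp only [Matrix.smul_mulVec, wd, hM, LinearMap.mulLeft_apply]
    conv_rhs => rw [pi_eq_sum_univ' v]
    simp only [map_sum, map_smul, Finset.sum_mul, smul_mul_assoc]
  refine ⟨Finset σ, inferInstance, ⟨{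
    Lam := fun j L => ((L.map (ExteriorAlgebra.ι ℂ)) ^ j).map κ.toLinearMap
    wd := wd, ct := ct, e0 := κ 1
    e0_ne := by simp
    lam0 := fun L => by
      rw [pow_zero, Submodule.one_eq_span, Submodule.map_span]; simp
    gen := fun j L => ?_
    inj := fun v h => by
      rw [hW] at h; simpa using h
    rank := fun j L => by
      rw [LinearEquiv.finrank_map_eq]; exact hext_rank L j
    wd_wd := fun v => ?_
    ct_mem := ?_
    ct_zero := fun s => by
      simp only [ct, hM]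
      rw [CliffordAlgebra.contractLeft_one, map_zero]
    ct_wd := fun s s' ω => ?_ }⟩⟩
  · rw [pow_succ', Submodule.mul_def, Submodule.map_span]
    congr 1
    ext x
    constructor
    · rintro ⟨_, ⟨_, ⟨v, hv, rfl⟩, y, hy, rfl⟩, rfl⟩
      exact ⟨v, hv, κ y, ⟨y, hy, rfl⟩, hW v y⟩
    · rintro ⟨v, hv, _, ⟨y, hy, rfl⟩, rfl⟩
      exact ⟨_, ⟨_, ⟨v, hv, rfl⟩, y, hy, rfl⟩, (hW v y).symm⟩
  · refine Matrix.toLin'.injective (LinearMap.ext fun ω => ?_)
    obtain ⟨x, rfl⟩ := κ.surjective ω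
    rw [Matrix.toLin'_apply, ← Matrix.mulVec_mulVec, hW, hW, ← mul_assoc,
      ExteriorAlgebra.ι_sq_zero]
    simp
  · rintro j L s _ ⟨x, hx, rfl⟩
    exact ⟨_, hext_ct L _ j x hx, (hM _ x).symm⟩
  · obtain ⟨x, rfl⟩ := κ.surjective ω
    simp only [ct, wd, hM, LinearMap.mulLeft_apply]
    rw [CliffordAlgebra.contractLeft_ι_mul, ← map_add, sub_add_cancel]
    by_cases h : s = s'
    · simp [h]
    · simp [h]

end PartHExt

end Pool.Agent.MP_429080_ag.H26
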