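import Pool.Agent.MP_429080_ag.CI.Grade
import Pool.Agent.MP_429080_ag.CI.Series

namespace Pool.Agent.MP_429080_ag.H26

open MvPolynomial Filter Module Pool.Agent.EGH Pool.Agent.MP_d171e3_nt

set_option linter.unusedSectionVars false

section PartHNv

variable {ρ τ κ Λ : Type} [Fintype ρ] [Fintype τ] [Fintype κ] [Fintype Λ] {w : ρ → G2}

theorem hI_low (hw : Posw w) (c : κ → ρ) {I : Ideal (P ρ)}
    (h : AlgebraicIndependent ℂ fun i => Ideal.Quotient.mk I (X (c i))) (k : G2) :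
    hI (w ∘ c) (⊥ : Ideal (P κ)) k ≤ hI w I k := by
  have := hw.fin (F := ℂ) k
  have := (posw_comp hw c).fin (F := ℂ) k
  let f := (I.restrictScalars ℂ).mkQ
  have h1 := finrank_map_add f (weightedHomogeneousSubmodule ℂ w k)
  have h2 := finrank_map_add (f ∘ₗ (rename c : P κ →ₐ[ℂ] P ρ).toLinearMap)
    (weightedHomogeneousSubmodule ℂ (w ∘ c) k)
  have e1 : weightedHomogeneousSubmodule ℂ w k ⊓ LinearMap.ker f = pcI w I k := by
    rw [Submodule.ker_mkQ, pcI]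
  have e2 : weightedHomogeneousSubmodule ℂ (w ∘ c) k ⊓
      LinearMap.ker (f ∘ₗ (rename c : P κ →ₐ[ℂ] P ρ).toLinearMap) = ⊥ :=
    eq_bot_iff.2 fun p hp =>
      (indep_iff_comap c).1 h ((Submodule.Quotient.mk_eq_zero (I.restrictScalars ℂ)).1 hp.2)
  have h3 : finrank ℂ ((weightedHomogeneousSubmodule ℂ (w ∘ c) k).map
      (f ∘ₗ (rename c : P κ →ₐ[ℂ] P ρ).toLinearMap)) ≤
      finrank ℂ ((weightedHomogeneousSubmodule ℂ w k).map f) := by
    refine Submodule.finrank_mono ?_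
    rintro _ ⟨p, hp, rfl⟩
    exact ⟨rename c p, isWH_rename c hp, rfl⟩
  rw [e1] at h1
  rw [e2, finrank_bot] at h2
  have h4 : finrank ℂ (weightedHomogeneousSubmodule ℂ (w ∘ c) k) + finrank ℂ (pcI w I k) ≤
      finrank ℂ (weightedHomogeneousSubmodule ℂ w k) :=
    (Nat.add_le_add_right ((Nat.add_zero _).symm.trans h2 ▸ h3) _).trans h1.le
  exact (sub_le_self _ (Int.natCast_nonneg _)).trans (le_sub_iff_add_le.2 (mod_cast h4))

theorem nv {𝔭 : Ideal (P (τ ⊕ Λ))} (hp : 𝔭.IsPrime) (hh : HomI (wt fun _ => 0) 𝔭)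
    (h : AlgebraicIndependent ℂ fun l : Λ => Ideal.Quotient.mk 𝔭 (X (Sum.inr l))) {e ν : ℕ}
    (hν : Fintype.card Λ = ν + 1) (hd : dm 𝔭 = e + ν + 2) : NV (hI (wt fun _ => 0) 𝔭) e ν := by
  have hd1 : ∀ 𝔮 : Ideal (P (τ ⊕ Λ)), 𝔮.IsPrime → 𝔭 ≤ 𝔮 → dm 𝔮 ≤ e + ν + 2 :=
    fun 𝔮 hq hle => hd ▸ dm_anti hp hq hle
  refine ⟨fun i j hij => Zs_le_Nev (nv_tot i j hh fun 𝔮 hq hle => (hd1 𝔮 hq hle).trans (by omega)),
    Zs_le_Nev (hν ▸ nv_lam hh), fun ω hω => ?_⟩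
  obtain ⟨c, hc⟩ := exti hp h (m := e + 1) (by omega)
  have e1 : (wt fun _ => 0 : τ ⊕ Λ → G2) ∘ Sum.map c id = wt fun _ => 0 := by
    funext i
    cases i <;> rfl
  have h0 := hI_low (adm_wt fun _ => 0).posw (Sum.map c id) hc
  rw [e1] at h0
  have hb : HomI (wt fun _ => 0) (⊥ : Ideal (P (Fin (e + 1) ⊕ Λ))) := homI_bot
  obtain ⟨a, ha, h1⟩ := pos2 (g := hI (wt fun _ => 0) 𝔭 -
      hI (wt fun _ => 0) (⊥ : Ideal (P (Fin (e + 1) ⊕ Λ)))) (e := e) (ν := ν)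
    (fun k => sub_nonneg.2 (h0 k))
    (by
      rw [smul_sub, ← hν]
      exact sub_mem (nv_lam hh) (nv_lam hb))
    (by
      rw [smul_sub]
      refine sub_mem (nv_tot _ _ hh fun 𝔮 hq hle => (hd1 𝔮 hq hle).trans (by omega))
        (nv_tot _ _ hb fun 𝔮 hq _ => (dm_le_card hq).trans ?_)
      rw [Fintype.card_sum, Fintype.card_fin, hν]
      omega)
  have h2 := quad_one (g := hI (wt fun _ => 0) (⊥ : Ideal (P (Fin (e + 1) ⊕ Λ)))) (e := e) (ν := ν)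
    (AddMonoidHom.fst ℤ ℤ + AddMonoidHom.snd ℤ ℤ) (by simp) (by simp)
    (hI_bdd (by rintro (v | v) <;> simp [wt]) _) (by
      rw [← hI_bot (ρ := Fin (e + 1) ⊕ Λ) (adm_wt fun _ => 0).posw, Fintype.prod_sum_type]
      simp [wt, tt, ss, hν])
  refine not_nev_of_const (c := ω * (a + 1)) (mul_ne_zero hω (by omega)) ?_
  filter_upwards [h1, h2] with k h3 h4
  rw [smul_sub, Fn.sub_apply, h4] at h3
  rw [Fn.zsmul_apply, ← h3, sub_add_cancel]

theorem q01 {I : Ideal (P τ)} (hp : I.IsPrime) (hd : 0 < dm I) {q : Polynomial ℤ}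
    (h : Num (dm I) (hI (w0 τ) I) q) : q.eval 1 ≠ 0 := by
  obtain ⟨c, -, hc⟩ := exists_indep I
  have h0 := hI_low (adm_w0 τ).posw c hc
  have h1 : Num (dm I) (hI (w0 (Fin (dm I))) (⊥ : Ideal (P (Fin (dm I))))) 1 := by
    rw [Num, at1, map_one, one_smul, ← hI_bot (ρ := Fin (dm I)) (adm_w0 _).posw]
    simp [w0, tt]
  have h2 := h.sub h1
  have h3 := (sup_hI I).sub (sup_hI (⊥ : Ideal (P (Fin (dm I)))))
  obtain ⟨e, he⟩ := Nat.exists_eq_succ_of_ne_zero hd.ne'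
  have h4 := pos1 (e := e) (q := q - 1) (fun k => sub_nonneg.2 (h0 k)) h3 (by
    rw [← Nat.succ_eq_add_one, ← he]
    exact h2)
  rw [Polynomial.eval_sub, Polynomial.eval_one] at h4
  omega

end PartHNv

section PartHSep

variable {ρ κ₁ κ₂ ι τ : Type} [Fintype ρ] [Fintype κ₁] [Fintype κ₂] [Fintype ι]
  {r₁ : κ₁ → ρ} {r₂ : κ₂ → ρ}

theorem hsep_equiv (hr : Function.Bijective (Sum.elim r₁ r₂)) :
    ∃ E : TensorProduct ℂ (P κ₁) (P κ₂) ≃ₗ[ℂ] P ρ,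
      ∀ a b, E (a ⊗ₜ b) = rename r₁ a * rename r₂ b := by
  let E := (tensorEquivSum ℂ κ₁ κ₂ ℂ).trans (renameEquiv ℂ (Equiv.ofBijective _ hr))
  have h1 : E.toAlgHom.comp Algebra.TensorProduct.includeLeft = rename r₁ :=
    algHom_ext fun i => by simp [E]
  have h2 : E.toAlgHom.comp Algebra.TensorProduct.includeRight = rename r₂ :=
    algHom_ext fun i => by simp [E]
  refine ⟨E.toLinearEquiv, fun a b => ?_⟩
  rw [← h1, ← h2]
  change E _ = E (a ⊗ₜ 1) * E (1 ⊗ₜ b)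
  rw [← map_mul, Algebra.TensorProduct.tmul_mul_tmul, mul_one, one_mul]

theorem sep_induction (hr : Function.Bijective (Sum.elim r₁ r₂)) {p : P ρ → Prop} (h0 : p 0)
    (hadd : ∀ f g, p f → p g → p (f + g)) (h : ∀ a b, p (rename r₁ a * rename r₂ b)) (f : P ρ) :
    p f := by
  obtain ⟨E, hE⟩ := hsep_equiv hr
  obtain ⟨t, rfl⟩ := E.surjective f
  induction t using TensorProduct.induction_on with
  | zero => rw [map_zero]; exact h0
  | tmul a b => rw [hE]; exact h a b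
  | add x y hx hy => rw [map_add]; exact hadd _ _ hx hy

theorem exists_lift (hr : Function.Bijective (Sum.elim r₁ r₂)) (l : P κ₂ →ₗ[ℂ] P κ₂) :
    ∃ L : P ρ →ₗ[ℂ] P ρ,
      ∀ a b, L (rename r₁ a * rename r₂ b) = rename r₁ a * rename r₂ (l b) := by
  obtain ⟨E, hE⟩ := hsep_equiv hr
  refine ⟨E.toLinearMap ∘ₗ l.lTensor _ ∘ₗ E.symm.toLinearMap, fun a b => ?_⟩
  rw [← hE, ← hE]
  simp

theorem hsep_lin {V : Type} [AddCommGroup V] [Module ℂ V] (f : V →ₗ[ℂ] V) (S : Submodule ℂ V) :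
    ∃ l : V →ₗ[ℂ] V, (∀ s ∈ S, l s = 0) ∧ ∀ b, f (l (f b) - b) ∈ S := by
  obtain ⟨h, hh⟩ := ((S.comap f).mapQ S f le_rfl).exists_leftInverse_of_injective
    (by rw [Submodule.ker_mapQ, Submodule.mkQ_map_self])
  obtain ⟨σ, hσ⟩ := (S.comap f).mkQ.exists_rightInverse_of_surjective (S.comap f).range_mkQ
  refine ⟨σ ∘ₗ h ∘ₗ S.mkQ, fun s hs => ?_, fun b => ?_⟩
  · simp [(Submodule.Quotient.mk_eq_zero S).2 hs]
  · refine Submodule.mem_comap.1 ((Submodule.Quotient.eq _).1 ?_)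
    exact (LinearMap.congr_fun hσ _).trans (LinearMap.congr_fun hh (Submodule.Quotient.mk b))

theorem hsep_key (hr : Function.Bijective (Sum.elim r₁ r₂)) (I₁ : Ideal (P κ₁))
    (I₂ : Ideal (P κ₂)) (x : P κ₂) : ∃ L : P ρ →ₗ[ℂ] P ρ,
      (∀ a p, L (rename r₁ a * p) = rename r₁ a * L p) ∧
      (∀ p ∈ jn r₁ r₂ I₁ I₂, L p ∈ I₁.map (rename r₁ : P κ₁ →ₐ[ℂ] P ρ)) ∧
      ∀ p, L (p * rename r₂ x) - p ∈ (I₂.colon {x}).map (rename r₂ : P κ₂ →ₐ[ℂ] P ρ) := by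
  obtain ⟨l, hl0, hl⟩ := hsep_lin (LinearMap.mulRight ℂ x) (I₂.restrictScalars ℂ)
  obtain ⟨L, hL⟩ := exists_lift hr l
  have h1 : ∀ a p, L (rename r₁ a * p) = rename r₁ a * L p := fun a p => by
    refine sep_induction hr (p := fun p => L (rename r₁ a * p) = rename r₁ a * L p) (by simp)
      (fun f g hf hg => by rw [mul_add, map_add, map_add, hf, hg, mul_add]) (fun a' b => ?_) p
    rw [← mul_assoc, ← map_mul, hL, hL, map_mul, mul_assoc]
  refine ⟨L, h1, fun p hp => ?_, fun p => ?_⟩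
  · have key : ∀ p ∈ jn r₁ r₂ I₁ I₂, ∀ c, L (c * p) ∈ I₁.map (rename r₁ : P κ₁ →ₐ[ℂ] P ρ) := by
      intro p hp
      rw [jn, Ideal.map, Ideal.map, ← Ideal.span_union] at hp
      induction hp using Submodule.span_induction with
      | mem y hy =>
        intro c
        rcases hy with ⟨a, ha, rfl⟩ | ⟨b, hb, rfl⟩
        · rw [mul_comm, h1]
          exact Ideal.mul_mem_right _ _ (Ideal.mem_map_of_mem _ ha)
        · refine sep_induction hr (p := fun c => L (c * rename r₂ b) ∈ _) (by simp)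
            (fun f g hf hg => by rw [add_mul, map_add]; exact add_mem hf hg) (fun a b' => ?_) c
          rw [mul_assoc, ← map_mul, hL, hl0 _ (I₂.mul_mem_left _ hb), map_zero, mul_zero]
          exact zero_mem _
      | zero => simp
      | add y z _ _ hy hz => intro c; rw [mul_add, map_add]; exact add_mem (hy c) (hz c)
      | smul a y _ hy => intro c; rw [smul_eq_mul, ← mul_assoc]; exact hy _
    simpa using key p hp 1
  · refine sep_induction hr (p := fun p => L (p * rename r₂ x) - p ∈ _) (by simp)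
      (fun f g hf hg => by rw [add_mul, map_add, add_sub_add_comm]; exact add_mem hf hg)
      (fun a b => ?_) p
    rw [mul_assoc, ← map_mul, hL, ← mul_sub, ← map_sub]
    exact Ideal.mul_mem_left _ _ (Ideal.mem_map_of_mem _ (Submodule.mem_colon_singleton.2 (hl b)))

theorem sep_colon (hr : Function.Bijective (Sum.elim r₁ r₂)) (I₁ : Ideal (P κ₁))
    (I₂ : Ideal (P κ₂)) (x : P κ₂) :
    (jn r₁ r₂ I₁ I₂).colon {rename r₂ x} = jn r₁ r₂ I₁ (I₂.colon {x}) := by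
  obtain ⟨L, -, h2, h3⟩ := hsep_key hr I₁ I₂ x
  refine le_antisymm (fun p hp => ?_) (sup_le (fun p hp => ?_) ?_)
  · have := sub_mem (Ideal.mem_sup_left (h2 _ (Submodule.mem_colon_singleton.1 hp)))
      (Ideal.mem_sup_right (h3 p))
    rwa [smul_eq_mul, sub_sub_cancel] at this
  · exact Submodule.mem_colon_singleton.2 (Ideal.mul_mem_right _ _ (Ideal.mem_sup_left hp))
  · refine Ideal.map_le_iff_le_comap.2 fun b hb => Submodule.mem_colon_singleton.2 ?_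
    rw [smul_eq_mul, ← map_mul]
    exact Ideal.mem_sup_right (Ideal.mem_map_of_mem _ (Submodule.mem_colon_singleton.1 hb))

theorem sep_phi (hr : Function.Bijective (Sum.elim r₁ r₂)) (a : τ → Matrix ι ι (P κ₁))
    (I₁ : Ideal (P κ₁)) {I₂ I₂' : Ideal (P κ₂)} (hle : I₂ ≤ I₂') :
    Phi (fun j => (a j).map (rename r₁)) (jn r₁ r₂ I₁ I₂') ⊤ =
      Phi (fun j => (a j).map (rename r₁)) (jn r₁ r₂ I₁ I₂) ⊤ ⊔ pw ι (jn r₁ r₂ I₁ I₂') := by
  obtain ⟨L, h1, h2, h3⟩ := hsep_key hr I₁ I₂' 1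
  refine le_antisymm (fun q hq => ?_) (sup_le (fun q hq => ?_) (pw_le_Phi _ le_top))
  · refine Submodule.mem_sup.2 ⟨fun i => L (q i), mem_Phi.2 ⟨mem_pw.2 fun _ => trivial, fun j =>
      mem_pw.2 fun i => Ideal.mem_sup_left ?_⟩, fun i => q i - L (q i), mem_pw.2 fun i => ?_,
      funext fun i => add_sub_cancel _ _⟩
    · have := h2 _ (mem_pw.1 ((mem_Phi.1 hq).2 j) i)
      simp only [Matrix.mulVec, dotProduct, Matrix.map_apply, map_sum, h1] at this ⊢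
      exact this
    · have := h3 (q i)
      rw [map_one, mul_one] at this
      refine Ideal.mem_sup_right (Ideal.map_mono (fun b hb => ?_) (sub_mem_comm_iff.1 this))
      simpa using Submodule.mem_colon_singleton.1 hb
  · exact mem_Phi.2 ⟨(mem_Phi.1 hq).1, fun j =>
      pw_mono (sup_le_sup_left (Ideal.map_mono hle) _) ((mem_Phi.1 hq).2 j)⟩

end PartHSep

section PartHTen0

variable {ρ κ₁ κ₂ ι τ : Type} [Fintype ρ] [Fintype κ₁] [Fintype κ₂] [Fintype ι]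
  {r₁ : κ₁ → ρ} {r₂ : κ₂ → ρ} {w : ρ → G2}

theorem hten0_sub {A B : Type} [CommRing B] [Algebra ℂ B] (f g : P A →ₐ[ℂ] B) {J : Ideal B}
    (h : ∀ v, f (X v) - g (X v) ∈ J) (p : P A) : f p - g p ∈ J := by
  have : (Ideal.Quotient.mkₐ ℂ J).comp f = (Ideal.Quotient.mkₐ ℂ J).comp g :=
    MvPolynomial.algHom_ext fun v => Ideal.Quotient.eq.2 (h v)
  exact Ideal.Quotient.eq.1 (AlgHom.congr_fun this p)

theorem hten0_C {I : Ideal (P ρ)} (hne : I ≠ ⊤) {c : ℂ} (h : C c ∈ I) : c = 0 := by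
  by_contra hc
  exact hne (I.eq_top_of_isUnit_mem h ((IsUnit.mk0 c hc).map C))

theorem hten0_kill {B : Type} [CommRing B] [Algebra ℂ B] {I : Ideal (P ρ)} (hX : ∀ v, X v ∈ I)
    (hne : I ≠ ⊤) (f : P ρ →ₐ[ℂ] B) (hf : ∀ v, f (X v) = 0) {p : P ρ} (hp : p ∈ I) :
    f p = 0 := by
  have h1 := hten0_sub (AlgHom.id ℂ _) (aeval fun _ : ρ => (0 : P ρ)) (J := I)
    (fun v => by simpa using hX v) p
  have h2 : f = aeval fun _ : ρ => (0 : B) := MvPolynomial.algHom_ext fun v => by simp [hf]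
  rw [aeval_zero', AlgHom.id_apply, I.sub_mem_iff_right hp] at h1
  rw [h2, aeval_zero', hten0_C hne h1, map_zero]

theorem hI_max (hw : Posw w) {I : Ideal (P ρ)} (hX : ∀ v, X v ∈ I) (hne : I ≠ ⊤) :
    hI w I = dl G2 := by
  obtain ⟨r, hr⟩ := Submodule.mem_span_singleton.1 (hI_all (w := w) hX)
  obtain ⟨φ, hφ⟩ := hw
  have h0 : ∀ p : P ρ, p.IsWeightedHomogeneous w 0 → p = C (p.coeff 0) := fun p hp => by
    classical
    ext d
    rw [coeff_C]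
    split_ifs with hd
    · rw [hd]
    by_contra hc
    have h1 := map_weight w φ d
    rw [hp hc, map_zero, Finsupp.sum] at h1
    obtain ⟨v, hv⟩ := Finsupp.support_nonempty_iff.2 (Ne.symm hd)
    refine h1.not_lt (Finset.sum_pos' (fun v _ => mul_nonneg (by positivity) (hφ v).le)
      ⟨v, hv, mul_pos ?_ (hφ v)⟩)
    exact_mod_cast Nat.pos_of_ne_zero (Finsupp.mem_support_iff.1 hv)
  ext k
  by_cases hk : k = 0
  · have h1 : weightedHomogeneousSubmodule ℂ w 0 = ℂ ∙ (1 : P ρ) := by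
      refine le_antisymm (fun p hp => Submodule.mem_span_singleton.2 ⟨p.coeff 0, ?_⟩) ?_
      · rw [← C_mul', mul_one, ← h0 p hp]
      · exact (Submodule.span_singleton_le_iff_mem _ _).2 (isWeightedHomogeneous_one ℂ w)
    have h2 : pcI w I 0 = ⊥ := eq_bot_iff.2 fun p hp => by
      have h3 := h0 p hp.1
      rw [hten0_C hne (h3 ▸ hp.2 : C (p.coeff 0) ∈ I), map_zero] at h3
      exact h3
    rw [hk, hI, h1, h2, finrank_span_singleton one_ne_zero]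
    simp [dl]
  · simp only [dl, hk, if_false]
    refine hI_eq_zero fun d a hd => ?_
    obtain ⟨v, hv⟩ : ∃ v, d v ≠ 0 := by
      by_contra hc
      obtain rfl : d = 0 := Finsupp.ext fun v => of_not_not (not_exists.1 hc v)
      exact hk (by simpa using hd.symm)
    exact monomial_mem (n := 1) (by simpa using hX v) (Nat.pos_of_ne_zero hv) a

theorem hten0_hom (h₁ : Function.Injective r₁) {p : P ρ} {k : G2}
    (hp : p.IsWeightedHomogeneous w k) :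
    (killCompl h₁ p).IsWeightedHomogeneous (w ∘ r₁) k := fun d hd => by
  rw [coeff_killCompl] at hd
  rw [← hp hd, Finsupp.weight_apply, Finsupp.weight_apply,
    Finsupp.sum_mapDomain_index (by simp) (by simp [add_smul])]
  rfl

theorem hten0_dM (hw : Posw w) (h₁ : Function.Injective r₁) {Q : Submodule (P ρ) (ι → P ρ)}
    {Q₁ : Submodule (P κ₁) (ι → P κ₁)} (h : ∀ q, q ∈ Q ↔ (fun i => killCompl h₁ (q i)) ∈ Q₁)
    (g : G2) : dM w 0 Q g = dM (w ∘ r₁) 0 Q₁ g + finrank ℂ (pcM w 0 ⊤ g ⊓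
      LinearMap.ker ((killCompl h₁).toLinearMap.compLeft ι) : Submodule ℂ (ι → P ρ)) := by
  have := fin_pcM (u := 0) hw Q g
  have h1 := finrank_map_add ((killCompl h₁).toLinearMap.compLeft ι) (pcM w 0 Q g)
  have e1 : (pcM w 0 Q g).map ((killCompl h₁).toLinearMap.compLeft ι) = pcM (w ∘ r₁) 0 Q₁ g := by
    apply le_antisymm
    · rintro _ ⟨q, hq, rfl⟩
      exact mem_pcM.2 ⟨fun i => hten0_hom h₁ ((mem_pcM.1 hq).1 i), (h q).1 (mem_pcM.1 hq).2⟩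
    · intro q hq
      have h2 : (fun i => killCompl h₁ (rename r₁ (q i))) = q :=
        funext fun i => killCompl_rename_app h₁ _
      exact ⟨fun i => rename r₁ (q i), mem_pcM.2 ⟨fun i => isWH_rename r₁ ((mem_pcM.1 hq).1 i),
        (h _).2 (h2.symm ▸ (mem_pcM.1 hq).2)⟩, h2⟩
  have e2 : pcM w 0 Q g ⊓ LinearMap.ker ((killCompl h₁).toLinearMap.compLeft ι) =
      pcM w 0 ⊤ g ⊓ LinearMap.ker ((killCompl h₁).toLinearMap.compLeft ι) := by
    refine le_antisymm (fun q hq => ⟨mem_pcM.2 ⟨(mem_pcM.1 hq.1).1, trivial⟩, hq.2⟩)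
      fun q hq => ⟨mem_pcM.2 ⟨(mem_pcM.1 hq.1).1, (h q).2 ?_⟩, hq.2⟩
    have h2 : (fun i => killCompl h₁ (q i)) = 0 := hq.2
    exact h2 ▸ Q₁.zero_mem
  rw [e1, e2] at h1
  rw [dM, dM, ← h1, Nat.cast_add]

theorem ten_base (hr : Function.Bijective (Sum.elim r₁ r₂)) (hw : Posw w)
    (a : τ → Matrix ι ι (P κ₁)) (I₁ : Ideal (P κ₁)) {I₂ : Ideal (P κ₂)} (hX : ∀ v, X v ∈ I₂)
    (hne : I₂ ≠ ⊤) :
    hPhi w (fun j => (a j).map (rename r₁)) (jn r₁ r₂ I₁ I₂) ⊤ = hPhi (w ∘ r₁) a I₁ ⊤ := by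
  have h₁ : Function.Injective r₁ := hr.1.comp Sum.inl_injective
  have h2 : ∀ v, killCompl h₁ (X (r₂ v) : P ρ) = 0 := fun v => by
    rw [killCompl, aeval_X, dif_neg]
    rintro ⟨u, hu⟩
    exact Sum.inl_ne_inr (hr.1 (a₁ := Sum.inl u) (a₂ := Sum.inr v) hu)
  have h3 : ∀ p : P ρ, p ∈ jn r₁ r₂ I₁ I₂ ↔ killCompl h₁ p ∈ I₁ := fun p => by
    constructor
    · refine fun hp => (sup_le ?_ ?_ : _ ≤ I₁.comap (killCompl h₁)) hp
      · exact Ideal.map_le_iff_le_comap.2 fun f hf => by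
          simpa only [Ideal.mem_comap, killCompl_rename_app] using hf
      · refine Ideal.map_le_iff_le_comap.2 fun f hf => ?_
        have := hten0_kill hX hne ((killCompl h₁).comp (rename r₂)) (fun v => by simpa using h2 v) hf
        rw [Ideal.mem_comap, Ideal.mem_comap, ← AlgHom.comp_apply, this]
        exact I₁.zero_mem
    · intro hp
      have h4 := hten0_sub (AlgHom.id ℂ _) ((rename r₁).comp (killCompl h₁))
        (J := jn r₁ r₂ I₁ I₂) (fun v => ?_) p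
      · exact ((jn r₁ r₂ I₁ I₂).sub_mem_iff_left
          (Ideal.mem_sup_left (Ideal.mem_map_of_mem _ hp))).1 h4
      obtain ⟨u | u, rfl⟩ := hr.2 v
      · rw [Sum.elim_inl, AlgHom.comp_apply, ← rename_X, killCompl_rename_app]
        simp
      · rw [Sum.elim_inr, AlgHom.comp_apply, h2, map_zero, sub_zero, AlgHom.id_apply, ← rename_X]
        exact Ideal.mem_sup_right (Ideal.mem_map_of_mem _ (hX u))
  ext g
  rw [hPhi, hPhi, Fn.sub_apply, Fn.sub_apply, hten0_dM hw h₁ (Q₁ := Phi a I₁ ⊤) _ g,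
    hten0_dM hw h₁ (Q₁ := pw ι I₁) _ g, add_sub_add_right_eq_sub]
  · exact fun q => by simp only [mem_pw, h3]
  · intro q
    simp only [mem_Phi, mem_pw, h3, Submodule.mem_top, implies_true, true_and, Matrix.mulVec,
      dotProduct, map_sum, map_mul, Matrix.map_apply, killCompl_rename_app]

end PartHTen0

section PartHTen

variable {ρ κ₁ κ₂ ι τ : Type} [Fintype ρ] [Fintype κ₁] [Fintype κ₂] [Fintype ι]
  {r₁ : κ₁ → ρ} {r₂ : κ₂ → ρ} {w : ρ → G2}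

theorem hten_step (hw : Posw w) {a : τ → Matrix ι ι (P ρ)} {e : τ → G2}
    (ha : ∀ j x y, (a j x y).IsWeightedHomogeneous w (e j)) {J : Ideal (P ρ)} (hJ : HomI w J)
    {x : P ρ} {g : G2} (hx : x.IsWeightedHomogeneous w g)
    (hs : Phi a (J ⊔ Ideal.span {x}) ⊤ = Phi a J ⊤ ⊔ pw ι (J ⊔ Ideal.span {x})) :
    hPhi w a J ⊤ = hPhi w a (J ⊔ Ideal.span {x}) ⊤ + sh g • hPhi w a (J.colon {x}) ⊤ := by
  have h1 := dM_map (u := (0 : ι → G2)) hw grd_id (homM_Phi ha hJ homI_top)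
    (homM_pw (hJ.sup_one hx))
  have h2 := dM_map (u := (0 : ι → G2)) hw (grd_smul hx) (homM_Phi ha (hJ.col hx) homI_top)
    (homM_pw hJ)
  have e1 : (pw ι J).comap (x • LinearMap.id) = pw ι (J.colon {x}) := by
    ext q
    simp [mem_pw, mul_comm]
  have e2 : (Phi a (J.colon {x}) ⊤).map (x • LinearMap.id) ⊔ pw ι J =
      Phi a J ⊤ ⊓ pw ι (J ⊔ Ideal.span {x}) := by
    refine le_antisymm (sup_le ?_ (le_inf (pw_le_Phi a le_top) (pw_mono le_sup_left))) ?_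
    · rintro _ ⟨q, hq, rfl⟩
      refine ⟨mem_Phi.2 ⟨mem_pw.2 fun _ => trivial, fun j => mem_pw.2 fun i => ?_⟩,
        mem_pw.2 fun i => Ideal.mem_sup_right (Ideal.mem_span_singleton.2 ⟨q i, rfl⟩)⟩
      have := mem_col.1 (mem_pw.1 ((mem_Phi.1 hq).2 j) i)
      simpa [Matrix.mulVec_smul, mul_comm] using this
    · rintro q ⟨hq, hq'⟩
      have h3 : ∀ i, ∃ c, q i - x * c ∈ J := fun i => by
        obtain ⟨y, hy, z, hz, h4⟩ := Submodule.mem_sup.1 (mem_pw.1 hq' i)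
        obtain ⟨c, rfl⟩ := Ideal.mem_span_singleton.1 hz
        exact ⟨c, by rwa [← h4, add_sub_cancel_right]⟩
      choose c hc using h3
      have h4 : q - x • c ∈ pw ι J := mem_pw.2 hc
      refine Submodule.mem_sup.2 ⟨x • c, ⟨c, mem_Phi.2 ⟨mem_pw.2 fun _ => trivial, fun j =>
        mem_pw.2 fun i => mem_col.2 ?_⟩, rfl⟩, _, h4, by abel⟩
      have := mem_pw.1 (sub_mem ((mem_Phi.1 hq).2 j) (mulVec_mem_pw (a j) h4)) i
      simpa [Matrix.mulVec_sub, Matrix.mulVec_smul, mul_comm] using this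
  rw [e1, e2, inf_eq_right.2 (pw_le_Phi a le_top)] at h2
  rw [sh_zero, one_smul, Submodule.comap_id, Submodule.map_id, ← hs] at h1
  rw [hPhi, hPhi, hPhi, h2, ← h1]
  abel

theorem ten (hr : Function.Bijective (Sum.elim r₁ r₂)) (hw : Posw w) {a : τ → Matrix ι ι (P κ₁)}
    {e : τ → G2} (ha : ∀ j x y, (a j x y).IsWeightedHomogeneous (w ∘ r₁) (e j))
    {I₁ : Ideal (P κ₁)} (h₁ : HomI (w ∘ r₁) I₁) {I₂ : Ideal (P κ₂)} (h₂ : HomI (w ∘ r₂) I₂)
    {r ε : RG G2} (h : r • hPhi (w ∘ r₁) a I₁ ⊤ = ε • dl G2) :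
    r • hPhi w (fun j => (a j).map (rename r₁)) (jn r₁ r₂ I₁ I₂) ⊤ = ε • hI (w ∘ r₂) I₂ := by
  have hw₂ := posw_comp hw r₂
  induction I₂ using IsNoetherian.induction with
  | hgt I₂ ih =>
    by_cases ht : I₂ = ⊤
    · have : jn r₁ r₂ I₁ I₂ = ⊤ := by rw [jn, ht, Ideal.map_top, sup_top_eq]
      rw [this, ht, hI_top, hPhi, ← le_antisymm (pw_le_Phi _ le_rfl) inf_le_left, sub_self,
        smul_zero, smul_zero]
    by_cases hX : ∀ v, X v ∈ I₂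
    · rw [ten_base hr hw a I₁ hX ht, hI_max hw₂ hX ht, h]
    obtain ⟨v, hv⟩ := not_forall.1 hX
    have hx := isWeightedHomogeneous_X ℂ (w ∘ r₂) v
    have hJ : HomI w (jn r₁ r₂ I₁ I₂) := (homI_map_rename r₁ h₁).sup (homI_map_rename r₂ h₂)
    have e1 : jn r₁ r₂ I₁ (I₂ ⊔ Ideal.span {X v}) =
        jn r₁ r₂ I₁ I₂ ⊔ Ideal.span {rename r₂ (X v)} := by
      rw [jn, jn, Ideal.map_sup, Ideal.map_span, Set.image_singleton, sup_assoc]
    have h1 := hten_step (a := fun j => (a j).map (rename r₁)) hw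
      (fun j x y => isWH_rename r₁ (ha j x y)) hJ (isWH_rename r₂ hx)
      (by rw [← e1]; exact sep_phi hr a I₁ le_sup_left)
    rw [← e1, sep_colon hr] at h1
    have h2 := hI_step hw₂ h₂ hx
    have h3 := ih _ (lt_of_le_of_ne le_sup_left fun e =>
      hv (e ▸ Ideal.mem_sup_right (Ideal.mem_span_singleton_self _))) (h₂.sup_one hx)
    rcases (le_col I₂ (X v)).lt_or_eq with hc | hc
    · rw [h1, h2, smul_add, smul_add, h3, smul_comm r, ih _ hc (h₂.col hx), smul_comm ε]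
    · obtain ⟨φ, hφ⟩ := hw
      rw [← hc] at h1 h2
      refine sub_eq_zero.1 (cancel_one φ (hφ (r₂ v)) (sub_mem (Submodule.smul_mem _ _
        (sub_mem (dM_bdd hφ _) (dM_bdd hφ _))) (Submodule.smul_mem _ _
        (hI_bdd (fun u => hφ (r₂ u)) _))) ?_)
      rw [← sub_eq_iff_eq_add] at h1 h2
      rw [← h1, ← h2] at h3
      rw [smul_sub, smul_comm _ r, smul_comm _ ε, sub_smul, sub_smul, one_smul, one_smul]
      exact sub_eq_zero.2 h3

end PartHTen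

section PartHMul0

variable {ρ τ ι : Type} [Fintype ρ] [Fintype τ] [Fintype ι] [DecidableEq ι] {w : ρ → G2}

theorem am_hom {r : τ → ρ} (hr : ∀ j, w (r j) = (1, 0)) {N : ℕ} {A : τ → Matrix ι ι (P τ)}
    (hA : ∀ j a b, (A j a b).IsWeightedHomogeneous (w0 τ) ((N : ℤ), 0)) (j : τ) (a b : ι) :
    (am r N A j a b).IsWeightedHomogeneous w ((N : ℤ), 0) := by
  have e : w ∘ r = w0 τ := funext hr
  have h1 : (rename r (A j a b)).IsWeightedHomogeneous w ((N : ℤ), 0) :=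
    isWH_rename r (e ▸ hA j a b)
  have h2 : (X (r j) ^ N : P ρ).IsWeightedHomogeneous w ((N : ℤ), 0) := by
    have := (isWeightedHomogeneous_X ℂ w (r j)).pow N
    rw [hr j] at this
    simpa using this
  have h3 : (Matrix.diagonal (fun _ : ι => (X (r j) ^ N : P ρ)) a b).IsWeightedHomogeneous w
      ((N : ℤ), 0) := by
    rw [Matrix.diagonal_apply]
    split_ifs
    · exact h2
    · exact isWeightedHomogeneous_zero ℂ w _
  exact (weightedHomogeneousSubmodule ℂ w ((N : ℤ), 0)).sub_mem h3 h1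

theorem am_map {ρ' : Type} (r : τ → ρ) (r' : ρ → ρ') (N : ℕ) (A : τ → Matrix ι ι (P τ)) (j : τ) :
    (am r N A j).map (rename r') = am (r' ∘ r) N A j := by
  ext a b : 2
  simp only [am, Matrix.map_apply, Matrix.sub_apply, map_sub, rename_rename, Matrix.diagonal_apply]
  split_ifs <;> simp

theorem hmul0_dec (r : τ → ρ) (N : ℕ) (A : τ → Matrix ι ι (P τ)) (j : τ) (q : ι → P ρ) :
    (X (r j) ^ N : P ρ) • q =
      (am r N A j).mulVec q + ((A j).map (rename r)).mulVec q := by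
  rw [am, Matrix.sub_mulVec, sub_add_cancel]
  ext a : 1
  simp [Matrix.mulVec_diagonal]

theorem hmul0_mem {r : τ → ρ} {N : ℕ} {A : τ → Matrix ι ι (P τ)} {I : Ideal (P τ)}
    (hAI : ∀ i j a b, (am id N A i * A j) a b ∈ I) {Q₁ Q₂ : Ideal (P ρ)}
    (hIQ : ∀ f ∈ I, ∀ q ∈ Q₁, rename r f * q ∈ Q₂) (j : τ) {q : ι → P ρ} (hq : q ∈ pw ι Q₁) :
    ((A j).map (rename r)).mulVec q ∈ Phi (am r N A) Q₂ Q₁ := by
  refine mem_Phi.2 ⟨mulVec_mem_pw _ hq, fun i => ?_⟩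
  have e : am r N A i = (am id N A i).map (rename r) := (am_map id r N A i).symm
  rw [Matrix.mulVec_mulVec, e, ← Matrix.map_mul]
  exact mem_pw.2 fun a => Ideal.sum_mem _ fun b _ => hIQ _ (hAI i j a b) _ (mem_pw.1 hq b)

theorem hmul0_smul {Q₁ Q₂ : Ideal (P ρ)} (δ : P ρ) {q : ι → P ρ} (hq : q ∈ pw ι Q₁) :
    δ • q ∈ pw ι (Q₂ ⊔ Ideal.span {δ} * Q₁) :=
  mem_pw.2 fun a => Ideal.mem_sup_right
    (Ideal.mem_span_singleton_mul.2 ⟨_, mem_pw.1 hq a, rfl⟩)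

theorem hmul0_split {Q₁ Q₂ : Ideal (P ρ)} {δ : P ρ} {q : ι → P ρ}
    (hq : q ∈ pw ι (Q₂ ⊔ Ideal.span {δ} * Q₁)) :
    ∃ q₂ ∈ pw ι Q₂, ∃ q' ∈ pw ι Q₁, q = q₂ + δ • q' := by
  have : ∀ a, ∃ x ∈ Q₂, ∃ z ∈ Q₁, q a = x + δ * z := fun a => by
    obtain ⟨x, hx, y, hy, h⟩ := Submodule.mem_sup.1 (mem_pw.1 hq a)
    obtain ⟨z, hz, rfl⟩ := Ideal.mem_span_singleton_mul.1 hy
    exact ⟨x, hx, z, hz, h.symm⟩
  choose x hx z hz h using this
  exact ⟨x, mem_pw.2 hx, z, mem_pw.2 hz, funext h⟩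

theorem mul_step (hw : Posw w) {r : τ → ρ} (hr : ∀ j, w (r j) = (1, 0)) {N : ℕ}
    {A : τ → Matrix ι ι (P τ)}
    (hA : ∀ j a b, (A j a b).IsWeightedHomogeneous (w0 τ) ((N : ℤ), 0)) {I : Ideal (P τ)}
    (hAI : ∀ i j a b, (am id N A i * A j) a b ∈ I) {Q₁ Q₂ : Ideal (P ρ)} (h₁ : HomI w Q₁)
    (h₂ : HomI w Q₂) (hle : Q₂ ≤ Q₁) (hIQ : ∀ f ∈ I, ∀ q ∈ Q₁, rename r f * q ∈ Q₂) {δ : P ρ}
    (hδ : δ.IsWeightedHomogeneous w (1, 0)) (Λ : Submodule (RG G2) (Fn G2)) (o : RG G2)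
    (h : ∀ J, HomI w J → δ ∈ J → (∀ j, X (r j) ^ N ∈ J) →
      (∀ f, (∀ q ∈ Q₁, f * q ∈ Q₂) → f ∈ J) → o • hI w J ∈ Λ) :
    o • ((1 - tt) • hPhi w (am r N A) Q₂ Q₁ - hPhi w (am r N A) (Q₂ ⊔ Ideal.span {δ} * Q₁) Q₁ +
      tt • hPhi w (am r N A) Q₂ (Q₁ ⊓ Q₂.colon {δ})) ∈ Λ := by
  have h₂' : HomI w (Q₂ ⊔ Ideal.span {δ} * Q₁) := h₂.sup (homI_span_mul h₁ hδ)
  have hle' : Q₂ ⊔ Ideal.span {δ} * Q₁ ≤ Q₁ := sup_le hle Ideal.mul_le_right
  have hΦ : HomM w 0 (Phi (am r N A) Q₂ Q₁) := homM_Phi (am_hom hr hA) h₂ h₁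
  have hΦ' : HomM w 0 (Phi (am r N A) (Q₂ ⊔ Ideal.span {δ} * Q₁) Q₁) :=
    homM_Phi (am_hom hr hA) h₂' h₁
  have hp : HomM w (0 : ι → G2) (pw ι Q₂) := homM_pw h₂
  have hp' : HomM w (0 : ι → G2) (pw ι (Q₂ ⊔ Ideal.span {δ} * Q₁)) := homM_pw h₂'
  have hpp : pw ι Q₂ ≤ pw ι (Q₂ ⊔ Ideal.span {δ} * Q₁) := pw_mono le_sup_left
  have hf : ∀ f, (∀ q ∈ Q₁, f * q ∈ Q₂) → ∀ q ∈ pw ι Q₁, f • q ∈ pw ι Q₂ := fun f hf q hq =>
    mem_pw.2 fun a => hf _ (mem_pw.1 hq a)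
  have e1 := dM_map hw (grd_smul (u := (0 : ι → G2)) hδ) hΦ hp
  have e2 := dM_map hw (grd_id (u := (0 : ι → G2))) hΦ hp'
  have e3 : Phi (am r N A) Q₂ Q₁ ⊓ (pw ι Q₂).comap (δ • LinearMap.id) =
      Phi (am r N A) Q₂ (Q₁ ⊓ Q₂.colon {δ}) := by
    ext q
    rw [Submodule.mem_inf, mem_Phi, mem_Phi, Submodule.mem_comap]
    constructor
    · rintro ⟨⟨a, b⟩, c⟩
      exact ⟨mem_pw.2 fun i => ⟨mem_pw.1 a i, mem_col.2 (mul_comm δ (q i) ▸ mem_pw.1 c i)⟩, b⟩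
    · rintro ⟨a, b⟩
      refine ⟨⟨mem_pw.2 fun i => (mem_pw.1 a i).1, b⟩, mem_pw.2 fun i => ?_⟩
      have := mem_col.1 (mem_pw.1 a i).2
      rwa [mul_comm] at this
  rw [e3] at e1
  rw [sh_zero, one_smul, Submodule.map_id, Submodule.comap_id] at e2
  have d1 := dev hw Λ o (hΦ.inf hp') ((hΦ.map (grd_smul hδ)).sup hp)
    (sup_le (by
      rintro _ ⟨q, hq, rfl⟩
      exact ⟨Submodule.smul_mem _ δ hq, hmul0_smul δ (mem_Phi.1 hq).1⟩)
      (le_inf (pw_le_Phi _ hle) hpp))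
    (Submodule.colon _ _) (fun a ha q hq => Submodule.mem_colon.1 ha q hq) fun J hJ hle𝔞 => by
      refine h J hJ (hle𝔞 (Submodule.mem_colon.2 fun q hq => ?_))
        (fun j => hle𝔞 (Submodule.mem_colon.2 fun q hq => ?_))
        fun f hf' => hle𝔞 (Submodule.mem_colon.2 fun q hq => ?_)
      · exact Submodule.mem_sup_left ⟨q, hq.1, rfl⟩
      · obtain ⟨q₂, hq₂, q', hq', e⟩ := hmul0_split hq.2
        have h3 : (X (r j) ^ N : P ρ) • q = δ • ((A j).map (rename r)).mulVec q' +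
            ((am r N A j).mulVec q + ((A j).map (rename r)).mulVec q₂) := by
          rw [hmul0_dec r N A j q]
          conv_lhs => enter [2]; rw [e, Matrix.mulVec_add, Matrix.mulVec_smul]
          abel
        rw [h3]
        exact Submodule.add_mem_sup ⟨_, hmul0_mem hAI hIQ j hq', rfl⟩
          (add_mem ((mem_Phi.1 hq.1).2 j) (mulVec_mem_pw _ hq₂))
      · exact Submodule.mem_sup_right (hf f hf' q (mem_Phi.1 hq.1).1)
  have d2 := dev hw Λ o hΦ' (hΦ.sup hp')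
    (sup_le (fun q hq => mem_Phi.2 ⟨(mem_Phi.1 hq).1, fun j => hpp ((mem_Phi.1 hq).2 j)⟩)
      (pw_le_Phi _ hle'))
    (Submodule.colon _ _) (fun a ha q hq => Submodule.mem_colon.1 ha q hq) fun J hJ hle𝔞 => by
      refine h J hJ (hle𝔞 (Submodule.mem_colon.2 fun q hq => ?_))
        (fun j => hle𝔞 (Submodule.mem_colon.2 fun q hq => ?_))
        fun f hf' => hle𝔞 (Submodule.mem_colon.2 fun q hq => ?_)
      · exact Submodule.mem_sup_right (hmul0_smul δ (mem_Phi.1 hq).1)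
      · rw [hmul0_dec r N A j q, add_comm]
        exact Submodule.add_mem_sup (hmul0_mem hAI hIQ j (mem_Phi.1 hq).1) ((mem_Phi.1 hq).2 j)
      · exact Submodule.mem_sup_right (hpp (hf f hf' q (mem_Phi.1 hq).1))
  have d3 := sub_mem d1 d2
  rw [← smul_sub] at d3
  convert d3 using 2
  change sh (1, 0) • _ = _ at e1
  unfold hPhi tt
  rw [smul_sub] at e1
  rw [sub_smul, one_smul, smul_sub, smul_sub]
  rw [← sub_eq_zero] at e1 e2 ⊢
  rw [← sub_zero (0 : Fn G2)]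
  conv_rhs => enter [1]; rw [← e2]
  conv_rhs => enter [2]; rw [← e1]
  abel

end PartHMul0

section PartHMul

variable {ρ τ ι : Type} [Fintype ρ] [Fintype τ] [Fintype ι] [DecidableEq ι] {w : ρ → G2}

theorem hmul_ren {v z : τ → ρ} {K : Ideal (P ρ)} (h : ∀ j, X (v j) - X (z j) ∈ K) (f : P τ) :
    rename v f - rename z f ∈ K :=
  Ideal.Quotient.eq.1 (congrArg (fun g : P τ →ₐ[ℂ] _ => g f)
    (show (Ideal.Quotient.mkₐ ℂ K).comp (rename v) = (Ideal.Quotient.mkₐ ℂ K).comp (rename z) from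
      algHom_ext fun j => by simpa [Ideal.Quotient.eq] using h j))

theorem hmul_le {v z : τ → ρ} (N : ℕ) (A : τ → Matrix ι ι (P τ)) {Q₁ Q₂ : Ideal (P ρ)}
    (h : ∀ j, ∀ q ∈ Q₁, (X (v j) - X (z j)) * q ∈ Q₂) :
    Phi (am v N A) Q₂ Q₁ ≤ Phi (am z N A) Q₂ Q₁ := by
  intro q hq
  obtain ⟨h1, h2⟩ := mem_Phi.1 hq
  refine mem_Phi.2 ⟨h1, fun j => ?_⟩
  have h3 : (am v N A j - am z N A j).mulVec q ∈ pw ι Q₂ := mem_pw.2 fun a =>
    sum_mem fun b _ => by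
      have h4 := hmul_ren (K := Q₂.colon Q₁) (fun j => Submodule.mem_colon.2 (h j)) (am id N A j a b)
      have h5 := congrFun (congrFun (am_map id v N A j) a) b
      have h6 := congrFun (congrFun (am_map id z N A j) a) b
      rw [Matrix.map_apply] at h5 h6
      rw [h5, h6] at h4
      exact Submodule.mem_colon.1 h4 _ (mem_pw.1 h1 b)
  simpa [Matrix.sub_mulVec] using sub_mem (h2 j) h3

theorem hmul_tor (hw : Adm w) {v z : τ → ρ} (hz : ∀ j, w (z j) = (1, 0))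
    (hall : ∀ r, w r = (1, 0) → (∃ j, r = v j) ∨ ∃ j, r = z j) {N : ℕ} (t : Finset τ)
    {J : Ideal (P ρ)} (hJ : HomI w J) (hN : ∀ j, X (v j) ^ N ∈ J)
    (h : ∀ j ∉ t, X (v j) - X (z j) ∈ J) : (1 - tt) ^ t.card • hI w J ∈ Nall := by
  classical
  obtain ⟨c, hc⟩ := Nat.exists_eq_add_of_le' (Finset.card_image_le (s := t) (f := z))
  rw [hc, pow_add, mul_smul]
  refine Submodule.smul_mem _ _ (torg hw _ (fun r hr => ?_) J (fun r hr hn => ?_) hJ le_rfl)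
  · obtain ⟨j, -, rfl⟩ := Finset.mem_image.1 hr
    exact hz j
  · rcases hall r hr with ⟨j, rfl⟩ | ⟨j, rfl⟩
    · exact ⟨N, hN j⟩
    · simpa using sub_mem (show X (v j) ∈ J.radical from ⟨N, hN j⟩)
        (Ideal.le_radical (h j fun hj => hn (Finset.mem_image_of_mem z hj)))

theorem mul_core (hw : Adm w) {v z : τ → ρ} (hv : ∀ j, w (v j) = (1, 0))
    (hz : ∀ j, w (z j) = (1, 0)) (hall : ∀ r, w r = (1, 0) → (∃ j, r = v j) ∨ ∃ j, r = z j)
    {N : ℕ} {A : τ → Matrix ι ι (P τ)}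
    (hA : ∀ j a b, (A j a b).IsWeightedHomogeneous (w0 τ) ((N : ℤ), 0)) {I : Ideal (P τ)}
    (hAI : ∀ i j a b, (am id N A i * A j) a b ∈ I) {J : Ideal (P ρ)} (hJ : HomI w J)
    (h1 : ∀ f ∈ I, rename v f ∈ J) (h2 : ∀ f ∈ I, rename z f ∈ J) :
    (1 - tt) ^ Fintype.card τ • (hPhi w (am v N A) J ⊤ - hPhi w (am z N A) J ⊤) ∈ Nall := by
  classical
  have key : ∀ t : Finset τ, ∀ Q₁ Q₂ : Ideal (P ρ), HomI w Q₁ → HomI w Q₂ → Q₂ ≤ Q₁ →
      (∀ f ∈ J, ∀ q ∈ Q₁, f * q ∈ Q₂) → (∀ j ∉ t, ∀ q ∈ Q₁, (X (v j) - X (z j)) * q ∈ Q₂) →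
      (1 - tt) ^ t.card • (hPhi w (am v N A) Q₂ Q₁ - hPhi w (am z N A) Q₂ Q₁) ∈ Nall := by
    intro t
    induction t using Finset.induction_on with
    | empty =>
      intro Q₁ Q₂ _ _ _ _ h
      rw [hPhi, hPhi, le_antisymm (hmul_le N A fun j => h j (by simp)) (hmul_le N A fun j q hq => by
        simpa [sub_mul] using neg_mem (h j (by simp) q hq)), sub_self, smul_zero]
      exact zero_mem _
    | insert j₀ t hj ih =>
      intro Q₁ Q₂ h₁ h₂ hle hJQ h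
      have hδ : (X (v j₀) - X (z j₀) : P ρ).IsWeightedHomogeneous w (1, 0) :=
        (weightedHomogeneousSubmodule ℂ w (1, 0)).sub_mem
          (hv j₀ ▸ isWeightedHomogeneous_X ℂ w (v j₀)) (hz j₀ ▸ isWeightedHomogeneous_X ℂ w (z j₀))
      have hK : ∀ K : Ideal (P ρ), X (v j₀) - X (z j₀) ∈ K → (∀ f, (∀ q ∈ Q₁, f * q ∈ Q₂) → f ∈ K) →
          ∀ j ∉ t, X (v j) - X (z j) ∈ K := fun K a b j c => by
        by_cases e : j = j₀
        · exact e ▸ a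
        · exact b _ (h j (by simp [e, c]))
      have s1 := mul_step hw.posw hv hA hAI h₁ h₂ hle (fun f hf => hJQ _ (h1 f hf)) hδ Nall
        ((1 - tt) ^ t.card) fun K a b c d => hmul_tor hw hz hall t a c (hK K b d)
      have s2 := mul_step hw.posw hz hA hAI h₁ h₂ hle (fun f hf => hJQ _ (h2 f hf)) hδ Nall
        ((1 - tt) ^ t.card) fun K a b c d => hmul_tor hw hv (fun r hr => (hall r hr).symm) t a c
          fun j e => by simpa using neg_mem (hK K b d j e)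
      have i1 := ih Q₁ (Q₂ ⊔ Ideal.span {X (v j₀) - X (z j₀)} * Q₁) h₁
        (h₂.sup (homI_span_mul h₁ hδ)) (sup_le hle Ideal.mul_le_right)
        (fun f hf q hq => Ideal.mem_sup_left (hJQ f hf q hq)) fun j c q hq => by
          by_cases e : j = j₀
          · exact Ideal.mem_sup_right (Ideal.mul_mem_mul (e ▸ Ideal.mem_span_singleton_self _) hq)
          · exact Ideal.mem_sup_left (h j (by simp [e, c]) q hq)
      have i2 := ih (Q₁ ⊓ Q₂.colon {X (v j₀) - X (z j₀)}) Q₂ (homI_inf h₁ (h₂.col hδ)) h₂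
        (le_inf hle (le_col _ _)) (fun f hf q hq => hJQ f hf q hq.1) fun j c q hq => by
          by_cases e : j = j₀
          · exact mul_comm q _ ▸ e ▸ mem_col.1 hq.2
          · exact h j (by simp [e, c]) q hq.1
      rw [Finset.card_insert_of_notMem hj]
      convert sub_mem (add_mem (sub_mem s1 s2) i1) (Submodule.smul_mem _ tt i2) using 1
      module
  exact key Finset.univ ⊤ J homI_top hJ le_top (fun f hf q _ => Ideal.mul_mem_right q _ hf)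
    fun j c => absurd (Finset.mem_univ j) c

end PartHMul

section PartHMu

variable {τ Λ Mu : Type} [Fintype τ] [Fintype Λ] [Fintype Mu] {𝔭 : Ideal (P (τ ⊕ (Λ ⊕ Mu)))}

theorem wt_comp (g : Mu → ℕ) :
    wt (Sum.elim (fun _ : Λ => 0) g) ∘ (Sum.map id Sum.inl : τ ⊕ Λ → τ ⊕ (Λ ⊕ Mu)) =
      wt fun _ => 0 := by
  funext v
  cases v <;> rfl

theorem hmu_mono {S : Subalgebra ℂ (P (τ ⊕ (Λ ⊕ Mu)))} {N : ℕ} {j : τ}
    (h₁ : ∀ i, X (Sum.inl i) ∈ S) (h₂ : ∀ l, X (Sum.inr (Sum.inl l)) ∈ S)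
    (h₃ : ∀ μ, X (Sum.inl j) ^ N * X (Sum.inr (Sum.inr μ)) ∈ S) (d : τ ⊕ (Λ ⊕ Mu) →₀ ℕ)
    (hd : N * ∑ μ, d (Sum.inr (Sum.inr μ)) ≤ d (Sum.inl j)) (a : ℂ) : monomial d a ∈ S := by
  classical
  obtain ⟨k, hk⟩ := Nat.exists_eq_add_of_le hd
  rw [monomial_eq, Finsupp.prod_fintype _ _ fun _ => pow_zero _, Fintype.prod_sum_type,
    Fintype.prod_sum_type, ← Finset.mul_prod_erase _ _ (Finset.mem_univ j), hk, pow_add, pow_mul,
    ← Finset.prod_pow_eq_pow_sum]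
  have h := S.prod_mem (t := Finset.univ) fun μ _ => S.pow_mem (h₃ μ) (d (Sum.inr (Sum.inr μ)))
  simp only [mul_pow, Finset.prod_mul_distrib] at h
  have h' := S.mul_mem (S.mul_mem (S.mul_mem (S.mul_mem h (S.pow_mem (h₁ j) k))
    (S.prod_mem (t := Finset.univ.erase j) fun i _ => S.pow_mem (h₁ i) (d (Sum.inl i))))
    (S.prod_mem (t := Finset.univ) fun l _ => S.pow_mem (h₂ l) (d (Sum.inr (Sum.inl l)))))
    (S.algebraMap_mem a)
  convert h' using 1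
  rw [algebraMap_eq]
  ring

theorem hmu_wt (g : Mu → ℕ) (N : ℕ) {n a : ℤ} (d : τ ⊕ (Λ ⊕ Mu) →₀ ℕ)
    (hd : Finsupp.weight (wt (Sum.elim (fun _ : Λ => 0) g)) d = (n, a))
    (hn : (Fintype.card τ * N + ∑ μ, g μ : ℕ) * a < n) :
    ∃ j, N * ∑ μ, d (Sum.inr (Sum.inr μ)) ≤ d (Sum.inl j) := by
  by_contra hc
  push Not at hc
  rw [Finsupp.weight_apply, Finsupp.sum_fintype _ _ (by simp), Fintype.sum_sum_type,
    Fintype.sum_sum_type] at hd
  have h1 := congrArg Prod.fst hd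
  have h2 := congrArg Prod.snd hd
  simp only [wt, Prod.fst_add, Prod.snd_add, Prod.fst_sum, Prod.snd_sum, Sum.elim_inl,
    Sum.elim_inr, Prod.smul_fst, Prod.smul_snd] at h1 h2
  simp only [nsmul_eq_mul, mul_one, mul_zero, Nat.cast_zero, Finset.sum_const_zero,
    zero_add] at h1 h2
  set m := ∑ μ, d (Sum.inr (Sum.inr μ)) with hm
  have h3 : ∑ j, d (Sum.inl j) ≤ Fintype.card τ * (N * m) :=
    (Finset.sum_le_card_nsmul _ _ _ fun j _ => (hc j).le).trans_eq (by simp)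
  have h4 : ∑ μ, d (Sum.inr (Sum.inr μ)) * g μ ≤ (∑ μ, g μ) * m := by
    rw [Finset.sum_mul]
    exact Finset.sum_le_sum fun μ _ => by
      rw [mul_comm]
      exact Nat.mul_le_mul_left _ (Finset.single_le_sum (f := fun μ => d (Sum.inr (Sum.inr μ)))
        (fun _ _ => Nat.zero_le _) (Finset.mem_univ μ))
  have h5 : (m : ℤ) ≤ a := by
    rw [← h2, hm, Nat.cast_sum]
    exact le_add_of_nonneg_left (Finset.sum_nonneg fun _ _ => by positivity)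
  have h6 : n ≤ ((Fintype.card τ * N + ∑ μ, g μ : ℕ) : ℤ) * m := by
    rw [← h1]
    have := Nat.add_le_add h3 h4
    rw [← mul_assoc, ← add_mul] at this
    exact_mod_cast this
  exact absurd (h6.trans (mul_le_mul_of_nonneg_left h5 (by positivity))) (not_le.2 hn)

theorem mu_elim (g : Mu → ℕ) (hh : HomI (wt (Sum.elim (fun _ => 0) g)) 𝔭)
    (he : ∃ N : ℕ, ∀ j μ, ∃ f : P (τ ⊕ Λ),
      X (Sum.inl j) ^ N * X (Sum.inr (Sum.inr μ)) - rename (Sum.map id Sum.inl) f ∈ 𝔭) :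
    hI (wt (Sum.elim (fun _ => 0) g)) 𝔭 - hI (wt fun _ => 0)
      (𝔭.comap (rename (Sum.map id Sum.inl) : P (τ ⊕ Λ) →ₐ[ℂ] P (τ ⊕ (Λ ⊕ Mu)))) ∈ Nall := by
  obtain ⟨N, hN⟩ := he
  refine mem_Nall.2 fun a => (eventually_gt_atTop
    ((Fintype.card τ * N + ∑ μ, g μ : ℕ) * a)).mono fun n hn => ?_
  rw [← wt_comp g]
  set w : τ ⊕ (Λ ⊕ Mu) → G2 := wt (Sum.elim (fun _ => 0) g) with hw
  set r : τ ⊕ Λ → τ ⊕ (Λ ⊕ Mu) := Sum.map id Sum.inl with hr
  set π := Ideal.Quotient.mkₐ ℂ 𝔭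
  set S : Subalgebra ℂ (P (τ ⊕ (Λ ⊕ Mu))) := (π.comp (rename r)).range.comap π
  have hS : ∀ p, p ∈ S ↔ ∃ f, p - rename r f ∈ 𝔭 := fun p =>
    exists_congr fun f => eq_comm.trans Ideal.Quotient.eq
  have hX : ∀ v, X (r v) ∈ S := fun v => (hS _).2 ⟨X v, by rw [rename_X, sub_self]; exact zero_mem _⟩
  have hp : Posw w := (adm_wt _).posw
  have := hp.fin (F := ℂ) (n, a)
  have := (posw_comp hp r).fin (F := ℂ) (n, a)
  have h1 := finrank_map_add π.toLinearMap (weightedHomogeneousSubmodule ℂ w (n, a))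
  have h2 := finrank_map_add (π.comp (rename r)).toLinearMap
    (weightedHomogeneousSubmodule ℂ (w ∘ r) (n, a))
  have e1 : weightedHomogeneousSubmodule ℂ w (n, a) ⊓ LinearMap.ker π.toLinearMap =
      pcI w 𝔭 (n, a) :=
    Submodule.ext fun p => and_congr_right fun _ => Ideal.Quotient.eq_zero_iff_mem
  have e2 : weightedHomogeneousSubmodule ℂ (w ∘ r) (n, a) ⊓
      LinearMap.ker (π.comp (rename r)).toLinearMap =
      pcI (w ∘ r) (𝔭.comap (rename r : P (τ ⊕ Λ) →ₐ[ℂ] P (τ ⊕ (Λ ⊕ Mu)))) (n, a) :=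
    Submodule.ext fun p => and_congr_right fun _ => Ideal.Quotient.eq_zero_iff_mem
  have e3 : (weightedHomogeneousSubmodule ℂ w (n, a)).map π.toLinearMap =
      (weightedHomogeneousSubmodule ℂ (w ∘ r) (n, a)).map (π.comp (rename r)).toLinearMap := by
    refine le_antisymm ?_ ?_
    · rintro _ ⟨p, hp, rfl⟩
      have hp : p.IsWeightedHomogeneous w (n, a) := hp
      have : p ∈ S := by
        rw [p.as_sum]
        refine S.sum_mem fun d hd => ?_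
        obtain ⟨j, hj⟩ := hmu_wt g N d (hp (mem_support_iff.1 hd)) hn
        exact hmu_mono (fun i => hX (Sum.inl i)) (fun l => hX (Sum.inr l))
          (fun μ => (hS _).2 (hN j μ)) d hj _
      obtain ⟨f, hf⟩ := (hS p).1 this
      have h3 := hh (n, a) _ hf
      rw [map_sub, hp.weightedHomogeneousComponent_same, wc_rename] at h3
      exact ⟨_, weightedHomogeneousComponent_isWeightedHomogeneous _ _,
        (Ideal.Quotient.eq.2 h3).symm⟩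
    · rintro _ ⟨f, hf, rfl⟩
      exact ⟨rename r f, isWH_rename r hf, rfl⟩
  rw [e1, e3] at h1
  rw [e2] at h2
  change hI w 𝔭 (n, a) - hI (w ∘ r) _ (n, a) = 0
  have key : ∀ {a b c b' c' : ℕ}, a + b = c → a + b' = c' → (c : ℤ) - b - (c' - b') = 0 := by
    omega
  exact key h1 h2

theorem mu_dm (hp : 𝔭.IsPrime) (hn : ∃ j, X (Sum.inl j) ∉ 𝔭)
    (he : ∃ N : ℕ, ∀ j μ, ∃ f : P (τ ⊕ Λ),
      X (Sum.inl j) ^ N * X (Sum.inr (Sum.inr μ)) - rename (Sum.map id Sum.inl) f ∈ 𝔭) :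
    dm 𝔭 ≤ dm (𝔭.comap (rename (Sum.map id Sum.inl) : P (τ ⊕ Λ) →ₐ[ℂ] P (τ ⊕ (Λ ⊕ Mu)))) := by
  obtain ⟨j, hj⟩ := hn
  obtain ⟨N, hN⟩ := he
  set r : τ ⊕ Λ → τ ⊕ (Λ ⊕ Mu) := Sum.map id Sum.inl with hr
  set 𝔮 := 𝔭.comap (rename r : P (τ ⊕ Λ) →ₐ[ℂ] P (τ ⊕ (Λ ⊕ Mu))) with hq
  have : 𝔮.IsPrime := Ideal.comap_isPrime _ _
  let φ : (P (τ ⊕ Λ) ⧸ 𝔮) →ₐ[ℂ] P (τ ⊕ (Λ ⊕ Mu)) ⧸ 𝔭 := Ideal.quotientMapₐ 𝔭 (rename r) le_rfl
  let _ : Algebra (P (τ ⊕ Λ) ⧸ 𝔮) (P (τ ⊕ (Λ ⊕ Mu)) ⧸ 𝔭) := φ.toRingHom.toAlgebra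
  have hφ : ∀ f, algebraMap (P (τ ⊕ Λ) ⧸ 𝔮) (P (τ ⊕ (Λ ⊕ Mu)) ⧸ 𝔭) (Ideal.Quotient.mk 𝔮 f) =
      Ideal.Quotient.mk 𝔭 (rename r f) := fun _ => rfl
  have : IsScalarTower ℂ (P (τ ⊕ Λ) ⧸ 𝔮) (P (τ ⊕ (Λ ⊕ Mu)) ⧸ 𝔭) :=
    IsScalarTower.of_algebraMap_eq fun a => (φ.commutes a).symm
  have : FaithfulSMul (P (τ ⊕ Λ) ⧸ 𝔮) (P (τ ⊕ (Λ ⊕ Mu)) ⧸ 𝔭) :=
    (faithfulSMul_iff_algebraMap_injective _ _).2 Ideal.quotientMap_injective
  have hr' : ∀ f, IsAlgebraic (P (τ ⊕ Λ) ⧸ 𝔮) (Ideal.Quotient.mk 𝔭 (rename r f)) := fun f =>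
    hφ f ▸ isAlgebraic_algebraMap _
  have hX : ∀ v, IsAlgebraic (P (τ ⊕ Λ) ⧸ 𝔮) (Ideal.Quotient.mk 𝔭 (X v)) := by
    rintro (i | l | μ)
    · simpa [hr] using hr' (X (Sum.inl i))
    · simpa [hr] using hr' (X (Sum.inr l))
    · obtain ⟨f, hf⟩ := hN j μ
      have h0 : Ideal.Quotient.mk 𝔮 (X (Sum.inl j) ^ N) ≠ 0 := fun h => hj <| hp.mem_of_pow_mem N <| by
        simpa [hq, hr] using Ideal.Quotient.eq_zero_iff_mem.1 h
      refine IsAlgebraic.of_mul (mem_nonZeroDivisors_of_ne_zero ?_)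
        (hr' (X (Sum.inl j) ^ N)) ?_
      · rw [← hφ]
        exact (map_ne_zero_iff _ (FaithfulSMul.algebraMap_injective _ _)).2 h0
      · rw [← map_mul, map_pow, rename_X]
        exact (Ideal.Quotient.eq.2 hf).symm ▸ hr' f
  have : Algebra.IsAlgebraic (P (τ ⊕ Λ) ⧸ 𝔮) (P (τ ⊕ (Λ ⊕ Mu)) ⧸ 𝔭) := ⟨fun x => by
    obtain ⟨p, rfl⟩ := Ideal.Quotient.mk_surjective x
    induction p using MvPolynomial.induction_on with
    | C a => simpa using hr' (C a)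
    | add p q hp hq => exact map_add (Ideal.Quotient.mk 𝔭) p q ▸ hp.add hq
    | mul_X p v hp => exact map_mul (Ideal.Quotient.mk 𝔭) p (X v) ▸ hp.mul (hX v)⟩
  have h := trdeg_add_eq ℂ (P (τ ⊕ Λ) ⧸ 𝔮) (A := P (τ ⊕ (Λ ⊕ Mu)) ⧸ 𝔭)
  rw [trdeg_eq_zero (R := P (τ ⊕ Λ) ⧸ 𝔮), add_zero] at h
  exact (congrArg Cardinal.toNat h).ge

end PartHMu

section PartHKos0

variable {ρ E : Type} [Fintype ρ] [Fintype E] {w : ρ → G2}

theorem hkos0_aux {R M : Type*} [CommRing R] [AddCommGroup M] [Module R M] (Λ : Submodule R M) (s : R)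
    (f k x : ℕ → M) (hx : ∀ j, s • (f j - k j) = x j) (h0 : k 0 ∈ Λ) (h : ∀ j, k (j + 1) - x j ∈ Λ)
    (c : ℕ) :
    s • (∑ j ∈ Finset.range (c + 1), ((-1) ^ j * s ^ (c - j)) • f j) - ((-1 : R) ^ c) • x c ∈ Λ := by
  induction c with
  | zero =>
    have : s • (∑ j ∈ Finset.range (0 + 1), ((-1) ^ j * s ^ (0 - j)) • f j) - ((-1 : R) ^ 0) • x 0
        = s • k 0 := by
      rw [← hx 0]
      simp [smul_sub]
    rw [this]
    exact Λ.smul_mem _ h0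
  | succ c ih =>
    have h1 : ∑ j ∈ Finset.range (c + 1), ((-1) ^ j * s ^ (c + 1 - j)) • f j
        = s • ∑ j ∈ Finset.range (c + 1), ((-1) ^ j * s ^ (c - j)) • f j := by
      rw [Finset.smul_sum]
      refine Finset.sum_congr rfl fun j hj => ?_
      have hj' : c + 1 - j = (c - j) + 1 := by
        have := Finset.mem_range.1 hj
        omega
      rw [hj', smul_smul, pow_succ]
      congr 1
      ring
    rw [Finset.sum_range_succ, h1]
    set T := ∑ j ∈ Finset.range (c + 1), ((-1) ^ j * s ^ (c - j)) • f j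
    have : s • (s • T + ((-1) ^ (c + 1) * s ^ (c + 1 - (c + 1))) • f (c + 1))
        - ((-1 : R) ^ (c + 1)) • x (c + 1)
        = s • (s • T - ((-1 : R) ^ c) • x c) + ((-1) ^ (c + 1) * s) • (k (c + 1) - x c) := by
      rw [← hx (c + 1), Nat.sub_self, pow_succ]
      module
    rw [this]
    exact Λ.add_mem (Λ.smul_mem _ ih) (Λ.smul_mem _ (h c))

theorem euler_char (hw : Posw w) {e : G2} {d : (E → P ρ) →ₗ[P ρ] (E → P ρ)} (hd : Grd w 0 0 e d)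
    (S : ℕ → Submodule (P ρ) (E → P ρ)) (hS' : ∀ j, HomM w 0 (S j))
    {Q : Submodule (P ρ) (E → P ρ)} (hQ : HomM w 0 Q) (c : ℕ) (htop : (S c).map d ≤ Q)
    (Λ : Submodule (RG G2) (Fn G2)) (h0 : dM w 0 (S 0 ⊓ Q.comap d) - dM w 0 Q ∈ Λ)
    (h : ∀ j, dM w 0 (S (j + 1) ⊓ Q.comap d) - dM w 0 ((S j).map d ⊔ Q) ∈ Λ) :
    ∑ j ∈ Finset.range (c + 1), ((-1) ^ j * sh e ^ (c - j)) • (dM w 0 (S j) - dM w 0 Q) ∈ Λ := by
  have key := hkos0_aux Λ (sh e) (fun j => dM w 0 (S j) - dM w 0 Q)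
    (fun j => dM w 0 (S j ⊓ Q.comap d) - dM w 0 Q) (fun j => dM w 0 ((S j).map d ⊔ Q) - dM w 0 Q)
    (fun j => by rw [sub_sub_sub_cancel_right]; exact dM_map hw hd (hS' j) hQ) h0
    (fun j => by rw [sub_sub_sub_cancel_right]; exact h j) c
  rw [sup_eq_right.2 htop, sub_self, smul_zero, sub_zero] at key
  exact (sh_mem_iff Λ e).1 key

end PartHKos0

end Pool.Agent.MP_429080_ag.H26
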