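import Pool.Agent.MP_429080_ag.CI.Grade
import Pool.Agent.MP_429080_ag.CI.Series
import Pool.Agent.MP_429080_ag.CI.Mult

namespace Pool.Agent.MP_429080_ag.H26

open MvPolynomial Filter Module Pool.Agent.EGH Pool.Agent.MP_d171e3_nt

set_option linter.unusedSectionVars false

section PartHFrm

variable {τ ι : Type} [Fintype τ] [Fintype ι] {Z : Set (τ → ℂ)}
  {K : Submodule (P τ) (ι → P τ)} {r : ℕ}

theorem hfrm_span (hK : HomM (w0 τ) 0 K) (z : τ → ℂ) : Submodule.span ℂ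
    {x | ∃ (q : ι → P τ) (d : ℕ), q ∈ K ∧ IsH (w0 τ) 0 ((d : ℤ), 0) q ∧ ev z q = x} = fb K z := by
  refine le_antisymm (Submodule.span_le.2 fun x ⟨q, _, hq, _, e⟩ => ⟨q, hq, e⟩) ?_
  rintro _ ⟨q, hq, rfl⟩
  obtain ⟨s, hs⟩ := exists_sum_vc (w0 τ) 0 q
  rw [hs, map_sum]
  refine Submodule.sum_mem _ fun g _ => ?_
  by_cases h : vc (w0 τ) 0 g q = 0
  · rw [h, map_zero]
    exact Submodule.zero_mem _
  · obtain ⟨i, hi⟩ := Function.ne_iff.1 h
    obtain ⟨d, hd, -⟩ := (isWH_w0_cases (isH_vc g q i)).resolve_left hi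
    obtain rfl : g = ((d : ℤ), 0) := by simpa using hd
    exact Submodule.subset_span ⟨_, d, hK _ q hq, isH_vc _ q, rfl⟩

theorem hfrm_basis (hK : HomM (w0 τ) 0 K) {z : τ → ℂ} (hr : finrank ℂ (fb K z) = r) {j : τ}
    (hj : z j ≠ 0) : ∃ (D : ℕ) (s : Fin r → ι → P τ),
      (∀ i, s i ∈ K ∧ IsH (w0 τ) 0 ((D : ℤ), 0) (s i)) ∧
        LinearIndependent ℂ fun i => ev z (s i) := by
  rw [← hfrm_span hK] at hr
  subst hr
  obtain ⟨f, hf, -, hl⟩ := Submodule.exists_fun_fin_finrank_span_eq ℂ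
    {x | ∃ (q : ι → P τ) (d : ℕ), q ∈ K ∧ IsH (w0 τ) 0 ((d : ℤ), 0) q ∧ ev z q = x}
  choose t d h1 h2 h3 using hf
  refine ⟨Finset.univ.sup d, fun i => (X j : P τ) ^ (Finset.univ.sup d - d i) • t i,
    fun i => ⟨K.smul_mem _ (h1 i), fun a => ?_⟩, ?_⟩
  · have h4 := h2 i a
    simp only [Pi.zero_apply, sub_zero, isWH_w0] at h4 ⊢
    have h5 := ((isHomogeneous_X ℂ j).pow (Finset.univ.sup d - d i)).mul h4
    rwa [one_mul, Nat.sub_add_cancel (Finset.le_sup (Finset.mem_univ i))] at h5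
  · refine (congrArg (LinearIndependent ℂ ·) (funext fun i => ?_)).mp
      (hl.units_smul fun i => Units.mk0 _ (pow_ne_zero (Finset.univ.sup d - d i) hj))
    simp [ev_smul, h3]

theorem frame (hZ : Cn Z) (hK : VB Z K r) {z₀ : τ → ℂ} (hz : z₀ ∈ Z) (h0 : z₀ ≠ 0) :
    ∃ (D : ℕ) (s : Fin r → ι → P τ) (B : Matrix (Fin r) ι (P τ)) (Δ : P τ) (l : Fin r → ι → ℂ),
      (∀ i, s i ∈ K ∧ IsH (w0 τ) 0 ((D : ℤ), 0) (s i)) ∧ eval z₀ Δ ≠ 0 ∧
      (∀ q ∈ K, ∑ i, B.mulVec q i • s i - Δ • q ∈ pw ι (vI Z)) ∧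
      (∀ a : Fin r → P τ, ∑ i, a i • s i ∈ pw ι (vI Z) → ∀ i, a i ∈ vI Z) ∧
      ∀ z ∈ Z, z ≠ 0 → eval z Δ ≠ 0 → ∀ x ∈ fb K z, (∀ i, l i ⬝ᵥ x = 0) → x = 0 := by
  classical
  obtain ⟨j, hj⟩ := Function.ne_iff.1 h0
  obtain ⟨D, s, hs, hl⟩ := hfrm_basis hK.hom (hK.rk z₀ hz h0) hj
  set S : Matrix ι (Fin r) (P τ) := Matrix.of fun a i => s i a with hS
  have hsum : ∀ a : Fin r → P τ, ∑ i, a i • s i = S.mulVec a := fun a => by
    ext1 b
    simp [hS, Matrix.mulVec, dotProduct, mul_comm]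
  obtain ⟨g, hg⟩ := LinearMap.exists_leftInverse_of_injective (S.map (eval z₀)).mulVecLin
    (LinearMap.ker_eq_bot.2 (Matrix.mulVec_injective_iff.2 hl))
  set L := LinearMap.toMatrix' g with hL
  have hLS : L * S.map (eval z₀) = 1 := by
    rw [hL, ← LinearMap.toMatrix'_id, ← hg, LinearMap.toMatrix'_comp, ← Matrix.toLin'_apply',
      LinearMap.toMatrix'_toLin']
  obtain ⟨N, hC⟩ : ∃ N : Matrix (Fin r) ι (P τ), ∀ z : τ → ℂ, N.map (eval z) = L :=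
    ⟨L.map C, fun z => by ext a b; simp⟩
  have hdet : ∀ z : τ → ℂ, eval z (N * S).det = (L * S.map (eval z)).det :=
    fun z => by rw [RingHom.map_det, RingHom.mapMatrix_apply, Matrix.map_mul, hC]
  set M := N * S with hM
  have h2 : eval z₀ M.det ≠ 0 := by simp [hdet, hLS]
  have h5 : ∀ z ∈ Z, z ≠ 0 → eval z M.det ≠ 0 → ∀ x ∈ fb K z, L.mulVec x = 0 → x = 0 := by
    intro z hz h0 hd x hx hLx
    rw [hdet] at hd
    have h6 : ∀ c, L.mulVec ((S.map (eval z)).mulVec c) = 0 → c = 0 := fun c hc =>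
      Matrix.eq_zero_of_mulVec_eq_zero hd (by rwa [← Matrix.mulVec_mulVec])
    have h7 : LinearMap.range (S.map (eval z)).mulVecLin = fb K z := by
      refine Submodule.eq_of_le_of_finrank_eq ?_ ?_
      · rintro _ ⟨c, rfl⟩
        refine ⟨S.mulVec fun i => C (c i), ?_, ?_⟩
        · rw [← hsum]
          exact K.sum_mem fun i _ => K.smul_mem _ (hs i).1
        · rw [evL_apply, ev_mulVec]
          congr 1
          ext i
          simp [ev]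
      · rw [hK.rk z hz h0, LinearMap.finrank_range_of_inj, finrank_fin_fun]
        exact LinearMap.ker_eq_bot.1 (LinearMap.ker_eq_bot'.2 fun c hc => h6 c (by
          rw [show (S.map (eval z)).mulVec c = 0 from hc, Matrix.mulVec_zero]))
    obtain ⟨c, rfl⟩ := h7.ge hx
    rw [h6 c hLx, map_zero]
  refine ⟨D, s, M.adjugate * N, M.det, L, hs, h2, fun q hq => ?_, fun a ha i => ?_,
    fun z hz h0 hd x hx h => h5 z hz h0 hd x hx (funext h)⟩
  · refine mem_pw.2 fun a => mem_of_vanish hZ.prime (g := M.det * X j)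
      (fun h => mul_ne_zero h2 hj (by simpa using mem_van.1 h z₀ hz)) fun y hy hne => ?_
    rw [hZ.closed] at hy
    rw [map_mul, eval_X, mul_ne_zero_iff] at hne
    refine congrFun (h5 y hy (fun e => hne.2 (congrFun e j)) hne.1 (ev y _) ⟨_, K.sub_mem
      (K.sum_mem fun i _ => K.smul_mem _ (hs i).1) (K.smul_mem _ hq), rfl⟩ ?_) a
    rw [← hC y, ← ev_mulVec, hsum, Matrix.mulVec_sub, Matrix.mulVec_mulVec, Matrix.mulVec_mulVec,
      ← hM, ← Matrix.mul_assoc, Matrix.mul_adjugate, Matrix.smul_mul, Matrix.one_mul,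
      Matrix.smul_mulVec, Matrix.mulVec_smul, sub_self]
    exact map_zero (evL _ y)
  · have h6 := mulVec_mem_pw (M.adjugate * N) ha
    rw [hsum, Matrix.mulVec_mulVec, Matrix.mul_assoc, ← hM, Matrix.adjugate_mul,
      Matrix.smul_mulVec, Matrix.one_mulVec] at h6
    exact (hZ.prime.mem_or_mem (mem_pw.1 h6 i)).resolve_left fun h => h2 (mem_van.1 h z₀ hz)

end PartHFrm

section PartHQP

variable {τ ι ρ : Type} [Fintype τ] [Fintype ι] [Fintype ρ] {Z : Set (τ → ℂ)}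
  {K : Submodule (P τ) (ι → P τ)} {F : (τ → ℂ) → Submodule ℂ (ι → ℂ)} {k : ℕ}

theorem hqp_col {A : Matrix ι ι (P τ)} (h : ∀ q, A.mulVec q ∈ K) (b : ι) :
    (fun a => A a b) ∈ K := by
  classical
  have := h (Pi.single b 1)
  rwa [Matrix.mulVec_single_one] at this

theorem exists_qp (hZ : Cn Z) (hK : VB Z K k) : ∃ N A, QP Z K N A := by
  let 𝔥 : Ideal (P τ) :=
    { carrier := {h | ∃ A : Matrix ι ι (P τ), (∀ q, A.mulVec q ∈ K) ∧
        ∀ q ∈ K, A.mulVec q - h • q ∈ pw ι (vI Z)}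
      zero_mem' := ⟨0, fun q => by simp, fun q _ => by simp⟩
      add_mem' := by
        rintro a b ⟨A, h1, h2⟩ ⟨B, h3, h4⟩
        refine ⟨A + B, fun q => ?_, fun q hq => ?_⟩
        · rw [Matrix.add_mulVec]
          exact K.add_mem (h1 q) (h3 q)
        · rw [Matrix.add_mulVec, add_smul, add_sub_add_comm]
          exact Submodule.add_mem _ (h2 q hq) (h4 q hq)
      smul_mem' := by
        rintro c a ⟨A, h1, h2⟩
        refine ⟨c • A, fun q => ?_, fun q hq => ?_⟩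
        · rw [Matrix.smul_mulVec]
          exact K.smul_mem c (h1 q)
        · rw [Matrix.smul_mulVec, smul_eq_mul, mul_smul, ← smul_sub]
          exact Submodule.smul_mem _ c (h2 q hq) }
  obtain ⟨N, hN, hX⟩ := hZ.null_pow (𝔥 := 𝔥)
    (fun h hh => ⟨0, fun q => by simp, fun q _ => mem_pw.2 fun i => by
      simpa using Ideal.mul_mem_right (q i) _ hh⟩) (fun z hz h0 => by
      obtain ⟨D, s, B, Δ, l, h1, h2, h3, -⟩ := frame hZ hK hz h0
      have e : ∀ q, ((Matrix.of s).transpose * B).mulVec q = ∑ i, B.mulVec q i • s i := fun q => by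
        rw [← Matrix.mulVec_mulVec, Matrix.mulVec_transpose, Matrix.vecMul_eq_sum]
        rfl
      refine ⟨Δ, ⟨(Matrix.of s).transpose * B, fun q => ?_, fun q hq => ?_⟩, h2⟩
      · rw [e]
        exact K.sum_mem fun i _ => K.smul_mem _ (h1 i).1
      · rw [e]
        exact h3 q hq)
  choose A hA1 hA2 using hX
  refine ⟨N, fun j => (A j).map (weightedHomogeneousComponent (w0 τ) ((N : ℤ), 0)), hN,
    fun j a b => weightedHomogeneousComponent_isWeightedHomogeneous _ _, fun j q => ?_,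
    fun j q hq => ?_⟩
  · rw [Matrix.mulVec_eq_sum]
    refine K.sum_mem fun b _ => ?_
    have h1 := K.smul_mem (q b) (hK.hom ((N : ℤ), 0) _ (hqp_col (hA1 j) b))
    convert h1 using 1
    funext a
    simp [vc, mul_comm]
  · obtain ⟨s, hs⟩ := exists_sum_vc (w0 τ) 0 q
    rw [hs, Matrix.mulVec_sum, Finset.smul_sum, ← Finset.sum_sub_distrib]
    refine Submodule.sum_mem _ fun g _ => ?_
    have h1 := homM_pw (u := (0 : ι → G2)) hZ.homI (g + ((N : ℤ), 0)) _ (hA2 j _ (hK.hom g q hq))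
    have hx : (X j ^ N : P τ).IsWeightedHomogeneous (w0 τ) ((N : ℤ), 0) :=
      isWH_w0.2 (by simpa using (isHomogeneous_X ℂ j).pow N)
    rw [vc_sub, vc_smul hx, add_sub_cancel_right, (isH_vc g q).vc_same] at h1
    convert h1 using 2
    funext a
    simp only [vc, Matrix.mulVec, dotProduct, map_sum, Matrix.map_apply, Pi.zero_apply, sub_zero]
    refine Finset.sum_congr rfl fun b _ => ?_
    rw [wc_mul (weightedHomogeneousComponent_isWeightedHomogeneous g (q b)), add_sub_cancel_left]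

theorem QP.act_pt {N : ℕ} {A : τ → Matrix ι ι (P τ)} (h : QP Z K N A) {z : τ → ℂ} (hz : z ∈ Z)
    (j : τ) {x : ι → ℂ} (hx : x ∈ fb K z) :
    ((A j).map (eval z)).mulVec x = z j ^ N • x := by
  obtain ⟨q, hq, rfl⟩ := mem_fb.1 hx
  have h1 := ev_pw (mem_vZ.2 fun f hf => mem_van.1 hf z hz) (h.act j q hq)
  rw [← evL_apply, map_sub, evL_apply, evL_apply, ev_mulVec, ev_smul, sub_eq_zero] at h1
  simpa using h1

theorem QP.mem_pt {N : ℕ} {A : τ → Matrix ι ι (P τ)} (h : QP Z K N A) (z : τ → ℂ) (j : τ)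
    (x : ι → ℂ) : ((A j).map (eval z)).mulVec x ∈ fb K z := by
  refine mem_fb.2 ⟨_, h.mem j fun i => C (x i), ?_⟩
  rw [ev_mulVec]
  congr 1
  funext i
  simp [ev]

theorem QP.am_mul [DecidableEq ι] {N : ℕ} {A : τ → Matrix ι ι (P τ)} (h : QP Z K N A) (i j : τ)
    (a b : ι) : (am id N A i * A j) a b ∈ vI Z := by
  have h1 := (vI Z).neg_mem (mem_pw.1 (h.act i _ (hqp_col (h.mem j) b)) a)
  convert h1 using 1
  rw [am, Matrix.sub_mul, Matrix.sub_apply, Matrix.diagonal_mul, Matrix.mul_apply]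
  simp [Matrix.mulVec, dotProduct]

theorem linv (hZ : Cn Z) {Mu : Type} [Fintype Mu] [DecidableEq Mu] (Γ : Mu → ι → P τ)
    (h : ∀ z ∈ Z, z ≠ 0 → LinearIndependent ℂ fun μ => ev z (Γ μ)) :
    ∃ (N : ℕ) (B : τ → Mu → ι → P τ), ∀ j μ μ',
      ∑ a, B j μ a * Γ μ' a - (if μ = μ' then X j ^ N else 0) ∈ vI Z := by
  classical
  let 𝔥 : Ideal (P τ) :=
    { carrier := {h | ∃ B : Mu → ι → P τ, ∀ μ μ',
        ∑ a, B μ a * Γ μ' a - (if μ = μ' then h else 0) ∈ vI Z}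
      zero_mem' := ⟨0, fun μ μ' => by simp⟩
      add_mem' := by
        rintro a b ⟨A, h1⟩ ⟨B, h2⟩
        refine ⟨A + B, fun μ μ' => ?_⟩
        convert (vI Z).add_mem (h1 μ μ') (h2 μ μ') using 1
        simp only [Pi.add_apply, add_mul, Finset.sum_add_distrib]
        split_ifs <;> ring
      smul_mem' := by
        rintro c a ⟨A, h1⟩
        refine ⟨c • A, fun μ μ' => ?_⟩
        convert (vI Z).mul_mem_left c (h1 μ μ') using 1
        simp only [Pi.smul_apply, smul_eq_mul, mul_assoc, ← Finset.mul_sum]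
        split_ifs <;> ring }
  obtain ⟨N, -, hX⟩ := hZ.null_pow (𝔥 := 𝔥)
    (fun f hf => ⟨0, fun μ μ' => by split_ifs <;> simp [hf]⟩) (fun z hz h0 => by
      let G : Matrix ι Mu (P τ) := (Matrix.of Γ).transpose
      have hi : Function.Injective (G.map (eval z)).mulVec :=
        Matrix.mulVec_injective_iff.2 (h z hz h0)
      obtain ⟨g, hg⟩ := (Matrix.toLin' (G.map (eval z))).exists_leftInverse_of_injective
        (LinearMap.ker_eq_bot.2 hi)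
      have h1 : LinearMap.toMatrix' g * G.map (eval z) = 1 := by
        have := congrArg LinearMap.toMatrix' hg
        rwa [LinearMap.toMatrix'_comp, LinearMap.toMatrix'_toLin', LinearMap.toMatrix'_id] at this
      let L : Matrix Mu ι (P τ) := (LinearMap.toMatrix' g).map C
      refine ⟨(L * G).det, ⟨(L * G).adjugate * L, fun μ μ' => ?_⟩, ?_⟩
      · have h2 : ((L * G).adjugate * L * G) μ μ' = if μ = μ' then (L * G).det else 0 := by
          rw [Matrix.mul_assoc, Matrix.adjugate_mul]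
          simp [Matrix.one_apply]
        rw [← h2, Matrix.mul_apply (M := (L * G).adjugate * L)]
        simp [G]
      · have h2 : L.map (eval z) = LinearMap.toMatrix' g := by
          ext a b
          simp [L]
        rw [RingHom.map_det, RingHom.mapMatrix_apply, Matrix.map_mul, h2, h1, Matrix.det_one]
        exact one_ne_zero)
  choose B hB using hX
  exact ⟨N, B, hB⟩

theorem alg_closed (hZ : Cn Z) (hF : Alg Z F k) (κ : (ρ → ℂ) →ₗ[ℂ] (τ → ℂ)) {𝔮 : Ideal (P ρ)}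
    (hq : 𝔮.IsPrime) (ho : ∀ y ∈ vZ 𝔮, κ y ∈ Z) (α : ι → ℂ) {g : P ρ} (hg : g ∉ 𝔮)
    (h : ∀ y ∈ vZ 𝔮, eval y g ≠ 0 → κ y ≠ 0 → α ∈ F (κ y)) :
    ∀ y ∈ vZ 𝔮, κ y ≠ 0 → α ∈ F (κ y) := by
  obtain ⟨K, hK, hKF⟩ := hF
  obtain ⟨N, A, hA⟩ := exists_qp hZ hK
  have he : ∀ j a y, eval y (∑ b, pull κ (A j a b) * C (α b) - pull κ (X j) ^ N * C (α a)) =
      ((A j).map (eval (κ y))).mulVec α a - (κ y j ^ N • α) a := fun j a y => by
    simp only [map_sub, map_sum, map_mul, map_pow, eval_pull, eval_C, eval_X]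
    rfl
  have hm : ∀ j a, ∑ b, pull κ (A j a b) * C (α b) - pull κ (X j) ^ N * C (α a) ∈ 𝔮 := by
    intro j a
    refine mem_of_vanish hq hg fun y hy hgy => ?_
    rw [he]
    by_cases h0 : κ y = 0
    · have h1 : ∀ b, constantCoeff (A j a b) = 0 := fun b => by
        have := eval_smul_hom (isWH_w0.1 (hA.hom j a b)) 0 0
        rwa [zero_smul, zero_pow hA.pos.ne', zero_mul, eval_zero] at this
      simp [h0, Matrix.mulVec, dotProduct, h1, hA.pos.ne']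
    · have h1 := h y hy hgy h0
      rw [← hKF _ (ho y hy) h0] at h1
      rw [hA.act_pt (ho y hy) j h1, sub_self]
  intro y hy h0
  obtain ⟨j, hj⟩ := Function.ne_iff.1 h0
  have h1 := hA.mem_pt (κ y) j α
  have h2 : ((A j).map (eval (κ y))).mulVec α = κ y j ^ N • α := funext fun a => by
    rw [← sub_eq_zero, ← he]
    exact mem_vZ.1 hy _ (hm j a)
  rw [h2, hKF _ (ho y hy) h0] at h1
  exact (Submodule.smul_mem_iff _ (pow_ne_zero N hj)).1 h1

end PartHQP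

section PartHSec

variable {τ ι ρ : Type} [Fintype τ] [Fintype ι] [Fintype ρ] {Z : Set (τ → ℂ)}
  {K : Submodule (P τ) (ι → P τ)} {F : (τ → ℂ) → Submodule ℂ (ι → ℂ)} {k : ℕ}

theorem hsec_mem {r : τ → ρ} {𝔭 : Ideal (P ρ)} {q : ι → P ρ} :
    q ∈ SecR r 𝔭 F ↔ ∀ y ∈ vZ 𝔭, y ∘ r ≠ 0 → ev y q ∈ F (y ∘ r) :=
  ⟨fun h y h1 h2 => h y ⟨h1, h2⟩, fun h y hy => h y hy.1 hy.2⟩

theorem pw_le_secR (r : τ → ρ) (𝔭 : Ideal (P ρ)) (F : (τ → ℂ) → Submodule ℂ (ι → ℂ)) :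
    pw ι 𝔭 ≤ SecR r 𝔭 F := fun q hq => hsec_mem.2 fun y hy _ => by
  rw [ev_pw hy hq]
  exact Submodule.zero_mem _

theorem mem_secR_id (hZ : Cn Z) {q : ι → P τ} :
    q ∈ SecR id (vI Z) F ↔ ∀ z ∈ Z, z ≠ 0 → ev z q ∈ F z := by
  rw [hsec_mem, hZ.closed]
  rfl

theorem mem_pw_of_vanish {𝔭 : Ideal (P ρ)} (hp : 𝔭.IsPrime) (r : τ → ρ) (hn : ∃ j, X (r j) ∉ 𝔭)
    {q : ι → P ρ} (h : ∀ y ∈ vZ 𝔭, y ∘ r ≠ 0 → ev y q = 0) : q ∈ pw ι 𝔭 :=
  mem_pw.2 fun i => mem_of_vanish_off hp r hn fun y hy h0 => congrFun (h y hy h0) i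

theorem hsec_am [DecidableEq ι] (r : τ → ρ) (N : ℕ) (A : τ → Matrix ι ι (P τ)) (j : τ)
    (q : ι → P ρ) : (am r N A j).mulVec q =
      (X (r j) : P ρ) ^ N • q - ((A j).map (rename r)).mulVec q := by
  rw [am, Matrix.sub_mulVec]
  congr 1
  ext1 a
  rw [Matrix.mulVec_diagonal]
  rfl

theorem hsec_ev [DecidableEq ι] (r : τ → ρ) (N : ℕ) (A : τ → Matrix ι ι (P τ)) (j : τ)
    (q : ι → P ρ) (y : ρ → ℂ) : ev y ((am r N A j).mulVec q) =
      y (r j) ^ N • ev y q - ((A j).map (eval (y ∘ r))).mulVec (ev y q) := by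
  have h : ((A j).map (rename r)).map (eval y) = (A j).map (eval (y ∘ r)) := by
    ext a b
    simp only [Matrix.map_apply, eval_rename]
  rw [hsec_am, ← evL_apply, map_sub, evL_apply, evL_apply, ev_smul, ev_mulVec, h, map_pow, eval_X]

theorem sec_phi [DecidableEq ι] {N : ℕ} {A : τ → Matrix ι ι (P τ)} (h : QP Z K N A)
    (hF : ∀ z ∈ Z, z ≠ 0 → fb K z = F z) (r : τ → ρ) {𝔭 : Ideal (P ρ)} (hp : 𝔭.IsPrime)
    (ho : ∀ y ∈ vZ 𝔭, y ∘ r ∈ Z) (hn : ∃ j, X (r j) ∉ 𝔭) :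
    SecR r 𝔭 F = Phi (am r N A) 𝔭 ⊤ := by
  ext q
  rw [hsec_mem, mem_Phi]
  constructor
  · intro hq
    refine ⟨mem_pw.2 fun _ => trivial, fun j => mem_pw_of_vanish hp r hn fun y hy h0 => ?_⟩
    have h1 := hq y hy h0
    rw [← hF _ (ho y hy) h0] at h1
    rw [hsec_ev, h.act_pt (ho y hy) j h1]
    exact sub_self _
  · rintro ⟨-, hq⟩ y hy h0
    obtain ⟨j, hj⟩ := Function.ne_iff.1 h0
    have h1 := ev_pw hy (hq j)
    rw [hsec_ev, sub_eq_zero] at h1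
    have h2 := h.mem_pt (y ∘ r) j (ev y q)
    rw [← h1, hF _ (ho y hy) h0] at h2
    exact (Submodule.smul_mem_iff _ (pow_ne_zero N hj)).1 h2

theorem homM_secR (hZ : Cn Z) (hF : Alg Z F k) {w : ρ → G2} {r : τ → ρ}
    (hr : ∀ j, w (r j) = (1, 0)) {𝔭 : Ideal (P ρ)} (hp : 𝔭.IsPrime) (hh : HomI w 𝔭)
    (ho : ∀ y ∈ vZ 𝔭, y ∘ r ∈ Z) (hn : ∃ j, X (r j) ∉ 𝔭) : HomM w 0 (SecR r 𝔭 F) := by
  classical
  obtain ⟨K, hK, hKF⟩ := hF
  obtain ⟨N, A, h⟩ := exists_qp hZ hK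
  rw [sec_phi h hKF r hp ho hn]
  exact homM_Phi (e := fun _ => ((N : ℤ), 0)) (am_hom hr h.hom) hh homI_top

theorem hsec_ovr (hZ : Cn Z) : ∀ y ∈ vZ (vI Z), y ∘ id ∈ Z := fun _ hy => hZ.closed ▸ hy

theorem homM_secR_id (hZ : Cn Z) (hF : Alg Z F k) : HomM (w0 τ) 0 (SecR id (vI Z) F) :=
  homM_secR (w := w0 τ) (r := id) hZ hF (fun _ => rfl) hZ.prime hZ.homI (hsec_ovr hZ) hZ.exists_X

theorem sec_cmp (hZ : Cn Z) (hK : VB Z K k) (hF : ∀ z ∈ Z, z ≠ 0 → fb K z = F z)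
    {K' : Submodule (P τ) (ι → P τ)} (hK' : HomM (w0 τ) 0 K') (h1 : K ≤ K')
    (h2 : K' ≤ SecR id (vI Z) F) : dM (w0 τ) 0 (SecR id (vI Z) F) - dM (w0 τ) 0 K' ∈ Nall := by
  classical
  obtain ⟨N, A, h⟩ := exists_qp hZ hK
  have hX : ∀ j, (X j : P τ) ^ N ∈ K'.colon (SecR id (vI Z) F : Set (ι → P τ)) := by
    intro j
    refine Submodule.mem_colon.2 fun q hq => h1 ?_
    have h3 : q ∈ Phi (am id N A) (vI Z) ⊤ :=
      sec_phi h hF id hZ.prime (hsec_ovr hZ) hZ.exists_X ▸ hq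
    have h4 := hK.le ((mem_Phi.1 h3).2 j)
    have h5 : (A j).map (rename id) = A j := by
      ext1 a b
      simp
    rw [hsec_am, h5] at h4
    simpa using K.add_mem h4 (h.mem j q)
  have := dev (adm_w0 τ).posw Nall 1 (homM_secR_id hZ ⟨K, hK, hF⟩) hK' h2
    (K'.colon (SecR id (vI Z) F : Set (ι → P τ)))
    (fun a ha q hq => Submodule.mem_colon.1 ha q hq) fun I hI hle => by
      simpa using torg (adm_w0 τ) ∅ (by simp) _ (fun j _ _ => ⟨N, hX j⟩) hI hle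
  rwa [one_smul] at this

theorem cutk (hZ : Cn Z) (hF : Alg Z F k) (r : τ → ρ) {𝔮 : Ideal (P ρ)} (hq : 𝔮.IsPrime)
    (ho : ∀ y ∈ vZ 𝔮, y ∘ r ∈ Z) (v : ι → P ρ)
    (hv : ∀ y ∈ vZ 𝔮, y ∘ r ≠ 0 → ev y v ∈ F (y ∘ r)) {𝔭 : Ideal (P ρ)}
    (h : 𝔭 ∈ (𝔮 ⊔ Ideal.span (Set.range v)).minimalPrimes) (hn : ∃ j, X (r j) ∉ 𝔭) :
    dm 𝔮 ≤ dm 𝔭 + k := by
  obtain ⟨K, hK, hKF⟩ := hF
  obtain ⟨j, hj⟩ := hn
  have hp : 𝔭.IsPrime := h.isPrime
  have hqp : 𝔮 ≤ 𝔭 := le_sup_left.trans h.le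
  obtain ⟨y₀, hy₀, hy₀'⟩ := exists_pt hp hj
  have hne : ∀ y : ρ → ℂ, eval y (X (r j)) ≠ 0 → y ∘ r ≠ 0 := fun y hy h0 =>
    hy (by rw [eval_X]; exact congrFun h0 j)
  have hsub : ∀ {I : Ideal (P ρ)}, 𝔮 ≤ I → ∀ y ∈ vZ I, y ∈ vZ 𝔮 := fun hI y hy =>
    mem_vZ.2 fun f hf => mem_vZ.1 hy f (hI hf)
  obtain ⟨D, s, B, Δ, l, -, hΔ, -, -, h5⟩ := frame hZ hK (ho y₀ (hsub hqp y₀ hy₀)) (hne y₀ hy₀')
  let g : Fin k → P ρ := fun i => ∑ a, C (l i a) * v a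
  have hle : 𝔮 ⊔ Ideal.span (Set.range g) ≤ 𝔭 := by
    refine sup_le hqp (Ideal.span_le.2 ?_)
    rintro _ ⟨i, rfl⟩
    exact Ideal.sum_mem _ fun a _ => Ideal.mul_mem_left _ _
      (h.le (Ideal.mem_sup_right (Ideal.subset_span ⟨a, rfl⟩)))
  obtain ⟨𝔮', h', hle'⟩ := Ideal.exists_minimalPrimes_le hle
  have hqq : 𝔮 ≤ 𝔮' := le_sup_left.trans h'.le
  have hΔ' : rename r Δ * X (r j) ∉ 𝔮' := fun hm => by
    have := mem_vZ.1 hy₀ _ (hle' hm)
    rw [map_mul, eval_rename] at this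
    exact mul_ne_zero hΔ hy₀' this
  have hvq : ∀ a, v a ∈ 𝔮' := fun a => mem_of_vanish h'.isPrime hΔ' fun y hy h0 => by
    rw [map_mul, eval_rename, mul_ne_zero_iff] at h0
    have hyq := hsub hqq y hy
    have h1 := hv y hyq (hne y h0.2)
    rw [← hKF _ (ho y hyq) (hne y h0.2)] at h1
    refine congrFun (h5 _ (ho y hyq) (hne y h0.2) h0.1 _ h1 fun i => ?_) a
    have := mem_vZ.1 hy (g i) (h'.le (Ideal.mem_sup_right (Ideal.subset_span ⟨i, rfl⟩)))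
    simpa [g, dotProduct, ev] using this
  have he : 𝔮' = 𝔭 := by
    refine le_antisymm hle' (h.2 ⟨h'.isPrime, sup_le hqq (Ideal.span_le.2 ?_)⟩ hle')
    rintro _ ⟨a, rfl⟩
    exact hvq a
  have := cut hq g h'
  rwa [he, Fintype.card_fin] at this

end PartHSec

section PartHMul2

variable {τ ι η : Type} [Fintype τ] [Fintype ι] [Fintype η] {Z : Set (τ → ℂ)}
  {F : (τ → ℂ) → Submodule ℂ (ι → ℂ)} {k c : ℕ}

theorem mult (hZ : Cn Z) (hk : dm (vI Z) + k = Fintype.card τ) (hF : Alg Z F c) (γ : η → ℕ)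
    {𝔭 : Ideal (P (τ ⊕ η))} (hp : 𝔭.IsPrime) (hh : HomI (wt γ) 𝔭)
    (ho : ∀ y ∈ vZ 𝔭, y ∘ Sum.inl ∈ Z) (hn : ∃ j, X (Sum.inl j) ∉ 𝔭) {q q0 : Polynomial ℤ}
    (hq : Num (dm (vI Z)) (hS (w0 τ) id (vI Z) F) q)
    (hq0 : Num (dm (vI Z)) (hI (w0 τ) (vI Z)) q0) :
    ((1 - tt) ^ k * at1 q) • hI (wt γ) 𝔭 -
      ((1 - tt) ^ k * at1 q0) • hS (wt γ) Sum.inl 𝔭 F ∈ Nall := by
  classical
  obtain ⟨K, hK, hKF⟩ := hF
  obtain ⟨N, A, hA⟩ := exists_qp hZ hK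
  have e1 : hS (w0 τ) id (vI Z) F = hPhi (w0 τ) (am id N A) (vI Z) ⊤ := by
    rw [hS, hPhi, sec_phi hA hKF id hZ.prime (fun y hy => hZ.closed ▸ hy) hZ.exists_X]
  have e2 : hS (wt γ) Sum.inl 𝔭 F = hPhi (wt γ) (am Sum.inl N A) 𝔭 ⊤ := by
    rw [hS, hPhi, sec_phi hA hKF Sum.inl hp ho hn]
  rw [e1] at hq
  rw [e2]
  let w : τ ⊕ (τ ⊕ η) → G2 := Sum.elim (w0 τ) (wt γ)
  have hw : Adm w := (adm_w0 τ).elim (adm_wt γ)
  have hI1 : HomI (w ∘ Sum.inl) (vI Z) := hZ.homI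
  have hI2 : HomI (w ∘ Sum.inr) 𝔭 := hh
  have hJ : HomI w (jn Sum.inl Sum.inr (vI Z) 𝔭) :=
    (homI_map_rename _ hI1).sup (homI_map_rename _ hI2)
  have hv : ∀ f ∈ vI Z, rename (Sum.inl : τ → τ ⊕ η) f ∈ 𝔭 := fun f hf => by
    rw [← vI_vZ hp]
    refine mem_van.2 fun y hy => ?_
    rw [eval_rename]
    exact mem_van.1 hf _ (ho y hy)
  have h0 := mul_core (v := Sum.inl) (z := Sum.inr ∘ Sum.inl) hw (fun _ => rfl) (fun _ => rfl)
    (by
      rintro (j | j | l) hr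
      · exact Or.inl ⟨j, rfl⟩
      · exact Or.inr ⟨j, rfl⟩
      · exact absurd (congrArg Prod.snd hr) one_ne_zero)
    hA.hom hA.am_mul hJ (fun f hf => Ideal.mem_sup_left (Ideal.mem_map_of_mem _ hf))
    (fun f hf => by
      rw [← rename_rename]
      exact Ideal.mem_sup_right (Ideal.mem_map_of_mem _ (hv f hf)))
  have hb1 : Function.Bijective (Sum.elim (Sum.inl : τ → τ ⊕ (τ ⊕ η)) Sum.inr) := by
    rw [Sum.elim_inl_inr]
    exact Function.bijective_id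
  have hb2 : Function.Bijective (Sum.elim (Sum.inr : τ ⊕ η → τ ⊕ (τ ⊕ η)) Sum.inl) :=
    (Equiv.sumComm (τ ⊕ η) τ).bijective
  have hpow : ∀ {f : Fn G2} {p : Polynomial ℤ}, Num (dm (vI Z)) f p →
      (1 - tt) ^ Fintype.card τ • f = ((1 - tt) ^ k * at1 p) • dl G2 := fun {f p} h => by
    rw [← hk, add_comm, pow_add, mul_smul, mul_smul, h]
  have h1 := ten (w := w) hb1 hw.posw (a := am id N A) (e := fun _ => ((N : ℤ), 0))
    (am_hom (w := w0 τ) (r := id) (fun _ => rfl) hA.hom) hI1 hI2 (hpow hq)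
  have ha2 := am_hom (w := wt γ) (r := (Sum.inl : τ → τ ⊕ η)) (fun _ => rfl) hA.hom
  obtain ⟨ε, hε⟩ := hilbert_serre (adm_wt γ).posw
    (homM_Phi (e := fun _ => ((N : ℤ), 0)) ha2 hh homI_top) (homM_pw hh) (pw_le_Phi _ le_top)
  have h2 := ten (w := w) hb2 hw.posw (a := am Sum.inl N A) (e := fun _ => ((N : ℤ), 0))
    ha2 hI2 hI1 hε
  simp only [am_map] at h1 h2
  rw [jn, sup_comm, ← jn] at h2
  obtain ⟨φ, hφ⟩ := hw.posw
  have hφ' : ∀ v, 0 < φ (wt γ v) := fun v => hφ (Sum.inr v)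
  have h3 : (1 - tt) ^ Fintype.card τ •
      hPhi w (am (Sum.inr ∘ Sum.inl) N A) (jn Sum.inl Sum.inr (vI Z) 𝔭) ⊤ -
      ((1 - tt) ^ k * at1 q0) • hPhi (wt γ) (am Sum.inl N A) 𝔭 ⊤ = 0 := by
    refine cancel φ Finset.univ (wt γ) (fun v _ => hφ' v) (sub_mem
      (Submodule.smul_mem _ _ (sub_mem (dM_bdd hφ _) (dM_bdd hφ _)))
      (Submodule.smul_mem _ _ (sub_mem (dM_bdd hφ' _) (dM_bdd hφ' _)))) ?_
    rw [smul_sub, smul_comm, h2, smul_comm _ ε, smul_comm _ ((1 - tt) ^ k * at1 q0), hPhi, hε,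
      smul_comm _ ε, ← hpow hq0]
    exact sub_self _
  rw [smul_sub, sub_eq_zero.1 h3] at h0
  exact h1 ▸ h0

end PartHMul2

section PartHRk

variable {τ ι : Type} [Fintype τ] [Fintype ι] {Z : Set (τ → ℂ)}
  {K : Submodule (P τ) (ι → P τ)} {F : (τ → ℂ) → Submodule ℂ (ι → ℂ)} {r : ℕ}

theorem exn0 (hZ : Cn Z) : ∃ q, Num (dm (vI Z)) (hI (w0 τ) (vI Z)) q :=
  exists_num (sup_hI _) (dim0 _ hZ.homI fun _ hq hle => dm_anti hZ.prime hq hle)

theorem exn (hZ : Cn Z) (hK : HomM (w0 τ) 0 K) (hle : pw ι (vI Z) ≤ K) :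
    ∃ q, Num (dm (vI Z)) (dM (w0 τ) 0 K - dM (w0 τ) 0 (pw ι (vI Z))) q :=
  exists_num ((sup_dM _).sub (sup_dM _)) (dev (adm_w0 τ).posw Nall _ hK (homM_pw hZ.homI) hle (vI Z)
    (fun _ ha q _ => mem_pw.2 fun i => Ideal.mul_mem_right (q i) _ ha)
    fun _ hI h => dim0 _ hI fun _ hq h' => dm_anti hZ.prime hq (h.trans h'))

theorem exn_hS (hZ : Cn Z) (hF : Alg Z F r) : ∃ q, Num (dm (vI Z)) (hS (w0 τ) id (vI Z) F) q :=
  exn hZ (homM_secR_id hZ hF) (pw_le_secR id _ F)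

theorem rank_formula (hZ : Cn Z) (hK : VB Z K r) {q q0 : Polynomial ℤ}
    (hq : Num (dm (vI Z)) (dM (w0 τ) 0 K - dM (w0 τ) 0 (pw ι (vI Z))) q)
    (hq0 : Num (dm (vI Z)) (hI (w0 τ) (vI Z)) q0) : q.eval 1 = r * q0.eval 1 := by
  obtain ⟨z₀, hz, h0⟩ := hZ.ne
  obtain ⟨D, s, B, Δ, l, h1, hΔ, h3, h4, -⟩ := frame hZ hK hz h0
  have hw := (adm_w0 τ).posw
  have h5 := (hq0.zsmul (Fintype.card (Fin r) : ℤ)).sh_nat D
  rw [← dM_inj hw hZ.homI s (fun i => (h1 i).2) h4] at h5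
  have hh : HomM (w0 τ) 0 (Submodule.span (P τ) (Set.range s) ⊔ pw ι (vI Z)) :=
    (homM_span (by rintro _ ⟨i, rfl⟩; exact ⟨_, (h1 i).2⟩)).sup (homM_pw hZ.homI)
  have hle : Submodule.span (P τ) (Set.range s) ⊔ pw ι (vI Z) ≤ K :=
    sup_le (Submodule.span_le.2 (by rintro _ ⟨i, rfl⟩; exact (h1 i).1)) hK.le
  have hN := dev hw Nall ((1 - tt) ^ (dm (vI Z) - 1)) hK.hom hh hle (vI Z ⊔ Ideal.span {Δ})
    (fun a ha p hp => by
      obtain ⟨b, hb, c, hc, rfl⟩ := Submodule.mem_sup.1 ha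
      obtain ⟨c', rfl⟩ := Ideal.mem_span_singleton'.1 hc
      rw [add_smul, mul_smul]
      refine Submodule.add_mem _ (Submodule.mem_sup_right (mem_pw.2 fun i =>
        Ideal.mul_mem_right (p i) _ hb)) (Submodule.smul_mem _ _ ?_)
      rw [← sub_sub_cancel (∑ i, B.mulVec p i • s i) (Δ • p)]
      exact Submodule.sub_mem _ (Submodule.mem_sup_left (Submodule.sum_mem _ fun i _ =>
        Submodule.smul_mem _ _ (Submodule.subset_span ⟨i, rfl⟩))) (Submodule.mem_sup_right (h3 p hp)))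
    fun I hI h => dim0 _ hI fun 𝔮 hq' h' => by
      have := hZ.prime
      have hlt : vI Z < 𝔮 := by
        refine lt_of_le_of_ne (le_sup_left.trans (h.trans h')) fun he => hΔ ?_
        refine mem_van.1 (show Δ ∈ vI Z from he ▸ h' (h ?_)) z₀ hz
        exact Ideal.mem_sup_right (Ideal.mem_span_singleton_self Δ)
      have := dm_lt hlt
      omega
  have h6 := num_cmp ((sup_dM _).sub (sup_dM _)) ((sup_dM _).sub (sup_dM _)) hq h5
    (Nat.sub_le _ 1) (by rwa [sub_sub_sub_cancel_right])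
  have h7 : dm (vI Z) - (dm (vI Z) - 1) = 1 := by
    have := hZ.dm_pos
    omega
  rw [h7, pow_one] at h6
  obtain ⟨c, hc⟩ := h6
  have := congrArg (Polynomial.eval 1) hc
  simpa [sub_eq_zero] using this

theorem hrk_ev (z : τ → ℂ) (α : ι → ℂ) : ev z (fun s => C (α s)) = α := by
  ext s
  simp [ev]

theorem hrk_sum {κ : Type} [Fintype κ] (z : τ → ℂ) (a : κ → P τ) (α : κ → ι → ℂ) :
    ev z (∑ i, a i • fun s => (C (α i s) : P τ)) = ∑ i, eval z (a i) • α i := by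
  rw [← evL_apply, map_sum]
  exact Finset.sum_congr rfl fun i _ => by rw [evL_apply, ev_smul, hrk_ev]

theorem secR_const (hZ : Cn Z) (L : Submodule ℂ (ι → ℂ)) :
    SecR id (vI Z) (fun _ => L) =
      Submodule.span (P τ) {q | ∃ α ∈ L, (fun s => C (α s)) = q} ⊔ pw ι (vI Z) := by
  classical
  refine le_antisymm (fun q hq => ?_) (sup_le (Submodule.span_le.2 ?_) (pw_le_secR id _ _))
  · obtain ⟨g, hg⟩ := L.subtype.exists_leftInverse_of_injective L.ker_subtype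
    rw [← add_sub_cancel (∑ b, q b • fun s => (C ((g (Pi.single b 1) : ι → ℂ) s) : P τ)) q]
    refine Submodule.add_mem _ (Submodule.mem_sup_left (Submodule.sum_mem _ fun b _ =>
      Submodule.smul_mem _ _ (Submodule.subset_span ⟨_, (g _).2, rfl⟩)))
      (Submodule.mem_sup_right (mem_pw.2 fun i => hZ.mem_of_vanish fun z hz h0 => ?_))
    have h1 : (g (ev z q) : ι → ℂ) = ev z q :=
      congrArg Subtype.val (LinearMap.congr_fun hg ⟨_, (mem_secR_id hZ).1 hq z hz h0⟩)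
    have h2 : ev z q = ∑ b, eval z (q b) • (Pi.single b 1 : ι → ℂ) := by
      ext s
      simp [ev, Finset.sum_apply, Pi.single_apply]
    have h3 : ev z (q - ∑ b, q b • fun s => (C ((g (Pi.single b 1) : ι → ℂ) s) : P τ)) = 0 := by
      rw [← evL_apply, map_sub, evL_apply, evL_apply, hrk_sum, ← h1, h2, map_sum, sub_eq_zero]
      simp
    exact congrFun h3 i
  · rintro _ ⟨α, hα, rfl⟩
    exact (mem_secR_id hZ).2 fun z _ _ => by rwa [hrk_ev]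

theorem hrk_isH (α : ι → ℂ) : IsH (w0 τ) 0 0 fun s => (C (α s) : P τ) := fun s => by
  simpa using isWeightedHomogeneous_C (w0 τ) (α s)

theorem hS_const (hZ : Cn Z) (L : Submodule ℂ (ι → ℂ)) :
    hS (w0 τ) id (vI Z) (fun _ => L) = (finrank ℂ L : ℤ) • hI (w0 τ) (vI Z) := by
  let b := Module.finBasis ℂ L
  have h1 : Submodule.span (P τ) {q | ∃ α ∈ L, (fun s => C (α s)) = q} =
      Submodule.span (P τ) (Set.range fun i s => (C ((b i : ι → ℂ) s) : P τ)) := by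
    refine le_antisymm (Submodule.span_le.2 ?_) (Submodule.span_mono ?_)
    · rintro _ ⟨α, hα, rfl⟩
      have h2 : (fun s => (C (α s) : P τ)) =
          ∑ i, (C (b.repr ⟨α, hα⟩ i) : P τ) • fun s => (C ((b i : ι → ℂ) s) : P τ) := by
        have h3 := congrArg Subtype.val (b.sum_repr ⟨α, hα⟩)
        ext1 s
        have h4 := congrFun h3 s
        simp only [Submodule.coe_sum, Submodule.coe_smul, Finset.sum_apply, Pi.smul_apply,
          smul_eq_mul] at h4 ⊢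
        rw [← h4, map_sum]
        simp
      rw [h2]
      exact Submodule.sum_mem _ fun i _ => Submodule.smul_mem _ _ (Submodule.subset_span ⟨i, rfl⟩)
    · rintro _ ⟨i, rfl⟩
      exact ⟨_, (b i).2, rfl⟩
  have hli : LinearIndependent ℂ fun i => (b i : ι → ℂ) :=
    b.linearIndependent.map' L.subtype L.ker_subtype
  rw [hS, secR_const hZ, h1, dM_inj (adm_w0 τ).posw hZ.homI _ (fun i => hrk_isH _), sh_zero,
    one_smul, Fintype.card_fin]
  intro a ha i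
  refine mem_van.2 fun z hz => Fintype.linearIndependent_iff.1 hli (fun i => eval z (a i)) ?_ i
  rw [← hrk_sum]
  exact ev_pw (hZ.closed.symm ▸ hz) ha

theorem alg_const (hZ : Cn Z) (L : Submodule ℂ (ι → ℂ)) :
    Alg Z (fun _ => L) (finrank ℂ L) := by
  have h : ∀ z ∈ Z, fb (Submodule.span (P τ) {q | ∃ α ∈ L, (fun s => C (α s)) = q} ⊔
      pw ι (vI Z)) z = L := by
    intro z hz
    rw [fb_span_sup hz, ← Submodule.span_eq L]
    congr 1
    ext x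
    constructor
    · rintro ⟨_, ⟨α, hα, rfl⟩, rfl⟩
      rw [hrk_ev]
      simpa using hα
    · exact fun hx => ⟨_, ⟨x, Submodule.subset_span hx, rfl⟩, hrk_ev z x⟩
  refine ⟨_, ⟨(homM_span ?_).sup (homM_pw hZ.homI), le_sup_right, fun z hz _ => by rw [h z hz]⟩,
    fun z hz _ => h z hz⟩
  rintro _ ⟨α, -, rfl⟩
  exact ⟨0, hrk_isH α⟩

end PartHRk

section PartHC1

variable {τ σ : Type} [Fintype τ] [Fintype σ] {Z : Set (τ → ℂ)}
  {F : (τ → ℂ) → Submodule ℂ (σ → ℂ)} {c κ : ℕ}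

theorem hc1_split {ι : Type} [Fintype ι] {w : τ → G2} (hw : Posw w) {u : ι → G2} {e e' : G2}
    {i : (σ → P τ) →ₗ[P τ] (ι → P τ)} {p : (ι → P τ) →ₗ[P τ] (σ → P τ)}
    (hi : Grd w 0 u e i) (hp : Grd w u 0 e' p) {K2 : Submodule (P τ) (ι → P τ)}
    (h2 : HomM w u K2) {I : Ideal (P τ)} (hI' : HomI w I) (h2' : pw ι I ≤ K2)
    (hc : ∀ q, i q ∈ pw ι I ↔ q ∈ pw σ I) (hpi : ∀ q, p (i q) = 0)
    (hpp : ∀ x ∈ pw ι I, p x ∈ pw σ I) (hs : pw σ I ≤ K2.map p)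
    (hx : ∀ x, p x ∈ pw σ I → ∃ q, x - i q ∈ pw ι I) :
    sh e' • (dM w u K2 - dM w u (pw ι I)) = (dM w 0 (K2.map p) - dM w 0 (pw σ I)) +
      sh e' • sh e • (dM w 0 (K2.comap i) - dM w 0 (pw σ I)) := by
  have e1 : K2 ⊓ (pw σ I).comap p = (K2.comap i).map i ⊔ pw ι I := by
    refine le_antisymm (fun x hx' => ?_) (sup_le ?_ fun x hx' => ⟨h2' hx', hpp x hx'⟩)
    · obtain ⟨q, hq⟩ := hx x hx'.2
      have : i q ∈ K2 := by
        have := K2.sub_mem hx'.1 (h2' hq)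
        rwa [sub_sub_cancel] at this
      rw [show x = i q + (x - i q) by abel]
      exact Submodule.add_mem_sup ⟨q, this, rfl⟩ hq
    · rintro _ ⟨q, hq, rfl⟩
      refine ⟨hq, ?_⟩
      change p (i q) ∈ pw σ I
      rw [hpi]
      exact Submodule.zero_mem _
  have e2 : K2.comap i ⊓ (pw ι I).comap i = pw σ I :=
    le_antisymm (fun q hq => (hc q).1 hq.2) fun q hq => ⟨h2' ((hc q).2 hq), (hc q).2 hq⟩
  have m1 := dM_map hw hp h2 (homM_pw (u := 0) hI')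
  have m2 := dM_map hw hi (h2.comap hi) (homM_pw (u := u) hI')
  rw [e1, sup_eq_left.2 hs] at m1
  rw [e2] at m2
  rw [m2, ← m1, ← smul_add]
  congr 1
  abel

noncomputable def hc1_inl (τ σ : Type) : (σ → P τ) →ₗ[P τ] (σ ⊕ σ → P τ) where
  toFun q := Sum.elim q 0
  map_add' a b := by ext (s | s) <;> simp
  map_smul' a b := by ext (s | s) <;> simp

noncomputable def hc1_inr (τ σ : Type) : (σ → P τ) →ₗ[P τ] (σ ⊕ σ → P τ) where
  toFun q := Sum.elim 0 q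
  map_add' a b := by ext (s | s) <;> simp
  map_smul' a b := by ext (s | s) <;> simp

theorem hc1_num {q0 q1 q1' qW : Polynomial ℤ} {c κ : ℤ} {d : ℕ} (hd : 2 ≤ d)
    (h : qW + Polynomial.X * q1' = Polynomial.X * qW + Polynomial.C c * q0)
    (hdv : (1 - Polynomial.X) ^ d ∣ q1 - q1') (hr : qW.eval 1 = (c + κ) * q0.eval 1) :
    q1.derivative.eval 1 - c * q0.derivative.eval 1 = κ * q0.eval 1 := by
  obtain ⟨s, hs⟩ := (pow_dvd_pow _ hd).trans hdv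
  have h0 := congrArg (Polynomial.eval 1) h
  have h1 := congrArg (fun f => Polynomial.eval 1 (Polynomial.derivative f)) h
  have h2 := congrArg (fun f => Polynomial.eval 1 (Polynomial.derivative f)) hs
  simp [pow_two] at h0 h1 h2
  linear_combination h2 + h1 - h0 + hr

theorem c1_of (hZ : Cn Z) (hd : 2 ≤ dm (vI Z)) {K1 K3 : Submodule (P τ) (σ → P τ)}
    {K2 : Submodule (P τ) (σ ⊕ σ → P τ)} {L : Submodule ℂ (σ → ℂ)} (h1 : VB Z K1 c)
    (hF : ∀ z ∈ Z, z ≠ 0 → fb K1 z = F z) (h3 : VB Z K3 (c + κ)) (hL : finrank ℂ L = c)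
    (h2 : HomM (w0 τ) (Sum.elim (fun _ => 0) fun _ => (1, 0)) K2)
    (h2' : pw (σ ⊕ σ) (vI Z) ≤ K2) (pl : ∀ q, q ∈ K3 ↔ ∃ q', Sum.elim q q' ∈ K2)
    (pr : ∀ q, q ∈ K3 ↔ ∃ q', Sum.elim q' q ∈ K2)
    (a1 : ∀ q, Sum.elim q (0 : σ → P τ) ∈ K2 → ∀ z ∈ Z, z ≠ 0 → ev z q ∈ L)
    (a2 : ∀ α ∈ L, Sum.elim (fun s => C (α s)) (0 : σ → P τ) ∈ K2)
    (b1 : ∀ q, Sum.elim (0 : σ → P τ) q ∈ K2 → ∀ z ∈ Z, z ≠ 0 → ev z q ∈ F z)
    (b2 : ∀ q ∈ K1, Sum.elim (0 : σ → P τ) q ∈ K2) : C1 Z F c κ := by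
  intro q0 q1 hq0 hq1
  have hw : Posw (w0 τ) := (adm_w0 τ).posw
  have hI' := hZ.homI
  have gl : Grd (w0 τ) 0 (Sum.elim (fun _ => 0) fun _ => (1, 0)) 0 (hc1_inl τ σ) := by
    rintro g q hq (s | s)
    · simpa [hc1_inl] using hq s
    · exact isWeightedHomogeneous_zero _ _ _
  have gr : Grd (w0 τ) 0 (Sum.elim (fun _ => 0) fun _ => (1, 0)) (1, 0) (hc1_inr τ σ) := by
    rintro g q hq (s | s)
    · exact isWeightedHomogeneous_zero _ _ _
    · simpa [hc1_inr] using hq s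
  have pl' : Grd (w0 τ) (Sum.elim (fun _ => 0) fun _ => (1, 0)) 0 0
      (LinearMap.funLeft (P τ) (P τ) (Sum.inl : σ → σ ⊕ σ)) := by
    intro g q hq s
    simpa using hq (Sum.inl s)
  have pr' : Grd (w0 τ) (Sum.elim (fun _ => 0) fun _ => (1, 0)) 0 (-(1, 0))
      (LinearMap.funLeft (P τ) (P τ) (Sum.inr : σ → σ ⊕ σ)) := by
    intro g q hq s
    have := hq (Sum.inr s)
    rw [Pi.zero_apply, sub_zero, ← sub_eq_add_neg]
    exact this
  have ml : K2.map (LinearMap.funLeft (P τ) (P τ) (Sum.inl : σ → σ ⊕ σ)) = K3 := by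
    ext q
    rw [pl]
    constructor
    · rintro ⟨x, hx, rfl⟩
      exact ⟨x ∘ Sum.inr, (Sum.elim_comp_inl_inr x).symm ▸ hx⟩
    · rintro ⟨q', hq⟩
      exact ⟨_, hq, rfl⟩
  have mr : K2.map (LinearMap.funLeft (P τ) (P τ) (Sum.inr : σ → σ ⊕ σ)) = K3 := by
    ext q
    rw [pr]
    constructor
    · rintro ⟨x, hx, rfl⟩
      exact ⟨x ∘ Sum.inl, (Sum.elim_comp_inl_inr x).symm ▸ hx⟩
    · rintro ⟨q', hq⟩
      exact ⟨_, hq, rfl⟩
  have cl : ∀ q, hc1_inl τ σ q ∈ pw (σ ⊕ σ) (vI Z) ↔ q ∈ pw σ (vI Z) := fun q => by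
    rw [mem_pw, mem_pw]
    refine ⟨fun h s => h (Sum.inl s), ?_⟩
    rintro h (s | s)
    · exact h s
    · exact Ideal.zero_mem _
  have cr : ∀ q, hc1_inr τ σ q ∈ pw (σ ⊕ σ) (vI Z) ↔ q ∈ pw σ (vI Z) := fun q => by
    rw [mem_pw, mem_pw]
    refine ⟨fun h s => h (Sum.inr s), ?_⟩
    rintro h (s | s)
    · exact Ideal.zero_mem _
    · exact h s
  have s1 := hc1_split hw gr pl' h2 hI' h2' cr (fun _ => rfl)
    (fun x hx => mem_pw.2 fun s => mem_pw.1 hx _) (ml ▸ h3.le) fun x hx => ⟨x ∘ Sum.inr, mem_pw.2 <| by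
      rintro (s | s)
      · simpa [hc1_inr] using mem_pw.1 hx s
      · simp [hc1_inr]⟩
  have s2 := hc1_split hw gl pr' h2 hI' h2' cl (fun _ => rfl)
    (fun x hx => mem_pw.2 fun s => mem_pw.1 hx _) (mr ▸ h3.le) fun x hx => ⟨x ∘ Sum.inl, mem_pw.2 <| by
      rintro (s | s)
      · simp [hc1_inl]
      · simpa [hc1_inl] using mem_pw.1 hx s⟩
  have k2 : K2.comap (hc1_inl τ σ) = SecR id (vI Z) (fun _ => L) := by
    refine le_antisymm (fun q hq => (mem_secR_id hZ).2 (a1 q hq)) ?_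
    rw [secR_const hZ]
    refine sup_le (Submodule.span_le.2 ?_) fun q hq => h2' ((cl q).2 hq)
    rintro _ ⟨α, hα, rfl⟩
    exact a2 α hα
  have f2 := hS_const hZ L
  rw [hS, ← k2, hL] at f2
  rw [ml, sh_zero, one_smul, one_smul] at s1
  rw [mr, sh_zero, one_smul, f2] at s2
  have t1 : (tt : RG G2) * sh (-(1, 0)) = 1 := by
    rw [tt, ← sh_add, add_neg_cancel, sh_zero]
  have s3 := congrArg (fun f => tt • f) s2
  simp only [smul_add, smul_smul, t1, one_smul] at s3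
  obtain ⟨qW, hW⟩ := exn hZ h3.hom h3.le
  have hk1 : HomM (w0 τ) 0 (K2.comap (hc1_inr τ σ)) := h2.comap gr
  obtain ⟨q1', hq1'⟩ := exn hZ hk1 fun q hq => h2' ((cr q).2 hq)
  have n1 := hW.add (hq1'.at1 Polynomial.X)
  have n2 := (hW.at1 Polynomial.X).add (hq0.zsmul c)
  rw [at1_X] at n1 n2
  rw [← s3, s1] at n2
  have cmp := sec_cmp hZ h1 hF hk1 (fun q hq => b2 q hq) fun q hq => (mem_secR_id hZ).2 (b1 q hq)
  have dv := num_cmp ((sup_dM _).sub (sup_dM _)) ((sup_dM _).sub (sup_dM _)) hq1 hq1'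
    (Nat.zero_le _) (by rwa [pow_zero, one_smul, sub_sub_sub_cancel_right])
  refine hc1_num hd (n1.unique n2) dv ?_
  rw [rank_formula hZ h3 hW hq0]
  push_cast
  rfl

end PartHC1

section PartHExt2

variable {τ σ E : Type} [Fintype τ] [Fintype σ] [DecidableEq σ] [Fintype E] {Z : Set (τ → ℂ)}
  {F : (τ → ℂ) → Submodule ℂ (σ → ℂ)} {c : ℕ}

theorem ExtP.wd_mem (T : ExtP σ E) {j : ℕ} {L : Submodule ℂ (σ → ℂ)} {v : σ → ℂ} (hv : v ∈ L)
    {ω : E → ℂ} (hω : ω ∈ T.Lam j L) : (∑ s, v s • T.wd s).mulVec ω ∈ T.Lam (j + 1) L := by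
  rw [T.gen]
  exact Submodule.subset_span ⟨v, hv, ω, hω, rfl⟩

theorem ExtP.top (T : ExtP σ E) {L : Submodule ℂ (σ → ℂ)} (h : finrank ℂ L = c) :
    T.Lam (c + 1) L = ⊥ := by
  rw [← Submodule.finrank_eq_zero, T.rank, h, Nat.choose_succ_self]

/-- the product as a bilinear map -/
noncomputable def hext2_B (T : ExtP σ E) : (σ → ℂ) →ₗ[ℂ] (E → ℂ) →ₗ[ℂ] (E → ℂ) :=
  LinearMap.mk₂ ℂ (fun v ω => (∑ s, v s • T.wd s).mulVec ω)
    (fun a b ω => by simp [add_smul, Finset.sum_add_distrib, Matrix.add_mulVec])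
    (fun a v ω => by
      rw [← Matrix.smul_mulVec, Finset.smul_sum]
      simp [smul_smul])
    (fun v a b => Matrix.mulVec_add _ _ _) (fun a v ω => Matrix.mulVec_smul _ _ _)

theorem hext2_B_apply (T : ExtP σ E) (v : σ → ℂ) (ω : E → ℂ) :
    hext2_B T v ω = (∑ s, v s • T.wd s).mulVec ω := rfl

/-- the product of polynomial vectors -/
noncomputable def hext2_wp (T : ExtP σ E) (v : σ → P τ) (ω : E → P τ) : E → P τ :=
  (∑ s, v s • (T.wd s).map C).mulVec ω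

theorem hext2_ev_wp (T : ExtP σ E) (z : τ → ℂ) (v : σ → P τ) (ω : E → P τ) :
    ev z (hext2_wp T v ω) = hext2_B T (ev z v) (ev z ω) := by
  rw [hext2_wp, ev_mulVec, hext2_B_apply]
  congr 1
  ext a b
  simp [Matrix.sum_apply, ev]

theorem hext2_isH (T : ExtP σ E) {v : σ → P τ} {ω : E → P τ} {g g' : G2}
    (hv : IsH (w0 τ) 0 g v) (hω : IsH (w0 τ) 0 g' ω) :
    IsH (w0 τ) 0 (g' + g) (hext2_wp T v ω) := by
  refine grd_mulVec (w := w0 τ) (u := 0) (u' := 0) (e := g)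
    (A := ∑ s, v s • (T.wd s).map C) (fun a b => ?_) g' ω hω
  rw [Matrix.sum_apply]
  refine IsWeightedHomogeneous.sum _ _ _ fun s _ => ?_
  have := (hv s).mul (isWeightedHomogeneous_C (w0 τ) (T.wd s a b))
  simpa using this

theorem alg_lam (T : ExtP σ E) (hZ : Cn Z) (hF : Alg Z F c) (j : ℕ) :
    Alg Z (fun z => T.Lam j (F z)) (c.choose j) := by
  induction j with
  | zero =>
    have := alg_const hZ (ℂ ∙ T.e0)
    rw [finrank_span_singleton T.e0_ne] at this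
    simpa only [T.lam0, Nat.choose_zero_right] using this
  | succ j ih =>
    obtain ⟨K, hK, hKF⟩ := hF
    obtain ⟨Kj, hKj, hKjF⟩ := ih
    set S : Set (E → P τ) := {x | ∃ v ∈ K, ∃ ω ∈ Kj, ∃ g g', IsH (w0 τ) 0 g v ∧
      IsH (w0 τ) 0 g' ω ∧ hext2_wp T v ω = x} with hS
    have key : ∀ z ∈ Z, z ≠ 0 →
        fb (Submodule.span (P τ) S ⊔ pw E (vI Z)) z = T.Lam (j + 1) (F z) := by
      intro z hz h0
      rw [fb_span_sup hz]
      refine le_antisymm (Submodule.span_le.2 ?_) ?_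
      · rintro _ ⟨_, ⟨v, hv, ω, hω, g, g', -, -, rfl⟩, rfl⟩
        rw [hext2_ev_wp, hext2_B_apply]
        refine T.wd_mem ?_ ?_
        · rw [← hKF z hz h0]
          exact ⟨v, hv, rfl⟩
        · have := hKjF z hz h0
          simp only at this
          rw [← this]
          exact ⟨ω, hω, rfl⟩
      · rw [T.gen]
        refine Submodule.span_le.2 ?_
        rintro _ ⟨v, hv, ω, hω, rfl⟩
        have h2 := hKjF z hz h0
        simp only at h2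
        rw [← hKF z hz h0] at hv
        rw [← h2] at hω
        obtain ⟨v, hv', rfl⟩ := mem_fb.1 hv
        obtain ⟨ω, hω', rfl⟩ := mem_fb.1 hω
        obtain ⟨s, hs⟩ := exists_sum_vc (w0 τ) 0 v
        obtain ⟨s', hs'⟩ := exists_sum_vc (w0 τ) 0 ω
        rw [← hext2_B_apply, hs, hs', ← evL_apply, ← evL_apply, map_sum, map_sum, map_sum,
          LinearMap.sum_apply]
        refine Submodule.sum_mem _ fun g _ => ?_
        rw [map_sum]
        refine Submodule.sum_mem _ fun g' _ => Submodule.subset_span ?_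
        exact ⟨_, ⟨_, hK.hom g v hv', _, hKj.hom g' ω hω', g, g', isH_vc g v, isH_vc g' ω, rfl⟩,
          hext2_ev_wp T z _ _⟩
    refine ⟨_, ⟨?_, le_sup_right, fun z hz h0 => ?_⟩, key⟩
    · refine (homM_span ?_).sup (homM_pw hZ.homI)
      rintro _ ⟨v, -, ω, -, g, g', hv, hω, rfl⟩
      exact ⟨_, hext2_isH T hv hω⟩
    · rw [key z hz h0, T.rank, ← hKF z hz h0, hK.rk z hz h0]

theorem hS_lam0 (T : ExtP σ E) (hZ : Cn Z) :
    hS (w0 τ) id (vI Z) (fun z => T.Lam 0 (F z)) = hI (w0 τ) (vI Z) := by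
  have := hS_const hZ (ℂ ∙ T.e0)
  rw [finrank_span_singleton T.e0_ne] at this
  simpa only [T.lam0, Nat.cast_one, one_smul] using this

theorem hext2_ev_const {ι ι' : Type} [Fintype ι] [Fintype ι'] [DecidableEq ι]
    (f : (ι → ℂ) →ₗ[ℂ] (ι' → ℂ)) (z : τ → ℂ) (q : ι → P τ) :
    ev z (((LinearMap.toMatrix' f).map C).mulVec q) = f (ev z q) := by
  rw [ev_mulVec, ← LinearMap.toMatrix'_mulVec]
  congr 1
  ext a b
  simp

theorem hext2_lam1 (T : ExtP σ E) (L : Submodule ℂ (σ → ℂ)) :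
    T.Lam 1 L = L.map ((hext2_B T).flip T.e0) := by
  refine le_antisymm ?_ ?_
  · rw [T.gen 0, T.lam0]
    refine Submodule.span_le.2 ?_
    rintro _ ⟨v, hv, ω, hω, rfl⟩
    obtain ⟨a, rfl⟩ := Submodule.mem_span_singleton.1 hω
    rw [Matrix.mulVec_smul]
    exact Submodule.smul_mem _ _ ⟨v, hv, rfl⟩
  · rintro _ ⟨v, hv, rfl⟩
    refine T.wd_mem (j := 0) hv ?_
    rw [T.lam0]
    exact Submodule.mem_span_singleton_self _

theorem hS_lam1 (T : ExtP σ E) (hZ : Cn Z) (hF : Alg Z F c) :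
    hS (w0 τ) id (vI Z) (fun z => T.Lam 1 (F z)) = hS (w0 τ) id (vI Z) F := by
  classical
  set t := (hext2_B T).flip T.e0 with ht
  have hinj : LinearMap.ker t = ⊥ := LinearMap.ker_eq_bot'.2 fun v hv => T.inj v hv
  obtain ⟨U, hU⟩ := t.exists_leftInverse_of_injective hinj
  set A : Matrix E σ (P τ) := (LinearMap.toMatrix' t).map C with hA
  have hg : Grd (w0 τ) 0 0 0 A.mulVecLin := grd_mulVec fun a b => by
    simpa [hA] using isWeightedHomogeneous_C (w0 τ) _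
  have h := dM_map (adm_w0 τ).posw hg (homM_secR_id hZ hF) (homM_pw (ι := E) hZ.homI)
  have h1 : SecR id (vI Z) F ⊓ (pw E (vI Z)).comap A.mulVecLin = pw σ (vI Z) := by
    refine le_antisymm (fun q hq => mem_pw.2 fun s => hZ.mem_of_vanish fun z hz _ => ?_)
      (le_inf (pw_le_secR _ _ _) fun q hq => mulVec_mem_pw A hq)
    have h2 : ev z (A.mulVec q) = 0 := ev_pw (by rw [hZ.closed]; exact hz) hq.2
    rw [hA, hext2_ev_const] at h2
    exact congrFun (LinearMap.ker_eq_bot'.1 hinj _ h2) s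
  have h2 : (SecR id (vI Z) F).map A.mulVecLin ⊔ pw E (vI Z) =
      SecR id (vI Z) fun z => T.Lam 1 (F z) := by
    refine le_antisymm (sup_le ?_ (pw_le_secR _ _ _)) fun p hp => ?_
    · rintro _ ⟨q, hq, rfl⟩
      refine (mem_secR_id hZ).2 fun z hz h0 => ?_
      rw [Matrix.mulVecLin_apply, hA, hext2_ev_const, hext2_lam1]
      exact ⟨_, (mem_secR_id hZ).1 hq z hz h0, rfl⟩
    · have hp' : ∀ z ∈ Z, z ≠ 0 → ∃ x ∈ F z, t x = ev z p ∧ U (ev z p) = x := fun z hz h0 => by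
        have := (mem_secR_id hZ).1 hp z hz h0
        rw [hext2_lam1] at this
        obtain ⟨x, hx, hx'⟩ := this
        exact ⟨x, hx, hx', by rw [← hx']; exact LinearMap.congr_fun hU x⟩
      set q := ((LinearMap.toMatrix' U).map C : Matrix σ E (P τ)).mulVec p with hq
      refine Submodule.mem_sup.2 ⟨A.mulVec q, ⟨q, (mem_secR_id hZ).2 fun z hz h0 => ?_, rfl⟩,
        p - A.mulVec q, mem_pw.2 fun a => hZ.mem_of_vanish fun z hz h0 => ?_, by abel⟩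
      · obtain ⟨x, hx, -, h3⟩ := hp' z hz h0
        rw [hq, hext2_ev_const, h3]
        exact hx
      · obtain ⟨x, -, h3, h4⟩ := hp' z hz h0
        have h5 : ev z (A.mulVec q) = ev z p := by
          rw [hA, hext2_ev_const, hq, hext2_ev_const, h4, h3]
        have := congrFun h5 a
        simp only [ev] at this
        rw [Pi.sub_apply, map_sub, this, sub_self]
  rw [h1, h2, sh_zero, one_smul] at h
  exact h.symm

end PartHExt2

section PartHKos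

variable {τ σ E η : Type} [Fintype τ] [Fintype σ] [DecidableEq σ] [Fintype E] [Fintype η]
  {Z : Set (τ → ℂ)} {F : (τ → ℂ) → Submodule ℂ (σ → ℂ)} {c : ℕ}

/-- the differential of the complex -/
noncomputable def hkos_d {ρ : Type} (T : ExtP σ E) (ψ : σ → P ρ) : Matrix E E (P ρ) :=
  ∑ s, ψ s • (T.wd s).map C

theorem hkos_ev_d {ρ : Type} [Fintype ρ] (T : ExtP σ E) (ψ : σ → P ρ) (y : ρ → ℂ)
    (q : E → P ρ) :
    ev y ((hkos_d T ψ).mulVec q) = (∑ s, ev y ψ s • T.wd s).mulVec (ev y q) := by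
  rw [ev_mulVec]
  congr 1
  ext a b
  simp [hkos_d, Matrix.sum_apply, ev]

theorem hkos_ev_c {ρ : Type} [Fintype ρ] (A : Matrix E E ℂ) (y : ρ → ℂ) (q : E → P ρ) :
    ev y ((A.map C).mulVec q) = A.mulVec (ev y q) := by
  rw [ev_mulVec]
  congr 1
  ext a b
  simp

theorem hkos_pt (T : ExtP σ E) (v : σ → ℂ) (s : σ) (ω : E → ℂ) :
    (T.ct s).mulVec ((∑ s', v s' • T.wd s').mulVec ω) +
      (∑ s', v s' • T.wd s').mulVec ((T.ct s).mulVec ω) = v s • ω := by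
  rw [Matrix.sum_mulVec, Matrix.sum_mulVec, Matrix.mulVec_sum, ← Finset.sum_add_distrib]
  simp only [Matrix.smul_mulVec, Matrix.mulVec_smul, ← smul_add, T.ct_wd]
  simp

theorem hkos_htp {ρ : Type} [Fintype ρ] (T : ExtP σ E) (ψ : σ → P ρ) (s : σ) (q : E → P ρ) :
    ψ s • q = ((T.ct s).map C).mulVec ((hkos_d T ψ).mulVec q) +
      (hkos_d T ψ).mulVec (((T.ct s).map C).mulVec q) := by
  funext a
  refine MvPolynomial.funext fun y => ?_
  have h := hkos_pt T (ev y ψ) s (ev y q)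
  rw [← hkos_ev_d, ← hkos_ev_c, ← hkos_ev_c, ← hkos_ev_d] at h
  simpa [ev] using (congrFun h a).symm

theorem hkos_ann {ρ : Type} [Fintype ρ] (𝔭 : Ideal (P ρ)) (ψ : σ → P ρ)
    {Q₁ Q₂ : Submodule (P ρ) (E → P ρ)} (h1 : pw E 𝔭 ≤ Q₂) (h2 : ∀ s, ∀ q ∈ Q₁, ψ s • q ∈ Q₂) :
    ∀ a ∈ 𝔭 ⊔ Ideal.span (Set.range ψ), ∀ q ∈ Q₁, a • q ∈ Q₂ := by
  intro a ha q hq
  have : 𝔭 ⊔ Ideal.span (Set.range ψ) ≤ Q₂.comap (LinearMap.toSpanSingleton (P ρ) _ q) := by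
    refine sup_le (fun b hb => h1 (mem_pw.2 fun i => 𝔭.mul_mem_right _ hb)) ?_
    rw [Ideal.span_le]
    rintro _ ⟨s, rfl⟩
    exact h2 s q hq
  exact this ha

theorem koszul (T : ExtP σ E) (hZ : Cn Z) (hF : Alg Z F c) (γ : η → ℕ) {𝔭 : Ideal (P (τ ⊕ η))}
    (hp : 𝔭.IsPrime) (hh : HomI (wt γ) 𝔭) (ho : ∀ y ∈ vZ 𝔭, y ∘ Sum.inl ∈ Z)
    (hn : ∃ j, X (Sum.inl j) ∉ 𝔭) (ψ : σ → P (τ ⊕ η)) {e : G2}
    (hdeg : ∀ s, (ψ s).IsWeightedHomogeneous (wt γ) e)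
    (hmem : ∀ y ∈ vZ 𝔭, y ∘ Sum.inl ≠ 0 → ev y ψ ∈ F (y ∘ Sum.inl))
    (hne : ∀ y ∈ vZ 𝔭, y ∘ Sum.inl ≠ 0 → y ∘ Sum.inr ≠ 0 → ev y ψ ≠ 0) :
    ∑ j ∈ Finset.range (c + 1), ((-1) ^ j * sh e ^ (c - j)) •
      hS (wt γ) Sum.inl 𝔭 (fun z => T.Lam j (F z)) ∈ Nev := by
  have hw : Posw (wt (τ := τ) γ) := (adm_wt γ).posw
  have hd : Grd (wt (τ := τ) γ) 0 0 e (hkos_d T ψ).mulVecLin := by
    refine grd_mulVec fun a b => ?_
    rw [hkos_d, Matrix.sum_apply]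
    refine IsWeightedHomogeneous.sum _ _ _ fun s _ => ?_
    simpa using (hdeg s).mul (isWeightedHomogeneous_C _ (T.wd s a b))
  set S : ℕ → Submodule (P (τ ⊕ η)) (E → P (τ ⊕ η)) :=
    fun j => SecR Sum.inl 𝔭 fun z => T.Lam j (F z) with hSd
  have hS' : ∀ j, HomM (wt γ) 0 (S j) := fun j =>
    homM_secR (w := wt γ) (r := Sum.inl) hZ (alg_lam T hZ hF j) (fun _ => rfl) hp hh ho hn
  have hQ : HomM (wt γ) 0 (pw E 𝔭) := homM_pw hh
  have hpS : ∀ j, pw E 𝔭 ≤ S j := fun j => pw_le_secR _ _ _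
  have hdS : ∀ j, ∀ q ∈ S j, (hkos_d T ψ).mulVec q ∈ S (j + 1) := fun j q hq y hy => by
    rw [hkos_ev_d]
    exact T.wd_mem (hmem y hy.1 hy.2) (hq y hy)
  have hcS : ∀ j s, ∀ q ∈ S (j + 1), ((T.ct s).map C).mulVec q ∈ S j := fun j s q hq y hy => by
    rw [hkos_ev_c]
    exact T.ct_mem j _ s _ (hq y hy)
  have htor : ∀ I, HomI (wt γ) I → 𝔭 ⊔ Ideal.span (Set.range ψ) ≤ I →
      (1 : RG G2) • hI (wt γ) I ∈ Nev := fun I hI' hle => by
    rw [one_smul]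
    refine tor1 γ _ (fun j l => mem_radical_of fun y hy => ?_) hI' hle
    rw [mem_vZ_sup, mem_vZ_span] at hy
    by_contra h0
    rw [map_mul, eval_X, eval_X] at h0
    refine hne y hy.1 (fun h => h0 ?_) (fun h => h0 ?_) (funext fun s => hy.2 _ ⟨s, rfl⟩)
    · exact mul_eq_zero_of_left (congrFun h j) _
    · exact mul_eq_zero_of_right _ (congrFun h l)
  refine euler_char hw hd S hS' hQ c ?_ Nev ?_ fun j => ?_
  · rintro _ ⟨q, hq, rfl⟩
    refine mem_pw_of_vanish hp Sum.inl hn fun y hy h0 => ?_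
    obtain ⟨K, hK, hKF⟩ := hF
    have h1 := hdS c q hq y ⟨hy, h0⟩
    have h2 : finrank ℂ (F (y ∘ Sum.inl)) = c := by
      rw [← hKF _ (ho y hy) h0]
      exact hK.rk _ (ho y hy) h0
    simp only [T.top h2, Submodule.mem_bot] at h1
    exact h1
  · rw [← one_smul (RG G2) (_ - _)]
    refine dev hw Nev 1 ((hS' 0).inf (hQ.comap hd)) hQ
      (le_inf (hpS 0) fun q hq => mulVec_mem_pw _ hq) _ (hkos_ann 𝔭 ψ le_rfl ?_) htor
    intro s q hq
    rw [hkos_htp T ψ s q]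
    refine add_mem (mulVec_mem_pw _ hq.2) (mulVec_mem_pw _ ?_)
    refine mem_pw_of_vanish hp Sum.inl hn fun y hy h0 => ?_
    have h1 := hq.1 y ⟨hy, h0⟩
    simp only [T.lam0, Submodule.mem_span_singleton] at h1
    obtain ⟨a, ha⟩ := h1
    rw [hkos_ev_c, ← ha, Matrix.mulVec_smul, T.ct_zero, smul_zero]
  · rw [← one_smul (RG G2) (_ - _)]
    refine dev hw Nev 1 ((hS' (j + 1)).inf (hQ.comap hd)) (((hS' j).map hd).sup hQ)
      (sup_le ?_ (le_inf (hpS _) fun q hq => mulVec_mem_pw _ hq)) _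
      (hkos_ann 𝔭 ψ le_sup_right ?_) htor
    · rintro _ ⟨q, hq, rfl⟩
      refine ⟨hdS j q hq, mem_pw_of_vanish hp Sum.inl hn fun y _ _ => ?_⟩
      rw [Matrix.mulVecLin_apply, Matrix.mulVecLin_apply, hkos_ev_d, hkos_ev_d,
        Matrix.mulVec_mulVec, T.wd_wd, Matrix.zero_mulVec]
    · intro s q hq
      rw [hkos_htp T ψ s q]
      exact add_mem (Submodule.mem_sup_right (mulVec_mem_pw _ hq.2))
        (Submodule.mem_sup_left ⟨_, hcS j s q hq.1, rfl⟩)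

end PartHKos

section PartHKey

variable {τ σ : Type} [Fintype τ] [Fintype σ] {Z : Set (τ → ℂ)}
  {F : (τ → ℂ) → Submodule ℂ (σ → ℂ)} {c k : ℕ}

theorem root_of_fam {E : Type} [Fintype E] [DecidableEq σ] (T : ExtP σ E) (hZ : Cn Z)
    (hk : dm (vI Z) + k = Fintype.card τ) (hF : Alg Z F c) {q : ℕ → Polynomial ℤ}
    (hq : ∀ j, Num (dm (vI Z)) (hS (w0 τ) id (vI Z) fun z => T.Lam j (F z)) (q j)) {γ ν : ℕ}
    (h : HasRoot Z F k c γ (ν + 1)) : Root k c γ ν q := by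
  obtain ⟨Λ, Mu, i1, i2, g, 𝔭, ψ, hcard, hf⟩ := h
  have hp := hf.prime
  have hp0 : (𝔭.comap (rename (Sum.map id Sum.inl) :
      P (τ ⊕ Λ) →ₐ[ℂ] P (τ ⊕ (Λ ⊕ Mu)))).IsPrime := Ideal.IsPrime.comap _
  have hh0 := homI_comap_rename (Sum.map id Sum.inl : τ ⊕ Λ → τ ⊕ (Λ ⊕ Mu)) hf.hom
  rw [wt_comp] at hh0
  have hi0 := (indep_iff_comap (𝔭 := 𝔭.comap (rename (Sum.map id Sum.inl) :
      P (τ ⊕ Λ) →ₐ[ℂ] P (τ ⊕ (Λ ⊕ Mu)))) (Sum.inr : Λ → τ ⊕ Λ)).2 fun f hf' =>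
    (indep_iff_comap (𝔭 := 𝔭) fun l : Λ => Sum.inr (Sum.inl l)).1 hf.ind (by
      rw [Ideal.mem_comap, Ideal.mem_comap, rename_rename] at hf'
      exact hf')
  have hd := hf.dim.trans (mu_dm hp hf.nz hf.elim)
  rw [hcard] at hd
  obtain ⟨e, he⟩ := Nat.exists_eq_add_of_le hd
  have hnv := (nv hp0 hh0 hi0 (e := k + c + e) hcard (by omega)).congr
    (Nall_le_Nev (mu_elim g hf.hom hf.elim))
  refine ⟨_, _, hnv, by omega, ?_⟩
  have hq0 := hq 0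
  rw [hS_lam0 T hZ] at hq0
  have h1 := fun j => Nall_le_Nev
    (mult hZ hk (alg_lam T hZ hF j) _ hp hf.hom hf.ovr hf.nz (hq j) hq0)
  have h2 := koszul T hZ hF _ hp hf.hom hf.ovr hf.nz ψ hf.deg hf.mem hf.ne
  rw [sh_gamma] at h2
  have h3 := Nev.add_mem (Nev.sum_mem fun j (_ : j ∈ Finset.range (c + 1)) =>
    Nev.smul_mem ((-1) ^ j * (tt ^ γ * ss) ^ (c - j)) (h1 j))
    (Nev.smul_mem ((1 - tt) ^ k * at1 (q 0)) h2)
  rw [Finset.smul_sum, ← Finset.sum_add_distrib] at h3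
  rw [op, Finset.mul_sum, Finset.sum_smul]
  convert h3 using 2 with j
  rw [smul_sub, smul_comm ((1 - tt) ^ k * at1 (q 0)), sub_add_cancel, smul_smul]
  congr 1
  ring

theorem key (hZ : Cn Z) (hk : dm (vI Z) + k = Fintype.card τ) (hF : Alg Z F c) (hc : 0 < c) {κ : ℕ}
    (h1 : C1 Z F c κ) (γ : Fin c → ℕ)
    (h : ∀ β, HasRoot Z F k c β (Fintype.card {i // γ i = β}) ∨ Fintype.card {i // γ i = β} = 0) :
    ∑ i, γ i = κ := by
  classical
  obtain ⟨E, iE, ⟨T⟩⟩ := exists_extP σ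
  choose q hq using fun j => exn_hS hZ (alg_lam T hZ hF j)
  have hq0 := hq 0
  rw [hS_lam0 T hZ] at hq0
  have hq1 := hq 1
  rw [hS_lam1 T hZ hF] at hq1
  have h0 := q01 hZ.prime hZ.dm_pos hq0
  have h2 := num_formula (k := k) hc h0 γ fun β ν hν => by
    rcases h β with h' | h'
    · exact root_of_fam T hZ hk hF hq (by convert h' using 1; convert hν.symm)
    · exact absurd (h'.symm.trans (by convert hν)) (Nat.succ_ne_zero ν).symm
  rw [h1 _ _ hq0 hq1] at h2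
  exact_mod_cast (mul_right_cancel₀ h0 h2).symm

end PartHKey

end Pool.Agent.MP_429080_ag.H26
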