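import Pool.Agent.MP_429080_ag.Defs

/-! The two notions used in the statements. -/

namespace Pool.Agent.MP_429080_ag

open MvPolynomial

/-- `P` holds at a general point of `C`: at all nonzero points of `C` off a hypersurface that does
not contain `C`. -/
def General {σ : Type} (C : Set (σ → ℂ)) (P : (σ → ℂ) → Prop) : Prop :=
  ∃ h : MvPolynomial σ ℂ, h ∉ vanishingIdeal ℂ C ∧ ∀ x ∈ C, eval x h ≠ 0 → x ≠ 0 → P x

/-- The ideal of all polynomials vanishing on `S` is generated by `k` homogeneous polynomials. -/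
def IsCI {τ : Type} (S : Set (τ → ℂ)) (k : ℕ) : Prop :=
  ∃ (f : Fin k → MvPolynomial τ ℂ) (d : Fin k → ℕ), (∀ i, (f i).IsHomogeneous (d i)) ∧
    vanishingIdeal ℂ S = Ideal.span (Set.range f)

end Pool.Agent.MP_429080_ag
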