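import Pool.Agent.EGH.Hilb
import Pool.Agent.MP_d171e3_nt.Dim
import Pool.Agent.MP_429080_ag.Dim
import Pool.Agent.MP_429080_ag.CI.Stmt

/-! Definitions shared by the files of the proof. -/

namespace Pool.Agent.MP_429080_ag.H26

open MvPolynomial Filter Module Pool.Agent.EGH Pool.Agent.MP_d171e3_nt

set_option linter.unusedSectionVars false

abbrev G2 : Type := ℤ × ℤ

abbrev P (τ : Type) : Type := MvPolynomial τ ℂ

/-- vanishing ideal -/
noncomputable abbrev vI {τ : Type} (S : Set (τ → ℂ)) : Ideal (P τ) := vanishingIdeal ℂ S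

/-- zero set -/
abbrev vZ {τ : Type} (I : Ideal (P τ)) : Set (τ → ℂ) := zeroLocus ℂ I

noncomputable def tt : RG G2 := sh (1, 0)

noncomputable def ss : RG G2 := sh (0, 1)

/-- a polynomial evaluated at the first shift -/
noncomputable def at1 (q : Polynomial ℤ) : RG G2 := Polynomial.aeval tt q

def w0 (τ : Type) : τ → G2 := fun _ => (1, 0)

def wt {τ η : Type} (γ : η → ℕ) : τ ⊕ η → G2 :=
  Sum.elim (fun _ => (1, 0)) fun l => ((γ l : ℤ), 1)

/-- admissible weights -/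
def Adm {ρ : Type} (w : ρ → G2) : Prop := ∀ r, w r = (1, 0) ∨ ∃ g : ℕ, w r = ((g : ℤ), 1)

/-- functions that vanish eventually on every row -/
def Nall : Submodule (RG G2) (Fn G2) where
  carrier := {f | ∀ a : ℤ, ∀ᶠ n : ℤ in atTop, f (n, a) = 0}
  zero_mem' := fun _ => Eventually.of_forall fun _ => rfl
  add_mem' := fun hf hg a => ((hf a).and (hg a)).mono fun k h => by simp [h.1, h.2]
  smul_mem' := by
    intro r f hf
    induction r using AddMonoidAlgebra.induction_linear with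
    | zero => exact fun _ => Eventually.of_forall fun _ => by simp
    | add r s hr hs => exact fun a => ((hr a).and (hs a)).mono fun k h => by simp [add_smul, h.1, h.2]
    | single e n =>
      intro a
      have := (tendsto_atTop_add_const_right atTop (-e.1) tendsto_id).eventually (hf (a - e.2))
      exact this.mono fun k h => by
        rw [single_smul]
        exact mul_eq_zero_of_right _ h

/-- functions that vanish eventually on almost every row -/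
def Nev : Submodule (RG G2) (Fn G2) where
  carrier := {f | ∀ᶠ a : ℤ in atTop, ∀ᶠ n : ℤ in atTop, f (n, a) = 0}
  zero_mem' := Eventually.of_forall fun _ => Eventually.of_forall fun _ => rfl
  add_mem' := fun hf hg => (hf.and hg).mono fun a h =>
    (h.1.and h.2).mono fun k h => by simp [h.1, h.2]
  smul_mem' := by
    intro r f hf
    induction r using AddMonoidAlgebra.induction_linear with
    | zero => exact Eventually.of_forall fun _ => Eventually.of_forall fun _ => by simp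
    | add r s hr hs =>
      exact (hr.and hs).mono fun a h => (h.1.and h.2).mono fun k h => by simp [add_smul, h.1, h.2]
    | single e n =>
      have h1 := (tendsto_atTop_add_const_right atTop (-e.2) tendsto_id).eventually hf
      refine h1.mono fun a ha => ?_
      have := (tendsto_atTop_add_const_right atTop (-e.1) tendsto_id).eventually ha
      exact this.mono fun k h => by
        rw [single_smul]
        exact mul_eq_zero_of_right _ h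

theorem mem_Nall {f : Fn G2} : f ∈ Nall ↔ ∀ a : ℤ, ∀ᶠ n : ℤ in atTop, f (n, a) = 0 := Iff.rfl

theorem mem_Nev {f : Fn G2} :
    f ∈ Nev ↔ ∀ᶠ a : ℤ in atTop, ∀ᶠ n : ℤ in atTop, f (n, a) = 0 := Iff.rfl

theorem Nall_le_Nev : Nall ≤ Nev := fun _ h => Eventually.of_forall h

theorem Zs_le_Nev : Zs G2 ≤ Nev := fun _ h => by
  obtain ⟨K, hK⟩ := eventually_atTop.1 (mem_Zs.1 h)
  exact eventually_atTop.2 ⟨K.2, fun a ha => eventually_atTop.2 ⟨K.1, fun n hn => hK _ ⟨hn, ha⟩⟩⟩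

/-- supported on the nonnegative part of the row zero -/
def Sup (f : Fn G2) : Prop := ∀ g : G2, f g ≠ 0 → 0 ≤ g.1 ∧ g.2 = 0

/-- `q` is the numerator of the generating series of `f` -/
def Num (d : ℕ) (f : Fn G2) (q : Polynomial ℤ) : Prop := (1 - tt) ^ d • f = at1 q • dl G2

/-- the growth of a bigraded Hilbert function -/
structure NV (H : Fn G2) (e ν : ℕ) : Prop where
  tot : ∀ i j : ℕ, e + ν < i + j → ((1 - tt) ^ i * (1 - ss) ^ j) • H ∈ Nev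
  lam : (1 - ss) ^ (ν + 1) • H ∈ Nev
  ne : ∀ ω : ℤ, ω ≠ 0 → ω • (((1 - tt) ^ e * (1 - ss) ^ ν) • H) ∉ Nev

/-- the operator given by the Koszul complex -/
noncomputable def op (k c γ : ℕ) (q : ℕ → Polynomial ℤ) : RG G2 :=
  (1 - tt) ^ k * ∑ j ∈ Finset.range (c + 1), (-1) ^ j * at1 (q j) * (tt ^ γ * ss) ^ (c - j)

def Root (k c γ ν : ℕ) (q : ℕ → Polynomial ℤ) : Prop :=
  ∃ (H : Fn G2) (e : ℕ), NV H e ν ∧ k + c ≤ e ∧ op k c γ q • H ∈ Nev

noncomputable def Qp (c : ℕ) (q : ℕ → Polynomial ℤ) : MvPolynomial (Fin 2) ℤ :=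
  ∑ j ∈ Finset.range (c + 1), (-1) ^ j * Polynomial.aeval (1 - X 0) (q j) * (1 - X 1) ^ (c - j)

/-- the form of degree `d`, dehomogenized -/
noncomputable def low (d : ℕ) (Q : MvPolynomial (Fin 2) ℤ) : Polynomial ℤ :=
  aeval ![1, Polynomial.X] (homogeneousComponent d Q)

section graded
variable {ρ ι ι' : Type}

def IsH (w : ρ → G2) (u : ι → G2) (g : G2) (q : ι → P ρ) : Prop :=
  ∀ i, (q i).IsWeightedHomogeneous w (g - u i)

noncomputable def vc (w : ρ → G2) (u : ι → G2) (g : G2) (q : ι → P ρ) : ι → P ρ :=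
  fun i => weightedHomogeneousComponent w (g - u i) (q i)

/-- homogeneous submodules of a free module with shifts `u` -/
def HomM (w : ρ → G2) (u : ι → G2) (Q : Submodule (P ρ) (ι → P ρ)) : Prop :=
  ∀ g, ∀ q ∈ Q, vc w u g q ∈ Q

noncomputable def pcM (w : ρ → G2) (u : ι → G2) (Q : Submodule (P ρ) (ι → P ρ)) (g : G2) :
    Submodule ℂ (ι → P ρ) :=
  (Submodule.pi Set.univ fun i => weightedHomogeneousSubmodule ℂ w (g - u i)) ⊓ Q.restrictScalars ℂ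

theorem mem_pcM {w : ρ → G2} {u : ι → G2} {Q : Submodule (P ρ) (ι → P ρ)} {g : G2} {q : ι → P ρ} :
    q ∈ pcM w u Q g ↔ IsH w u g q ∧ q ∈ Q :=
  ⟨fun h => ⟨fun i => h.1 i trivial, h.2⟩, fun h => ⟨fun i _ => h.1 i, h.2⟩⟩

/-- dimensions of the graded pieces -/
noncomputable def dM (w : ρ → G2) (u : ι → G2) (Q : Submodule (P ρ) (ι → P ρ)) : Fn G2 :=
  fun g => finrank ℂ (pcM w u Q g)

/-- vectors with entries in an ideal -/
noncomputable def pw (ι : Type) (I : Ideal (P ρ)) : Submodule (P ρ) (ι → P ρ) :=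
  Submodule.pi Set.univ fun _ => I

theorem mem_pw {I : Ideal (P ρ)} {q : ι → P ρ} : q ∈ pw ι I ↔ ∀ i, q i ∈ I :=
  ⟨fun h i => h i trivial, fun h i _ => h i⟩

/-- graded maps of degree `e` -/
def Grd (w : ρ → G2) (u : ι → G2) (u' : ι' → G2) (e : G2)
    (f : (ι → P ρ) →ₗ[P ρ] (ι' → P ρ)) : Prop :=
  ∀ g q, IsH w u g q → IsH w u' (g + e) (f q)

noncomputable def ev (y : ρ → ℂ) (q : ι → P ρ) : ι → ℂ := fun i => eval y (q i)

noncomputable def evL (ι : Type) (y : ρ → ℂ) : (ι → P ρ) →ₗ[ℂ] (ι → ℂ) where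
  toFun := ev y
  map_add' a b := by ext i; simp [ev]
  map_smul' a b := by ext i; simp [ev]

theorem evL_apply (y : ρ → ℂ) (q : ι → P ρ) : evL ι y q = ev y q := rfl

theorem ev_smul (y : ρ → ℂ) (a : P ρ) (q : ι → P ρ) : ev y (a • q) = eval y a • ev y q := by
  ext i; simp [ev]

/-- the fibre of a module at a point -/
noncomputable def fb (K : Submodule (P ρ) (ι → P ρ)) (y : ρ → ℂ) : Submodule ℂ (ι → ℂ) :=
  (K.restrictScalars ℂ).map (evL ι y)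

theorem mem_fb {K : Submodule (P ρ) (ι → P ρ)} {y : ρ → ℂ} {x : ι → ℂ} :
    x ∈ fb K y ↔ ∃ q ∈ K, ev y q = x := Iff.rfl

/-- polynomial sections of a family of subspaces -/
noncomputable def Sec (D : Set (ρ → ℂ)) (F : (ρ → ℂ) → Submodule ℂ (ι → ℂ)) :
    Submodule (P ρ) (ι → P ρ) where
  carrier := {q | ∀ y ∈ D, ev y q ∈ F y}
  zero_mem' := fun y _ => by
    rw [← evL_apply, map_zero]
    exact (F y).zero_mem
  add_mem' := fun {a b} ha hb y hy => by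
    rw [← evL_apply, map_add]
    exact (F y).add_mem (ha y hy) (hb y hy)
  smul_mem' := fun a q hq y hy => by
    rw [ev_smul]
    exact (F y).smul_mem _ (hq y hy)

theorem mem_Sec {D : Set (ρ → ℂ)} {F : (ρ → ℂ) → Submodule ℂ (ι → ℂ)} {q : ι → P ρ} :
    q ∈ Sec D F ↔ ∀ y ∈ D, ev y q ∈ F y := Iff.rfl

variable {τ : Type}

/-- sections of the pull back of `F` along the projection `r` to the zero set of `𝔭` -/
noncomputable def SecR (r : τ → ρ) (𝔭 : Ideal (P ρ)) (F : (τ → ℂ) → Submodule ℂ (ι → ℂ)) :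
    Submodule (P ρ) (ι → P ρ) :=
  Sec {y | y ∈ vZ 𝔭 ∧ y ∘ r ≠ 0} fun y => F (y ∘ r)

noncomputable def hS (w : ρ → G2) (r : τ → ρ) (𝔭 : Ideal (P ρ))
    (F : (τ → ℂ) → Submodule ℂ (ι → ℂ)) : Fn G2 :=
  dM w 0 (SecR r 𝔭 F) - dM w 0 (pw ι 𝔭)

/-- the common kernel of the matrices `a j` on the subquotient `Q / I` -/
noncomputable def Phi [Fintype ι] (a : τ → Matrix ι ι (P ρ)) (I Q : Ideal (P ρ)) :
    Submodule (P ρ) (ι → P ρ) :=
  pw ι Q ⊓ ⨅ j, (pw ι I).comap (a j).mulVecLin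

theorem mem_Phi [Fintype ι] {a : τ → Matrix ι ι (P ρ)} {I Q : Ideal (P ρ)} {q : ι → P ρ} :
    q ∈ Phi a I Q ↔ q ∈ pw ι Q ∧ ∀ j, (a j).mulVec q ∈ pw ι I := by
  simp [Phi, Submodule.mem_iInf]

noncomputable def hPhi [Fintype ι] (w : ρ → G2) (a : τ → Matrix ι ι (P ρ)) (I Q : Ideal (P ρ)) :
    Fn G2 :=
  dM w 0 (Phi a I Q) - dM w 0 (pw ι I)

/-- the matrices `X j ^ N - A j`, with the variables renamed -/
noncomputable def am [DecidableEq ι] (r : τ → ρ) (N : ℕ) (A : τ → Matrix ι ι (P τ)) (j : τ) :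
    Matrix ι ι (P ρ) :=
  Matrix.diagonal (fun _ => X (r j) ^ N) - (A j).map (rename r)

/-- the ideal of a product -/
noncomputable def jn {κ₁ κ₂ : Type} (r₁ : κ₁ → ρ) (r₂ : κ₂ → ρ) (I₁ : Ideal (P κ₁))
    (I₂ : Ideal (P κ₂)) : Ideal (P ρ) :=
  I₁.map (rename r₁ : P κ₁ →ₐ[ℂ] P ρ) ⊔ I₂.map (rename r₂ : P κ₂ →ₐ[ℂ] P ρ)

end graded

section cones
variable {τ ι : Type} [Fintype τ]

noncomputable def grad (f : P τ) (y : τ → ℂ) : τ → ℂ := fun i => eval y (pderiv i f)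

noncomputable def gradL (y : τ → ℂ) : P τ →ₗ[ℂ] (τ → ℂ) where
  toFun f := grad f y
  map_add' a b := by ext i; simp [grad]
  map_smul' a b := by ext i; simp [grad]

theorem gradL_apply (y : τ → ℂ) (f : P τ) : gradL y f = grad f y := rfl

theorem grad_add (f g : P τ) (y : τ → ℂ) : grad (f + g) y = grad f y + grad g y :=
  map_add (gradL y) f g

theorem grad_smul (a : ℂ) (f : P τ) (y : τ → ℂ) : grad (a • f) y = a • grad f y :=
  map_smul (gradL y) a f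

theorem grad_sum {κ : Type} (s : Finset κ) (f : κ → P τ) (y : τ → ℂ) :
    grad (∑ i ∈ s, f i) y = ∑ i ∈ s, grad (f i) y :=
  map_sum (gradL y) f s

theorem grad_zero (y : τ → ℂ) : grad (0 : P τ) y = 0 := map_zero (gradL y)

theorem grad_mul (f g : P τ) (y : τ → ℂ) :
    grad (f * g) y = eval y f • grad g y + eval y g • grad f y := by
  ext i
  simp [grad]

/-- the conormal space -/
noncomputable def Nm (Z : Set (τ → ℂ)) (y : τ → ℂ) : Submodule ℂ (τ → ℂ) :=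
  Submodule.span ℂ {v | ∃ f ∈ vI Z, grad f y = v}

/-- irreducible closed cones, not reduced to the origin -/
structure Cn (Z : Set (τ → ℂ)) : Prop where
  closed : vZ (vI Z) = Z
  cone : ∀ a : ℂ, ∀ z ∈ Z, a • z ∈ Z
  prime : (vI Z).IsPrime
  ne : ∃ z ∈ Z, z ≠ 0

/-- cones of codimension `k`, smooth away from the origin -/
structure Sm (Z : Set (τ → ℂ)) (k : ℕ) : Prop extends Cn Z where
  dim : dm (vI Z) + k = Fintype.card τ
  rk : ∀ z ∈ Z, z ≠ 0 → finrank ℂ (Nm Z z) = k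

/-- graded modules with fibres of constant rank -/
structure VB (Z : Set (τ → ℂ)) (K : Submodule (P τ) (ι → P τ)) (r : ℕ) : Prop where
  hom : HomM (w0 τ) 0 K
  le : pw ι (vI Z) ≤ K
  rk : ∀ z ∈ Z, z ≠ 0 → finrank ℂ (fb K z) = r

/-- algebraic families of subspaces -/
def Alg (Z : Set (τ → ℂ)) (F : (τ → ℂ) → Submodule ℂ (ι → ℂ)) (r : ℕ) : Prop :=
  ∃ K, VB Z K r ∧ ∀ z ∈ Z, z ≠ 0 → fb K z = F z

/-- matrices acting like projectors onto the fibres of `K` -/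
structure QP [Fintype ι] (Z : Set (τ → ℂ)) (K : Submodule (P τ) (ι → P τ)) (N : ℕ)
    (A : τ → Matrix ι ι (P τ)) : Prop where
  pos : 0 < N
  hom : ∀ j a b, (A j a b).IsWeightedHomogeneous (w0 τ) ((N : ℤ), 0)
  mem : ∀ j q, (A j).mulVec q ∈ K
  act : ∀ j, ∀ q ∈ K, (A j).mulVec q - (X j : P τ) ^ N • q ∈ pw ι (vI Z)

/-- a family of nowhere vanishing sections, with `Λ` free parameters -/
structure Fam (Z : Set (τ → ℂ)) (F : (τ → ℂ) → Submodule ℂ (ι → ℂ)) (k c γ : ℕ) {Λ Mu : Type}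
    [Fintype Λ] [Fintype Mu] (g : Mu → ℕ) (𝔭 : Ideal (P (τ ⊕ (Λ ⊕ Mu))))
    (ψ : ι → P (τ ⊕ (Λ ⊕ Mu))) : Prop where
  prime : 𝔭.IsPrime
  hom : HomI (wt (Sum.elim (fun _ => 0) g)) 𝔭
  ovr : ∀ y ∈ vZ 𝔭, y ∘ Sum.inl ∈ Z
  nz : ∃ j, X (Sum.inl j) ∉ 𝔭
  elim : ∃ N : ℕ, ∀ j μ, ∃ f : P (τ ⊕ Λ),
    X (Sum.inl j) ^ N * X (Sum.inr (Sum.inr μ)) - rename (Sum.map id Sum.inl) f ∈ 𝔭
  deg : ∀ s, (ψ s).IsWeightedHomogeneous (wt (Sum.elim (fun _ => 0) g)) ((γ : ℤ), 1)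
  mem : ∀ y ∈ vZ 𝔭, y ∘ Sum.inl ≠ 0 → ev y ψ ∈ F (y ∘ Sum.inl)
  ne : ∀ y ∈ vZ 𝔭, y ∘ Sum.inl ≠ 0 → y ∘ Sum.inr ≠ 0 → ev y ψ ≠ 0
  ind : AlgebraicIndependent ℂ fun l : Λ => Ideal.Quotient.mk 𝔭 (X (Sum.inr (Sum.inl l)))
  dim : k + c + 1 + Fintype.card Λ ≤ dm 𝔭

def HasRoot (Z : Set (τ → ℂ)) (F : (τ → ℂ) → Submodule ℂ (ι → ℂ)) (k c γ l : ℕ) : Prop :=
  ∃ (Λ Mu : Type) (_ : Fintype Λ) (_ : Fintype Mu) (g : Mu → ℕ) (𝔭 : Ideal (P (τ ⊕ (Λ ⊕ Mu))))
    (ψ : ι → P (τ ⊕ (Λ ⊕ Mu))), Fintype.card Λ = l ∧ Fam Z F k c γ g 𝔭 ψ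

/-- the first Chern class of `F` is `-κ` times the hyperplane class, numerically -/
def C1 (Z : Set (τ → ℂ)) (F : (τ → ℂ) → Submodule ℂ (ι → ℂ)) (c κ : ℕ) : Prop :=
  ∀ q0 q1 : Polynomial ℤ, Num (dm (vI Z)) (hI (w0 τ) (vI Z)) q0 →
    Num (dm (vI Z)) (hS (w0 τ) id (vI Z) F) q1 →
    q1.derivative.eval 1 - c * q0.derivative.eval 1 = κ * q0.eval 1

end cones

/-- exterior algebra of `σ → ℂ` in coordinates -/
structure ExtP (σ E : Type) [Fintype σ] [Fintype E] [DecidableEq σ] where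
  Lam : ℕ → Submodule ℂ (σ → ℂ) → Submodule ℂ (E → ℂ)
  wd : σ → Matrix E E ℂ
  ct : σ → Matrix E E ℂ
  e0 : E → ℂ
  e0_ne : e0 ≠ 0
  lam0 : ∀ L, Lam 0 L = ℂ ∙ e0
  gen : ∀ j L, Lam (j + 1) L =
    Submodule.span ℂ {x | ∃ v ∈ L, ∃ ω ∈ Lam j L, (∑ s, v s • wd s).mulVec ω = x}
  inj : ∀ v : σ → ℂ, (∑ s, v s • wd s).mulVec e0 = 0 → v = 0
  rank : ∀ j L, finrank ℂ (Lam j L) = (finrank ℂ L).choose j
  wd_wd : ∀ v : σ → ℂ, (∑ s, v s • wd s) * (∑ s, v s • wd s) = 0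
  ct_mem : ∀ j L s, ∀ ω ∈ Lam (j + 1) L, (ct s).mulVec ω ∈ Lam j L
  ct_zero : ∀ s, (ct s).mulVec e0 = 0
  ct_wd : ∀ s s' (ω : E → ℂ),
    (ct s).mulVec ((wd s').mulVec ω) + (wd s').mulVec ((ct s).mulVec ω) = if s = s' then ω else 0

section geometry
variable {σ : Type} [Fintype σ] {n : ℕ}

/-- restriction to the line `x + t y` -/
noncomputable def lp (x y : σ → ℂ) : P σ →ₐ[ℂ] Polynomial ℂ :=
  aeval fun i => Polynomial.C (x i) + Polynomial.C (y i) * Polynomial.X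

/-- Taylor coefficients of the gradient along the line -/
noncomputable def om (x y : σ → ℂ) (f : P σ) (j : ℕ) : σ → ℂ :=
  fun i => (lp x y (pderiv i f)).coeff j

def Pair (C : Set (σ → ℂ)) (x y a b : σ → ℂ) : Prop :=
  ∀ t : ℂ, a + t • b ∈ tangent C (x + t • y)

/-- all lines through `x` are free -/
def Free (C : Set (σ → ℂ)) (x : σ → ℂ) : Prop :=
  ∀ y, (∀ t : ℂ, x + t • y ∈ C) → ∀ a ∈ tangent C x, ∃ b, Pair C x y a b

noncomputable def W0 (C : Set (σ → ℂ)) (x y : σ → ℂ) : Submodule ℂ (σ → ℂ) :=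
  ⨅ t : ℂ, tangent C (x + t • y)

/-- substitution of `x + φ w` -/
noncomputable def sb (x : σ → ℂ) (φ : (Fin n → ℂ) →ₗ[ℂ] (σ → ℂ)) : P σ →ₐ[ℂ] P (Fin n) :=
  aeval fun i => C (x i) + lin ((LinearMap.proj i).comp φ)

/-- Taylor forms -/
noncomputable def tay (x : σ → ℂ) (φ : (Fin n → ℂ) →ₗ[ℂ] (σ → ℂ)) (j : ℕ) :
    P σ →ₗ[ℂ] P (Fin n) :=
  (homogeneousComponent j).comp (sb x φ).toLinearMap

noncomputable def omP (x : σ → ℂ) (φ : (Fin n → ℂ) →ₗ[ℂ] (σ → ℂ)) (G : P σ) (j : ℕ) :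
    σ → P (Fin n) := fun s => tay x φ j (pderiv s G)

/-- the span of the gradients of the Taylor forms -/
noncomputable def NT (C : Set (σ → ℂ)) (x : σ → ℂ) (φ : (Fin n → ℂ) →ₗ[ℂ] (σ → ℂ))
    (z : Fin n → ℂ) : Submodule ℂ (Fin n → ℂ) :=
  Submodule.span ℂ {v | ∃ G ∈ vI C, ∃ j, grad (tay x φ j G) z = v}

/-- the ideal of all Taylor forms -/
noncomputable def JT (C : Set (σ → ℂ)) (x : σ → ℂ) (φ : (Fin n → ℂ) →ₗ[ℂ] (σ → ℂ)) :
    Ideal (P (Fin n)) :=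
  Ideal.span {f | ∃ G ∈ vI C, ∃ j, tay x φ j G = f}

/-- sections of the conormal bundle at infinity -/
noncomputable def KN (C : Set (σ → ℂ)) (x : σ → ℂ) (φ : (Fin n → ℂ) →ₗ[ℂ] (σ → ℂ)) :
    Submodule (P (Fin n)) (σ → P (Fin n)) :=
  Submodule.span _ {q | ∃ G ∈ vI C, ∃ d, G.IsHomogeneous (d + 1) ∧ omP x φ G d = q} ⊔
    pw σ (vI (lines C x φ))

noncomputable def KW (C : Set (σ → ℂ)) (x : σ → ℂ) (φ : (Fin n → ℂ) →ₗ[ℂ] (σ → ℂ)) :
    Submodule (P (Fin n)) (σ → P (Fin n)) :=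
  Submodule.span _ {q | ∃ G ∈ vI C, ∃ j, omP x φ G j = q} ⊔ pw σ (vI (lines C x φ))

noncomputable def KK (C : Set (σ → ℂ)) (x : σ → ℂ) (φ : (Fin n → ℂ) →ₗ[ℂ] (σ → ℂ)) :
    Submodule (P (Fin n)) (σ ⊕ σ → P (Fin n)) :=
  Submodule.span _ {q | ∃ G ∈ vI C, Sum.elim (omP x φ G 0) 0 = q ∨
    ∃ j, Sum.elim (omP x φ G (j + 1)) (omP x φ G j) = q} ⊔ pw (σ ⊕ σ) (vI (lines C x φ))

/-- the situation at a good point -/
structure Ctx (C : Set (σ → ℂ)) (x : σ → ℂ) (φ : (Fin n → ℂ) →ₗ[ℂ] (σ → ℂ)) (c k : ℕ) : Prop where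
  sm : Sm C c
  card : Fintype.card σ = n + 1 + c
  mem : x ∈ C
  ne : x ≠ 0
  free : Free C x
  frame : IsFrame C x φ
  prime : (vI (lines C x φ)).IsPrime
  dim : dm (vI (lines C x φ)) + k = n
  lt : k < n

/-- a basis of the conormal space at `x` -/
def Bas (C : Set (σ → ℂ)) (x : σ → ℂ) {c : ℕ} (G : Fin c → P σ) : Prop :=
  (∀ i, G i ∈ vI C) ∧ LinearIndependent ℂ fun i => grad (G i) x

abbrev MuT {c : ℕ} (b : Fin c → ℕ) : Type := (i : Fin c) × Fin (b i - 1)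

abbrev LaT {c : ℕ} (b : Fin c → ℕ) (β : ℕ) : Type := {i : Fin c // b i = β}

/-- the Taylor forms of degrees `2, …, b i` have independent gradients along the cone of lines -/
def Indep (C : Set (σ → ℂ)) (x : σ → ℂ) (φ : (Fin n → ℂ) →ₗ[ℂ] (σ → ℂ)) {c : ℕ} (b : Fin c → ℕ)
    (G : Fin c → P σ) : Prop :=
  ∀ z ∈ lines C x φ, z ≠ 0 →
    LinearIndependent ℂ fun m : MuT b => grad (tay x φ (m.2 + 2) (G m.1)) z

/-- no further form of degree `β + 1` can be added -/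
def Hmax (C : Set (σ → ℂ)) (x : σ → ℂ) (φ : (Fin n → ℂ) →ₗ[ℂ] (σ → ℂ)) {c : ℕ} (b : Fin c → ℕ)
    (G : Fin c → P σ) (β : ℕ) : Prop :=
  ∀ l : Fin c → ℂ, (∀ i, b i ≠ β → l i = 0) → ∃ z ∈ lines C x φ, z ≠ 0 ∧
    grad (tay x φ (β + 1) (∑ i, l i • G i)) z ∈
      Submodule.span ℂ (Set.range fun m : MuT b => grad (tay x φ (m.2 + 2) (G m.1)) z)

/-- the universal relation between gradients -/
noncomputable def rv (x : σ → ℂ) (φ : (Fin n → ℂ) →ₗ[ℂ] (σ → ℂ)) {c : ℕ} (b : Fin c → ℕ)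
    (G : Fin c → P σ) (β : ℕ) : Fin n → P (Fin n ⊕ (LaT b β ⊕ MuT b)) := fun a =>
  ∑ l : LaT b β, X (Sum.inr (Sum.inl l)) * rename Sum.inl (pderiv a (tay x φ (β + 1) (G l))) +
    ∑ m : MuT b, X (Sum.inr (Sum.inr m)) * rename Sum.inl (pderiv a (tay x φ (m.2 + 2) (G m.1)))

/-- the universal section -/
noncomputable def rps (x : σ → ℂ) (φ : (Fin n → ℂ) →ₗ[ℂ] (σ → ℂ)) {c : ℕ} (b : Fin c → ℕ)
    (G : Fin c → P σ) (β : ℕ) : σ → P (Fin n ⊕ (LaT b β ⊕ MuT b)) := fun s =>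
  ∑ l : LaT b β, X (Sum.inr (Sum.inl l)) * rename Sum.inl (omP x φ (G l) (β - 1) s) +
    ∑ m : MuT b, X (Sum.inr (Sum.inr m)) * rename Sum.inl (omP x φ (G m.1) m.2 s)

/-- the weights of the dependent parameters -/
def rg {c : ℕ} (b : Fin c → ℕ) (β : ℕ) : MuT b → ℕ := fun m => β - 1 - m.2

/-- coefficients in the subfield `K` -/
def Ov {ρ : Type} (K : Subfield ℂ) (f : P ρ) : Prop := ∀ d, f.coeff d ∈ K

/-- generic points over `K` -/
def Gnr (K : Subfield ℂ) (C : Set (σ → ℂ)) (x : σ → ℂ) : Prop :=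
  x ∈ C ∧ ∀ f : P σ, Ov K f → eval x f = 0 → f ∈ vI C

end geometry

/-- there is a regular sequence of `n` forms of positive degree modulo `I` -/
def Dp {τ : Type} : ℕ → Ideal (P τ) → Prop
  | 0, _ => True
  | n + 1, I => ∃ (x : P τ) (e : ℕ), 0 < e ∧ x.IsHomogeneous e ∧ (∀ p, p * x ∈ I → p ∈ I) ∧
      Dp n (I ⊔ Ideal.span {x})

end Pool.Agent.MP_429080_ag.H26
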