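import Pool.Agent.MP_429080_ag.CI.Defs

namespace Pool.Agent.MP_429080_ag.H26

open MvPolynomial Filter Module Pool.Agent.EGH Pool.Agent.MP_d171e3_nt

set_option linter.unusedSectionVars false

section PartHBas

variable {ρ ι ι' : Type} [Fintype ρ] [Fintype ι] [Fintype ι'] {w : ρ → G2} {u : ι → G2}
  {u' : ι' → G2}

theorem Adm.posw (hw : Adm w) : Posw w := by
  refine ⟨AddMonoidHom.fst ℤ ℤ + AddMonoidHom.snd ℤ ℤ, fun v => ?_⟩
  rcases hw v with h | ⟨g, h⟩ <;> simp [h]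

theorem adm_w0 (τ : Type) : Adm (w0 τ) := fun _ => Or.inl rfl

theorem adm_wt {τ η : Type} (γ : η → ℕ) : Adm (wt (τ := τ) γ) := by
  rintro (a | l)
  exacts [Or.inl rfl, Or.inr ⟨γ l, rfl⟩]

theorem Adm.elim {κ₁ κ₂ : Type} {w₁ : κ₁ → G2} {w₂ : κ₂ → G2} (h₁ : Adm w₁) (h₂ : Adm w₂) :
    Adm (Sum.elim w₁ w₂) := by
  rintro (a | l)
  exacts [h₁ a, h₂ l]

theorem posw_comp {κ : Type} (hw : Posw w) (r : κ → ρ) : Posw (w ∘ r) :=
  hw.imp fun _ h v => h (r v)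

theorem isH_vc (g : G2) (q : ι → P ρ) : IsH w u g (vc w u g q) := fun i =>
  weightedHomogeneousComponent_isWeightedHomogeneous _ (q i)

theorem IsH.vc_same {g : G2} {q : ι → P ρ} (h : IsH w u g q) : vc w u g q = q :=
  funext fun i => weightedHomogeneousComponent_eq_self (h i)

theorem IsH.vc_ne {g g' : G2} {q : ι → P ρ} (h : IsH w u g q) (hne : g' ≠ g) :
    vc w u g' q = 0 :=
  funext fun i => (h i).weightedHomogeneousComponent_ne _ fun e => hne (sub_left_injective e)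

theorem vc_add (g : G2) (q q' : ι → P ρ) : vc w u g (q + q') = vc w u g q + vc w u g q' :=
  funext fun _ => map_add _ _ _

theorem vc_sub (g : G2) (q q' : ι → P ρ) : vc w u g (q - q') = vc w u g q - vc w u g q' :=
  funext fun _ => map_sub _ _ _

theorem vc_smul {x : P ρ} {e : G2} (hx : x.IsWeightedHomogeneous w e) (g : G2) (q : ι → P ρ) :
    vc w u g (x • q) = x • vc w u (g - e) q := by
  ext1 i
  simp only [vc, Pi.smul_apply, smul_eq_mul]
  rw [mul_comm, wc_mul hx, mul_comm, sub_right_comm]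

theorem hbas_vc_sum {κ : Type} (s : Finset κ) (g : G2) (q : κ → ι → P ρ) :
    vc w u g (∑ k ∈ s, q k) = ∑ k ∈ s, vc w u g (q k) := by
  ext1 i
  simp only [vc, Finset.sum_apply, map_sum]

theorem exists_sum_vc (w : ρ → G2) (u : ι → G2) (q : ι → P ρ) :
    ∃ s : Finset G2, q = ∑ g ∈ s, vc w u g q := by
  classical
  refine ⟨Finset.univ.biUnion fun i =>
    (weightedHomogeneousComponent_finsupp (w := w) (q i)).toFinset.image (· + u i), ?_⟩
  ext1 i
  rw [Finset.sum_apply, ← finsum_eq_sum_of_support_subset (fun g => vc w u g q i)]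
  · rw [← finsum_comp_equiv (Equiv.addRight (u i))]
    simp only [vc, Equiv.coe_addRight, add_sub_cancel_right, sum_weightedHomogeneousComponent]
  · intro g hg
    simp only [Finset.coe_biUnion, Finset.coe_univ, Set.mem_univ, Set.iUnion_true, Set.mem_iUnion,
      Finset.coe_image, Set.Finite.coe_toFinset]
    exact ⟨i, g - u i, hg, sub_add_cancel _ _⟩

theorem mem_of_vc {Q : Submodule (P ρ) (ι → P ρ)} {q : ι → P ρ} (h : ∀ g, vc w u g q ∈ Q) :
    q ∈ Q := by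
  obtain ⟨s, hs⟩ := exists_sum_vc w u q
  rw [hs]
  exact sum_mem fun g _ => h g

theorem Grd.vc {e : G2} {f : (ι → P ρ) →ₗ[P ρ] (ι' → P ρ)} (hf : Grd w u u' e f) (g : G2)
    (q : ι → P ρ) : vc w u' (g + e) (f q) = f (vc w u g q) := by
  classical
  obtain ⟨s, hs⟩ := exists_sum_vc w u q
  conv_lhs => rw [hs, map_sum, hbas_vc_sum]
  conv_rhs => rw [hs, hbas_vc_sum, map_sum]
  refine Finset.sum_congr rfl fun k _ => ?_
  have h1 := isH_vc (w := w) (u := u) k q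
  by_cases h : g = k
  · rw [h, (hf _ _ h1).vc_same, h1.vc_same]
  · rw [(hf _ _ h1).vc_ne fun e => h (add_right_cancel e), h1.vc_ne h, map_zero]

theorem homM_top : HomM w u ⊤ := fun _ _ _ => trivial

theorem homM_pw {I : Ideal (P ρ)} (hI : HomI w I) : HomM w u (pw ι I) :=
  fun _ _ h => mem_pw.2 fun i => hI _ _ (mem_pw.1 h i)

theorem HomM.inf {Q Q' : Submodule (P ρ) (ι → P ρ)} (h : HomM w u Q) (h' : HomM w u Q') :
    HomM w u (Q ⊓ Q') := fun g q hq => ⟨h g q hq.1, h' g q hq.2⟩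

theorem HomM.sup {Q Q' : Submodule (P ρ) (ι → P ρ)} (h : HomM w u Q) (h' : HomM w u Q') :
    HomM w u (Q ⊔ Q') := by
  intro g q hq
  obtain ⟨a, ha, b, hb, rfl⟩ := Submodule.mem_sup.1 hq
  rw [vc_add]
  exact Submodule.add_mem_sup (h g a ha) (h' g b hb)

theorem HomM.map {e : G2} {f : (ι → P ρ) →ₗ[P ρ] (ι' → P ρ)} (hf : Grd w u u' e f)
    {Q : Submodule (P ρ) (ι → P ρ)} (h : HomM w u Q) : HomM w u' (Q.map f) := by
  rintro g _ ⟨q, hq, rfl⟩
  exact ⟨_, h (g - e) q hq, by rw [← hf.vc, sub_add_cancel]⟩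

theorem HomM.comap {e : G2} {f : (ι → P ρ) →ₗ[P ρ] (ι' → P ρ)} (hf : Grd w u u' e f)
    {Q : Submodule (P ρ) (ι' → P ρ)} (h : HomM w u' Q) : HomM w u (Q.comap f) := by
  intro g q hq
  rw [Submodule.mem_comap, ← hf.vc]
  exact h _ _ hq

theorem homM_span {S : Set (ι → P ρ)} (h : ∀ q ∈ S, ∃ g, IsH w u g q) :
    HomM w u (Submodule.span (P ρ) S) := by
  have : ∀ q ∈ Submodule.span (P ρ) S, ∀ (r : P ρ) g,
      vc w u g (r • q) ∈ Submodule.span (P ρ) S := by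
    intro q hq
    induction hq using Submodule.span_induction with
    | mem y hy =>
      obtain ⟨e, he⟩ := h y hy
      intro r g
      have : vc w u g (r • y) = weightedHomogeneousComponent w (g - e) r • y := by
        ext1 i
        simp only [vc, Pi.smul_apply, smul_eq_mul]
        rw [wc_mul (he i), sub_sub_sub_cancel_right]
      exact this ▸ Submodule.smul_mem _ _ (Submodule.subset_span hy)
    | zero =>
      intro r g
      rw [smul_zero, show vc w u g 0 = 0 from funext fun _ => map_zero _]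
      exact zero_mem _
    | add p q _ _ hp hq =>
      exact fun r g => by rw [smul_add, vc_add]; exact add_mem (hp r g) (hq r g)
    | smul a p _ hp => exact fun r g => by rw [smul_smul]; exact hp _ g
  exact fun g q hq => by simpa using this q hq 1 g

theorem HomM.exists_hom {Q Q' : Submodule (P ρ) (ι → P ρ)} (h : HomM w u Q) (hn : ¬ Q ≤ Q') :
    ∃ q g, q ∈ Q ∧ q ∉ Q' ∧ IsH w u g q := by
  by_contra hc
  refine hn fun q hq => mem_of_vc (w := w) (u := u) fun g => ?_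
  by_contra h1
  exact hc ⟨_, g, h g q hq, h1, isH_vc g q⟩

theorem grd_id : Grd w u u 0 LinearMap.id := fun g q h => by rwa [add_zero]

theorem grd_smul {x : P ρ} {e : G2} (hx : x.IsWeightedHomogeneous w e) :
    Grd w u u e (x • LinearMap.id) := fun g q h i => by
  have := hx.mul (h i)
  rwa [← add_sub_assoc, add_comm] at this

theorem grd_mulVec {e : G2} {A : Matrix ι' ι (P ρ)}
    (h : ∀ a b, (A a b).IsWeightedHomogeneous w (e + u b - u' a)) :
    Grd w u u' e A.mulVecLin := fun g q hq a =>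
  IsWeightedHomogeneous.sum _ _ _ fun b _ => by
    have := (h a b).mul (hq b)
    rwa [show e + u b - u' a + (g - u b) = g + e - u' a by abel] at this

theorem homM_Phi {τ : Type} {a : τ → Matrix ι ι (P ρ)} {e : τ → G2}
    (ha : ∀ j x y, (a j x y).IsWeightedHomogeneous w (e j)) {I Q : Ideal (P ρ)} (hI : HomI w I)
    (hQ : HomI w Q) : HomM w 0 (Phi a I Q) := fun g q hq =>
  mem_Phi.2 ⟨homM_pw hQ g q (mem_Phi.1 hq).1, fun j =>
    (homM_pw hI).comap (grd_mulVec (e := e j) (u' := 0) fun x y => by simpa using ha j x y) g q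
      ((mem_Phi.1 hq).2 j)⟩

theorem pw_mono {I J : Ideal (P ρ)} (h : I ≤ J) : pw ι I ≤ pw ι J :=
  fun _ hq => mem_pw.2 fun i => h (mem_pw.1 hq i)

theorem pw_top : pw ι (⊤ : Ideal (P ρ)) = ⊤ := eq_top_iff.2 fun _ _ => mem_pw.2 fun _ => trivial

theorem pw_sup (I J : Ideal (P ρ)) : pw ι (I ⊔ J) = pw ι I ⊔ pw ι J := by
  refine le_antisymm (fun q hq => ?_) (sup_le (pw_mono le_sup_left) (pw_mono le_sup_right))
  choose a ha b hb h using fun i => Submodule.mem_sup.1 (mem_pw.1 hq i)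
  exact Submodule.mem_sup.2 ⟨a, mem_pw.2 ha, b, mem_pw.2 hb, funext h⟩

theorem mulVec_mem_pw {I : Ideal (P ρ)} (A : Matrix ι' ι (P ρ)) {q : ι → P ρ} (h : q ∈ pw ι I) :
    A.mulVec q ∈ pw ι' I :=
  mem_pw.2 fun _ => sum_mem fun b _ => I.mul_mem_left _ (mem_pw.1 h b)

theorem pw_le_Phi {τ : Type} (a : τ → Matrix ι ι (P ρ)) {I Q : Ideal (P ρ)} (h : I ≤ Q) :
    pw ι I ≤ Phi a I Q := fun _ hq => mem_Phi.2 ⟨pw_mono h hq, fun _ => mulVec_mem_pw _ hq⟩

theorem fb_span_sup {Z : Set (ρ → ℂ)} {z : ρ → ℂ} (hz : z ∈ Z) (S : Set (ι → P ρ)) :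
    fb (Submodule.span (P ρ) S ⊔ pw ι (vI Z)) z = Submodule.span ℂ (ev z '' S) := by
  refine le_antisymm ?_ (Submodule.span_le.2 ?_)
  · rintro _ ⟨q, hq, rfl⟩
    have h : Submodule.span (P ρ) S ⊔ pw ι (vI Z) ≤
        Sec {z} fun _ => Submodule.span ℂ (ev z '' S) := by
      refine sup_le (Submodule.span_le.2 ?_) ?_
      · rintro p hp _ rfl
        exact Submodule.subset_span ⟨p, hp, rfl⟩
      · rintro p hp y rfl
        rw [show ev y p = 0 from funext fun i => mem_van.1 (mem_pw.1 hp i) y hz]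
        exact zero_mem _
    exact h hq z rfl
  · rintro _ ⟨q, hq, rfl⟩
    exact ⟨q, Submodule.mem_sup_left (Submodule.subset_span hq), rfl⟩

theorem ev_mulVec (y : ρ → ℂ) (A : Matrix ι' ι (P ρ)) (q : ι → P ρ) :
    ev y (A.mulVec q) = (A.map (eval y)).mulVec (ev y q) := by
  ext a
  simp [ev, Matrix.mulVec, dotProduct]

theorem ev_pw {I : Ideal (P ρ)} {y : ρ → ℂ} (hy : y ∈ vZ I) {q : ι → P ρ} (h : q ∈ pw ι I) :
    ev y q = 0 := funext fun i => hy _ (mem_pw.1 h i)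

theorem fin_pcM (hw : Posw w) (Q : Submodule (P ρ) (ι → P ρ)) (g : G2) :
    Module.Finite ℂ (pcM w u Q g) := by
  have : Module.Finite ℂ
      (Submodule.pi Set.univ fun i => weightedHomogeneousSubmodule ℂ w (g - u i)) :=
    Module.Finite.iff_fg.2 (Submodule.fg_pi fun i => Module.Finite.iff_fg.1 (hw.fin _))
  exact Submodule.finiteDimensional_inf_left _ _

theorem dM_map (hw : Posw w) {e : G2} {f : (ι → P ρ) →ₗ[P ρ] (ι' → P ρ)} (hf : Grd w u u' e f)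
    {Q : Submodule (P ρ) (ι → P ρ)} {Q' : Submodule (P ρ) (ι' → P ρ)} (hQ : HomM w u Q)
    (hQ' : HomM w u' Q') :
    sh e • (dM w u Q - dM w u (Q ⊓ Q'.comap f)) = dM w u' (Q.map f ⊔ Q') - dM w u' Q' := by
  ext g
  have := fin_pcM (u := u) hw Q (g - e)
  have := fin_pcM (u := u') hw (Q.map f ⊔ Q') g
  have h1 := finrank_map_add ((Q'.restrictScalars ℂ).mkQ ∘ₗ f.restrictScalars ℂ) (pcM w u Q (g - e))
  have h2 := finrank_map_add (Q'.restrictScalars ℂ).mkQ (pcM w u' (Q.map f ⊔ Q') g)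
  have e1 : pcM w u Q (g - e) ⊓ LinearMap.ker ((Q'.restrictScalars ℂ).mkQ ∘ₗ f.restrictScalars ℂ) =
      pcM w u (Q ⊓ Q'.comap f) (g - e) := by
    ext p
    simp [mem_pcM, and_assoc]
  have e2 : pcM w u' (Q.map f ⊔ Q') g ⊓ LinearMap.ker (Q'.restrictScalars ℂ).mkQ =
      pcM w u' Q' g := by
    ext p
    simp only [Submodule.mem_inf, mem_pcM, Submodule.ker_mkQ, Submodule.restrictScalars_mem]
    exact ⟨fun h => ⟨h.1.1, h.2⟩, fun h => ⟨⟨h.1, Submodule.mem_sup_right h.2⟩, h.2⟩⟩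
  have e3 : (pcM w u Q (g - e)).map ((Q'.restrictScalars ℂ).mkQ ∘ₗ f.restrictScalars ℂ) =
      (pcM w u' (Q.map f ⊔ Q') g).map (Q'.restrictScalars ℂ).mkQ := by
    apply le_antisymm
    · rintro _ ⟨p, hp, rfl⟩
      obtain ⟨h3, h4⟩ := mem_pcM.1 hp
      exact ⟨f p, mem_pcM.2 ⟨sub_add_cancel g e ▸ hf _ _ h3,
        Submodule.mem_sup_left ⟨p, h4, rfl⟩⟩, rfl⟩
    · rintro _ ⟨p, hp, rfl⟩
      obtain ⟨h3, h4⟩ := mem_pcM.1 hp
      obtain ⟨_, ⟨a, ha, rfl⟩, b, hb, rfl⟩ := Submodule.mem_sup.1 h4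
      refine ⟨_, mem_pcM.2 ⟨isH_vc (g - e) a, hQ _ a ha⟩, ?_⟩
      have h5 : (Q'.restrictScalars ℂ).mkQ (vc w u' g b) = 0 :=
        (Submodule.Quotient.mk_eq_zero _).2 (hQ' g b hb)
      have h6 := hf.vc (g - e) a
      rw [sub_add_cancel] at h6
      rw [← h3.vc_same, vc_add, map_add, h5, add_zero, h6]
      rfl
  rw [e1, e3] at h1
  rw [e2] at h2
  simp only [dM, Fn.sub_apply, sh_smul]
  omega

end PartHBas

section PartHDev

variable {ρ ι τ : Type} [Fintype ρ] [Fintype ι] [Fintype τ] {w : ρ → G2} {u : ι → G2}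

theorem hdev_zero {Q : Submodule (P ρ) (ι → P ρ)} {g : G2}
    (h : ∀ i (d : ρ →₀ ℕ), Finsupp.weight w d ≠ g - u i) : dM w u Q g = 0 := by
  have : pcM w u Q g = ⊥ := (Submodule.eq_bot_iff _).2 fun q hq => funext fun i =>
    MvPolynomial.ext _ _ fun d => of_not_not fun hd => h i d ((mem_pcM.1 hq).1 i hd)
  rw [dM, this, finrank_bot, Nat.cast_zero]

theorem dM_bdd {φ : G2 →+ ℤ} (hφ : ∀ v, 0 < φ (w v)) (Q : Submodule (P ρ) (ι → P ρ)) :
    dM w u Q ∈ Bdd φ := by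
  obtain ⟨b, hb⟩ := (Set.finite_range fun i => φ (u i)).bddBelow
  refine ⟨b, fun k hk => hdev_zero fun i d hd => ?_⟩
  have h1 := weight_nonneg hφ d
  have h2 := hb ⟨i, rfl⟩
  rw [hd, map_sub] at h1
  simp only at h2
  omega

theorem hdev_pi (hw : Posw w) (I : Ideal (P ρ)) (g : G2) :
    dM w 0 (pw ι I) g = Fintype.card ι * finrank ℂ (pcI w I g) := by
  have := hw.finI I g
  let e : pcM w 0 (pw ι I) g ≃ₗ[ℂ] (ι → pcI w I g) :=
    { toFun := fun q i => ⟨q.1 i, by simpa using (mem_pcM.1 q.2).1 i, (mem_pcM.1 q.2).2 i trivial⟩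
      invFun := fun f => ⟨fun i => f i, mem_pcM.2 ⟨fun i => by simpa using (f i).2.1,
        mem_pw.2 fun i => (f i).2.2⟩⟩
      map_add' := fun _ _ => rfl
      map_smul' := fun _ _ => rfl
      left_inv := fun _ => rfl
      right_inv := fun _ => rfl }
  simp [dM, e.finrank_eq, finrank_pi_fintype]

theorem dM_pw (hw : Posw w) (I : Ideal (P ρ)) :
    dM w 0 (⊤ : Submodule (P ρ) (ι → P ρ)) - dM w 0 (pw ι I) =
      (Fintype.card ι : ℤ) • hI w I := by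
  ext g
  have : pcI w (⊤ : Ideal (P ρ)) g = weightedHomogeneousSubmodule ℂ w g := by simp [pcI]
  rw [← pw_top, Fn.sub_apply, hdev_pi hw, hdev_pi hw, this, Fn.zsmul_apply, hI, mul_sub]

theorem hdev_grd {κ : Type} [Fintype κ] {e : G2} {s : κ → ι → P ρ} (hs : ∀ i, IsH w u e (s i)) :
    Grd w 0 u e (Fintype.linearCombination (P ρ) s) := by
  intro g q hq j
  rw [Fintype.linearCombination_apply, Finset.sum_apply]
  refine IsWeightedHomogeneous.sum _ _ _ fun i _ => ?_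
  simpa [add_sub_assoc] using (hq i).mul (hs i j)

theorem hdev_inj (hw : Posw w) {κ : Type} [Fintype κ] {I : Ideal (P ρ)} {e : G2}
    {s : κ → ι → P ρ} (hs : ∀ i, IsH w u e (s i)) {Q : Submodule (P ρ) (ι → P ρ)}
    (hQ : HomM w u Q) (h : Q.comap (Fintype.linearCombination (P ρ) s) = pw κ I) :
    dM w u (Submodule.span (P ρ) (Set.range s) ⊔ Q) - dM w u Q =
      sh e • ((Fintype.card κ : ℤ) • hI w I) := by
  have := dM_map hw (hdev_grd hs) homM_top hQ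
  rwa [top_inf_eq, h, dM_pw hw, Submodule.map_top, Fintype.range_linearCombination,
    eq_comm] at this

theorem dev (hw : Posw w) (Λ : Submodule (RG G2) (Fn G2)) (r : RG G2)
    {Q₁ Q₂ : Submodule (P ρ) (ι → P ρ)} (h₁ : HomM w u Q₁) (h₂ : HomM w u Q₂) (hle : Q₂ ≤ Q₁)
    (𝔞 : Ideal (P ρ)) (h𝔞 : ∀ a ∈ 𝔞, ∀ q ∈ Q₁, a • q ∈ Q₂)
    (h : ∀ I, HomI w I → 𝔞 ≤ I → r • hI w I ∈ Λ) : r • (dM w u Q₁ - dM w u Q₂) ∈ Λ := by
  induction Q₂ using IsNoetherian.induction with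
  | hgt Q₂ ih =>
    by_cases hc : Q₁ ≤ Q₂
    · simp [le_antisymm hle hc]
    obtain ⟨q, g, h1, h2, h3⟩ := h₁.exists_hom hc
    have hs : ∀ i, IsH w u g ((fun _ : Unit => q) i) := fun _ => h3
    have h4 := ih (Submodule.span (P ρ) (Set.range fun _ : Unit => q) ⊔ Q₂)
      (lt_of_le_of_ne le_sup_right fun h =>
        h2 (h ▸ Submodule.mem_sup_left (Submodule.subset_span ⟨(), rfl⟩)))
      ((homM_span (by rintro _ ⟨_, rfl⟩; exact ⟨g, h3⟩)).sup h₂)
      (sup_le (Submodule.span_le.2 (by rintro _ ⟨_, rfl⟩; exact h1)) hle)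
      fun a ha q hq => Submodule.mem_sup_right (h𝔞 a ha q hq)
    have h5 : Q₂.comap (Fintype.linearCombination (P ρ) fun _ : Unit => q) =
        pw Unit (Q₂.comap (LinearMap.toSpanSingleton (P ρ) _ q)) := by
      ext a
      simp [mem_pw, Fintype.linearCombination_apply, Unique.forall_iff]
    have h6 : HomI w (Q₂.comap (LinearMap.toSpanSingleton (P ρ) _ q)) := fun k a ha => by
      have := h₂.comap (hdev_grd hs)
      rw [h5] at this
      simpa [vc] using mem_pw.1 (this k (fun _ => a) (mem_pw.2 fun _ => ha)) ()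
    have h7 := hdev_inj hw hs h₂ h5
    rw [Fintype.card_unit, Nat.cast_one, one_smul] at h7
    rw [← sub_add_sub_cancel _ _ (dM w u Q₂), smul_add, h7, smul_comm r (sh g)]
    exact add_mem h4 (Λ.smul_mem _ (h _ h6 fun a ha => h𝔞 a ha q h1))

theorem hilbert_serre (hw : Posw w) {Q₁ Q₂ : Submodule (P ρ) (ι → P ρ)} (h₁ : HomM w u Q₁)
    (h₂ : HomM w u Q₂) (hle : Q₂ ≤ Q₁) :
    ∃ ε : RG G2, (∏ v, (1 - sh (w v))) • (dM w u Q₁ - dM w u Q₂) = ε • dl G2 := by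
  obtain ⟨ε, h⟩ := Submodule.mem_span_singleton.1 (dev hw (Submodule.span _ {dl G2})
    (∏ v, (1 - sh (w v))) h₁ h₂ hle ⊥ (fun a ha q _ => by simp [Ideal.mem_bot.1 ha])
    fun I a b => elim_many hw _ X w (isWeightedHomogeneous_X ℂ w) _
      (fun _ _ _ h => hI_all fun v => h v (Finset.mem_univ v)) a b)
  exact ⟨ε, h.symm⟩

theorem hdev_w0 (d : τ →₀ ℕ) :
    0 ≤ (Finsupp.weight (w0 τ) d).1 ∧ (Finsupp.weight (w0 τ) d).2 = 0 :=
  ⟨weight_nonneg (φ := AddMonoidHom.fst ℤ ℤ) (fun _ => one_pos) d,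
    by simpa [w0] using map_weight (w0 τ) (AddMonoidHom.snd ℤ ℤ) d⟩

theorem sup_dM (Q : Submodule (P τ) (ι → P τ)) : Sup (dM (w0 τ) 0 Q) := fun g hg =>
  of_not_not fun h => hg (hdev_zero fun _ d hd => h (by simpa [hd] using hdev_w0 d))

theorem sup_hI (I : Ideal (P τ)) : Sup (hI (w0 τ) I) := fun _ hg =>
  of_not_not fun h => hg (hI_eq_zero fun d _ hd => absurd (hd ▸ hdev_w0 d) h)

theorem dM_inj (hw : Posw w) {κ : Type} [Fintype κ] {I : Ideal (P ρ)} (hI' : HomI w I) {e : G2}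
    (s : κ → ι → P ρ) (hs : ∀ i, IsH w u e (s i))
    (hinj : ∀ a : κ → P ρ, ∑ i, a i • s i ∈ pw ι I → ∀ i, a i ∈ I) :
    dM w u (Submodule.span (P ρ) (Set.range s) ⊔ pw ι I) - dM w u (pw ι I) =
      sh e • ((Fintype.card κ : ℤ) • hI w I) := by
  refine hdev_inj hw hs (homM_pw hI') (Submodule.ext fun a => ⟨fun h => mem_pw.2 (hinj a h),
    fun h => mem_pw.2 fun j => ?_⟩)
  rw [Fintype.linearCombination_apply, Finset.sum_apply]
  exact sum_mem fun i _ => Ideal.mul_mem_right _ _ (mem_pw.1 h i)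

theorem hdev_X (hw : Posw w) (s : Finset ρ) : hI w (Ideal.span (X '' (s : Set ρ)) : Ideal (P ρ)) =
    (∏ v ∈ s, (1 - sh (w v))) • hI w (⊥ : Ideal (P ρ)) := by
  classical
  induction s using Finset.induction_on with
  | empty => simp
  | insert v s hv ih =>
    rw [Finset.prod_insert hv, mul_smul, ← ih, Finset.coe_insert, Set.image_insert_eq,
      Ideal.span_insert, sup_comm]
    refine hI_reg hw (homI_span ?_) (isWeightedHomogeneous_X ℂ w v) fun p hp => ?_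
    · rintro _ ⟨i, _, rfl⟩
      exact ⟨_, isWeightedHomogeneous_X ℂ w i⟩
    · rw [mem_ideal_span_X_image] at hp ⊢
      intro m hm
      obtain ⟨i, hi, h⟩ := hp (m + Finsupp.single v 1)
        (by simpa [coeff_mul_X] using hm)
      have : i ≠ v := fun e => hv (e ▸ hi)
      exact ⟨i, hi, by simpa [Finsupp.single_eq_of_ne this] using h⟩

theorem hdev_wt (hw : Posw w) {d : ρ →₀ ℕ} (h : Finsupp.weight w d = 0) : d = 0 := by
  obtain ⟨φ, hφ⟩ := hw
  have h1 := map_weight w φ d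
  rw [h, map_zero, eq_comm, Finsupp.sum, Finset.sum_eq_zero_iff_of_nonneg
    fun v _ => mul_nonneg (by positivity) (hφ v).le] at h1
  ext v
  by_contra hc
  have := h1 v (Finsupp.mem_support_iff.2 hc)
  exact hc (by simpa [(hφ v).ne'] using this)

theorem hI_bot (hw : Posw w) : (∏ v, (1 - sh (w v))) • hI w (⊥ : Ideal (P ρ)) = dl G2 := by
  classical
  rw [← hdev_X hw]
  ext k
  by_cases hk : k = 0
  · subst hk
    have h1 : pcI w (Ideal.span (X '' ((Finset.univ : Finset ρ) : Set ρ)) : Ideal (P ρ)) 0 = ⊥ := by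
      refine (Submodule.eq_bot_iff _).2 fun p hp => MvPolynomial.ext _ _ fun d =>
        of_not_not fun hd => ?_
      obtain ⟨i, -, h⟩ := mem_ideal_span_X_image.1 hp.2 d (MvPolynomial.mem_support_iff.2 hd)
      exact h (by simp [hdev_wt hw (hp.1 hd)])
    have h2 : weightedHomogeneousSubmodule ℂ w 0 = ℂ ∙ (1 : P ρ) := by
      refine le_antisymm (fun p hp => Submodule.mem_span_singleton.2 ⟨coeff 0 p, ?_⟩)
        ((Submodule.span_singleton_le_iff_mem _ _).2 (isWeightedHomogeneous_one ℂ w))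
      ext d
      by_cases hd : 0 = d
      · simp [← hd]
      · simpa [coeff_one, hd] using
          (of_not_not fun h => hd (hdev_wt hw (hp h)).symm : coeff d p = 0).symm
    rw [hI, h1, h2, finrank_span_singleton one_ne_zero]
    simp [dl]
  · simp only [dl, hk, if_false]
    refine hI_eq_zero fun d a hd => ?_
    obtain ⟨v, hv⟩ : ∃ v, d v ≠ 0 := by
      by_contra hc
      obtain rfl : d = 0 := Finsupp.ext fun v => of_not_not (not_exists.1 hc v)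
      exact hk (by simpa using hd.symm)
    exact monomial_mem (n := 1) (Ideal.subset_span (by simp)) (Nat.pos_of_ne_zero hv) a

end PartHDev

section PartHPri

variable {ρ τ κ : Type} [Fintype ρ] [Fintype τ] [Fintype κ] {w : ρ → G2}

theorem hpri_max {I : Ideal (P ρ)} {x : P ρ} (hx : x ∉ I) :
    ∃ e, weightedHomogeneousComponent w e x ∉ I ∧
      ∀ k, weightedHomogeneousComponent w k x ∉ I → toLex k ≤ toLex e := by
  have hf : {k | weightedHomogeneousComponent w k x ∉ I}.Finite :=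
    (weightedHomogeneousComponent_finsupp (w := w) x).subset fun k hk h0 =>
      hk (by rw [show weightedHomogeneousComponent w k x = 0 from h0]; exact I.zero_mem)
  have hn : {k | weightedHomogeneousComponent w k x ∉ I}.Nonempty := by
    by_contra hc
    exact hx (mem_of_wc (w := w) (I := I.toAddSubgroup) fun k =>
      of_not_not fun h => hc ⟨k, h⟩)
  exact Set.exists_max_image _ (fun k : G2 => toLex k) hf hn

theorem hpri_le {I J : Ideal (P ρ)} (hI' : HomI w I) (h : I ≤ J) :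
    I ≤ Ideal.span {y | y ∈ J ∧ ∃ e, y.IsWeightedHomogeneous w e} := by
  by_contra hc
  obtain ⟨x, e, h1, h2, h3⟩ := hI'.exists_hom hc
  exact h2 (Ideal.subset_span ⟨h h1, e, h3⟩)

theorem homI_prime_of {I : Ideal (P ρ)} (hI' : HomI w I) (hne : I ≠ ⊤)
    (h : ∀ (x y : P ρ) (e d : G2), x.IsWeightedHomogeneous w e → y.IsWeightedHomogeneous w d →
      x * y ∈ I → x ∈ I ∨ y ∈ I) : I.IsPrime := by
  classical
  refine ⟨hne, fun {x y} hxy => ?_⟩
  by_contra hc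
  obtain ⟨e, he, he'⟩ := hpri_max (w := w) (not_or.1 hc).1
  obtain ⟨d, hd, hd'⟩ := hpri_max (w := w) (not_or.1 hc).2
  have h1 := hI' (e + d) _ hxy
  have hf := weightedHomogeneousComponent_finsupp (w := w) y
  have h2 := sum_weightedHomogeneousComponent w y
  rw [finsum_eq_sum _ hf] at h2
  have hd0 : d ∈ hf.toFinset := hf.mem_toFinset.2 fun h0 =>
    hd (by rw [show weightedHomogeneousComponent w d y = 0 from h0]; exact I.zero_mem)
  rw [← h2, Finset.mul_sum, map_sum, ← Finset.add_sum_erase _ _ hd0] at h1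
  have h3 : ∑ k ∈ hf.toFinset.erase d,
      weightedHomogeneousComponent w (e + d) (x * weightedHomogeneousComponent w k y) ∈ I := by
    refine sum_mem fun k hk => ?_
    rw [wc_mul (weightedHomogeneousComponent_isWeightedHomogeneous k y)]
    by_cases h4 : weightedHomogeneousComponent w k y ∈ I
    · exact I.mul_mem_left _ h4
    refine I.mul_mem_right _ (of_not_not fun h5 => Finset.ne_of_mem_erase hk ?_)
    have h6 := Prod.Lex.toLex_le_toLex.1 (hd' k h4)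
    have h7 := Prod.Lex.toLex_le_toLex.1 (he' _ h5)
    simp only [Prod.fst_sub, Prod.fst_add, Prod.snd_sub, Prod.snd_add] at h7
    exact Prod.ext (by omega) (by omega)
  have h8 := (I.add_mem_iff_left h3).1 h1
  rw [wc_mul (weightedHomogeneousComponent_isWeightedHomogeneous d y), add_sub_cancel_right] at h8
  exact (h _ _ e d (weightedHomogeneousComponent_isWeightedHomogeneous e x)
    (weightedHomogeneousComponent_isWeightedHomogeneous d y) h8).elim he hd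

theorem pdev (hw : Posw w) (Λ : Submodule (RG G2) (Fn G2)) (r : RG G2) (𝔞 : Ideal (P ρ))
    (h : ∀ 𝔮 : Ideal (P ρ), 𝔮.IsPrime → HomI w 𝔮 → 𝔞 ≤ 𝔮 → r • hI w 𝔮 ∈ Λ) {I : Ideal (P ρ)}
    (hI' : HomI w I) (hle : 𝔞 ≤ I) : r • hI w I ∈ Λ := by
  induction I using IsNoetherian.induction with
  | hgt I ih =>
    by_cases ht : I = ⊤
    · rw [ht, hI_top, smul_zero]
      exact zero_mem _
    by_cases hp : Ideal.IsPrime I
    · exact h I hp hI' hle
    have h1 : ∃ (x y : P ρ) (e : G2), x.IsWeightedHomogeneous w e ∧ x * y ∈ I ∧ x ∉ I ∧ y ∉ I := by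
      by_contra hc
      refine hp (homI_prime_of hI' ht fun x y e d hx _ hxy => ?_)
      by_contra h2
      exact hc ⟨x, y, e, hx, hxy, (not_or.1 h2).1, (not_or.1 h2).2⟩
    obtain ⟨x, y, e, hx, hxy, hx', hy'⟩ := h1
    rw [hI_step hw hI' hx, smul_add, smul_comm r (sh e)]
    refine add_mem (ih _ ?_ (hI'.sup_one hx) (hle.trans le_sup_left))
      (Λ.smul_mem _ (ih _ ?_ (hI'.col hx) (hle.trans (le_col _ _))))
    · exact lt_of_le_of_ne le_sup_left fun h2 =>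
        hx' (h2 ▸ Ideal.mem_sup_right (Ideal.subset_span rfl))
    · exact lt_of_le_of_ne (le_col _ _) fun h2 => hy' (h2 ▸ mem_col.2 (mul_comm x y ▸ hxy))

theorem hmin {I 𝔭 : Ideal (P ρ)} (hI' : HomI w I) (h : 𝔭 ∈ I.minimalPrimes) : HomI w 𝔭 := by
  have hp : 𝔭.IsPrime := h.1.1
  have h1 : HomI w (Ideal.span {y | y ∈ 𝔭 ∧ ∃ e, y.IsWeightedHomogeneous w e}) :=
    homI_span fun y hy => hy.2
  have h2 : Ideal.span {y | y ∈ 𝔭 ∧ ∃ e, y.IsWeightedHomogeneous w e} ≤ 𝔭 :=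
    Ideal.span_le.2 fun y hy => hy.1
  have h3 := hpri_le hI' h.1.2
  have h4 := homI_prime_of h1 (fun ht => hp.ne_top (top_le_iff.1 (ht ▸ h2)))
    fun x y e d hx hy hxy => (hp.mem_or_mem (h2 hxy)).imp
      (fun a => Ideal.subset_span ⟨a, e, hx⟩) fun a => Ideal.subset_span ⟨a, d, hy⟩
  rw [le_antisymm (h.2 ⟨h4, h3⟩ h2) h2]
  exact h1

theorem homI_bot : HomI w (⊥ : Ideal (P ρ)) := fun k p hp => by
  rw [Ideal.mem_bot.1 hp, map_zero]
  exact zero_mem _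

theorem homI_top : HomI w (⊤ : Ideal (P ρ)) := fun _ _ _ => trivial

theorem homI_inf {I J : Ideal (P ρ)} (h : HomI w I) (h' : HomI w J) : HomI w (I ⊓ J) :=
  fun k p hp => ⟨h k p hp.1, h' k p hp.2⟩

theorem homI_span_mul {I : Ideal (P ρ)} (h : HomI w I) {x : P ρ} {e : G2}
    (hx : x.IsWeightedHomogeneous w e) : HomI w (Ideal.span {x} * I) := fun k p hp => by
  obtain ⟨z, hz, rfl⟩ := Ideal.mem_span_singleton_mul.1 hp
  rw [mul_comm x z, wc_mul hx, mul_comm _ x]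
  exact Ideal.mem_span_singleton_mul.2 ⟨_, h _ z hz, rfl⟩

theorem hpri_weight (r : κ → ρ) (d : κ →₀ ℕ) :
    Finsupp.weight w (d.mapDomain r) = Finsupp.weight (w ∘ r) d := by
  rw [Finsupp.weight_apply, Finsupp.weight_apply,
    Finsupp.sum_mapDomain_index (by simp) (by simp [add_smul])]
  rfl

theorem wc_rename (r : κ → ρ) (f : P κ) (e : G2) : weightedHomogeneousComponent w e (rename r f) =
    rename r (weightedHomogeneousComponent (w ∘ r) e f) := by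
  classical
  induction f using MvPolynomial.induction_on' with
  | monomial d a =>
    rw [rename_monomial, weightedHomogeneousComponent_of_mem
      (isWeightedHomogeneous_monomial w _ a (hpri_weight r d)),
      weightedHomogeneousComponent_of_mem (isWeightedHomogeneous_monomial (w ∘ r) d a rfl)]
    split_ifs
    · rw [rename_monomial]
    · rw [map_zero]
  | add p q hp hq => simp only [map_add, hp, hq]

theorem isWH_rename (r : κ → ρ) {f : P κ} {e : G2} (h : f.IsWeightedHomogeneous (w ∘ r) e) :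
    (rename r f).IsWeightedHomogeneous w e := by
  rw [← weightedHomogeneousComponent_eq_self h, ← wc_rename]
  exact weightedHomogeneousComponent_isWeightedHomogeneous e _

theorem homI_map_rename (r : κ → ρ) {I : Ideal (P κ)} (h : HomI (w ∘ r) I) :
    HomI w (I.map (rename r : P κ →ₐ[ℂ] P ρ)) := by
  have h1 : I = Ideal.span {y | y ∈ I ∧ ∃ e, y.IsWeightedHomogeneous (w ∘ r) e} :=
    le_antisymm (hpri_le h le_rfl) (Ideal.span_le.2 fun y hy => hy.1)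
  rw [h1, Ideal.map_span]
  refine homI_span ?_
  rintro _ ⟨y, ⟨_, e, he⟩, rfl⟩
  exact ⟨e, isWH_rename r he⟩

theorem homI_comap_rename (r : κ → ρ) {J : Ideal (P ρ)} (h : HomI w J) :
    HomI (w ∘ r) (J.comap (rename r : P κ →ₐ[ℂ] P ρ)) := fun k p hp => by
  rw [Ideal.mem_comap, ← wc_rename]
  exact h k _ hp

theorem zero_mem_vZ (hw : Posw w) {I : Ideal (P ρ)} (hI' : HomI w I) (hne : I ≠ ⊤) :
    (0 : ρ → ℂ) ∈ vZ I := by
  classical
  intro p hp
  obtain ⟨φ, hφ⟩ := hw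
  have h1 : weightedHomogeneousComponent w 0 p = C (coeff 0 p) := by
    ext d
    rw [coeff_weightedHomogeneousComponent, coeff_C]
    by_cases hd : 0 = d
    · subst hd
      simp
    rw [if_neg hd, if_neg]
    intro h2
    have h3 := map_weight w φ d
    rw [h2, map_zero] at h3
    refine hd (Finsupp.ext fun v => of_not_not fun hv => ?_)
    have h4 : 0 < d.sum fun v n => (n : ℤ) * φ (w v) :=
      Finset.sum_pos (fun v hv => mul_pos
        (Nat.cast_pos.2 (Nat.pos_of_ne_zero (Finsupp.mem_support_iff.1 hv))) (hφ v))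
        ⟨v, Finsupp.mem_support_iff.2 fun h => hv h.symm⟩
    omega
  have h5 := hI' 0 p hp
  rw [h1] at h5
  have h6 : coeff 0 p = 0 := of_not_not fun h => hne (I.eq_top_of_isUnit_mem h5
    ((IsUnit.mk0 _ h).map C))
  simpa [constantCoeff_eq] using h6

end PartHPri

section PartHW0

variable {ρ τ : Type} [Fintype ρ] [Fintype τ]

theorem hw0_weight (m : τ →₀ ℕ) : Finsupp.weight (w0 τ) m = ((m.degree : ℤ), 0) := by
  induction m using Finsupp.induction_linear with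
  | zero => rfl
  | add a b ha hb => rw [map_add, map_add, ha, hb]; simp
  | single a n => simp [Finsupp.weight_single, w0]

theorem hw0_iff (m : τ →₀ ℕ) (d : ℕ) :
    Finsupp.weight (w0 τ) m = ((d : ℤ), 0) ↔ m.degree = d := by
  rw [hw0_weight]; simp

theorem isWH_w0 {f : P τ} {d : ℕ} :
    f.IsWeightedHomogeneous (w0 τ) ((d : ℤ), 0) ↔ f.IsHomogeneous d := by
  refine forall_congr' fun m => forall_congr' fun _ => ?_
  rw [hw0_iff, Finsupp.degree_eq_weight_one]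
  rfl

theorem wc_w0 (d : ℕ) (f : P τ) :
    weightedHomogeneousComponent (w0 τ) ((d : ℤ), 0) f = homogeneousComponent d f := by
  classical
  ext m
  simp only [coeff_weightedHomogeneousComponent, coeff_homogeneousComponent, hw0_iff]

theorem isWH_w0_cases {f : P τ} {g : G2} (h : f.IsWeightedHomogeneous (w0 τ) g) :
    f = 0 ∨ ∃ d : ℕ, g = ((d : ℤ), 0) ∧ f.IsHomogeneous d := by
  by_cases h0 : f = 0
  · exact Or.inl h0
  · obtain ⟨m, hm⟩ := ne_zero_iff.1 h0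
    have h1 := (h hm).symm.trans (hw0_weight m)
    exact Or.inr ⟨m.degree, h1, isWH_w0.1 (h1 ▸ h)⟩

theorem homI_w0 {I : Ideal (P τ)} :
    HomI (w0 τ) I ↔ ∀ d, ∀ f ∈ I, homogeneousComponent d f ∈ I := by
  refine ⟨fun h d f hf => wc_w0 d f ▸ h _ f hf, fun h k f hf => ?_⟩
  rcases isWH_w0_cases (weightedHomogeneousComponent_isWeightedHomogeneous (w := w0 τ) k f) with
    h0 | ⟨d, rfl, -⟩
  · exact h0 ▸ I.zero_mem
  · exact wc_w0 d f ▸ h d f hf

theorem eval_smul_hom {f : P τ} {d : ℕ} (h : f.IsHomogeneous d) (a : ℂ) (z : τ → ℂ) :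
    eval (a • z) f = a ^ d * eval z f := by
  rw [eval_eq', eval_eq', Finset.mul_sum]
  refine Finset.sum_congr rfl fun m hm => ?_
  have h1 : ∑ i, m i = d := by
    rw [← Finsupp.degree_eq_sum]
    exact (hw0_iff m d).1 (isWH_w0.2 h (mem_support_iff.1 hm))
  simp only [Pi.smul_apply, smul_eq_mul, mul_pow, Finset.prod_mul_distrib,
    Finset.prod_pow_eq_pow_sum, h1]
  ring

theorem homI_cone {Z : Set (τ → ℂ)} (hZ : ∀ a : ℂ, ∀ z ∈ Z, a • z ∈ Z) :
    HomI (w0 τ) (vI Z) := by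
  refine homI_w0.2 fun d f hf => mem_van.2 fun z hz => ?_
  by_cases hd : f.totalDegree < d
  · rw [homogeneousComponent_eq_zero _ _ hd, map_zero]
  have h1 : (∑ i ∈ Finset.range (f.totalDegree + 1),
      Polynomial.monomial i (eval z (homogeneousComponent i f))) = 0 := by
    refine Polynomial.funext fun a => ?_
    have := mem_van.1 hf _ (hZ a z hz)
    rw [← sum_homogeneousComponent f, map_sum] at this
    rw [Polynomial.eval_zero, Polynomial.eval_finsetSum, ← this]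
    refine Finset.sum_congr rfl fun i _ => ?_
    rw [Polynomial.eval_monomial, eval_smul_hom (homogeneousComponent_isHomogeneous i f), mul_comm]
  have h2 := congrArg (fun p => Polynomial.coeff p d) h1
  simp only [Polynomial.finsetSum_coeff, Polynomial.coeff_monomial, Finset.sum_ite_eq',
    Finset.mem_range, Polynomial.coeff_zero] at h2
  rwa [if_pos (by omega)] at h2

theorem Cn.homI {Z : Set (τ → ℂ)} (hZ : Cn Z) : HomI (w0 τ) (vI Z) := homI_cone hZ.cone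

theorem hom_induction {I : Ideal (P τ)} (h : HomI (w0 τ) I) {p : P τ → Prop} (h0 : p 0)
    (hadd : ∀ f g, p f → p g → p (f + g))
    (hh : ∀ f d, f ∈ I → f.IsHomogeneous d → p f) : ∀ f ∈ I, p f := by
  intro f hf
  rw [← sum_homogeneousComponent f]
  exact Finset.sum_induction _ p hadd h0 fun i _ =>
    hh _ i (homI_w0.1 h i f hf) (homogeneousComponent_isHomogeneous i f)

theorem cone_of_homI {I : Ideal (P τ)} (h : HomI (w0 τ) I) (a : ℂ) {z : τ → ℂ} (hz : z ∈ vZ I) :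
    a • z ∈ vZ I := by
  have hz' : ∀ f ∈ I, eval z f = 0 := hz
  have : ∀ f ∈ I, eval (a • z) f = 0 :=
    hom_induction h (map_zero _) (fun f g hf hg => by rw [map_add, hf, hg, add_zero])
      fun f d hf hd => by rw [eval_smul_hom hd, hz' f hf, mul_zero]
  exact this

theorem exists_hom_gens {I : Ideal (P τ)} (h : HomI (w0 τ) I) :
    ∃ (m : ℕ) (G : Fin m → P τ) (d : Fin m → ℕ), (∀ i, (G i).IsHomogeneous (d i)) ∧
      I = Ideal.span (Set.range G) := by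
  have h1 : I = Ideal.span {f | f ∈ I ∧ ∃ d, f.IsHomogeneous d} :=
    le_antisymm (hom_induction h (Submodule.zero_mem _) (fun _ _ => Submodule.add_mem _)
      fun f d hf hd => Ideal.subset_span ⟨hf, d, hd⟩) (Ideal.span_le.2 fun _ hf => hf.1)
  obtain ⟨s, hs, hs'⟩ := (Submodule.fg_span_iff_fg_span_finset_subset
    (R := P τ) {f | f ∈ I ∧ ∃ d, f.IsHomogeneous d}).1 (IsNoetherian.noetherian _)
  choose d hd using fun i : Fin s.card => (hs (s.equivFin.symm i).2).2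
  refine ⟨s.card, fun i => s.equivFin.symm i, d, hd, h1.trans (hs'.trans ?_)⟩
  congr 1
  ext f
  exact ⟨fun hf => ⟨s.equivFin ⟨f, hf⟩, by simp⟩, fun ⟨i, hi⟩ => hi ▸ (s.equivFin.symm i).2⟩

theorem lin_hom (g : (ρ → ℂ) →ₗ[ℂ] ℂ) : (lin g).IsHomogeneous 1 :=
  IsHomogeneous.sum _ _ _ fun j _ => isHomogeneous_C_mul_X _ j

theorem pull_hom (κ : (ρ → ℂ) →ₗ[ℂ] (τ → ℂ)) {f : P τ} {d : ℕ} (h : f.IsHomogeneous d) :
    (pull κ f).IsHomogeneous d := by
  have := h.aeval (fun i => lin ((LinearMap.proj i).comp κ)) fun _ => lin_hom _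
  rwa [one_mul] at this

theorem homI_map_pull (κ : (ρ → ℂ) →ₗ[ℂ] (τ → ℂ)) {I : Ideal (P τ)} (h : HomI (w0 τ) I) :
    HomI (w0 ρ) (I.map (pull κ)) := by
  obtain ⟨m, G, d, hd, rfl⟩ := exists_hom_gens h
  rw [Ideal.map_span]
  refine homI_span ?_
  rintro _ ⟨_, ⟨i, rfl⟩, rfl⟩
  exact ⟨_, isWH_w0.2 (pull_hom κ (hd i))⟩

theorem euler {f : P τ} {d : ℕ} (h : f.IsHomogeneous d) (y : τ → ℂ) :
    grad f y ⬝ᵥ y = d * eval y f := by
  have := congrArg (eval y) h.sum_X_mul_pderiv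
  rw [map_sum, map_nsmul, nsmul_eq_mul] at this
  rw [← this]
  exact Finset.sum_congr rfl fun i _ => by rw [map_mul, eval_X, mul_comm]; rfl

theorem grad_smul_hom {f : P τ} {d : ℕ} (h : f.IsHomogeneous (d + 1)) (a : ℂ) (z : τ → ℂ) :
    grad f (a • z) = a ^ d • grad f z :=
  funext fun i => eval_smul_hom (h.pderiv (i := i)) a z

theorem grad_hom_zero {f : P τ} (h : f.IsHomogeneous 0) (z : τ → ℂ) : grad f z = 0 := by
  rw [← totalDegree_zero_iff_isHomogeneous, totalDegree_eq_zero_iff_eq_C] at h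
  funext i
  rw [grad, h, pderiv_C, map_zero]
  rfl

end PartHW0

section PartGDim

variable {ρ τ κ : Type} [Fintype ρ] [Fintype τ] [Fintype κ]

theorem mem_vZ {I : Ideal (P ρ)} {y : ρ → ℂ} : y ∈ vZ I ↔ ∀ f ∈ I, eval y f = 0 := Iff.rfl

theorem vI_vZ {𝔭 : Ideal (P ρ)} (hp : 𝔭.IsPrime) : vI (vZ 𝔭) = 𝔭 :=
  IsPrime.vanishingIdeal_zeroLocus 𝔭

theorem mem_vZ_span {S : Set (P ρ)} {y : ρ → ℂ} :
    y ∈ vZ (Ideal.span S) ↔ ∀ f ∈ S, eval y f = 0 := by
  unfold vZ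
  rw [zeroLocus_span]
  rfl

theorem gdim_pt {y : ρ → ℂ} {f : P ρ} : f ∈ vI {y} ↔ eval y f = 0 :=
  mem_vanishingIdeal_singleton_iff y f

theorem gdim_le {I : Ideal (P ρ)} {y : ρ → ℂ} : y ∈ vZ I ↔ I ≤ vI {y} :=
  ⟨fun h f hf => gdim_pt.2 (h f hf), fun h _ hf => gdim_pt.1 (h hf)⟩

theorem mem_vZ_sup {I J : Ideal (P ρ)} {y : ρ → ℂ} : y ∈ vZ (I ⊔ J) ↔ y ∈ vZ I ∧ y ∈ vZ J := by
  simp only [gdim_le, sup_le_iff]

theorem mem_vZ_map {I : Ideal (P τ)} (π : P τ →ₐ[ℂ] P ρ) {y : ρ → ℂ} {z : τ → ℂ}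
    (h : ∀ f, eval y (π f) = eval z f) : y ∈ vZ (I.map π) ↔ z ∈ vZ I := by
  rw [gdim_le, Ideal.map_le_iff_le_comap, mem_vZ]
  exact forall₂_congr fun f _ => by rw [Ideal.mem_comap, gdim_pt, h]

theorem mem_vZ_iff_le {I : Ideal (P ρ)} {y : ρ → ℂ} : y ∈ vZ I ↔ I ≤ vI {y} := gdim_le

theorem pt_max (y : ρ → ℂ) : (vI {y}).IsMaximal := inferInstance

theorem dm_pt (y : ρ → ℂ) : dm (vI {y}) = 0 := by
  by_contra h
  obtain ⟨c, -, hc⟩ := exists_indep (vI {y})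
  refine hc.transcendental ⟨0, Nat.pos_of_ne_zero h⟩ ?_
  have : ∀ r : ρ, Ideal.Quotient.mk (vI {y}) (X r) = algebraMap ℂ _ (y r) := fun r =>
    (Ideal.Quotient.eq (y := C (y r))).2 (gdim_pt.2 (by simp))
  rw [this]
  exact isAlgebraic_algebraMap _

theorem mem_of_vanish {𝔭 : Ideal (P ρ)} (hp : 𝔭.IsPrime) {f g : P ρ} (hg : g ∉ 𝔭)
    (h : ∀ y ∈ vZ 𝔭, eval y g ≠ 0 → eval y f = 0) : f ∈ 𝔭 := by
  refine (hp.mem_or_mem (x := f) (y := g) ?_).resolve_right hg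
  rw [← vI_vZ hp]
  refine Pool.Agent.MP_429080_ag.mem_van.2 fun y hy => ?_
  rw [map_mul]
  by_cases h0 : eval y g = 0
  · rw [h0, mul_zero]
  · rw [h y hy h0, zero_mul]

theorem mem_of_vanish_off {𝔭 : Ideal (P ρ)} (hp : 𝔭.IsPrime) (r : τ → ρ)
    (hn : ∃ j, X (r j) ∉ 𝔭) {f : P ρ} (h : ∀ y ∈ vZ 𝔭, y ∘ r ≠ 0 → eval y f = 0) : f ∈ 𝔭 := by
  obtain ⟨j, hj⟩ := hn
  refine mem_of_vanish hp hj fun y hy h0 => h y hy fun h1 => h0 ?_
  rw [eval_X]
  exact congrFun h1 j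

theorem exists_pt {𝔭 : Ideal (P ρ)} (hp : 𝔭.IsPrime) {g : P ρ} (hg : g ∉ 𝔭) :
    ∃ y ∈ vZ 𝔭, eval y g ≠ 0 := by
  by_contra h
  push Not at h
  exact hg (vI_vZ hp ▸ Pool.Agent.MP_429080_ag.mem_van.2 h)

theorem mem_radical_of {𝔞 : Ideal (P ρ)} {f : P ρ} (h : ∀ y ∈ vZ 𝔞, eval y f = 0) :
    f ∈ 𝔞.radical := by
  rw [← vanishingIdeal_zeroLocus_eq_radical (K := ℂ)]
  exact h

theorem dm_anti {𝔮 𝔭 : Ideal (P ρ)} (hq : 𝔮.IsPrime) (hp : 𝔭.IsPrime) (h : 𝔮 ≤ 𝔭) :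
    dm 𝔭 ≤ dm 𝔮 := by
  rcases h.eq_or_lt with rfl | h
  exacts [le_rfl, (dm_lt h).le]

theorem eq_of_dm {𝔮 𝔭 : Ideal (P ρ)} (hq : 𝔮.IsPrime) (hp : 𝔭.IsPrime) (h : 𝔮 ≤ 𝔭)
    (hd : dm 𝔮 ≤ dm 𝔭) : 𝔮 = 𝔭 :=
  h.eq_or_lt.resolve_right fun h => (dm_lt h).not_ge hd

theorem dm_le_card {𝔭 : Ideal (P ρ)} (hp : 𝔭.IsPrime) : dm 𝔭 ≤ Fintype.card ρ :=
  (dm_anti Ideal.isPrime_bot hp bot_le).trans_eq dm_bot

theorem gdim_cut {𝔭 : Ideal (P ρ)} (g : κ → P ρ) (s : Finset κ) : ∀ 𝔮 : Ideal (P ρ), 𝔮.IsPrime →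
    𝔭 ∈ (𝔮 ⊔ Ideal.span (g '' (s : Set κ))).minimalPrimes → dm 𝔮 ≤ dm 𝔭 + s.card := by
  classical
  induction s using Finset.induction_on with
  | empty =>
    intro 𝔮 hq h
    rw [Finset.coe_empty, Set.image_empty, Ideal.span_empty, sup_bot_eq] at h
    exact dm_anti h.isPrime hq (h.2 ⟨hq, le_rfl⟩ h.le)
  | insert i s hi ih =>
    intro 𝔮 hq h
    rw [Finset.coe_insert, Set.image_insert_eq, Ideal.span_insert, ← sup_assoc] at h
    have := h.isPrime
    obtain ⟨𝔭₁, h1, h2⟩ := Ideal.exists_minimalPrimes_le (le_sup_left.trans h.le)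
    have h3 := ih 𝔭₁ h1.isPrime ⟨⟨this, sup_le h2 (le_sup_right.trans h.le)⟩, fun q hq' hle =>
      h.2 ⟨hq'.1, (sup_le_sup_right h1.le _).trans hq'.2⟩ hle⟩
    have h4 := dm_le_succ h1
    rw [Finset.card_insert_of_notMem hi]
    omega

theorem cut {𝔮 𝔭 : Ideal (P ρ)} (hq : 𝔮.IsPrime) (g : κ → P ρ)
    (h : 𝔭 ∈ (𝔮 ⊔ Ideal.span (Set.range g)).minimalPrimes) :
    dm 𝔮 ≤ dm 𝔭 + Fintype.card κ :=
  gdim_cut g Finset.univ 𝔮 hq (by rwa [Finset.coe_univ, Set.image_univ])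

theorem exists_min_at {𝔞 : Ideal (P ρ)} {y : ρ → ℂ} (h : y ∈ vZ 𝔞) :
    ∃ 𝔭 ∈ 𝔞.minimalPrimes, y ∈ vZ 𝔭 := by
  obtain ⟨p, h1, h2⟩ := Ideal.exists_minimalPrimes_le (gdim_le.1 h)
  exact ⟨p, h1, gdim_le.2 h2⟩

theorem exists_ne_pt {𝔭 : Ideal (P ρ)} (hp : 𝔭.IsPrime) (h : 0 < dm 𝔭) (y₀ : ρ → ℂ) :
    ∃ y ∈ vZ 𝔭, y ≠ y₀ := by
  by_contra hc
  push Not at hc
  have h1 : vI {y₀} ≤ 𝔭 := (vanishingIdeal_anti_mono (A := vZ 𝔭) (B := {y₀}) hc).trans_eq (vI_vZ hp)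
  have := dm_anti (pt_max y₀).isPrime hp h1
  rw [dm_pt] at this
  omega

theorem Cn.exists_X {Z : Set (τ → ℂ)} (hZ : Cn Z) : ∃ j, X j ∉ vI Z := by
  obtain ⟨z, hz, h0⟩ := hZ.ne
  obtain ⟨j, hj⟩ := Function.ne_iff.1 h0
  exact ⟨j, fun h => hj (by simpa using Pool.Agent.MP_429080_ag.mem_van.1 h z hz)⟩

theorem Cn.dm_pos {Z : Set (τ → ℂ)} (hZ : Cn Z) : 0 < dm (vI Z) := by
  obtain ⟨z, hz, -⟩ := hZ.ne
  obtain ⟨j, hj⟩ := hZ.exists_X
  have h0 : (0 : τ → ℂ) ∈ Z := by simpa using hZ.cone 0 z hz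
  have h1 : vI Z ≤ vI {0} := vanishingIdeal_anti_mono (Set.singleton_subset_iff.2 h0)
  have := hZ.prime
  have h2 := dm_lt (lt_of_le_of_ne h1 fun h => hj (h ▸ gdim_pt.2 (by simp)))
  omega

theorem Cn.mem_of_vanish {Z : Set (τ → ℂ)} (hZ : Cn Z) {f : P τ}
    (h : ∀ z ∈ Z, z ≠ 0 → eval z f = 0) : f ∈ vI Z :=
  mem_of_vanish_off hZ.prime id hZ.exists_X fun y hy => h y (hZ.closed ▸ hy)

theorem Cn.null_pow {Z : Set (τ → ℂ)} (hZ : Cn Z) {𝔥 : Ideal (P τ)} (hle : vI Z ≤ 𝔥)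
    (h : ∀ z ∈ Z, z ≠ 0 → ∃ f ∈ 𝔥, eval z f ≠ 0) : ∃ N : ℕ, 0 < N ∧ ∀ j, X j ^ N ∈ 𝔥 := by
  have : ∀ j, ∃ n : ℕ, (X j : P τ) ^ n ∈ 𝔥 := fun j => mem_radical_of (f := X j) fun y hy => by
    by_contra hc
    obtain ⟨f, hf, h0⟩ := h y (hZ.closed ▸ zeroLocus_anti_mono hle hy) fun h1 =>
      hc (by simp [h1])
    exact h0 (hy f hf)
  choose n hn using this
  refine ⟨Finset.univ.sup n + 1, Nat.succ_pos _, fun j => ?_⟩
  exact Ideal.pow_mem_of_pow_mem _ (hn j)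
    ((Finset.le_sup (f := n) (Finset.mem_univ j)).trans (Nat.le_succ _))

end PartGDim

section PartGExt

variable {ρ τ κ η : Type} [Fintype ρ] [Fintype τ] [Fintype κ] [Fintype η]

/-- polynomials in the second set of variables -/
noncomputable def gext_e (τ η : Type) : P (τ ⊕ η) ≃ₐ[ℂ] MvPolynomial η (P τ) :=
  (renameEquiv ℂ (Equiv.sumComm τ η)).trans (sumAlgEquiv ℂ η τ)

theorem gext_e_rename (η : Type) (f : P τ) :
    gext_e τ η (rename Sum.inl f) = C f := by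
  induction f using MvPolynomial.induction_on with
  | C a => simp [gext_e]
  | add p q hp hq => rw [map_add, map_add, hp, hq, map_add]
  | mul_X p i hp =>
    rw [map_mul, map_mul, hp, map_mul]
    simp [gext_e]

theorem ext_prime (η : Type) [Fintype η] {I : Ideal (P τ)} (hp : I.IsPrime) :
    (I.map (rename Sum.inl : P τ →ₐ[ℂ] P (τ ⊕ η))).IsPrime := by
  have h1 : (I.map (C : P τ →+* MvPolynomial η (P τ))).IsPrime := by
    have h2 := MvPolynomial.ker_map (σ := η) (Ideal.Quotient.mk I)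
    rw [Ideal.mk_ker] at h2
    rw [← h2]
    exact RingHom.ker_isPrime _
  have h3 : I.map (rename Sum.inl : P τ →ₐ[ℂ] P (τ ⊕ η)) =
      (I.map (C : P τ →+* MvPolynomial η (P τ))).comap (gext_e τ η) := by
    apply le_antisymm
    · rw [Ideal.map_le_iff_le_comap]
      intro f hf
      rw [Ideal.mem_comap, Ideal.mem_comap, gext_e_rename]
      exact Ideal.mem_map_of_mem _ hf
    · have h4 : I.map (C : P τ →+* MvPolynomial η (P τ)) ≤
          (I.map (rename Sum.inl : P τ →ₐ[ℂ] P (τ ⊕ η))).comap (gext_e τ η).symm := by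
        rw [Ideal.map_le_iff_le_comap]
        intro f hf
        rw [Ideal.mem_comap, Ideal.mem_comap, ← gext_e_rename, AlgEquiv.symm_apply_apply]
        exact Ideal.mem_map_of_mem _ hf
      intro x hx
      have h5 := h4 hx
      rwa [Ideal.mem_comap, AlgEquiv.symm_apply_apply] at h5
  rw [h3]
  exact Ideal.comap_isPrime _ _

theorem gext_aeval (𝔭 : Ideal (P ρ)) (r : κ → ρ) (F : P κ) :
    aeval (fun l => Ideal.Quotient.mk 𝔭 (X (r l))) F = Ideal.Quotient.mk 𝔭 (rename r F) := by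
  have e : aeval (fun l => Ideal.Quotient.mk 𝔭 (X (r l))) =
      (Ideal.Quotient.mkₐ ℂ 𝔭).comp (rename r) := by
    ext i; simp
  rw [e]; rfl

theorem gext_indep {𝔭 : Ideal (P ρ)} (r : κ → ρ) :
    (AlgebraicIndependent ℂ fun l => Ideal.Quotient.mk 𝔭 (X (r l))) ↔
      𝔭.comap (rename r : P κ →ₐ[ℂ] P ρ) ≤ ⊥ := by
  rw [algebraicIndependent_iff]
  refine forall_congr' fun F => ?_
  rw [gext_aeval, Ideal.Quotient.eq_zero_iff_mem, Ideal.mem_comap, Ideal.mem_bot]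

/-- substitution of values for the second set of variables -/
noncomputable def gext_sb (τ : Type) (z : η → ℂ) : P (τ ⊕ η) →ₐ[ℂ] P τ :=
  aeval (Sum.elim X fun l => C (z l))

theorem gext_sb_rename (z : η → ℂ) (f : P τ) : gext_sb τ z (rename Sum.inl f) = f := by
  have e : (gext_sb τ z).comp (rename Sum.inl) = AlgHom.id ℂ _ := by
    ext i : 1; simp [gext_sb]
  exact AlgHom.congr_fun e f

theorem gext_sb_map (z : η → ℂ) (c : κ → τ) (F : P (κ ⊕ η)) :
    gext_sb τ z (rename (Sum.map c id) F) = rename c (gext_sb κ z F) := by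
  have e : (gext_sb τ z).comp (rename (Sum.map c id)) = (rename c).comp (gext_sb κ z) := by
    ext (i | i) : 1 <;> simp [gext_sb]
  exact AlgHom.congr_fun e F

theorem gext_sb_eval (y : τ ⊕ η → ℂ) (F : P (τ ⊕ η)) :
    eval (y ∘ Sum.inl) (gext_sb τ (y ∘ Sum.inr) F) = eval y F := by
  induction F using MvPolynomial.induction_on with
  | C a => simp [gext_sb]
  | add p q hp hq => rw [map_add, map_add, hp, hq, map_add]
  | mul_X p i hp =>
    rw [map_mul, map_mul, hp, map_mul]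
    rcases i with i | i <;> simp [gext_sb]

theorem ext_dm (η : Type) [Fintype η] {I : Ideal (P τ)} (hp : I.IsPrime) :
    dm I + Fintype.card η ≤ dm (I.map (rename Sum.inl : P τ →ₐ[ℂ] P (τ ⊕ η))) := by
  have := ext_prime η hp
  obtain ⟨c, -, hc⟩ := exists_indep I
  have h1 := (gext_indep c).1 hc
  have h2 : AlgebraicIndependent ℂ fun l : Fin (dm I) ⊕ η =>
      Ideal.Quotient.mk (I.map (rename Sum.inl : P τ →ₐ[ℂ] P (τ ⊕ η))) (X (Sum.map c id l)) := by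
    rw [gext_indep]
    intro F hF
    rw [Ideal.mem_comap] at hF
    rw [Ideal.mem_bot]
    refine MvPolynomial.funext fun y => ?_
    have h3 : I.map (rename Sum.inl : P τ →ₐ[ℂ] P (τ ⊕ η)) ≤
        I.comap (gext_sb τ (y ∘ Sum.inr)) := by
      rw [Ideal.map_le_iff_le_comap]
      intro f hf
      rwa [Ideal.mem_comap, Ideal.mem_comap, gext_sb_rename]
    have h4 := h3 hF
    rw [Ideal.mem_comap, gext_sb_map] at h4
    have h5 : gext_sb (Fin (dm I)) (y ∘ Sum.inr) F = 0 := h1 (Ideal.mem_comap.2 h4)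
    rw [← gext_sb_eval, h5, map_zero, map_zero]
  have h6 := card_le_dm h2
  rwa [Fintype.card_sum, Fintype.card_fin] at h6

theorem mem_vZ_ext {I : Ideal (P τ)} (r : τ → ρ) {y : ρ → ℂ} :
    y ∈ vZ (I.map (rename r : P τ →ₐ[ℂ] P ρ)) ↔ y ∘ r ∈ vZ I :=
  mem_vZ_map _ fun f => eval_rename r y f

theorem pick {𝔞 : Ideal (P ρ)} (r : κ → ρ) {𝔮 : Ideal (P κ)} (hq : 𝔮.IsPrime) (U : Set (P ρ))
    (h : ∀ f, f ∉ 𝔮 → ∃ y ∈ vZ 𝔞, eval (y ∘ r) f ≠ 0 ∧ ∃ u ∈ U, eval y u ≠ 0) :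
    ∃ 𝔭 ∈ 𝔞.minimalPrimes, 𝔭.comap (rename r : P κ →ₐ[ℂ] P ρ) ≤ 𝔮 ∧ ∃ u ∈ U, u ∉ 𝔭 := by
  classical
  by_contra hc
  have h1 : ∀ 𝔭 : Ideal (P ρ), ∃ f : P κ, f ∉ 𝔮 ∧
      (𝔭 ∈ 𝔞.minimalPrimes → (∃ u ∈ U, u ∉ 𝔭) → rename r f ∈ 𝔭) := by
    intro 𝔭
    by_cases h2 : 𝔭.comap (rename r : P κ →ₐ[ℂ] P ρ) ≤ 𝔮
    · exact ⟨1, (Ideal.ne_top_iff_one _).1 hq.ne_top, fun h3 h4 => (hc ⟨𝔭, h3, h2, h4⟩).elim⟩
    · obtain ⟨f, hf, hf'⟩ := SetLike.not_le_iff_exists.1 h2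
      exact ⟨f, hf', fun _ _ => hf⟩
  choose f hf hf' using h1
  have hfin := Ideal.finite_minimalPrimes_of_isNoetherianRing (P ρ) 𝔞
  have h2 : ∏ 𝔭 ∈ hfin.toFinset, f 𝔭 ∉ 𝔮 := by
    intro h3
    obtain ⟨𝔭, -, h4⟩ := Ideal.IsPrime.prod_mem_iff.1 h3
    exact hf 𝔭 h4
  obtain ⟨y, hy, h3, u, hu, h4⟩ := h _ h2
  obtain ⟨𝔭, h5, h6⟩ := exists_min_at hy
  have h7 := mem_vZ.1 h6 _ (hf' 𝔭 h5 ⟨u, hu, fun h8 => h4 (mem_vZ.1 h6 u h8)⟩)
  rw [eval_rename] at h7
  apply h3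
  rw [map_prod]
  exact Finset.prod_eq_zero (hfin.mem_toFinset.2 h5) h7

theorem indep_iff_comap {𝔭 : Ideal (P ρ)} (r : κ → ρ) :
    (AlgebraicIndependent ℂ fun l => Ideal.Quotient.mk 𝔭 (X (r l))) ↔
      𝔭.comap (rename r : P κ →ₐ[ℂ] P ρ) ≤ ⊥ := gext_indep r

theorem exti {Λ : Type} [Fintype Λ] {𝔭 : Ideal (P (τ ⊕ Λ))} (hp : 𝔭.IsPrime)
    (h : AlgebraicIndependent ℂ fun l : Λ => Ideal.Quotient.mk 𝔭 (X (Sum.inr l))) {m : ℕ}
    (hm : dm 𝔭 = m + Fintype.card Λ) : ∃ c : Fin m → τ,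
      AlgebraicIndependent ℂ fun i : Fin m ⊕ Λ => Ideal.Quotient.mk 𝔭 (X (Sum.map c id i)) := by
  classical
  obtain ⟨x, hx⟩ : ∃ x : τ ⊕ Λ → P (τ ⊕ Λ) ⧸ 𝔭, x = fun i => Ideal.Quotient.mk 𝔭 (X i) :=
    ⟨_, rfl⟩
  have hadj : Algebra.adjoin ℂ (Set.range x) = ⊤ := by
    rw [Algebra.adjoin_range_eq_range_aeval, _root_.eq_top_iff]
    intro a _
    obtain ⟨F, rfl⟩ := Ideal.Quotient.mk_surjective a
    refine ⟨F, ?_⟩
    have := gext_aeval 𝔭 id F
    rw [rename_id] at this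
    rw [hx]
    exact this
  have : Algebra.IsAlgebraic (Algebra.adjoin ℂ (Set.range x)) (P (τ ⊕ Λ) ⧸ 𝔭) := by
    refine ⟨fun a => ?_⟩
    exact isAlgebraic_algebraMap (⟨a, by rw [hadj]; trivial⟩ : Algebra.adjoin ℂ (Set.range x))
  have h' : AlgebraicIndependent ℂ (x ∘ Sum.inr) := by rw [hx]; exact h
  obtain ⟨u, hsu, hut, hu⟩ := exists_isTranscendenceBasis_between (R := ℂ)
    (Set.range (x ∘ Sum.inr)) (Set.range x) (Set.range_comp_subset_range _ _)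
    h'.to_subtype_range
  have hufin : u.Finite := (Set.finite_range x).subset hut
  have c1 : u.ncard = m + Fintype.card Λ := by
    have := hu.cardinalMk_eq_trdeg
    rw [← dm_cast, hm] at this
    rw [← Nat.card_coe_set_eq, Nat.card, this, Cardinal.toNat_natCast]
  have c2 : (Set.range (x ∘ Sum.inr)).ncard = Fintype.card Λ := by
    rw [Set.ncard_range_of_injective h'.injective, Nat.card_eq_fintype_card]
  have c3 : (u \ Set.range (x ∘ Sum.inr)).ncard = m := by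
    rw [Set.ncard_sdiff hsu (Set.finite_range _), c1, c2, Nat.add_sub_cancel]
  have : Finite (u \ Set.range (x ∘ Sum.inr) : Set _) := hufin.sdiff.to_subtype
  obtain ⟨e⟩ : Nonempty (Fin m ≃ (u \ Set.range (x ∘ Sum.inr) : Set _)) :=
    ⟨(Finite.equivFinOfCardEq (by rw [Nat.card_coe_set_eq, c3])).symm⟩
  have c4 : ∀ i : Fin m, ∃ j : τ, x (Sum.inl j) = e i := by
    intro i
    obtain ⟨j | l, hj⟩ := hut (e i).2.1
    · exact ⟨j, hj⟩
    · exact ((e i).2.2 ⟨l, hj⟩).elim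
  choose c hc using c4
  refine ⟨c, ?_⟩
  let g : Fin m ⊕ Λ → u := Sum.elim (fun i => ⟨e i, (e i).2.1⟩)
    fun l => ⟨x (Sum.inr l), hsu ⟨l, rfl⟩⟩
  have hg : Function.Injective g := by
    rintro (i | i) (j | j) hij
    · exact congrArg _ (e.injective (Subtype.ext (congrArg (fun a : u => a.1) hij)))
    · exact ((e i).2.2 ⟨j, (congrArg Subtype.val hij).symm⟩).elim
    · exact ((e j).2.2 ⟨i, congrArg Subtype.val hij⟩).elim
    · exact congrArg _ (h'.injective (congrArg Subtype.val hij))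
  have c5 : (fun i : Fin m ⊕ Λ => Ideal.Quotient.mk 𝔭 (X (Sum.map c id i))) =
      ((↑) : u → _) ∘ g := by
    funext i
    rcases i with i | i
    · exact (congrFun hx (Sum.inl (c i))).symm.trans (hc i)
    · exact (congrFun hx (Sum.inr i)).symm
  rw [c5]
  exact hu.1.comp g hg

end PartGExt

section PartHDim

variable {ρ τ η Λ : Type} [Fintype ρ] [Fintype τ] [Fintype η] [Fintype Λ] {w : ρ → G2}

theorem hdim_zero (φ : G2 →+ ℤ) {I : Ideal (P ρ)} (h : ∀ v, φ (w v) < 0 → X v ∈ I) {k : G2}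
    (hk : φ k < 0) : hI w I k = 0 := by
  refine hI_eq_zero fun d a hd => ?_
  by_contra hc
  have h1 := map_weight w φ d
  rw [hd] at h1
  refine absurd (h1 ▸ hk) (not_lt.2 (Finset.sum_nonneg fun v hv => mul_nonneg (by positivity) ?_))
  by_contra h2
  exact hc (monomial_mem (n := 1) (by simpa using h v (not_le.1 h2))
    (Nat.one_le_iff_ne_zero.2 (Finsupp.mem_support_iff.1 hv)) a)

theorem hdim_all (hw : Adm w) {I : Ideal (P ρ)} (h : ∀ v, w v = (1, 0) → X v ∈ I) :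
    hI w I ∈ Nall := by
  obtain ⟨M, hM⟩ := (Set.finite_range fun v => (w v).1).bddAbove
  intro a
  refine eventually_atTop.2 ⟨M * a + 1, fun n hn => hdim_zero
    (M • AddMonoidHom.snd ℤ ℤ - AddMonoidHom.fst ℤ ℤ) (fun v hv => ?_) ?_⟩
  · rcases hw v with h1 | ⟨g, h1⟩
    · exact h v h1
    · have := hM ⟨v, rfl⟩
      simp [h1] at hv this
      omega
  · simp
    omega

theorem hdim_fst {γ : η → ℕ} {I : Ideal (P (τ ⊕ η))} (h : ∀ l, X (Sum.inr l) ∈ I) {k : G2}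
    (hk : 0 < k.2) : hI (wt γ) I k = 0 := by
  refine hdim_zero (-AddMonoidHom.snd ℤ ℤ) ?_ (by simpa using hk)
  rintro (v | v) hv
  · simp [wt] at hv
  · exact h v

theorem hdim_snd {I : Ideal (P (τ ⊕ η))} (h : ∀ l, X (Sum.inl l) ∈ I) {k : G2}
    (hk : 0 < k.1) : hI (wt fun _ => 0) I k = 0 := by
  refine hdim_zero (-AddMonoidHom.fst ℤ ℤ) ?_ (by simpa using hk)
  rintro (v | v) hv
  · exact h v
  · simp [wt] at hv

theorem hdim_zs {f : Fn G2} (h : ∀ k : G2, 0 < k.1 → 0 < k.2 → f k = 0) : f ∈ Zs G2 :=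
  mem_Zs.2 (eventually_atTop.2 ⟨(1, 1), fun k hk => h k hk.1 hk.2⟩)

theorem hdim_lt {𝔮 𝔭 : Ideal (P ρ)} (hq : 𝔮.IsPrime) (hp : 𝔭.IsPrime) {x : P ρ} (hx : x ∉ 𝔮)
    (h : 𝔮 ⊔ Ideal.span {x} ≤ 𝔭) : dm 𝔭 < dm 𝔮 :=
  dm_lt (lt_of_le_of_ne (le_sup_left.trans h) fun e =>
    hx (e ▸ h (Ideal.mem_sup_right (Ideal.mem_span_singleton_self x))))

theorem hdim_pos (hw : Posw w) {𝔮 : Ideal (P ρ)} (hq : 𝔮.IsPrime) (hh : HomI w 𝔮) {v : ρ}
    (hx : X v ∉ 𝔮) : 0 < dm 𝔮 := by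
  refine lt_of_le_of_lt (Nat.zero_le _) (hdim_lt hq (pt_max 0).isPrime hx
    (mem_vZ_iff_le.1 (mem_vZ_sup.2 ⟨zero_mem_vZ hw hh hq.ne_top, mem_vZ_span.2 ?_⟩)))
  rintro _ rfl
  simp

theorem hdim_reg (hw : Posw w) {𝔮 : Ideal (P ρ)} (hq : 𝔮.IsPrime) (hh : HomI w 𝔮) {v : ρ}
    (hx : X v ∉ 𝔮) : hI w (𝔮 ⊔ Ideal.span {X v}) = (1 - sh (w v)) • hI w 𝔮 :=
  hI_reg hw hh (isWeightedHomogeneous_X ℂ w v) fun _ hp => (hq.mem_or_mem hp).resolve_right hx

theorem hdim_two {𝔮 : Ideal (P (τ ⊕ Λ))} (hq : 𝔮.IsPrime) (hh : HomI (wt fun _ => 0) 𝔮) {a : τ}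
    {b : Λ} (ha : X (Sum.inl a) ∉ 𝔮) (hb : X (Sum.inr b) ∉ 𝔮) : 2 ≤ dm 𝔮 := by
  classical
  set c : Fin 2 → τ ⊕ Λ := ![Sum.inl a, Sum.inr b] with hc
  have hw : ∀ d : Fin 2 →₀ ℕ, Finsupp.weight ((wt fun _ => 0) ∘ c) d = ((d 0 : ℤ), (d 1 : ℤ)) := by
    intro d
    rw [Finsupp.weight_apply, Finsupp.sum_fintype _ _ (by simp), Fin.sum_univ_two]
    simp [hc, wt]
  have hp : (𝔮.comap (rename c : P (Fin 2) →ₐ[ℂ] P (τ ⊕ Λ))).IsPrime := Ideal.comap_isPrime _ _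
  have key : ∀ f : P (Fin 2), rename c f ∈ 𝔮 → f = 0 := by
    intro f hf
    ext d
    have h1 := homI_comap_rename c hh (Finsupp.weight ((wt fun _ => 0) ∘ c) d) f hf
    have h2 : weightedHomogeneousComponent ((wt fun _ => 0) ∘ c)
        (Finsupp.weight ((wt fun _ => 0) ∘ c) d) f = monomial d (coeff d f) := by
      ext d'
      rw [coeff_weightedHomogeneousComponent, coeff_monomial, hw, hw]
      by_cases e : d = d'
      · simp [e]
      · rw [if_neg e, if_neg]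
        intro h3
        refine e (Finsupp.ext (Fin.forall_fin_two.2 ?_))
        simp only [Prod.mk.injEq, Nat.cast_inj] at h3
        exact ⟨h3.1.symm, h3.2.symm⟩
    rw [h2, monomial_eq] at h1
    rcases hp.mem_or_mem h1 with h3 | h3
    · by_contra h4
      exact hp.ne_top (Ideal.eq_top_of_isUnit_mem _ h3 ((Ne.isUnit h4).map C))
    · obtain ⟨v, -, h4⟩ := Ideal.IsPrime.prod_mem_iff.1 h3
      have h5 : rename c (X v) ∈ 𝔮 := hp.mem_of_pow_mem _ h4
      rw [rename_X] at h5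
      fin_cases v
      exacts [absurd h5 ha, absurd h5 hb]
  have h := card_le_dm (p := 𝔮) (x := fun i : Fin 2 => Ideal.Quotient.mk 𝔮 (X (c i)))
    (algebraicIndependent_iff.2 fun f hf => key f (Ideal.Quotient.eq_zero_iff_mem.1 (by
      rw [← hf]
      exact congrArg (fun g : P (Fin 2) →ₐ[ℂ] _ => g f)
        (show (Ideal.Quotient.mkₐ ℂ 𝔮).comp (rename c) = aeval _ by ext; simp))))
  simpa using h

theorem torg (hw : Adm w) (s : Finset ρ) (hs : ∀ r ∈ s, w r = (1, 0)) (𝔞 : Ideal (P ρ))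
    (h : ∀ r, w r = (1, 0) → r ∉ s → X r ∈ 𝔞.radical) {I : Ideal (P ρ)} (hI' : HomI w I)
    (hle : 𝔞 ≤ I) : (1 - tt) ^ s.card • hI w I ∈ Nall := by
  refine pdev hw.posw Nall _ 𝔞 (fun 𝔮 hq hh hle => ?_) hI' hle
  have h1 := elim_many hw.posw s (fun r => (X r : P ρ)) w (isWeightedHomogeneous_X ℂ w) Nall
    (𝔟 := 𝔮) (fun J _ hJ hX => hdim_all hw fun v hv => ?_) hh le_rfl
  · rwa [Finset.prod_congr rfl fun r hr => by rw [hs r hr], Finset.prod_const] at h1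
  · by_cases hv' : v ∈ s
    · exact hX v hv'
    · exact hJ (hq.radical_le_iff.2 hle (h v hv hv'))

theorem tor1 (γ : η → ℕ) (𝔞 : Ideal (P (τ ⊕ η)))
    (h : ∀ j l, X (Sum.inl j) * X (Sum.inr l) ∈ 𝔞.radical) {I : Ideal (P (τ ⊕ η))}
    (hI' : HomI (wt γ) I) (hle : 𝔞 ≤ I) : hI (wt γ) I ∈ Nev := by
  rw [← one_smul (RG G2) (hI (wt γ) I)]
  refine pdev (adm_wt γ).posw Nev _ 𝔞 (fun 𝔮 hq hh hle => ?_) hI' hle
  rw [one_smul]
  by_cases hc : ∀ l, X (Sum.inr l) ∈ 𝔮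
  · exact eventually_atTop.2 ⟨1, fun a ha => Eventually.of_forall fun n => hdim_fst hc ha⟩
  · obtain ⟨l, hl⟩ := not_forall.1 hc
    refine Nall_le_Nev (hdim_all (adm_wt γ) ?_)
    rintro (v | v) hv
    · exact (hq.mem_or_mem (hq.radical_le_iff.2 hle (h v l))).resolve_right hl
    · simp [wt] at hv

theorem dim0 (d : ℕ) {I : Ideal (P τ)} (hI' : HomI (w0 τ) I)
    (h : ∀ 𝔮 : Ideal (P τ), 𝔮.IsPrime → I ≤ 𝔮 → dm 𝔮 ≤ d) :
    (1 - tt) ^ d • hI (w0 τ) I ∈ Nall := by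
  have hw := (adm_w0 τ).posw
  induction d generalizing I with
  | zero =>
    refine pdev hw Nall _ I (fun 𝔮 hq hh hle => Submodule.smul_mem _ _
      (hdim_all (adm_w0 τ) fun v _ => ?_)) hI' le_rfl
    by_contra hv
    exact absurd (hdim_pos hw hq hh hv) (not_lt.2 (h 𝔮 hq hle))
  | succ d ih =>
    refine pdev hw Nall _ I (fun 𝔮 hq hh hle => ?_) hI' le_rfl
    by_cases hc : ∀ v, X v ∈ 𝔮
    · exact Submodule.smul_mem _ _ (hdim_all (adm_w0 τ) fun v _ => hc v)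
    · obtain ⟨v, hv⟩ := not_forall.1 hc
      have h1 := ih (hh.sup_one (isWeightedHomogeneous_X ℂ _ v)) fun 𝔭 hp h2 =>
        Nat.lt_succ_iff.1 ((hdim_lt hq hp hv h2).trans_le (h 𝔮 hq hle))
      rwa [hdim_reg hw hq hh hv, ← mul_smul, ← show tt = sh (w0 τ v) from rfl, ← pow_succ] at h1

theorem nv_tot (i j : ℕ) {I : Ideal (P (τ ⊕ Λ))} (hI' : HomI (wt fun _ => 0) I)
    (h : ∀ 𝔮 : Ideal (P (τ ⊕ Λ)), 𝔮.IsPrime → I ≤ 𝔮 → dm 𝔮 ≤ i + j + 1) :
    ((1 - tt) ^ i * (1 - ss) ^ j) • hI (wt fun _ => 0) I ∈ Zs G2 := by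
  have hw := (adm_wt (τ := τ) fun _ : Λ => 0).posw
  induction hn : i + j using Nat.strong_induction_on generalizing i j I with
  | _ n ih =>
    refine pdev hw _ _ I (fun 𝔮 hq hh hle => ?_) hI' le_rfl
    by_cases hc : ∀ v, X (Sum.inl v) ∈ 𝔮
    · exact Submodule.smul_mem _ _ (hdim_zs fun k hk _ => hdim_snd hc hk)
    by_cases hc' : ∀ v, X (Sum.inr v) ∈ 𝔮
    · exact Submodule.smul_mem _ _ (hdim_zs fun k _ hk => hdim_fst hc' hk)
    obtain ⟨a, ha⟩ := not_forall.1 hc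
    obtain ⟨b, hb⟩ := not_forall.1 hc'
    have h2 := hdim_two hq hh ha hb
    have h3 := h 𝔮 hq hle
    rcases i with _ | i
    · obtain ⟨j, rfl⟩ : ∃ j', j = j' + 1 := ⟨j - 1, by omega⟩
      have h1 := ih (0 + j) (by omega) 0 j (hh.sup_one (isWeightedHomogeneous_X ℂ _ (Sum.inr b)))
        (fun 𝔭 hp h4 => by have := hdim_lt hq hp hb h4; omega) rfl
      rwa [hdim_reg hw hq hh hb, ← mul_smul, mul_assoc,
        ← show ss = sh (wt (τ := τ) (fun _ => 0) (Sum.inr b)) from rfl, ← pow_succ] at h1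
    · have h1 := ih (i + j) (by omega) i j (hh.sup_one (isWeightedHomogeneous_X ℂ _ (Sum.inl a)))
        (fun 𝔭 hp h4 => by have := hdim_lt hq hp ha h4; omega) rfl
      rwa [hdim_reg hw hq hh ha, ← mul_smul, mul_right_comm,
        ← show tt = sh (wt (fun _ : Λ => 0) (Sum.inl a)) from rfl, ← pow_succ] at h1

theorem nv_lam {I : Ideal (P (τ ⊕ Λ))} (hI' : HomI (wt fun _ => 0) I) :
    (1 - ss) ^ Fintype.card Λ • hI (wt fun _ => 0) I ∈ Zs G2 := by
  have h1 := elim_many (adm_wt (τ := τ) fun _ : Λ => 0).posw Finset.univ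
    (fun l : Λ => (X (Sum.inr l) : P (τ ⊕ Λ))) (fun _ => ((0, 1) : G2))
    (fun l => isWeightedHomogeneous_X ℂ _ (Sum.inr l)) (Zs G2) (𝔟 := I)
    (fun J _ _ hX => hdim_zs fun k _ hk => hdim_fst (fun l => hX l (Finset.mem_univ l)) hk)
    hI' le_rfl
  rwa [Finset.prod_const, Finset.card_univ] at h1

end PartHDim

end Pool.Agent.MP_429080_ag.H26
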