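import Pool.Agent.MP_429080_ag.CI.Local

namespace Pool.Agent.MP_429080_ag.H26

open MvPolynomial Filter Module Pool.Agent.EGH Pool.Agent.MP_d171e3_nt

set_option linter.unusedSectionVars false

section PartGTay

variable {σ : Type} [Fintype σ] {n : ℕ} {C : Set (σ → ℂ)} {x y : σ → ℂ}
  {φ : (Fin n → ℂ) →ₗ[ℂ] (σ → ℂ)}

theorem eval_lp (x y : σ → ℂ) (f : P σ) (t : ℂ) : (lp x y f).eval t = eval (x + t • y) f := by
  induction f using MvPolynomial.induction_on with
  | C a => simp [lp]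
  | add p q hp hq => simp [hp, hq]
  | mul_X p i hp =>
    rw [map_mul, Polynomial.eval_mul, hp, map_mul, eval_X]
    simp only [lp, aeval_X, Polynomial.eval_add, Polynomial.eval_mul, Polynomial.eval_C,
      Polynomial.eval_X, Pi.add_apply, Pi.smul_apply, smul_eq_mul]
    ring

theorem lp_coeff_zero (x y : σ → ℂ) (f : P σ) : (lp x y f).coeff 0 = eval x f := by
  rw [Polynomial.coeff_zero_eq_eval_zero, eval_lp, zero_smul, add_zero]

theorem gtay_X (x y : σ → ℂ) (i : σ) :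
    lp x y (X i) = Polynomial.C (x i) + Polynomial.C (y i) * Polynomial.X := by simp [lp]

theorem gtay_deriv (x y : σ → ℂ) (f : P σ) :
    (lp x y f).derivative = ∑ i, lp x y (pderiv i f) * Polynomial.C (y i) := by
  classical
  induction f using MvPolynomial.induction_on with
  | C a => simp [lp]
  | add p q hp hq => simp [hp, hq, add_mul, Finset.sum_add_distrib]
  | mul_X p i hp =>
    have h : ∀ j, lp x y (pderiv j (p * X i)) * Polynomial.C (y j) =
        lp x y (pderiv j p) * Polynomial.C (y j) * lp x y (X i) +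
          if j = i then lp x y p * Polynomial.C (y j) else 0 := by
      intro j
      rw [Derivation.leibniz, pderiv_X, smul_eq_mul, smul_eq_mul, map_add, map_mul, map_mul]
      by_cases h : j = i
      · subst h
        simp only [Pi.single_eq_same, map_one, if_true]
        ring
      · rw [Pi.single_eq_of_ne (Ne.symm h), if_neg h, map_zero]
        ring
    simp only [h, Finset.sum_add_distrib, Finset.sum_ite_eq', Finset.mem_univ, if_true]
    rw [map_mul, Polynomial.derivative_mul, hp, Finset.sum_mul, gtay_X]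
    simp

theorem lp_coeff_one (x y : σ → ℂ) (f : P σ) : (lp x y f).coeff 1 = grad f x ⬝ᵥ y := by
  have h := congrArg (fun p => Polynomial.coeff p 0) (gtay_deriv x y f)
  simp only [Polynomial.coeff_derivative, Polynomial.finsetSum_coeff, Polynomial.coeff_mul_C,
    lp_coeff_zero] at h
  simpa [grad, dotProduct] using h

theorem lp_deriv (x y : σ → ℂ) (f : P σ) :
    (lp x y f).derivative = ∑ i, lp x y (pderiv i f) * Polynomial.C (y i) := gtay_deriv x y f

theorem om_zero (x y : σ → ℂ) (f : P σ) : om x y f 0 = grad f x := funext fun _ => lp_coeff_zero _ _ _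

theorem om_add (x y : σ → ℂ) (f g : P σ) (j : ℕ) : om x y (f + g) j = om x y f j + om x y g j :=
  by
  ext i
  simp [om]

theorem om_smul (x y : σ → ℂ) (a : ℂ) (f : P σ) (j : ℕ) : om x y (a • f) j = a • om x y f j := by
  ext i
  simp [om]

theorem om_sum {κ : Type} (s : Finset κ) (x y : σ → ℂ) (f : κ → P σ) (j : ℕ) :
    om x y (∑ i ∈ s, f i) j = ∑ i ∈ s, om x y (f i) j := by
  ext i
  simp [om, Finset.sum_apply]

theorem gtay_comm (i j : σ) (f : P σ) : pderiv i (pderiv j f) = pderiv j (pderiv i f) := by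
  classical
  induction f using MvPolynomial.induction_on with
  | C a => simp
  | add p q hp hq => simp [hp, hq]
  | mul_X p k hp =>
    have h : ∀ a b : σ, pderiv a (pderiv b (X k : P σ)) = 0 := fun a b => by
      rw [pderiv_X]
      by_cases h : k = b
      · subst h
        simp
      · rw [Pi.single_eq_of_ne h, map_zero]
    simp only [Derivation.leibniz, map_add, smul_eq_mul, h, hp]
    ring

theorem om_symm (x a v : σ → ℂ) (f : P σ) : om x a f 1 ⬝ᵥ v = om x v f 1 ⬝ᵥ a := by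
  have h : ∀ a v : σ → ℂ, om x a f 1 ⬝ᵥ v =
      ∑ i, ∑ j, eval x (pderiv j (pderiv i f)) * a j * v i := fun a v => by
    simp only [dotProduct, om, lp_coeff_one, grad, Finset.sum_mul]
  rw [h, h, Finset.sum_comm]
  refine Finset.sum_congr rfl fun i _ => Finset.sum_congr rfl fun j _ => ?_
  rw [gtay_comm i j f]
  ring

theorem grad_line (x y v : σ → ℂ) (f : P σ) (t : ℂ) :
    (∑ i, lp x y (pderiv i f) * Polynomial.C (v i)).eval t = grad f (x + t • y) ⬝ᵥ v := by
  simp [Polynomial.eval_finsetSum, eval_lp, grad, dotProduct]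

theorem om_dot (x y v : σ → ℂ) (f : P σ) (j : ℕ) :
    (∑ i, lp x y (pderiv i f) * Polynomial.C (v i)).coeff j = om x y f j ⬝ᵥ v := by
  simp [om, dotProduct]

theorem gtay_deg {f : P σ} {d : ℕ} (hf : f.IsHomogeneous d) (x y : σ → ℂ) :
    (lp x y f).natDegree ≤ d := by
  have := aeval_natDegree_le (n := 1) f hf.totalDegree_le
    (fun i => Polynomial.C (x i) + Polynomial.C (y i) * Polynomial.X) fun i => by
      compute_degree
  rwa [mul_one] at this

theorem lp_rev {f : P σ} {d : ℕ} (hf : f.IsHomogeneous d) (x y : σ → ℂ) {i j : ℕ} (h : i + j = d) :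
    (lp y x f).coeff i = (lp x y f).coeff j := by
  have key : lp y x f = Polynomial.reflect d (lp x y f) := by
    apply Polynomial.eq_of_infinite_eval_eq
    refine (Set.Finite.infinite_compl (Set.finite_singleton (0 : ℂ))).mono fun u hu => ?_
    have hu : u ≠ 0 := hu
    have : Invertible u⁻¹ := invertibleOfNonzero (inv_ne_zero hu)
    have h1 := Polynomial.eval₂_reflect_mul_pow (RingHom.id ℂ) u⁻¹ d _ (gtay_deg hf x y)
    rw [invOf_eq_inv, inv_inv, Polynomial.eval₂_id, Polynomial.eval₂_id, eval_lp] at h1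
    have h2 : y + u • x = u • (x + u⁻¹ • y) := by
      rw [smul_add, smul_smul, mul_inv_cancel₀ hu, one_smul, add_comm]
    show (lp y x f).eval u = _
    rw [eval_lp, h2, eval_smul_hom hf, ← h1, mul_left_comm, ← mul_pow, mul_inv_cancel₀ hu,
      one_pow, mul_one]
  rw [key, Polynomial.coeff_reflect, Polynomial.revAt_le (by omega)]
  congr 1
  omega

theorem lp_high {f : P σ} {d : ℕ} (hf : f.IsHomogeneous d) (x y : σ → ℂ) {j : ℕ} (h : d < j) :
    (lp x y f).coeff j = 0 := 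
  Polynomial.coeff_eq_zero_of_natDegree_lt ((gtay_deg hf x y).trans_lt h)

theorem om_top {f : P σ} {d : ℕ} (hf : f.IsHomogeneous (d + 1)) (x y : σ → ℂ) :
    om x y f d = grad f y := by
  ext i
  have h : (pderiv i f).IsHomogeneous d := hf.pderiv
  exact (lp_rev h x y (zero_add d)).symm.trans (lp_coeff_zero _ _ _)

theorem om_high {f : P σ} {d : ℕ} (hf : f.IsHomogeneous d) (x y : σ → ℂ) {j : ℕ} (h : d ≤ j) :
    om x y f j = 0 := by
  ext i
  rcases d with _ | d
  · rw [← totalDegree_zero_iff_isHomogeneous, totalDegree_eq_zero_iff_eq_C] at hf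
    rw [hf]
    simp [om]
  · exact lp_high (hf.pderiv (i := i)) x y (by omega)

theorem pair_iff {a b : σ → ℂ} : Pair C x y a b ↔ ∀ G ∈ vI C,
    om x y G 0 ⬝ᵥ a = 0 ∧ ∀ j, om x y G (j + 1) ⬝ᵥ a + om x y G j ⬝ᵥ b = 0 := by
  have key : ∀ G : P σ, (∀ t : ℂ, grad G (x + t • y) ⬝ᵥ (a + t • b) = 0) ↔
      om x y G 0 ⬝ᵥ a = 0 ∧ ∀ j, om x y G (j + 1) ⬝ᵥ a + om x y G j ⬝ᵥ b = 0 := by
    intro G
    have h1 : (∀ t : ℂ, grad G (x + t • y) ⬝ᵥ (a + t • b) = 0) ↔
        (∑ i, lp x y (pderiv i G) * Polynomial.C (a i)) +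
          Polynomial.X * (∑ i, lp x y (pderiv i G) * Polynomial.C (b i)) = 0 := by
      refine Iff.trans (forall_congr' fun t => ?_)
        ⟨fun h => Polynomial.funext h, fun h t => congrArg (Polynomial.eval t) h⟩
      rw [Polynomial.eval_add, Polynomial.eval_mul, Polynomial.eval_X, grad_line, grad_line,
        dotProduct_add, dotProduct_smul, smul_eq_mul, Polynomial.eval_zero]
    rw [h1, Polynomial.ext_iff]
    constructor
    · intro h
      refine ⟨?_, fun j => ?_⟩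
      · simpa only [Polynomial.coeff_add, Polynomial.coeff_X_mul_zero, add_zero, om_dot,
          Polynomial.coeff_zero] using h 0
      · simpa only [Polynomial.coeff_add, Polynomial.coeff_X_mul, om_dot,
          Polynomial.coeff_zero] using h (j + 1)
    · rintro ⟨h0, h⟩ j
      rcases j with _ | j
      · simpa only [Polynomial.coeff_add, Polynomial.coeff_X_mul_zero, add_zero, om_dot,
          Polynomial.coeff_zero] using h0
      · simpa only [Polynomial.coeff_add, Polynomial.coeff_X_mul, om_dot,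
          Polynomial.coeff_zero] using h j
  simp only [Pair, mem_tangent, ← key]
  exact ⟨fun h G hG t => h t G hG, fun h t G hG => h G hG t⟩

theorem mem_W0 {a : σ → ℂ} : a ∈ W0 C x y ↔ ∀ G ∈ vI C, ∀ j, om x y G j ⬝ᵥ a = 0 := by
  have h : a ∈ W0 C x y ↔ Pair C x y a 0 := by simp [W0, Pair, Submodule.mem_iInf]
  rw [h, pair_iff]
  simp only [dotProduct_zero, add_zero]
  exact forall₂_congr fun G _ => ⟨fun h j => by cases j; exacts [h.1, h.2 _], fun h => ⟨h 0, fun j => h _⟩⟩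

theorem om_x (hl : ∀ s t : ℂ, s • x + t • y ∈ C) {G : P σ} (hG : G ∈ vI C) (j : ℕ) :
    om x y G j ⬝ᵥ x = 0 := by
  refine mem_W0.1 (Submodule.mem_iInf _ |>.2 fun t => mem_tangent_of_line fun e => ?_) G hG j
  have := hl (1 + e) t
  rwa [add_smul, one_smul, add_right_comm] at this

end PartGTay

section PartGTay2

variable {σ : Type} [Fintype σ] {n c k : ℕ} {C : Set (σ → ℂ)} {x : σ → ℂ}
  {φ : (Fin n → ℂ) →ₗ[ℂ] (σ → ℂ)}

theorem eval_sb (w : Fin n → ℂ) (G : P σ) : eval w (sb x φ G) = eval (x + φ w) G := by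
  induction G using MvPolynomial.induction_on with
  | C a => simp [sb]
  | add p q hp hq => simp [hp, hq]
  | mul_X p i hp =>
    rw [map_mul, map_mul, map_mul, hp]
    simp [sb, eval_lin]

theorem tay_hom (j : ℕ) (G : P σ) : (tay x φ j G).IsHomogeneous j := homogeneousComponent_isHomogeneous j _

theorem gtay2_coeff {τ : Type} [Fintype τ] (w : τ → ℂ) (p : P τ) (j : ℕ) :
    (lp 0 w p).coeff j = eval w (homogeneousComponent j p) := by
  have h : ∀ i, lp 0 w (homogeneousComponent i p) =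
      Polynomial.monomial i (eval w (homogeneousComponent i p)) := fun i =>
    Polynomial.funext fun t => by
      rw [eval_lp, zero_add, eval_smul_hom (homogeneousComponent_isHomogeneous i p),
        Polynomial.eval_monomial, mul_comm]
  conv_lhs => rw [← sum_homogeneousComponent p, map_sum]
  simp only [h, Polynomial.finsetSum_coeff, Polynomial.coeff_monomial, Finset.sum_ite_eq',
    Finset.mem_range]
  split_ifs with hj
  · rfl
  · rw [homogeneousComponent_eq_zero _ _ (by omega), map_zero]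

theorem eval_tay (w : Fin n → ℂ) (j : ℕ) (G : P σ) :
    eval w (tay x φ j G) = (lp x (φ w) G).coeff j := by
  have e : lp x (φ w) G = lp 0 w (sb x φ G) := Polynomial.funext fun t => by
    rw [eval_lp, eval_lp, eval_sb, zero_add, map_smul]
  rw [e, gtay2_coeff]
  rfl

theorem ev_omP (z : Fin n → ℂ) (G : P σ) (j : ℕ) : ev z (omP x φ G j) = om x (φ z) G j := funext fun s => eval_tay z j (pderiv s G)

theorem isH_omP (G : P σ) (j : ℕ) : IsH (w0 (Fin n)) 0 ((j : ℤ), 0) (omP x φ G j) := fun s => by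
  rw [Pi.zero_apply, sub_zero]
  exact isWH_w0.2 (tay_hom j _)

theorem omP_zero (G : P σ) : omP x φ G 0 = fun s => MvPolynomial.C (grad G x s) := funext fun s =>
  MvPolynomial.funext fun w => by
    rw [eval_C]
    exact (congrFun (ev_omP w G 0) s).trans (congrFun (om_zero x (φ w) G) s)

theorem omP_high {G : P σ} {d j : ℕ} (hG : G.IsHomogeneous d) (h : d ≤ j) : omP x φ G j = 0 := funext fun s =>
  MvPolynomial.funext fun w => by
    rw [Pi.zero_apply, map_zero]
    exact (congrFun (ev_omP w G j) s).trans (congrFun (om_high hG x (φ w) h) s)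

theorem tay_high {G : P σ} {d j : ℕ} (hG : G.IsHomogeneous d) (h : d < j) : tay x φ j G = 0 := MvPolynomial.funext fun w => by
  rw [eval_tay, lp_high hG _ _ h, map_zero]

theorem gtay2_pderiv {τ : Type} (a : τ) (j : ℕ) (p : P τ) :
    pderiv a (homogeneousComponent (j + 1) p) = homogeneousComponent j (pderiv a p) := by
  ext m
  simp only [coeff_pderiv, coeff_homogeneousComponent, map_add, Finsupp.degree_single,
    add_left_inj]
  split_ifs <;> simp

theorem grad_tay (z w : Fin n → ℂ) (j : ℕ) (G : P σ) :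
    grad (tay x φ (j + 1) G) z ⬝ᵥ w = om x (φ z) G j ⬝ᵥ φ w := by
  have e : ∑ a, MvPolynomial.C (w a) * pderiv a (sb x φ G) =
      ∑ s, MvPolynomial.C (φ w s) * sb x φ (pderiv s G) := MvPolynomial.funext fun y => by
    have e1 : lp y w (sb x φ G) = lp (x + φ y) (φ w) G := Polynomial.funext fun t => by
      rw [eval_lp, eval_lp, eval_sb, map_add, map_smul, add_assoc]
    have e2 := lp_coeff_one y w (sb x φ G)
    rw [e1, lp_coeff_one] at e2
    simp only [map_sum, map_mul, eval_C, eval_sb]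
    simpa only [grad, dotProduct, mul_comm] using e2.symm
  have e3 := congrArg (fun p => eval z (homogeneousComponent j p)) e
  simp only [map_sum, homogeneousComponent_C_mul, map_mul, eval_C] at e3
  rw [← ev_omP]
  simp only [← gtay2_pderiv] at e3
  simpa only [grad, dotProduct, mul_comm, ev, omP, tay, LinearMap.comp_apply,
    AlgHom.toLinearMap_apply] using e3

theorem mem_lines (hC : Cn C) {w : Fin n → ℂ} : w ∈ lines C x φ ↔ ∀ t : ℂ, x + t • φ w ∈ C := by
  refine ⟨fun h t => by simpa using h 1 t, fun h s t => ?_⟩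
  by_cases hs : s = 0
  · rw [hs, zero_smul, zero_add]
    refine hC.cone t _ ?_
    rw [← hC.closed]
    refine mem_vZ.2 (hom_induction hC.homI (map_zero _) (fun f g a b => by rw [map_add, a, b, add_zero])
      fun f d hf hd => ?_)
    have e : lp x (φ w) f = 0 := Polynomial.funext fun t => by
      rw [eval_lp, Polynomial.eval_zero]
      exact mem_van.1 hf _ (h t)
    rw [← lp_coeff_zero _ x, lp_rev hd x (φ w) (zero_add d), e, Polynomial.coeff_zero]
  · have := hC.cone s _ (h (t / s))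
    rwa [smul_add, smul_smul, mul_div_cancel₀ _ hs] at this

theorem mem_lines' (hC : Cn C) {w : Fin n → ℂ} :
    w ∈ lines C x φ ↔ ∀ G ∈ vI C, ∀ j, eval w (tay x φ j G) = 0 := by
  rw [mem_lines hC]
  constructor
  · intro h G hG j
    have e : lp x (φ w) G = 0 := Polynomial.funext fun t => by
      rw [eval_lp, Polynomial.eval_zero]
      exact mem_van.1 hG _ (h t)
    rw [eval_tay, e, Polynomial.coeff_zero]
  · intro h t
    rw [← hC.closed]
    refine mem_vZ.2 fun G hG => ?_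
    have e : lp x (φ w) G = 0 := Polynomial.ext fun j => by
      rw [← eval_tay, h G hG j, Polynomial.coeff_zero]
    rw [← eval_lp, e, Polynomial.eval_zero]

theorem tay_mem (hC : Cn C) {G : P σ} (hG : G ∈ vI C) (j : ℕ) :
    tay x φ j G ∈ vI (lines C x φ) := mem_van.2 fun _ hw => (mem_lines' hC).1 hw G hG j

theorem frame_mem (hf : IsFrame C x φ) (w : Fin n → ℂ) : φ w ∈ tangent C x := hf.2.2 ▸ Submodule.mem_sup_left ⟨w, rfl⟩

theorem frame_decomp (hf : IsFrame C x φ) {a : σ → ℂ} (ha : a ∈ tangent C x) :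
    ∃ (w : Fin n → ℂ) (s : ℂ), a = φ w + s • x := by
  rw [← hf.2.2] at ha
  obtain ⟨_, ⟨w, rfl⟩, b, hb, rfl⟩ := Submodule.mem_sup.1 ha
  obtain ⟨s, rfl⟩ := Submodule.mem_span_singleton.1 hb
  exact ⟨w, s, rfl⟩

theorem frame_inj (hf : IsFrame C x φ) (h0 : x ≠ 0) {w : Fin n → ℂ} {s : ℂ} (h : s • x + φ w = 0) :
    w = 0 ∧ s = 0 := by
  have h1 : φ w = 0 := Submodule.disjoint_def.1 hf.2.1 _ ⟨w, rfl⟩
    (Submodule.mem_span_singleton.2 ⟨-s, by rw [neg_smul]; exact neg_eq_of_add_eq_zero_right h⟩)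
  rw [h1, add_zero] at h
  exact ⟨hf.1 (h1.trans (map_zero φ).symm), (smul_eq_zero.1 h).resolve_right h0⟩

theorem frame_indep (hf : IsFrame C x φ) (h0 : x ≠ 0) {z : Fin n → ℂ} (hz : z ≠ 0) :
    LinearIndependent ℂ ![x, φ z] := LinearIndependent.pair_iff.2 fun s t h => by
  rw [← map_smul] at h
  obtain ⟨h1, h2⟩ := frame_inj hf h0 h
  exact ⟨h2, (smul_eq_zero.1 h1).resolve_right hz⟩

theorem frame_kill (hf : IsFrame C x φ) {α : σ → ℂ} (h1 : α ⬝ᵥ x = 0) (h2 : ∀ w, α ⬝ᵥ φ w = 0) :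
    ∀ a ∈ tangent C x, α ⬝ᵥ a = 0 := fun a ha => by
  obtain ⟨w, s, rfl⟩ := frame_decomp hf ha
  rw [dotProduct_add, dotProduct_smul, h1, h2, smul_zero, add_zero]

theorem tay_zero (hx : x ∈ C) {G : P σ} (hG : G ∈ vI C) : tay x φ 0 G = 0 := MvPolynomial.funext fun w => by
  rw [eval_tay, lp_coeff_zero, map_zero]
  exact mem_van.1 hG x hx

theorem tay_one (hf : IsFrame C x φ) {G : P σ} (hG : G ∈ vI C) : tay x φ 1 G = 0 := MvPolynomial.funext fun w => by
  rw [eval_tay, lp_coeff_one, map_zero]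
  exact mem_tangent.1 (frame_mem hf w) G hG

theorem Ctx.cn (h : Ctx C x φ c k) : Cn (lines C x φ) := by
  have hc : vZ (vI (lines C x φ)) = lines C x φ := by
    ext w
    exact ⟨fun hw => (mem_lines' h.sm.toCn).2 fun G hG j =>
      mem_vZ.1 hw _ (tay_mem h.sm.toCn hG j), fun hw => mem_vZ.2 fun f hf => mem_van.1 hf w hw⟩
  refine ⟨hc, fun a z hz s t => ?_, h.prime, ?_⟩
  · rw [map_smul, smul_smul]
    exact hz s _
  · have h1 := h.dim
    have h2 := h.lt
    obtain ⟨y, hy, h0⟩ := exists_ne_pt h.prime (by omega) 0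
    exact ⟨y, hc ▸ hy, h0⟩

theorem Ctx.card' (h : Ctx C x φ c k) :
    dm (vI (lines C x φ)) + k = Fintype.card (Fin n) := by rw [Fintype.card_fin, h.dim]

theorem Ctx.phi_mem (h : Ctx C x φ c k) {z : Fin n → ℂ} (hz : z ∈ lines C x φ) (h0 : z ≠ 0) :
    φ z ∈ C ∧ φ z ≠ 0 := ⟨by simpa using hz 0 1, fun e => h0 (h.frame.1 (e.trans (map_zero φ).symm))⟩

end PartGTay2

section PartGFree

variable {σ : Type} [Fintype σ] {C : Set (σ → ℂ)}

/-- polynomial functions -/
noncomputable def gfree_A (ρ : Type) : Subalgebra ℂ ((ρ → ℂ) → ℂ) where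
  carrier := {φ | ∃ F : P ρ, ∀ z, eval z F = φ z}
  mul_mem' := by
    rintro _ _ ⟨F, hF⟩ ⟨G, hG⟩
    exact ⟨F * G, fun z => by simp [hF, hG]⟩
  add_mem' := by
    rintro _ _ ⟨F, hF⟩ ⟨G, hG⟩
    exact ⟨F + G, fun z => by simp [hF, hG]⟩
  algebraMap_mem' a := ⟨MvPolynomial.C a, fun z => by simp⟩

theorem gfree_X {ρ : Type} (r : ρ) : (fun z : ρ → ℂ => z r) ∈ gfree_A ρ := ⟨X r, fun z => by simp⟩

theorem gfree_C {ρ : Type} (a : ℂ) : (fun _ : ρ → ℂ => a) ∈ gfree_A ρ :=
  (gfree_A ρ).algebraMap_mem a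

theorem gfree_sum {ρ κ : Type} [Fintype κ] {φ : κ → (ρ → ℂ) → ℂ} (h : ∀ k, φ k ∈ gfree_A ρ) :
    (fun z => ∑ k, φ k z) ∈ gfree_A ρ := by
  have := (gfree_A ρ).sum_mem (t := Finset.univ) fun k _ => h k
  rwa [Finset.sum_fn] at this

theorem gfree_eval {ρ : Type} {p : (ρ → ℂ) → σ → ℂ} (h : ∀ i, (fun z => p z i) ∈ gfree_A ρ)
    (f : P σ) : (fun z => eval (p z) f) ∈ gfree_A ρ := by
  induction f using MvPolynomial.induction_on with
  | C a => simpa using gfree_C a
  | add f g hf hg =>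
    simp only [map_add]
    exact (gfree_A ρ).add_mem hf hg
  | mul_X f i hf =>
    simp only [map_mul, eval_X]
    exact (gfree_A ρ).mul_mem hf (h i)

theorem gfree_dot {ρ : Type} {p v : (ρ → ℂ) → σ → ℂ} (h : ∀ i, (fun z => p z i) ∈ gfree_A ρ)
    (hv : ∀ i, (fun z => v z i) ∈ gfree_A ρ) (f : P σ) :
    (fun z => grad f (p z) ⬝ᵥ v z) ∈ gfree_A ρ :=
  gfree_sum fun i => (gfree_A ρ).mul_mem (gfree_eval h (pderiv i f)) (hv i)

theorem gfree_cl {ρ : Type} [Fintype ρ] {B : Set (ρ → ℂ)} {φ : (ρ → ℂ) → ℂ} (h : φ ∈ gfree_A ρ)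
    {c : ℂ} (hB : ∀ z ∈ B, φ z = c) {z : ρ → ℂ} (hz : z ∈ vZ (vI B)) : φ z = c := by
  obtain ⟨F, hF⟩ := h
  have := mem_vZ.1 hz (F - MvPolynomial.C c) (mem_van.2 fun w hw => by simp [hF, hB w hw])
  simpa [hF, sub_eq_zero] using this

theorem gfree_pair {m D : ℕ} {G : Fin m → P σ} {d : Fin m → ℕ}
    (hd : ∀ i, (G i).IsHomogeneous (d i)) (hD : ∀ i, d i ≤ D)
    (hG : vI C = Ideal.span (Set.range G)) {x y a b : σ → ℂ} (hl : ∀ t : ℂ, x + t • y ∈ C)
    (h : ∀ i, ∀ t : Fin (D + 1), grad (G i) (x + ((t : ℕ) : ℂ) • y) ⬝ᵥ a +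
      ((t : ℕ) : ℂ) * (grad (G i) (x + ((t : ℕ) : ℂ) • y) ⬝ᵥ b) = 0) : Pair C x y a b := by
  intro t
  rw [mem_tangent_nm, nm_gens hG (hl t), span_dot]
  rintro _ ⟨i, rfl⟩
  let q : (σ → ℂ) → Polynomial ℂ := fun v => ∑ s, lp x y (pderiv s (G i)) * Polynomial.C (v s)
  have hq : ∀ v j, d i ≤ j → (q v).coeff j = 0 := fun v j hj => by
    simp only [q]
    rw [om_dot, om_high (hd i) x y hj, zero_dotProduct]
  have he : ∀ s : ℂ, (q a + Polynomial.X * q b).eval s =
      grad (G i) (x + s • y) ⬝ᵥ a + s * (grad (G i) (x + s • y) ⬝ᵥ b) := fun s => by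
    simp only [q]
    rw [Polynomial.eval_add, Polynomial.eval_mul, Polynomial.eval_X, grad_line, grad_line]
  have h0 : q a + Polynomial.X * q b = 0 := by
    refine Polynomial.eq_zero_of_natDegree_lt_card_of_eval_eq_zero _
      (f := fun t : Fin (D + 1) => ((t : ℕ) : ℂ))
      (fun s s' hs => Fin.ext (Nat.cast_injective (R := ℂ) hs)) (fun s => (he _).trans (h i s)) ?_
    rw [Fintype.card_fin, Nat.lt_succ_iff, Polynomial.natDegree_le_iff_coeff_eq_zero]
    intro j hj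
    have := hD i
    obtain ⟨j, rfl⟩ : ∃ j', j = j' + 1 := ⟨j - 1, by omega⟩
    rw [Polynomial.coeff_add, Polynomial.coeff_X_mul, hq a _ (by omega), hq b _ (by omega), add_zero]
  have := he t
  rw [h0, Polynomial.eval_zero] at this
  rw [dotProduct_add, dotProduct_smul, smul_eq_mul]
  exact this.symm

theorem gfree_mu {κ : Type} [Fintype κ] (u : κ → ℂ) (g : κ → σ → ℂ) (a : σ → ℂ)
    (h : ¬ ∃ b, ∀ k, g k ⬝ᵥ a + u k * (g k ⬝ᵥ b) = 0) :
    ∃ μ : κ → ℂ, (∀ b, ∑ k, μ k * (u k * (g k ⬝ᵥ b)) = 0) ∧ ∑ k, μ k * (g k ⬝ᵥ a) = 1 := by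
  classical
  let L : (σ → ℂ) →ₗ[ℂ] (κ → ℂ) :=
    { toFun := fun b k => u k * (g k ⬝ᵥ b)
      map_add' := fun b b' => by ext k; simp [mul_add]
      map_smul' := fun s b => by ext k; simp [mul_left_comm] }
  have hv : (fun k => g k ⬝ᵥ a) ∉ LinearMap.range L := by
    rintro ⟨b, hb⟩
    refine h ⟨-b, fun k => ?_⟩
    have : u k * (g k ⬝ᵥ b) = g k ⬝ᵥ a := congrFun hb k
    rw [dotProduct_neg, mul_neg, this, add_neg_cancel]
  obtain ⟨f, hf, hf'⟩ := Submodule.exists_dual_map_eq_bot_of_notMem hv inferInstance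
  have hs : ∀ w : κ → ℂ, ∑ k, (f fun j => if k = j then 1 else 0) / f (fun k => g k ⬝ᵥ a) * w k =
      f w / f (fun k => g k ⬝ᵥ a) := fun w => by
    rw [LinearMap.pi_apply_eq_sum_univ f w, Finset.sum_div]
    exact Finset.sum_congr rfl fun k _ => by rw [smul_eq_mul]; ring
  refine ⟨fun k => (f fun j => if k = j then 1 else 0) / f (fun k => g k ⬝ᵥ a), fun b => ?_, ?_⟩
  · have h1 : f (L b) ∈ (LinearMap.range L).map f := ⟨_, ⟨b, rfl⟩, rfl⟩
    rw [hf', Submodule.mem_bot] at h1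
    exact (hs (L b)).trans (by rw [h1, zero_div])
  · exact (hs _).trans (div_self hf)

theorem general_free (hC : Cn C) : General C (Free C) := by
  by_contra hcon
  obtain ⟨m, G, d, hd, hG⟩ := exists_hom_gens hC.homI
  obtain ⟨K, hK, -, hKG⟩ := exists_field (Set.finite_range G)
  let D := ∑ i, d i
  have hD : ∀ i, d i ≤ D := fun i =>
    Finset.single_le_sum (f := d) (fun _ _ => Nat.zero_le _) (Finset.mem_univ i)
  let κ := Fin m × Fin (D + 1)
  let u : κ → ℂ := fun k => ((k.2 : ℕ) : ℂ)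
  let ρ := σ ⊕ σ ⊕ σ ⊕ κ
  let X₀ : (ρ → ℂ) → σ → ℂ := fun z => z ∘ Sum.inl
  let Y : (ρ → ℂ) → σ → ℂ := fun z i => z (.inr (.inl i))
  let A : (ρ → ℂ) → σ → ℂ := fun z i => z (.inr (.inr (.inl i)))
  let M : (ρ → ℂ) → κ → ℂ := fun z k => z (.inr (.inr (.inr k)))
  let B : Set (ρ → ℂ) := {z | (∀ f ∈ vI C, eval (X₀ z) f = 0) ∧
    (∀ f ∈ vI C, grad f (X₀ z) ⬝ᵥ A z = 0) ∧ (∀ k, eval (X₀ z + u k • Y z) (G k.1) = 0) ∧
    (∀ b, ∑ k, M z k * (u k * (grad (G k.1) (X₀ z + u k • Y z) ⬝ᵥ b)) = 0) ∧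
    ∑ k, M z k * (grad (G k.1) (X₀ z + u k • Y z) ⬝ᵥ A z) = 1}
  have pX : ∀ i, (fun z => X₀ z i) ∈ gfree_A ρ := fun i => gfree_X _
  have pA : ∀ i, (fun z => A z i) ∈ gfree_A ρ := fun i => gfree_X _
  have pM : ∀ k, (fun z => M z k) ∈ gfree_A ρ := fun i => gfree_X _
  have pL : ∀ k i, (fun z => (X₀ z + u k • Y z) i) ∈ gfree_A ρ := fun k i =>
    (gfree_A ρ).add_mem (pX i) ((gfree_A ρ).mul_mem (gfree_C (u k)) (gfree_X _))
  have hcl : ∀ z ∈ vZ (vI B), z ∈ B := fun z hz =>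
    ⟨fun f hf => gfree_cl (gfree_eval pX f) (fun w hw => hw.1 f hf) hz,
      fun f hf => gfree_cl (gfree_dot pX pA f) (fun w hw => hw.2.1 f hf) hz,
      fun k => gfree_cl (gfree_eval (pL k) _) (fun w hw => hw.2.2.1 k) hz,
      fun b => gfree_cl (gfree_sum fun k => (gfree_A ρ).mul_mem (pM k) ((gfree_A ρ).mul_mem
        (gfree_C (u k)) (gfree_dot (pL k) (fun i => gfree_C (b i)) _)))
        (fun w hw => hw.2.2.2.1 b) hz,
      gfree_cl (gfree_sum fun k => (gfree_A ρ).mul_mem (pM k) (gfree_dot (pL k) pA _))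
        (fun w hw => hw.2.2.2.2) hz⟩
  have hGm : ∀ i, G i ∈ vI C := fun i => hG ▸ Ideal.subset_span ⟨i, rfl⟩
  obtain ⟨𝔭, h𝔭, hle, -⟩ := pick (𝔞 := vI B) (Sum.inl : σ → ρ) hC.prime {1} fun f hf => by
    have h1 : ¬ ∀ x ∈ C, eval x f ≠ 0 → x ≠ 0 → Free C x := fun h => hcon ⟨f, hf, h⟩
    simp only [Free, not_forall] at h1
    obtain ⟨x, hx, hfx, -, y, hl, a, ha, hb⟩ := h1
    obtain ⟨μ, h2, h3⟩ := gfree_mu u (fun k => grad (G k.1) (x + u k • y)) a fun ⟨b, h⟩ =>
      hb ⟨b, gfree_pair hd hD hG hl fun i t => h (i, t)⟩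
    refine ⟨Sum.elim x (Sum.elim y (Sum.elim a μ)), mem_vZ.2 fun F hF => mem_van.1 hF _ ?_, hfx,
      1, rfl, by simp⟩
    exact ⟨fun f hf => mem_van.1 hf x hx, mem_tangent.1 ha,
      fun k => mem_van.1 (hGm k.1) _ (hl _), h2, h3⟩
  have hB : ∀ z ∈ vZ 𝔭, z ∈ B := fun z hz =>
    hcl z (mem_vZ.2 fun f hf => mem_vZ.1 hz f (h𝔭.1.2 hf))
  obtain ⟨z, hz, hgen⟩ := gen_gnr K hK h𝔭.1.1 (Sum.inl : σ → ρ) hle fun z hz =>
    hC.closed ▸ mem_vZ.2 (hB z hz).1
  obtain ⟨-, h1, h2, h3, h4⟩ := hB z hz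
  obtain ⟨δ, hδ⟩ := der hgen (mem_tangent.2 h1)
  have h5 : ∀ k, grad (G k.1) (X₀ z + u k • Y z) ⬝ᵥ A z +
      u k * (grad (G k.1) (X₀ z + u k • Y z) ⬝ᵥ fun i => δ (Y z i)) = 0 := fun k => by
    have h6 := der_eval δ (hKG _ ⟨k.1, rfl⟩) (X₀ z + u k • Y z)
    have h7 : (fun i => δ ((X₀ z + u k • Y z) i)) = A z + u k • fun i => δ (Y z i) := by
      funext i
      have h8 : δ (u k) = 0 := δ.map_natCast _
      have h9 : δ (X₀ z i) = A z i := hδ i
      simp [h8, h9]
    rw [h2 k, map_zero, h7, dotProduct_add, dotProduct_smul, smul_eq_mul] at h6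
    exact h6.symm
  have h6 := h3 fun i => δ (Y z i)
  have h7 : (1 : ℂ) + 0 = 0 := by
    rw [← h4]
    nth_rewrite 1 [← h6]
    rw [← Finset.sum_add_distrib]
    exact Finset.sum_eq_zero fun k _ => by rw [← mul_add, h5 k, mul_zero]
  simp at h7

end PartGFree

section PartGLine

variable {σ : Type} [Fintype σ] {c : ℕ} {C : Set (σ → ℂ)} {x y : σ → ℂ}

theorem pair_mem (hC : Cn C) {a b : σ → ℂ} (h : Pair C x y a b) (s : ℂ) :
    s • a + b ∈ tangent C (s • x + y) := by
  by_cases hs : s = 0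
  · subst hs
    rw [zero_smul, zero_smul, zero_add, zero_add, mem_tangent_hom hC]
    intro f hf d hd
    have h1 := (pair_iff.1 h f hf).2 d
    rwa [om_high hd x y le_rfl, zero_dotProduct, zero_add, om_top hd] at h1
  · have e : ∀ u v : σ → ℂ, s • u + v = s • (u + s⁻¹ • v) := fun u v => by
      rw [smul_add, smul_smul, mul_inv_cancel₀ hs, one_smul]
    rw [e x y, tangent_smul hC hs, e a b]
    exact Submodule.smul_mem _ _ (h _)

theorem gline_fst {a b : σ → ℂ} (h : Pair C x y a b) : a ∈ tangent C x := by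
  simpa using h 0

theorem gline_cancel {a : σ → ℂ} {s : ℂ} (h : Pair C x y a (-(s • a))) (t : ℂ) :
    a ∈ tangent C (x + t • y) := by
  rw [mem_tangent]
  intro f hf
  have h1 : (1 - Polynomial.C s * Polynomial.X) *
      (∑ i, lp x y (pderiv i f) * Polynomial.C (a i)) = 0 := by
    refine Polynomial.funext fun u => ?_
    have h2 := mem_tangent.1 (h u) f hf
    rw [dotProduct_add, dotProduct_smul, dotProduct_neg, dotProduct_smul] at h2
    rw [Polynomial.eval_mul, grad_line, Polynomial.eval_zero]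
    simp only [Polynomial.eval_sub, Polynomial.eval_one, Polynomial.eval_mul, Polynomial.eval_C,
      Polynomial.eval_X, smul_eq_mul] at h2 ⊢
    linear_combination h2
  rcases mul_eq_zero.1 h1 with h2 | h2
  · simpa using congrArg (Polynomial.eval 0) h2
  · rw [← grad_line, h2, Polynomial.eval_zero]

theorem span_pairs (hC : Sm C c) (hl : ∀ s t : ℂ, s • x + t • y ∈ C)
    (hi : LinearIndependent ℂ ![x, y]) (hf : Free C x) (s : ℂ) {v : σ → ℂ}
    (hv : v ∈ tangent C (s • x + y)) : ∃ a b, Pair C x y a b ∧ v = s • a + b := by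
  let p₁ := LinearMap.fst ℂ (σ → ℂ) (σ → ℂ)
  let p₂ := LinearMap.snd ℂ (σ → ℂ) (σ → ℂ)
  let S : Submodule ℂ ((σ → ℂ) × (σ → ℂ)) := ⨅ t : ℂ, (tangent C (x + t • y)).comap (p₁ + t • p₂)
  have hS : ∀ p, p ∈ S ↔ Pair C x y p.1 p.2 := fun p => Submodule.mem_iInf _
  have hi' := LinearIndependent.pair_iff.1 hi
  have h1 : S.map p₁ = tangent C x := by
    refine le_antisymm ?_ fun a ha => ?_
    · rintro _ ⟨p, hp, rfl⟩
      exact gline_fst ((hS p).1 hp)
    · obtain ⟨b, hb⟩ := hf y (fun t => by simpa using hl 1 t) a ha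
      exact ⟨(a, b), (hS _).2 hb, rfl⟩
  have h2 : S.map (s • p₁ + p₂) ≤ tangent C (s • x + y) := by
    rintro _ ⟨p, hp, rfl⟩
    exact pair_mem hC.toCn ((hS p).1 hp) s
  let g := (LinearMap.inr ℂ (σ → ℂ) (σ → ℂ)).comp p₁
  have h3 : (S ⊓ LinearMap.ker (s • p₁ + p₂)).map g ≤ S ⊓ LinearMap.ker p₁ := by
    rintro _ ⟨p, ⟨hp, hk⟩, rfl⟩
    have hk' : p.2 = -(s • p.1) := eq_neg_of_add_eq_zero_right hk
    have hp' := (hS p).1 hp
    rw [hk'] at hp'
    refine ⟨(hS _).2 fun t => ?_, rfl⟩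
    exact Submodule.add_mem _ (Submodule.zero_mem _) (Submodule.smul_mem _ t (gline_cancel hp' t))
  have h4 : (S ⊓ LinearMap.ker (s • p₁ + p₂)) ⊓ LinearMap.ker g = ⊥ := by
    rw [eq_bot_iff]
    rintro p ⟨⟨-, hk⟩, hg⟩
    have hk' : p.2 = -(s • p.1) := eq_neg_of_add_eq_zero_right hk
    have hg' : p.1 = 0 := congrArg Prod.snd hg
    rw [hg', smul_zero, neg_zero] at hk'
    exact Prod.ext hg' hk'
  have r1 := finrank_map_add p₁ S
  have r2 := finrank_map_add (s • p₁ + p₂) S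
  have r3 := finrank_map_add g (S ⊓ LinearMap.ker (s • p₁ + p₂))
  have r4 := Submodule.finrank_mono h3
  have r5 := dual_rank C x
  have r6 := dual_rank C (s • x + y)
  rw [h4, finrank_bot] at r3
  rw [h1] at r1
  rw [hC.rk x (by simpa using hl 1 0) fun h => one_ne_zero (hi' 1 0 (by simp [h])).1] at r5
  rw [hC.rk _ (by simpa using hl s 1) fun h => one_ne_zero (hi' s 1 (by simpa using h)).2] at r6
  rw [← Submodule.eq_of_le_of_finrank_le h2 (by omega)] at hv
  obtain ⟨p, hp, rfl⟩ := hv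
  exact ⟨p.1, p.2, (hS p).1 hp, rfl⟩

theorem psi (hC : Sm C c) (hl : ∀ s t : ℂ, s • x + t • y ∈ C) (hi : LinearIndependent ℂ ![x, y])
    (hf : Free C x) {A : Type} [Fintype A] (G : A → P σ) (hG : ∀ m, G m ∈ vI C) (j : A → ℕ)
    (μ : A → ℂ) (h : ∀ a ∈ tangent C x, (∑ m, μ m • om x y (G m) (j m + 1)) ⬝ᵥ a = 0) :
    ∑ m, μ m • om x y (G m) (j m) ∈ Nm C y := by
  refine nm_iff.2 fun v hv => ?_
  obtain ⟨a, b, hp, rfl⟩ := span_pairs hC hl hi hf 0 (v := v) (by simpa using hv)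
  have h1 := h a (gline_fst hp)
  have h2 : (∑ m, μ m • om x y (G m) (j m + 1)) ⬝ᵥ a + (∑ m, μ m • om x y (G m) (j m)) ⬝ᵥ b = 0 := by
    rw [sum_dotProduct, sum_dotProduct, ← Finset.sum_add_distrib]
    refine Finset.sum_eq_zero fun m _ => ?_
    rw [smul_dotProduct, smul_dotProduct, ← smul_add, (pair_iff.1 hp _ (hG m)).2, smul_zero]
  rwa [h1, zero_add, ← zero_add b, ← zero_smul ℂ a] at h2

theorem psi0 (hC : Sm C c) (hl : ∀ s t : ℂ, s • x + t • y ∈ C) (hi : LinearIndependent ℂ ![x, y])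
    (hf : Free C x) {G : P σ} (hG : G ∈ vI C) (h : ∀ a ∈ tangent C x, om x y G 1 ⬝ᵥ a = 0)
    (s : ℂ) : grad G x ∈ Nm C (s • x + y) := by
  refine nm_iff.2 fun v hv => ?_
  obtain ⟨a, b, hp, rfl⟩ := span_pairs hC hl hi hf s hv
  obtain ⟨h1, h2⟩ := pair_iff.1 hp G hG
  have h3 := h2 0
  rw [zero_add, h a (gline_fst hp), zero_add] at h3
  rw [← om_zero x y, dotProduct_add, dotProduct_smul, h1, h3, smul_zero, add_zero]

end PartGLine

section PartGChart

variable {σ : Type} [Fintype σ] {c : ℕ} {C : Set (σ → ℂ)} {x y : σ → ℂ}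

theorem gchart_dual {κ : Type} [Fintype κ] [DecidableEq κ] {α : κ → σ → ℂ}
    (h : LinearIndependent ℂ α) :
    ∃ v : κ → σ → ℂ, ∀ i j, α i ⬝ᵥ v j = (1 : Matrix κ κ ℂ) i j := by
  classical
  obtain ⟨g, hg⟩ := (Fintype.linearCombination ℂ α).exists_leftInverse_of_injective
    (LinearMap.ker_eq_bot.2 h.fintypeLinearCombination_injective)
  refine ⟨fun j s => g (Pi.single s 1) j, fun i j => ?_⟩
  have h1 : g (α i) = Pi.single i 1 := by
    simpa using LinearMap.congr_fun hg (Pi.single i 1)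
  have h2 : g (α i) j = ∑ s, α i s * g (Pi.single s 1) j := by
    conv_lhs => rw [pi_eq_sum_univ' (α i), map_sum, Finset.sum_apply]
    simp
  rw [dotProduct, ← h2, h1, Matrix.one_apply, Pi.single_apply]
  simp only [eq_comm]

theorem gchart_zero (hl : ∀ u : ℂ, y + u • x ∈ C) {G : P σ} (hG : G ∈ vI C) : lp y x G = 0 :=
  Polynomial.funext fun t => by rw [eval_lp, mem_van.1 hG _ (hl t), Polynomial.eval_zero]

theorem gchart_loc (hC : Sm C c) (hl : ∀ u : ℂ, y + u • x ∈ C) (hne : ∀ u : ℂ, y + u • x ≠ 0)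
    (θ : P σ →ₗ[ℂ] Polynomial ℂ) (hθ : ∀ g, ∀ G ∈ vI C, θ (g * G) = lp y x g * θ G) (u : ℂ) :
    ∃ h : Polynomial ℂ, h.eval u ≠ 0 ∧ ∃ β : σ → Polynomial ℂ,
      ∀ G ∈ vI C, h * θ G = ∑ i, lp y x (pderiv i G) * β i := by
  obtain ⟨G', hG'⟩ := exists_bas hC (hl u) (hne u)
  obtain ⟨h₀, h0, hh⟩ := hC.loc (hl u) hG'
  obtain ⟨v, hv⟩ := gchart_dual hG'.2
  let M : Matrix (Fin c) (Fin c) (Polynomial ℂ) :=
    Matrix.of fun i j => ∑ s, lp y x (pderiv s (G' i)) * Polynomial.C (v j s)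
  let γ : Fin c → Polynomial ℂ := M.adjugate.mulVec fun i => θ (G' i)
  let β : σ → Polynomial ℂ := fun s => ∑ j, Polynomial.C (v j s) * γ j
  have hM : (Polynomial.evalRingHom u).mapMatrix M = 1 := by
    ext i j
    rw [← hv, ← grad_line]
    rfl
  have hd : M.det.eval u = 1 := by
    rw [← Polynomial.coe_evalRingHom, RingHom.map_det, hM, Matrix.det_one]
  have h1 : ∀ i, M.det * θ (G' i) = ∑ s, lp y x (pderiv s (G' i)) * β s := by
    intro i
    have : M.mulVec γ i = M.det * θ (G' i) := by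
      simp only [γ]
      rw [Matrix.mulVec_mulVec, Matrix.mul_adjugate, Matrix.smul_mulVec, Matrix.one_mulVec]
      rfl
    rw [← this]
    simp only [M, β, Matrix.mulVec, dotProduct, Matrix.of_apply, Finset.sum_mul, Finset.mul_sum,
      mul_assoc]
    exact Finset.sum_comm
  have h2 : ∀ g, ∀ G ∈ vI C, ∑ s, lp y x (pderiv s (g * G)) * β s =
      lp y x g * ∑ s, lp y x (pderiv s G) * β s := by
    intro g G hG
    simp [gchart_zero hl hG, Finset.mul_sum, mul_assoc]
  refine ⟨M.det, by simp [hd], β, fun G hG => ?_⟩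
  have h3 : lp y x h₀ ≠ 0 := fun e => h0 (by rw [← eval_lp, e, Polynomial.eval_zero])
  obtain ⟨a, ha⟩ := Ideal.mem_span_range_iff_exists_fun.1 (hh G hG)
  refine mul_left_cancel₀ h3 ?_
  rw [← h2 _ _ hG, mul_left_comm, ← hθ _ _ hG, ← ha]
  simp only [map_sum, Finset.sum_mul, Finset.mul_sum]
  rw [Finset.sum_comm]
  refine Finset.sum_congr rfl fun i _ => ?_
  rw [h2 _ _ (hG'.1 i), hθ _ _ (hG'.1 i), mul_left_comm, h1]

theorem chart (hC : Sm C c) (hl : ∀ u : ℂ, y + u • x ∈ C) (hne : ∀ u : ℂ, y + u • x ≠ 0)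
    (θ : P σ →ₗ[ℂ] Polynomial ℂ) (hθ : ∀ g, ∀ G ∈ vI C, θ (g * G) = lp y x g * θ G) :
    ∃ β : σ → Polynomial ℂ, ∀ G ∈ vI C, θ G = ∑ i, lp y x (pderiv i G) * β i := by
  let J : Ideal (Polynomial ℂ) :=
    { carrier := {h | ∃ β : σ → Polynomial ℂ,
        ∀ G ∈ vI C, h * θ G = ∑ i, lp y x (pderiv i G) * β i}
      add_mem' := by
        rintro a b ⟨β, h⟩ ⟨β', h'⟩
        exact ⟨β + β', fun G hG => by
          simp [add_mul, mul_add, Finset.sum_add_distrib, h G hG, h' G hG]⟩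
      zero_mem' := ⟨0, fun G _ => by simp⟩
      smul_mem' := by
        rintro a b ⟨β, h⟩
        exact ⟨fun i => a * β i, fun G hG => by
          simp [mul_assoc, h G hG, Finset.mul_sum, mul_left_comm a]⟩ }
  have hu : IsUnit (Submodule.IsPrincipal.generator J) := by
    rw [Polynomial.isUnit_iff_degree_eq_zero]
    by_contra hd
    obtain ⟨u, hu⟩ := IsAlgClosed.exists_root _ hd
    obtain ⟨h, h0, hh⟩ := gchart_loc hC hl hne θ hθ u
    exact h0 (hu.dvd ((Submodule.IsPrincipal.mem_iff_generator_dvd J).1 hh))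
  obtain ⟨β, h⟩ : (1 : Polynomial ℂ) ∈ J :=
    (Submodule.IsPrincipal.mem_iff_generator_dvd J).2 hu.dvd
  exact ⟨β, fun G hG => by rw [← h G hG, one_mul]⟩

end PartGChart

section PartGSyz

variable {σ : Type} [Fintype σ] {c : ℕ} {C : Set (σ → ℂ)} {x y : σ → ℂ}

theorem gsyz_top (hC : Cn C) {β : σ → Polynomial ℂ} {D : ℕ} (hβ : ∀ i, (β i).natDegree ≤ D)
    (h : ∀ d, ∀ G ∈ vI C, G.IsHomogeneous (d + 1) →
      (∑ i, lp y x (pderiv i G) * β i).coeff (d + D) = 0) :
    (fun i => (β i).coeff D) ∈ tangent C x := by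
  refine (mem_tangent_hom hC).2 fun G hG d hd => ?_
  rw [← h d G hG hd, Polynomial.finsetSum_coeff]
  refine Finset.sum_congr rfl fun i _ => ?_
  have h1 : (pderiv i G).IsHomogeneous d := hd.pderiv
  rw [Polynomial.coeff_mul_add_eq_of_natDegree_le
    (Polynomial.natDegree_le_iff_coeff_eq_zero.2 fun _ => lp_high h1 y x) (hβ i),
    lp_rev h1 x y (add_zero d), lp_coeff_zero]
  rfl

theorem gsyz_pair (hC : Cn C) {a b : σ → ℂ} (h : Pair C x y a b) {G : P σ} (hG : G ∈ vI C) :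
    ∑ i, lp y x (pderiv i G) * (Polynomial.C (a i) * Polynomial.X + Polynomial.C (b i)) = 0 := by
  refine Polynomial.funext fun s => ?_
  rw [Polynomial.eval_zero, ← pair_mem hC h s G hG, Polynomial.eval_finsetSum]
  refine Finset.sum_congr rfl fun i _ => ?_
  rw [Polynomial.eval_mul, eval_lp, add_comm y, Polynomial.eval_add, Polynomial.eval_mul,
    Polynomial.eval_C, Polynomial.eval_C, Polynomial.eval_X, mul_comm (a i)]
  rfl

theorem syz (hC : Sm C c) (hl : ∀ s t : ℂ, s • x + t • y ∈ C) (hi : LinearIndependent ℂ ![x, y])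
    (hf : Free C x) (θ : P σ →ₗ[ℂ] Polynomial ℂ)
    (hθ : ∀ g, ∀ G ∈ vI C, θ (g * G) = lp y x g * θ G)
    (hdeg : ∀ d, ∀ G ∈ vI C, G.IsHomogeneous d → ∀ i, d ≤ i + 1 → (θ G).coeff i = 0) :
    ∃ a ∈ tangent C x, ∀ G ∈ vI C, θ G = ∑ i, lp y x (pderiv i G) * Polynomial.C (a i) := by
  obtain ⟨β, hβ⟩ := chart hC (fun u => by simpa [add_comm] using hl u 1) (fun u h => by
    have := (LinearIndependent.pair_iff.1 hi u 1 (by simpa [add_comm] using h)).2
    exact one_ne_zero this) θ hθ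
  obtain ⟨D, hD⟩ : ∃ D, ∀ i, (β i).natDegree ≤ D :=
    ⟨Finset.univ.sup fun i => (β i).natDegree, fun i =>
      Finset.le_sup (f := fun i => (β i).natDegree) (Finset.mem_univ i)⟩
  induction D generalizing β with
  | zero =>
    refine ⟨_, gsyz_top (y := y) hC.toCn hD fun d G hG hd => ?_, fun G hG => ?_⟩
    · rw [← hβ G hG]
      exact hdeg _ G hG hd _ (by omega)
    · rw [hβ G hG]
      exact Finset.sum_congr rfl fun i _ => by rw [← Polynomial.eq_C_of_natDegree_le_zero (hD i)]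
  | succ D ih =>
    obtain ⟨b, hb⟩ := hf y (fun t => by simpa using hl 1 t) _
      (gsyz_top (y := y) hC.toCn hD fun d G hG hd => by
        rw [← hβ G hG]
        exact hdeg _ G hG hd _ (by omega))
    refine ih (fun i => β i - (Polynomial.C ((β i).coeff (D + 1)) * Polynomial.X +
      Polynomial.C (b i)) * Polynomial.X ^ D) (fun G hG => ?_) fun i => ?_
    · simp only [mul_sub, ← mul_assoc, Finset.sum_sub_distrib]
      rw [← Finset.sum_mul, gsyz_pair hC.toCn hb hG, zero_mul, sub_zero, hβ G hG]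
    · refine Polynomial.natDegree_le_iff_coeff_eq_zero.2 fun N hN => ?_
      rw [add_mul, mul_assoc, ← pow_succ', Polynomial.coeff_sub, Polynomial.coeff_add,
        Polynomial.coeff_C_mul_X_pow, Polynomial.coeff_C_mul_X_pow, if_neg hN.ne', add_zero]
      split_ifs with e
      · rw [e, sub_self]
      · rw [sub_zero]
        exact Polynomial.coeff_eq_zero_of_natDegree_lt ((hD i).trans_lt (by omega))

end PartGSyz

section PartGSm1

variable {σ : Type} [Fintype σ] {n c k : ℕ} {C : Set (σ → ℂ)} {x : σ → ℂ}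
  {φ : (Fin n → ℂ) →ₗ[ℂ] (σ → ℂ)}

/-- substitution of `φ w + t x`, as a polynomial in `t` -/
noncomputable def gsm1_sb (x : σ → ℂ) (φ : (Fin n → ℂ) →ₗ[ℂ] (σ → ℂ)) :
    P σ →ₐ[ℂ] Polynomial (P (Fin n)) :=
  aeval fun i => Polynomial.C (lin ((LinearMap.proj i).comp φ)) +
    Polynomial.C (MvPolynomial.C (x i)) * Polynomial.X

theorem gsm1_map (z : Fin n → ℂ) (g : P σ) :
    (gsm1_sb x φ g).map (eval z) = lp (φ z) x g := by
  induction g using MvPolynomial.induction_on with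
  | C a => simp [gsm1_sb, lp, Polynomial.algebraMap_apply]
  | add p q hp hq => rw [map_add, map_add, Polynomial.map_add, hp, hq]
  | mul_X p i hp =>
    rw [map_mul, map_mul, Polynomial.map_mul, hp]
    congr 1
    simp [gsm1_sb, lp, eval_lin]

theorem gsm1_coeff {G : P σ} {d : ℕ} (hG : G.IsHomogeneous d) (i : ℕ) :
    (gsm1_sb x φ G).coeff i = if i ≤ d then tay x φ (d - i) G else 0 := by
  apply MvPolynomial.funext
  intro z
  rw [← Polynomial.coeff_map, gsm1_map]
  split_ifs with h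
  · rw [eval_tay]
    exact lp_rev hG x (φ z) (by omega)
  · rw [map_zero]
    exact lp_high hG (φ z) x (by omega)

theorem gsm1_mem (hC : Cn C) : ∀ G ∈ vI C, ∀ i, (gsm1_sb x φ G).coeff i ∈ JT C x φ := by
  refine hom_induction hC.homI (p := fun G => ∀ i, (gsm1_sb x φ G).coeff i ∈ JT C x φ) ?_ ?_ ?_
  · intro i
    simp
  · intro f g hf hg i
    rw [map_add, Polynomial.coeff_add]
    exact add_mem (hf i) (hg i)
  · intro f d hf hd i
    rw [gsm1_coeff hd]
    split_ifs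
    · exact Ideal.subset_span ⟨f, hf, _, rfl⟩
    · exact zero_mem _

/-- apply a functional to every coefficient -/
noncomputable def gsm1_cm (θ : P (Fin n) →ₗ[ℂ] ℂ) : Polynomial (P (Fin n)) →ₗ[ℂ] Polynomial ℂ :=
  Polynomial.lsum fun i => (Polynomial.monomial i).comp θ

theorem gsm1_cm_coeff (θ : P (Fin n) →ₗ[ℂ] ℂ) (p : Polynomial (P (Fin n))) (i : ℕ) :
    (gsm1_cm θ p).coeff i = θ (p.coeff i) := by
  induction p using Polynomial.induction_on' with
  | add p q hp hq => rw [map_add, Polynomial.coeff_add, Polynomial.coeff_add, map_add, hp, hq]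
  | monomial m a =>
    simp only [gsm1_cm, Polynomial.lsum_apply, LinearMap.comp_apply]
    rw [Polynomial.sum_monomial_index _ _ (by simp), Polynomial.coeff_monomial,
      Polynomial.coeff_monomial]
    split_ifs <;> simp

theorem gsm1_om {G : P σ} {y : σ → ℂ} {i j : ℕ} (hG : G.IsHomogeneous (i + j + 1)) :
    om y x G i = om x y G j := by
  funext s
  exact lp_rev (d := i + j) (hG.pderiv (i := s)) x y rfl

theorem functional (h : Ctx C x φ c k) {z : Fin n → ℂ} (hz : z ∈ lines C x φ) (h0 : z ≠ 0)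
    (θ : P (Fin n) →ₗ[ℂ] ℂ) (hθ : ∀ g, ∀ f ∈ JT C x φ, θ (g * f) = eval z g * θ f) :
    ∃ w, ∀ G ∈ vI C, ∀ j, θ (tay x φ j G) = grad (tay x φ j G) z ⬝ᵥ w := by
  have hc : ∀ G i, (((gsm1_cm θ).comp (gsm1_sb x φ).toLinearMap) G).coeff i =
      θ ((gsm1_sb x φ G).coeff i) := fun G i => gsm1_cm_coeff θ _ i
  obtain ⟨a, ha, hG⟩ := syz h.sm hz (frame_indep h.frame h.ne h0) h.free
    ((gsm1_cm θ).comp (gsm1_sb x φ).toLinearMap)
    (fun g G hG => by
      ext m
      rw [hc, map_mul, Polynomial.coeff_mul, Polynomial.coeff_mul, map_sum]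
      refine Finset.sum_congr rfl fun p _ => ?_
      rw [hθ _ _ (gsm1_mem h.sm.toCn G hG _), hc, ← gsm1_map, Polynomial.coeff_map])
    (fun d G hG hd i hi => by
      rw [hc, gsm1_coeff hd]
      split_ifs with hid
      · rcases (by omega : d - i = 0 ∨ d - i = 1) with e | e
        · rw [e, tay_zero h.mem hG, map_zero]
        · rw [e, tay_one h.frame hG, map_zero]
      · exact map_zero θ)
  obtain ⟨w, s, rfl⟩ := frame_decomp h.frame ha
  refine ⟨w, hom_induction h.sm.toCn.homI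
    (p := fun G => ∀ j, θ (tay x φ j G) = grad (tay x φ j G) z ⬝ᵥ w) ?_ ?_ ?_⟩
  · intro j
    rw [map_zero, map_zero, grad_zero, zero_dotProduct]
  · intro f g hf hg j
    rw [map_add, map_add, grad_add, add_dotProduct, hf, hg]
  · intro f d hf hd j
    rcases lt_or_ge d j with hj | hj
    · rw [tay_high hd hj, map_zero, grad_zero, zero_dotProduct]
    rcases j with _ | j
    · rw [tay_zero h.mem hf, map_zero, grad_zero, zero_dotProduct]
    obtain ⟨i, rfl⟩ : ∃ i, d = i + j + 1 := ⟨d - (j + 1), by omega⟩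
    have e := congrArg (fun p => Polynomial.coeff p i) (hG f hf)
    simp only [hc, om_dot] at e
    rw [gsm1_coeff hd, if_pos (by omega), show i + j + 1 - i = j + 1 by omega, gsm1_om hd,
      dotProduct_add, dotProduct_smul, om_x hz hf, smul_zero, add_zero] at e
    rw [e, grad_tay]

end PartGSm1

section PartGSm

variable {σ : Type} [Fintype σ] {n c k : ℕ} {C : Set (σ → ℂ)} {x : σ → ℂ}
  {φ : (Fin n → ℂ) →ₗ[ℂ] (σ → ℂ)}

theorem gsm_gen (h : Ctx C x φ c k) {z : Fin n → ℂ} (hz : z ∈ lines C x φ) (h0 : z ≠ 0)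
    {κ : Type} (f : κ → P (Fin n)) (hf : ∀ i, ∃ G ∈ vI C, ∃ j, tay x φ j G = f i)
    (hs : NT C x φ z ≤ Submodule.span ℂ (Set.range fun i => grad (f i) z)) :
    JT C x φ ≤ Ideal.span (Set.range f) ⊔ vI {z} * JT C x φ := by
  refine Ideal.span_le.2 ?_
  rintro _ ⟨G, hG, j, rfl⟩
  by_contra hn
  obtain ⟨θ, h1, h2⟩ := Submodule.exists_dual_map_eq_bot_of_notMem
    (p := (Ideal.span (Set.range f) ⊔ vI {z} * JT C x φ).restrictScalars ℂ) hn inferInstance
  have hk : ∀ g ∈ Ideal.span (Set.range f) ⊔ vI {z} * JT C x φ, θ g = 0 := fun g hg => by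
    have : θ g ∈ ((Ideal.span (Set.range f) ⊔ vI {z} * JT C x φ).restrictScalars ℂ).map θ :=
      Submodule.mem_map_of_mem hg
    rwa [h2, Submodule.mem_bot] at this
  obtain ⟨w, hw⟩ := functional h hz h0 θ fun g p hp => by
    have hm : g - MvPolynomial.C (eval z g) ∈ vI {z} := by
      refine mem_van.2 ?_
      rintro _ rfl
      simp
    have := hk _ (Ideal.mem_sup_right (Ideal.mul_mem_mul hm hp))
    rw [sub_mul, map_sub, ← smul_eq_C_mul, map_smul, sub_eq_zero] at this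
    exact this
  apply h1
  rw [hw G hG j]
  refine span_dot.2 ?_ _ (hs (Submodule.subset_span ⟨G, hG, j, rfl⟩))
  rintro _ ⟨i, rfl⟩
  obtain ⟨G', hG', j', e⟩ := hf i
  have := hw G' hG' j'
  rw [e] at this
  exact this.symm.trans (hk _ (Ideal.mem_sup_left (Ideal.subset_span ⟨i, rfl⟩)))

theorem Ctx.nt_rank (h : Ctx C x φ c k) {z : Fin n → ℂ} (hz : z ∈ lines C x φ) (h0 : z ≠ 0) :
    k ≤ finrank ℂ (NT C x φ z) := by
  obtain ⟨b, hb, hsp, hli⟩ :=
    exists_linearIndependent ℂ {v | ∃ G ∈ vI C, ∃ j, grad (tay x φ j G) z = v}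
  have := hli.finite
  have := Fintype.ofFinite b
  choose G hG j hj using fun i : b => hb i.2
  have hr : Set.range (fun i : b => grad (tay x φ (j i) (G i)) z) = b := by
    simp only [hj, Subtype.range_coe]
  have hc : finrank ℂ (NT C x φ z) = Fintype.card b := by
    rw [← finrank_span_eq_card hli, Subtype.range_coe, hsp]
    rfl
  obtain ⟨p, hp, hJ⟩ := nak (gsm_gen h hz h0 (fun i => tay x φ (j i) (G i))
    (fun i => ⟨G i, hG i, j i, rfl⟩) (by rw [hr, hsp]; exact le_rfl))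
  obtain ⟨q, hq, hzq⟩ := exists_min_at (y := z)
    (𝔞 := ⊥ ⊔ Ideal.span (Set.range fun i => tay x φ (j i) (G i))) (by
      rw [bot_sup_eq, mem_vZ_span]
      rintro _ ⟨i, rfl⟩
      exact (mem_lines' h.sm.toCn).1 hz _ (hG i) _)
  have hpr := hq.isPrime
  have hle : vI (lines C x φ) ≤ q := by
    rw [← vI_vZ hpr]
    refine vanishingIdeal_anti_mono fun w hw => (mem_lines' h.sm.toCn).2 fun F hF i => ?_
    refine mem_vZ.1 hw _ ((hpr.mem_or_mem (hq.le (Ideal.mem_sup_right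
      (hJ _ (Ideal.subset_span ⟨F, hF, i, rfl⟩))))).resolve_left fun hh => hp (mem_vZ.1 hzq _ hh))
  have h1 := cut Ideal.isPrime_bot _ hq
  have h2 := dm_anti h.prime hpr hle
  have h3 := h.card'
  rw [dm_bot] at h1
  omega

theorem gsm_le (h : Ctx C x φ c k) (z : Fin n → ℂ) : NT C x φ z ≤ Nm (lines C x φ) z := by
  refine Submodule.span_mono ?_
  rintro _ ⟨G, hG, j, rfl⟩
  exact ⟨_, tay_mem h.sm.toCn hG j, rfl⟩

theorem gsm_rank_le (h : Ctx C x φ c k) {z : Fin n → ℂ} (hz : z ∈ lines C x φ) :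
    finrank ℂ (Nm (lines C x φ) z) ≤ k := by
  have h1 := nm_rank_le h.prime hz
  have h2 := h.card'
  omega

theorem Ctx.nm_eq (h : Ctx C x φ c k) {z : Fin n → ℂ} (hz : z ∈ lines C x φ) (h0 : z ≠ 0) :
    Nm (lines C x φ) z = NT C x φ z :=
  (Submodule.eq_of_le_of_finrank_le (gsm_le h z)
    ((gsm_rank_le h hz).trans (h.nt_rank hz h0))).symm

theorem Ctx.smL (h : Ctx C x φ c k) : Sm (lines C x φ) k :=
  ⟨h.cn, h.card', fun z hz h0 =>
    le_antisymm (gsm_rank_le h hz) (by rw [h.nm_eq hz h0]; exact h.nt_rank hz h0)⟩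

theorem Ctx.w0_rank (h : Ctx C x φ c k) {z : Fin n → ℂ} (hz : z ∈ lines C x φ) (h0 : z ≠ 0) :
    finrank ℂ (W0 C x (φ z)) + k = n + 1 := by
  have h1 : finrank ℂ (NT C x φ z) + finrank ℂ ((W0 C x (φ z)).comap φ) = Fintype.card (Fin n) := by
    refine ann_rank fun v => ?_
    rw [Submodule.mem_comap, mem_W0, NT, span_dot]
    constructor
    · rintro hv _ ⟨G, hG, j, rfl⟩
      cases j with
      | zero => rw [tay_zero h.mem hG, grad_zero, zero_dotProduct]
      | succ j => rw [grad_tay, hv G hG]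
    · intro hv G hG j
      rw [← grad_tay]
      exact hv _ ⟨G, hG, j + 1, rfl⟩
  have h2 : finrank ℂ (NT C x φ z) = k := by
    rw [← h.nm_eq hz h0]
    exact h.smL.rk z hz h0
  have hx : x ∈ W0 C x (φ z) := mem_W0.2 fun G hG j => om_x hz hG j
  have h3 : W0 C x (φ z) = ((W0 C x (φ z)).comap φ).map φ ⊔ ℂ ∙ x := by
    refine le_antisymm (fun a ha => ?_)
      (sup_le (Submodule.map_comap_le _ _) ((Submodule.span_singleton_le_iff_mem _ _).2 hx))
    have ht : a ∈ tangent C x := by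
      have := (Submodule.mem_iInf _).1 ha 0
      rwa [zero_smul, add_zero] at this
    obtain ⟨w, s, rfl⟩ := frame_decomp h.frame ht
    refine Submodule.add_mem_sup (Submodule.mem_map_of_mem ?_)
      (Submodule.smul_mem _ _ (Submodule.mem_span_singleton_self x))
    exact (Submodule.add_mem_iff_left _ (Submodule.smul_mem _ s hx)).1 ha
  have h4 := Submodule.finrank_sup_add_finrank_inf_eq (((W0 C x (φ z)).comap φ).map φ) (ℂ ∙ x)
  rw [← h3, finrank_span_singleton h.ne, (h.frame.2.1.mono_left LinearMap.map_le_range).eq_bot,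
    finrank_bot, ← (Submodule.equivMapOfInjective φ h.frame.1 _).finrank_eq] at h4
  rw [Fintype.card_fin] at h1
  omega

end PartGSm

section PartGRaise

variable {σ : Type} [Fintype σ] {n c k : ℕ} {C : Set (σ → ℂ)} {x : σ → ℂ}
  {φ : (Fin n → ℂ) →ₗ[ℂ] (σ → ℂ)}

section lin
variable {V : Type} [AddCommGroup V] [Module ℂ V]

theorem graise_sum (b : Fin c → ℕ) (f : Fin c → ℕ → V) :
    ∑ m : MuT b, f m.1 m.2 = ∑ i, ∑ j ∈ Finset.range (b i - 1), f i j := by
  rw [Fintype.sum_sigma]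
  exact Finset.sum_congr rfl fun i _ => Fin.sum_univ_eq_sum_range (f i) _

theorem graise_iff (b : Fin c → ℕ) (w : Fin c → ℕ → V) :
    (LinearIndependent ℂ fun m : MuT b => w m.1 m.2) ↔ ∀ μ : Fin c → ℕ → ℂ,
      ∑ i, ∑ j ∈ Finset.range (b i - 1), μ i j • w i j = 0 → ∀ i j, j < b i - 1 → μ i j = 0 := by
  rw [Fintype.linearIndependent_iff]
  refine ⟨fun h μ e i j hj => h (fun m => μ m.1 m.2)
    ((graise_sum b fun i j => μ i j • w i j).trans e) ⟨i, j, hj⟩, fun h g e m => ?_⟩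
  have := h (fun i j => if hj : j < b i - 1 then g ⟨i, j, hj⟩ else 0) (by
    rw [← graise_sum b fun i j => (if hj : j < b i - 1 then g ⟨i, j, hj⟩ else 0) • w i j, ← e]
    exact Finset.sum_congr rfl fun m _ => by rw [dif_pos m.2.2]) m.1 m.2 m.2.2
  rwa [dif_pos m.2.2] at this

theorem graise_upd {v : Fin c → V} (hv : LinearIndependent ℂ v) (l : Fin c → ℂ) {i₀ : Fin c}
    (h0 : l i₀ ≠ 0) : LinearIndependent ℂ (Function.update v i₀ (∑ i, l i • v i)) := by
  rw [Fintype.linearIndependent_iff] at hv ⊢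
  intro g e
  have h := hv (fun i => Function.update g i₀ 0 i + g i₀ * l i) (by
    simp only [add_smul, Finset.sum_add_distrib, mul_smul, ← Finset.smul_sum]
    rw [← e, ← Finset.add_sum_erase _ _ (Finset.mem_univ i₀),
      ← Finset.add_sum_erase _ (fun i => g i • _) (Finset.mem_univ i₀), Function.update_self,
      Function.update_self, zero_smul, zero_add, add_comm]
    exact congrArg _ (Finset.sum_congr rfl fun i hi => by
      simp only [Function.update_of_ne (Finset.ne_of_mem_erase hi)]))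
  have h1 : g i₀ = 0 := by simpa [h0] using h i₀
  intro i
  by_cases hi : i = i₀
  · rw [hi, h1]
  · simpa [h1, Function.update_of_ne hi] using h i

theorem graise_step {b : Fin c → ℕ} {w : Fin c → ℕ → V} {l : Fin c → ℂ} {β : ℕ}
    (hl : ∀ i, b i ≠ β + 1 → l i = 0) {i₀ : Fin c} (h0 : l i₀ ≠ 0)
    (hw : LinearIndependent ℂ fun m : MuT b => w m.1 m.2)
    (hT : ∑ i, l i • w i β ∉ Submodule.span ℂ (Set.range fun m : MuT b => w m.1 m.2)) :
    LinearIndependent ℂ fun m : MuT (Function.update b i₀ (β + 1 + 1)) =>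
      Function.update w i₀ (fun j => ∑ i, l i • w i j) m.1 m.2 := by
  have hb : b i₀ = β + 1 := by_contra fun h => h0 (hl _ h)
  rw [graise_iff] at hw ⊢
  intro μ e
  have k : ∑ i, ∑ j ∈ Finset.range (b i - 1), (Function.update μ i₀ 0 i j + μ i₀ j * l i) • w i j +
      μ i₀ β • ∑ i, l i • w i β = 0 := by
    simp only [add_smul, Finset.sum_add_distrib, mul_smul]
    rw [← e, ← Finset.add_sum_erase _ _ (Finset.mem_univ i₀), ← Finset.add_sum_erase _
      (fun i => ∑ j ∈ Finset.range (Function.update b i₀ (β + 1 + 1) i - 1), _)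
      (Finset.mem_univ i₀)]
    simp only [Function.update_self, Pi.zero_apply, zero_smul, Finset.sum_const_zero, zero_add,
      Nat.add_sub_cancel, Finset.sum_range_succ]
    rw [add_assoc, add_comm]
    congr 1
    · congr 1
      simp only [Finset.smul_sum]
      rw [Finset.sum_comm]
      refine Finset.sum_congr rfl fun i _ => ?_
      by_cases h : b i = β + 1
      · rw [h, Nat.add_sub_cancel]
      · simp [hl i h]
    · exact Finset.sum_congr rfl fun i hi => by
        simp only [Function.update_of_ne (Finset.ne_of_mem_erase hi)]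
  have top : μ i₀ β = 0 := by_contra fun h => hT (by
    rw [← Submodule.smul_mem_iff _ h, ← neg_eq_of_add_eq_zero_right k, neg_mem_iff, ← graise_sum b
      fun i j => (Function.update μ i₀ 0 i j + μ i₀ j * l i) • w i j]
    exact Submodule.sum_mem _ fun m _ => Submodule.smul_mem _ _ (Submodule.subset_span ⟨m, rfl⟩))
  rw [top, zero_smul, add_zero] at k
  have h := hw _ k
  have h1 : ∀ j < β, μ i₀ j = 0 := fun j hj => by simpa [h0] using h i₀ j (by omega)
  intro i j hj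
  by_cases hi : i = i₀
  · rw [hi, Function.update_self] at hj
    rw [hi]
    exact (Nat.lt_succ_iff_lt_or_eq.1 hj).elim (h1 j) fun e => e ▸ top
  rw [Function.update_of_ne hi] at hj
  have h2 := h i j hj
  by_cases h3 : b i = β + 1
  · simpa [h1 j (by omega), Function.update_of_ne hi] using h2
  · simpa [hl i h3, Function.update_of_ne hi] using h2

end lin

theorem graise_ind (hne : ∃ z ∈ lines C x φ, z ≠ 0) (β N : ℕ) : ∀ (b : Fin c → ℕ)
    (G : Fin c → P σ), (Finset.univ.filter fun i => b i = β + 1).card < N → Bas C x G →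
    Indep C x φ b G → ∃ (b' : Fin c → ℕ) (G' : Fin c → P σ), Bas C x G' ∧
      (∀ i, b i ≠ β + 1 → b' i = b i) ∧ (∀ i, b i = β + 1 → b' i = β + 1 ∨ b' i = β + 1 + 1) ∧
      Indep C x φ b' G' ∧ Hmax C x φ b' G' (β + 1) := by
  induction N with
  | zero => exact fun _ _ h => absurd h (Nat.not_lt_zero _)
  | succ N ih =>
    intro b G hN hG hI
    by_cases hm : Hmax C x φ b G (β + 1)
    · exact ⟨b, G, hG, fun _ _ => rfl, fun _ h => Or.inl h, hI, hm⟩
    simp only [Hmax, not_forall, not_exists, not_and] at hm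
    obtain ⟨l, hl, hT⟩ := hm
    obtain ⟨i₀, h0⟩ : ∃ i, l i ≠ 0 := by_contra fun h => by
      obtain ⟨z, hz, hz0⟩ := hne
      simp only [not_exists, not_not] at h
      exact hT z hz hz0 (by simp [h, grad_zero])
    have hb : b i₀ = β + 1 := by_contra fun h => h0 (hl _ h)
    have lin : ∀ (L : P σ →ₗ[ℂ] P (Fin n)) z, grad (L (∑ i, l i • G i)) z =
        ∑ i, l i • grad (L (G i)) z := fun L z => by
      simp only [map_sum, map_smul, grad_sum, grad_smul]
    obtain ⟨b', G', h1, h2, h3, h4⟩ := ih (Function.update b i₀ (β + 1 + 1))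
      (Function.update G i₀ (∑ i, l i • G i)) (Nat.lt_of_lt_of_le (Finset.card_lt_card ⟨fun i hi => by
        by_cases h : i = i₀
        · simp [h] at hi
        · simpa [Function.update_of_ne h] using hi, fun h => by
        simpa using h (show i₀ ∈ _ by simp [hb])⟩) (Nat.lt_succ_iff.1 hN))
      ⟨fun i => by
        by_cases h : i = i₀
        · rw [h, Function.update_self]
          exact Submodule.sum_mem _ fun i _ => Submodule.smul_of_tower_mem _ _ (hG.1 i)
        · rw [Function.update_of_ne h]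
          exact hG.1 i, by
        have e := graise_upd hG.2 l h0
        simp only [← grad_smul, ← grad_sum] at e
        exact ((Function.comp_update (fun g => grad g x) G i₀ _).symm ▸ e :)⟩ fun z hz hz0 => by
        have e := graise_step (w := fun i j => grad (tay x φ (j + 2) (G i)) z) hl h0 (hI z hz hz0)
          (lin _ z ▸ hT z hz hz0)
        have e' := Function.comp_update (fun g j => grad (tay x φ (j + 2) g) z) G i₀ (∑ i, l i • G i)
        simp only [lin] at e'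
        exact (e'.symm ▸ e :)
    refine ⟨b', G', h1, fun i hi => ?_, fun i hi => ?_, h4⟩
    · have h : i ≠ i₀ := fun h => hi (h ▸ hb)
      simpa [Function.update_of_ne h] using h2 i (by rwa [Function.update_of_ne h])
    · by_cases h : i = i₀
      · exact Or.inr (by simpa [h] using h2 i (by simp [h]))
      · exact h3 i (by rwa [Function.update_of_ne h])

theorem raise (hne : ∃ z ∈ lines C x φ, z ≠ 0) {β : ℕ} (hβ : 2 ≤ β) {b : Fin c → ℕ}
    {G : Fin c → P σ} (hG : Bas C x G) (hb : ∀ i, b i ≤ β + 1) (hI' : Indep C x φ b G) :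
    ∃ (b' : Fin c → ℕ) (G' : Fin c → P σ), Bas C x G' ∧ (∀ i, b i ≠ β → b' i = b i) ∧
      (∀ i, b i = β → b' i = β ∨ b' i = β + 1) ∧ Indep C x φ b' G' ∧ Hmax C x φ b' G' β := by
  obtain ⟨β, rfl⟩ : ∃ γ, β = γ + 1 := ⟨β - 1, by omega⟩
  exact graise_ind hne β _ b G (Nat.lt_succ_self _) hG hI'

end PartGRaise

section PartAQuad0

variable {τ : Type} [Fintype τ] {Z : Set (τ → ℂ)} {k : ℕ} {Q : P τ}

theorem exists_polar (hQ : Q.IsHomogeneous 2) : ∃ B : (τ → ℂ) →ₗ[ℂ] (τ → ℂ),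
    (∀ v, B v = grad Q v) ∧ (∀ v w, B v ⬝ᵥ w = B w ⬝ᵥ v) ∧ ∀ v, B v ⬝ᵥ v = 2 * eval v Q := by
  have hom : ∀ v, om 0 v Q 1 = grad Q v := fun v => om_top (d := 1) hQ 0 v
  have hB : ∀ v, Matrix.mulVecLin (Matrix.of fun s t => grad (pderiv s Q) 0 t) v = grad Q v := by
    intro v
    rw [← hom]
    funext s
    exact (lp_coeff_one 0 v (pderiv s Q)).symm
  refine ⟨_, hB, fun v w => ?_, fun v => ?_⟩
  · rw [hB, hB, ← hom, ← hom, om_symm]
  · rw [hB, euler hQ]
    norm_num

theorem aquad0_coeff (p q : Polynomial ℂ) : (p * q).coeff 2 =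
    p.coeff 0 * q.coeff 2 + p.coeff 1 * q.coeff 1 + p.coeff 2 * q.coeff 0 := by
  rw [Polynomial.coeff_mul, Finset.Nat.sum_antidiagonal_eq_sum_range_succ_mk]
  simp [Finset.sum_range_succ]

theorem quad_tangent (hZ : Sm Z k) (hQ : Q.IsHomogeneous 2) (hI' : Q ∈ vI Z) {z : τ → ℂ}
    (hz : z ∈ Z) (h0 : z ≠ 0) (hs : grad Q z = 0) : ∀ v ∈ tangent Z z, eval v Q = 0 := by
  intro v hv
  obtain ⟨f, hf⟩ := exists_bas hZ hz h0
  obtain ⟨h, hh, hm⟩ := hZ.loc hz hf
  obtain ⟨a, ha⟩ := (Submodule.mem_span_range_iff_exists_fun _).1 (hm Q hI')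
  simp only [smul_eq_mul] at ha
  have hQ0 : eval z Q = 0 := mem_van.1 hI' z hz
  have hf0 : ∀ i, eval z (f i) = 0 := fun i => mem_van.1 (hf.1 i) z hz
  have ha0 : ∀ i, eval z (a i) = 0 := by
    have h1 := congrArg (fun g => grad g z) ha
    simp only [grad_sum, grad_mul, hf0, hQ0, hs, zero_smul, smul_zero, add_zero] at h1
    exact Fintype.linearIndependent_iff.1 hf.2 _ h1
  have h2 := congrArg (fun g => (lp z v g).coeff 2) ha
  have hQ2 : (lp z v Q).coeff 2 = eval v Q := by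
    rw [lp_rev hQ v z (i := 2) (j := 0) rfl, lp_coeff_zero]
  simp only [map_sum, map_mul, Polynomial.finsetSum_coeff, aquad0_coeff, lp_coeff_zero,
    lp_coeff_one, ha0, hf0, hQ0, hs, hQ2, fun i => mem_tangent.1 hv _ (hf.1 i), zero_dotProduct,
    zero_mul, mul_zero, add_zero, Finset.sum_const_zero] at h2
  exact (mul_eq_zero.1 h2.symm).resolve_left hh

theorem quad_rank (hZ : Sm Z k) (hQ : Q.IsHomogeneous 2) (hI' : Q ∈ vI Z) {z : τ → ℂ}
    (hz : z ∈ Z) (h0 : z ≠ 0) (hs : grad Q z = 0) {B : (τ → ℂ) →ₗ[ℂ] (τ → ℂ)}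
    (hB : ∀ v, B v = grad Q v) : Fintype.card τ ≤ finrank ℂ (LinearMap.ker B) + 2 * k := by
  obtain ⟨B', h1, h2, h3⟩ := exists_polar hQ
  obtain rfl : B = B' := LinearMap.ext fun v => by rw [hB, h1]
  have ht := quad_tangent hZ hQ hI' hz h0 hs
  have hr : LinearMap.range (B.domRestrict (tangent Z z)) ≤ Nm Z z := by
    rintro _ ⟨⟨v, hv⟩, rfl⟩
    refine nm_iff.2 fun w hw => ?_
    have e1 := h3 (v + w)
    rw [ht _ (Submodule.add_mem _ hv hw), map_add, add_dotProduct, dotProduct_add, dotProduct_add,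
      h3, h3, ht v hv, ht w hw, h2 w v] at e1
    change B v ⬝ᵥ w = 0
    linear_combination e1 / 2
  have e1 := Submodule.finrank_mono hr
  have e2 := LinearMap.finrank_range_add_finrank_ker (B.domRestrict (tangent Z z))
  have e3 := dual_rank Z z
  have e4 := hZ.rk z hz h0
  have e5 : finrank ℂ (LinearMap.ker (B.domRestrict (tangent Z z))) ≤
      finrank ℂ (LinearMap.ker B) := by
    rw [← Submodule.finrank_map_subtype_eq]
    refine Submodule.finrank_mono ?_
    rintro _ ⟨v, hv, rfl⟩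
    exact hv
  omega

end PartAQuad0

section PartACod0

variable {σ : Type} [Fintype σ] {n : ℕ} {C : Set (σ → ℂ)} {x : σ → ℂ} {K : Subfield ℂ}
  {φ : (Fin n → ℂ) →ₗ[ℂ] (σ → ℂ)} {m : ℕ} {G : Fin m → P σ}

theorem der_grad (hG : ∀ i, Ov K (G i)) (D : Derivation K ℂ ℂ) (l : Fin m → ℂ) (v : σ → ℂ) :
    (fun s => D (grad (∑ i, l i • G i) x s)) ⬝ᵥ v =
      grad (∑ i, D (l i) • G i) x ⬝ᵥ v + om x (fun s => D (x s)) (∑ i, l i • G i) 1 ⬝ᵥ v := by
  rw [← add_dotProduct]
  congr 1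
  funext s
  have h1 : ∀ i, D (grad (G i) x s) = om x (fun s => D (x s)) (G i) 1 s := fun i => by
    have := der_eval D ((hG i).pderiv s) x
    rw [← lp_coeff_one] at this
    exact this
  simp only [grad_sum, grad_smul, om_sum, om_smul, Finset.sum_apply, Pi.smul_apply, Pi.add_apply,
    smul_eq_mul, map_sum, Derivation.leibniz, h1, ← Finset.sum_add_distrib]
  exact Finset.sum_congr rfl fun i _ => by ring

theorem acod0_mem (hI' : vI C = Ideal.span (Set.range G)) (l : Fin m → ℂ) :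
    ∑ i, l i • G i ∈ vI C := by
  refine Ideal.sum_mem _ fun i _ => ?_
  rw [hI', smul_eq_C_mul]
  exact Ideal.mul_mem_left _ _ (Ideal.subset_span ⟨i, rfl⟩)

theorem der_tangent (hx : x ∈ C) (hI' : vI C = Ideal.span (Set.range G)) (hG : ∀ i, Ov K (G i))
    (D : Derivation K ℂ ℂ) : (fun s => D (x s)) ∈ tangent C x := by
  rw [mem_tangent_nm, nm_gens hI' hx, span_dot]
  rintro _ ⟨i, rfl⟩
  have h0 : G i ∈ vI C := by
    rw [hI']
    exact Ideal.subset_span ⟨i, rfl⟩
  rw [← der_eval D (hG i) x, mem_van.1 h0 x hx, map_zero]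

theorem acod0_key (hI' : vI C = Ideal.span (Set.range G)) (hG : ∀ i, Ov K (G i))
    (D : Derivation K ℂ ℂ) (l : Fin m → ℂ) {v : σ → ℂ} (hv : v ∈ tangent C x) :
    (fun s => D (grad (∑ i, l i • G i) x s)) ⬝ᵥ v =
      om x (fun s => D (x s)) (∑ i, l i • G i) 1 ⬝ᵥ v := by
  rw [der_grad hG, mem_tangent.1 hv _ (acod0_mem hI' _), zero_add]

theorem acod0_x (hC : Cn C) (hx : x ∈ C) (hI' : vI C = Ideal.span (Set.range G))
    (hG : ∀ i, Ov K (G i)) (D : Derivation K ℂ ℂ) {β : σ → ℂ} (hβ : β ∈ Nm C x) :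
    (fun s => D (β s)) ⬝ᵥ x = 0 := by
  have h := der_dot D β x
  rw [nm_iff.1 hβ x (self_mem_tangent hC hx), map_zero,
    nm_iff.1 hβ _ (der_tangent hx hI' hG D), add_zero] at h
  exact h.symm

theorem acod0_om_x (hC : Cn C) (hx : Gnr K C x) (hI' : vI C = Ideal.span (Set.range G))
    (hG : ∀ i, Ov K (G i)) (l : Fin m → ℂ) {a : σ → ℂ} (ha : a ∈ tangent C x) :
    om x a (∑ i, l i • G i) 1 ⬝ᵥ x = 0 := by
  obtain ⟨D, hD⟩ := der hx ha
  have h1 : (fun s => D (x s)) = a := funext hD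
  rw [← h1, ← acod0_key hI' hG D l (self_mem_tangent hC hx.1)]
  exact acod0_x hC hx.1 hI' hG D (grad_mem_nm (acod0_mem hI' l) x)

theorem acod0_rep (hx : x ∈ C) (hI' : vI C = Ideal.span (Set.range G)) {β : σ → ℂ}
    (hβ : β ∈ Nm C x) : ∃ l : Fin m → ℂ, grad (∑ i, l i • G i) x = β := by
  rw [nm_gens hI' hx, Submodule.mem_span_range_iff_exists_fun] at hβ
  obtain ⟨l, hl⟩ := hβ
  exact ⟨l, by simp only [grad_sum, grad_smul, hl]⟩

theorem a2_of_tay (hC : Cn C) (hx : Gnr K C x) (hI' : vI C = Ideal.span (Set.range G))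
    (hG : ∀ i, Ov K (G i)) (hf : IsFrame C x φ) (l : Fin m → ℂ)
    (h : tay x φ 2 (∑ i, l i • G i) = 0) (D : Derivation K ℂ ℂ) :
    (fun s => D (grad (∑ i, l i • G i) x s)) ∈ Nm C x := by
  rw [nm_iff]
  intro v hv
  rw [acod0_key hI' hG D l hv]
  have ha := der_tangent hx.1 hI' hG D
  obtain ⟨w', s', rfl⟩ := frame_decomp hf hv
  rw [dotProduct_add, dotProduct_smul, acod0_om_x hC hx hI' hG l ha, smul_zero, add_zero, om_symm]
  obtain ⟨w, s, hw⟩ := frame_decomp hf ha
  rw [hw, dotProduct_add, dotProduct_smul, acod0_om_x hC hx hI' hG l (frame_mem hf w'), smul_zero,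
    add_zero, ← grad_tay, h, grad_zero, zero_dotProduct]

theorem a2_stable (hC : Cn C) (hx : Gnr K C x) (hI' : vI C = Ideal.span (Set.range G))
    (hG : ∀ i, Ov K (G i)) (hf : IsFrame C x φ) (hs : Submodule.span ℂ (lines C x φ) = ⊤)
    (hn : ∀ F ∈ vI C, ∀ z ∈ lines C x φ, z ≠ 0 → grad (tay x φ 2 F) z = 0 → tay x φ 2 F = 0)
    {α : σ → ℂ} (h1 : α ∈ Nm C x) (h2 : ∀ D : Derivation K ℂ ℂ, (fun s => D (α s)) ∈ Nm C x)
    (D D' : Derivation K ℂ ℂ) : (fun s => D' (D (α s))) ∈ Nm C x := by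
  have ht := fun E : Derivation K ℂ ℂ => der_tangent hx.1 hI' hG E
  have s12 : ∀ (D1 D2 : Derivation K ℂ ℂ) (v : σ → ℂ), v ∈ tangent C x →
      (fun s => D1 (D2 (α s))) ⬝ᵥ v = (fun s => D2 (D1 (α s))) ⬝ᵥ v := by
    intro D1 D2 v hv
    have h := nm_iff.1 (h2 ⁅D1, D2⁆) v hv
    rw [← sub_eq_zero, ← sub_dotProduct, ← h]
    congr 1
  choose L hL using fun E : Derivation K ℂ ℂ => acod0_rep hx.1 hI' (h2 E)
  have key : ∀ (D1 D2 : Derivation K ℂ ℂ) (v : σ → ℂ), v ∈ tangent C x →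
      (fun s => D1 (D2 (α s))) ⬝ᵥ v =
        om x (fun s => D1 (x s)) (∑ i, L D2 i • G i) 1 ⬝ᵥ v := by
    intro D1 D2 v hv
    rw [← acod0_key hI' hG D1 _ hv, hL]
  have s13 : ∀ D1 D2 D3 : Derivation K ℂ ℂ,
      ((fun s => D1 (D2 (α s))) ⬝ᵥ fun s => D3 (x s)) =
        (fun s => D3 (D2 (α s))) ⬝ᵥ fun s => D1 (x s) := by
    intro D1 D2 D3
    rw [key _ _ _ (ht D3), key _ _ _ (ht D1), om_symm]
  choose E hE using fun w => der hx (frame_mem hf w)
  have hE' : ∀ w, (fun s => E w (x s)) = φ w := fun w => funext (hE w)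
  rw [nm_iff]
  refine frame_kill hf (acod0_x hC hx.1 hI' hG D' (h2 D)) fun w => ?_
  have hw : w ∈ Submodule.span ℂ (lines C x φ) := by
    rw [hs]
    trivial
  induction hw using Submodule.span_induction with
  | zero => rw [map_zero, dotProduct_zero]
  | add a b _ _ ha hb => rw [map_add, dotProduct_add, ha, hb, add_zero]
  | smul c a _ ha => rw [map_smul, dotProduct_smul, ha, smul_zero]
  | mem z hz =>
    by_cases h0 : z = 0
    · rw [h0, map_zero, dotProduct_zero]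
    have hg : grad (tay x φ 2 (∑ i, L (E z) i • G i)) z = 0 := by
      refine dotProduct_eq_zero _ fun w => ?_
      have e1 := grad_tay (x := x) (φ := φ) z w 1 (∑ i, L (E z) i • G i)
      have e2 := grad_tay (x := x) (φ := φ) z z 1 (∑ i, L (E w) i • G i)
      have e3 := euler (tay_hom (x := x) (φ := φ) 2 (∑ i, L (E w) i • G i)) z
      rw [mem_van.1 (tay_mem hC (acod0_mem hI' (L (E w))) 2) z hz, mul_zero] at e3
      have e4 := key (E z) (E z) _ (frame_mem hf w)
      have e5 := key (E z) (E w) _ (frame_mem hf z)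
      have e6 := s13 (E z) (E z) (E w)
      have e7 := s12 (E w) (E z) _ (frame_mem hf z)
      rw [hE'] at e4 e5
      rw [hE', hE'] at e6
      exact e1.trans (e4.symm.trans (e6.trans (e7.trans (e5.trans (e2.symm.trans e3)))))
    have h3 := a2_of_tay hC hx hI' hG hf _ (hn _ (acod0_mem hI' _) z hz h0 hg) D
    rw [hL] at h3
    rw [← hE' z, s13, s12 _ _ _ (ht D')]
    exact nm_iff.1 h3 _ (ht D')

end PartACod0

section PartACod

variable {σ : Type} [Fintype σ] {n c k : ℕ} {C : Set (σ → ℂ)}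

theorem acod_rank {U V W : Type} [AddCommGroup U] [Module ℂ U] [AddCommGroup V] [Module ℂ V]
    [AddCommGroup W] [Module ℂ W] [Module.Finite ℂ U] (f : U →ₗ[ℂ] V) (g : U →ₗ[ℂ] W)
    (h : LinearMap.ker g ≤ LinearMap.ker f) :
    finrank ℂ (LinearMap.range f) ≤ finrank ℂ (LinearMap.range g) := by
  have h1 := f.finrank_range_add_finrank_ker
  have h2 := g.finrank_range_add_finrank_ker
  have h3 := Submodule.finrank_mono h
  omega

/-- conormal vectors all of whose derivatives are conormal -/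
def acod_A (K : Subfield ℂ) (N : Submodule ℂ (σ → ℂ)) : Submodule ℂ (σ → ℂ) where
  carrier := {α | α ∈ N ∧ ∀ D : Derivation K ℂ ℂ, (fun s => D (α s)) ∈ N}
  zero_mem' := ⟨N.zero_mem, fun D => by
    have : (fun s : σ => D ((0 : σ → ℂ) s)) = 0 := by ext s; simp
    rw [this]; exact N.zero_mem⟩
  add_mem' := fun {a b} ha hb => ⟨N.add_mem ha.1 hb.1, fun D => by
    have : (fun s => D ((a + b) s)) = (fun s => D (a s)) + fun s => D (b s) := by ext s; simp
    rw [this]; exact N.add_mem (ha.2 D) (hb.2 D)⟩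
  smul_mem' := fun u a ha => ⟨N.smul_mem u ha.1, fun D => by
    have : (fun s => D ((u • a) s)) = u • (fun s => D (a s)) + D u • a := by
      ext s; simp [mul_comm]
    rw [this]; exact N.add_mem (N.smul_mem u (ha.2 D)) (N.smul_mem _ ha.1)⟩

theorem cod_le (hC : Sm C c) (hs : Submodule.span ℂ C = ⊤)
    (hg : General C fun x => ∃ φ : (Fin n → ℂ) →ₗ[ℂ] (σ → ℂ), IsFrame C x φ ∧
      Submodule.span ℂ (lines C x φ) = ⊤ ∧
      (∃ z ∈ lines C x φ, z ≠ 0 ∧ finrank ℂ (Nm (lines C x φ) z) ≤ k) ∧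
      ∀ F ∈ vI C, ∀ z ∈ lines C x φ, z ≠ 0 → grad (tay x φ 2 F) z = 0 → tay x φ 2 F = 0) :
    c ≤ k := by
  classical
  obtain ⟨h, hh, hg⟩ := hg
  have hC' : Cn C := hC.toCn
  obtain ⟨m, G, d, -, hI⟩ := exists_hom_gens hC'.homI
  obtain ⟨K, hK, hK', hov⟩ := exists_field (S := insert h (Set.range G))
    ((Set.finite_range G).insert h)
  obtain ⟨x, -, hx⟩ := gen_gnr K hK hC'.prime (id : σ → σ) (C := C)
    (fun f hf => by simpa [Ideal.mem_comap] using hf)
    (fun y hy => by rw [hC'.closed] at hy; exact hy)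
  rw [Function.comp_id] at hx
  have hG : ∀ i, Ov K (G i) := fun i => hov _ (Set.mem_insert_of_mem _ ⟨i, rfl⟩)
  have hx0 : x ≠ 0 := by
    obtain ⟨j, hj⟩ := hC'.exists_X
    rintro rfl
    exact hj (hx.2 _ (ov_X K j) (by simp))
  obtain ⟨φ, hf, hs', ⟨z, hz, hz0, hk⟩, hn⟩ :=
    hg x hx.1 (fun h0 => hh (hx.2 h (hov _ (Set.mem_insert _ _)) h0)) hx0
  have hA : acod_A K (Nm C x) = ⊥ := by
    by_contra hne
    obtain ⟨α, hα, h0, hαK⟩ := min_support hK' (A := acod_A K (Nm C x))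
      (fun D α hα => ⟨hα.2 D, fun D' => a2_stable hC' hx hI hG hf hs' hn hα.1 hα.2 D D'⟩) hne
    have h1 : α ⬝ᵥ x = 0 := mem_tangent_nm.1 (self_mem_tangent hC' hx.1) α hα.1
    have h2 := hx.2 _ (ov_lin hαK) (by simpa [dotProduct] using h1)
    obtain ⟨p, hp, h3⟩ := exists_dot_ne hs h0
    exact h3 (by simpa [dotProduct] using mem_van.1 h2 p hp)
  have hmem : ∀ l : Fin m → ℂ, ∑ i, l i • G i ∈ vI C := fun l =>
    Submodule.sum_mem _ fun i _ => by
      rw [smul_eq_C_mul, hI]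
      exact Ideal.mul_mem_left _ _ (Ideal.subset_span ⟨i, rfl⟩)
  let S : (Fin m → ℂ) →ₗ[ℂ] P σ := Fintype.linearCombination ℂ G
  have hS : ∀ l, S l = ∑ i, l i • G i := fun l => Fintype.linearCombination_apply _ _ _
  have h1 : Nm C x ≤ LinearMap.range (gradL x ∘ₗ S) := by
    rw [nm_gens hI hx.1, Submodule.span_le]
    rintro _ ⟨i, rfl⟩
    exact ⟨Pi.single i 1, by simp [S, gradL_apply]⟩
  have h2 : LinearMap.range (gradL z ∘ₗ tay x φ 2 ∘ₗ S) ≤ Nm (lines C x φ) z := by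
    rintro _ ⟨l, rfl⟩
    simp only [LinearMap.comp_apply, gradL_apply, hS]
    exact grad_mem_nm (tay_mem hC' (hmem l) 2) z
  have h3 := acod_rank (gradL x ∘ₗ S) (gradL z ∘ₗ tay x φ 2 ∘ₗ S) fun l hl => by
    simp only [LinearMap.mem_ker, LinearMap.comp_apply, gradL_apply, hS] at hl ⊢
    have : grad (∑ i, l i • G i) x ∈ acod_A K (Nm C x) :=
      ⟨grad_mem_nm (hmem l) x, a2_of_tay hC' hx hI hG hf l (hn _ (hmem l) z hz hz0 hl)⟩
    rwa [hA, Submodule.mem_bot] at this
  have h4 := Submodule.finrank_mono h1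
  have h5 := Submodule.finrank_mono h2
  rw [hC.rk x hx.1 hx0] at h4
  omega

end PartACod

end Pool.Agent.MP_429080_ag.H26
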