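import Pool.Agent.MP_429080_ag.CI.Grade

namespace Pool.Agent.MP_429080_ag.H26

open MvPolynomial Filter Module Pool.Agent.EGH Pool.Agent.MP_d171e3_nt

set_option linter.unusedSectionVars false

section PartGKd

variable {σ : Type} [Fintype σ] {C : Set (σ → ℂ)} {n c : ℕ}

theorem gkd_le {𝔭 : Ideal (P σ)} (hp : 𝔭.IsPrime) : ringKrullDim (P σ ⧸ 𝔭) ≤ (dm 𝔭 : ℕ) := by
  obtain ⟨s, h, hinj, hint⟩ := exists_integral_inj_algHom_of_fg ℂ (P σ ⧸ 𝔭)
  have h1 : ringKrullDim (P σ ⧸ 𝔭) ≤ ringKrullDim (MvPolynomial (Fin s) ℂ) := by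
    let := h.toRingHom.toAlgebra
    have : Algebra.IsIntegral (MvPolynomial (Fin s) ℂ) (P σ ⧸ 𝔭) := ⟨hint⟩
    refine Order.krullDim_le_of_strictMono
      (PrimeSpectrum.comap (algebraMap (MvPolynomial (Fin s) ℂ) (P σ ⧸ 𝔭))) fun p q hpq => ?_
    exact Ideal.IsIntegral.comap_lt_comap (R := MvPolynomial (Fin s) ℂ) (I := p.asIdeal)
      (J := q.asIdeal) hpq
  have h2 : AlgebraicIndependent ℂ fun i => h (X i) := by
    rw [algebraicIndependent_iff_injective_aeval]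
    rwa [aeval_unique h] at hinj
  have h3 := card_le_dm h2
  rw [dim_poly] at h1
  refine h1.trans ?_
  simpa using h3

theorem gkd_ge (d : ℕ) : ∀ 𝔭 : Ideal (P σ), 𝔭.IsPrime → d ≤ dm 𝔭 →
    (d : WithBot ℕ∞) ≤ ringKrullDim (P σ ⧸ 𝔭) := by
  induction d with
  | zero => exact fun 𝔭 hp _ => ringKrullDim_nonneg_of_nontrivial
  | succ d ih =>
    intro 𝔭 hp hd
    obtain ⟨y, hy, -⟩ := exists_ne_pt hp (by omega) 0
    have hle := mem_vZ_iff_le.1 hy
    have hne : 𝔭 ≠ vI {y} := fun h => by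
      rw [h, dm_pt] at hd
      omega
    obtain ⟨g, hg, hg'⟩ := SetLike.exists_of_lt (lt_of_le_of_ne hle hne)
    obtain ⟨𝔮, hq, -⟩ := exists_min_at (𝔞 := 𝔭 ⊔ Ideal.span {g}) (y := y)
      (mem_vZ_iff_le.2 (sup_le hle ((Ideal.span_singleton_le_iff_mem _).2 hg)))
    have h1 := dm_le_succ hq
    have h2 : 𝔭 ≤ 𝔮 := le_sup_left.trans hq.le
    have h3 := ringKrullDim_succ_le_of_surjective (Ideal.Quotient.factor h2)
      (Ideal.Quotient.factor_surjective h2) (r := Ideal.Quotient.mk 𝔭 g)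
      (mem_nonZeroDivisors_of_ne_zero (by rwa [Ne, Ideal.Quotient.eq_zero_iff_mem]))
      (Ideal.Quotient.eq_zero_iff_mem.2
        (hq.le (Ideal.mem_sup_right (Ideal.mem_span_singleton_self g))))
    refine le_trans ?_ h3
    push_cast
    gcongr
    exact ih 𝔮 hq.isPrime (by omega)

theorem kd {S : Set (σ → ℂ)} (hp : (vI S).IsPrime) : affDim S = (dm (vI S) : ℕ) :=
  le_antisymm (gkd_le hp) (gkd_ge _ _ hp le_rfl)

theorem ann_rank {S T : Submodule ℂ (σ → ℂ)} (h : ∀ v, v ∈ T ↔ ∀ α ∈ S, α ⬝ᵥ v = 0) :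
    finrank ℂ S + finrank ℂ T = Fintype.card σ := by
  classical
  have e : T = (S.map (dotProductEquiv ℂ σ).toLinearMap).dualCoannihilator := by
    ext v
    rw [h, Submodule.mem_dualCoannihilator]
    exact ⟨by rintro h _ ⟨α, hα, rfl⟩; exact h α hα, fun h α hα => h _ ⟨α, hα, rfl⟩⟩
  have := Subspace.finrank_add_finrank_dualCoannihilator_eq
    (S.map (dotProductEquiv ℂ σ).toLinearMap)
  rwa [← e, LinearEquiv.finrank_map_eq, finrank_fintype_fun_eq_card] at this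

theorem ann_iff {S T : Submodule ℂ (σ → ℂ)} (h : ∀ v, v ∈ T ↔ ∀ α ∈ S, α ⬝ᵥ v = 0) (α : σ → ℂ) :
    α ∈ S ↔ ∀ v ∈ T, α ⬝ᵥ v = 0 := by
  let S' : Submodule ℂ (σ → ℂ) := ⨅ v ∈ T, LinearMap.ker (dotProductBilin ℂ ℂ v)
  have h1 : ∀ β, β ∈ S' ↔ ∀ v ∈ T, v ⬝ᵥ β = 0 := fun β => by simp [S', Submodule.mem_iInf]
  have h2 : S ≤ S' := fun β hβ => (h1 β).2 fun v hv => by
    rw [dotProduct_comm]
    exact (h v).1 hv β hβ
  have h3 := ann_rank h
  have h4 := ann_rank h1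
  rw [Submodule.eq_of_le_of_finrank_eq h2 (by omega), h1]
  simp only [dotProduct_comm α]

theorem span_dot {S : Set (σ → ℂ)} {v : σ → ℂ} :
    (∀ α ∈ Submodule.span ℂ S, α ⬝ᵥ v = 0) ↔ ∀ α ∈ S, α ⬝ᵥ v = 0 := by
  refine ⟨fun h α hα => h α (Submodule.subset_span hα), fun h α hα => ?_⟩
  induction hα using Submodule.span_induction with
  | mem x hx => exact h x hx
  | zero => simp
  | add x y _ _ hx hy => simp [hx, hy]
  | smul a x _ hx => simp [hx]

theorem mem_tangent {y v : σ → ℂ} : v ∈ tangent C y ↔ ∀ f ∈ vI C, grad f y ⬝ᵥ v = 0 := Iff.rfl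

theorem mem_tangent_nm {y v : σ → ℂ} : v ∈ tangent C y ↔ ∀ α ∈ Nm C y, α ⬝ᵥ v = 0 := by
  rw [Nm, span_dot, mem_tangent]
  exact ⟨by rintro h _ ⟨f, hf, rfl⟩; exact h f hf, fun h f hf => h _ ⟨f, hf, rfl⟩⟩

theorem nm_iff {y α : σ → ℂ} : α ∈ Nm C y ↔ ∀ v ∈ tangent C y, α ⬝ᵥ v = 0 :=
  ann_iff (fun _ => mem_tangent_nm) α

theorem dual_rank (C : Set (σ → ℂ)) (y : σ → ℂ) :
    finrank ℂ (Nm C y) + finrank ℂ (tangent C y) = Fintype.card σ :=
  ann_rank fun _ => mem_tangent_nm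

theorem grad_mem_nm {f : P σ} (hf : f ∈ vI C) (y : σ → ℂ) : grad f y ∈ Nm C y :=
  Submodule.subset_span ⟨f, hf, rfl⟩

theorem mem_nm {y α : σ → ℂ} : α ∈ Nm C y ↔ ∃ f ∈ vI C, grad f y = α := by
  refine ⟨fun h => ?_, fun ⟨f, hf, e⟩ => e ▸ grad_mem_nm hf y⟩
  exact (Submodule.span_le (p := ((vI C).restrictScalars ℂ).map (gradL y))).2 (fun _ h => h) h

theorem nm_gens {κ : Type} {G : κ → P σ} (hG : vI C = Ideal.span (Set.range G)) {y : σ → ℂ}
    (hy : y ∈ C) : Nm C y = Submodule.span ℂ (Set.range fun i => grad (G i) y) := by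
  refine le_antisymm (Submodule.span_le.2 ?_) (Submodule.span_le.2 ?_)
  · rintro _ ⟨f, hf, rfl⟩
    rw [hG] at hf
    induction hf using Submodule.span_induction with
    | mem x hx =>
      obtain ⟨i, rfl⟩ := hx
      exact Submodule.subset_span ⟨i, rfl⟩
    | zero => exact grad_zero y ▸ Submodule.zero_mem _
    | add p q _ _ hp hq => exact grad_add p q y ▸ Submodule.add_mem _ hp hq
    | smul a p h hp =>
      have h0 : eval y p = 0 := mem_van.1 (show p ∈ vI C from hG ▸ h) y hy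
      rw [smul_eq_mul, grad_mul, h0, zero_smul, add_zero]
      exact Submodule.smul_mem _ _ hp
  · rintro _ ⟨i, rfl⟩
    exact grad_mem_nm (hG ▸ Ideal.subset_span ⟨i, rfl⟩) y

theorem sm_of_smoothCone (hC : IsSmoothCone C n) (hc : Fintype.card σ = n + 1 + c) : Sm C c := by
  have h1 : dm (vI C) = n + 1 := by
    have := (kd hC.irreducible).symm.trans hC.dim
    exact_mod_cast this
  refine ⟨⟨hC.closed, hC.cone, hC.irreducible, ?_⟩, by rw [h1, hc], fun z hz h0 => ?_⟩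
  · obtain ⟨y, hy, h0⟩ := exists_ne_pt hC.irreducible (show 0 < dm (vI C) by omega) 0
    exact ⟨y, hC.closed ▸ hy, h0⟩
  · have := dual_rank C z
    have := hC.smooth z hz h0
    omega

theorem exists_bas (hC : Sm C c) {x : σ → ℂ} (hx : x ∈ C) (h0 : x ≠ 0) :
    ∃ G : Fin c → P σ, Bas C x G := by
  obtain rfl := hC.rk x hx h0
  obtain ⟨f, h1, -, h2⟩ :=
    Submodule.exists_fun_fin_finrank_span_eq ℂ {v | ∃ f ∈ vI C, grad f x = v}
  choose G hG hG' using h1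
  exact ⟨G, hG, (funext hG' : _ = f) ▸ h2⟩

theorem self_mem_tangent (hC : Cn C) {x : σ → ℂ} (hx : x ∈ C) : x ∈ tangent C x :=
  mem_tangent_of_line fun e => by simpa [add_smul] using hC.cone (1 + e) x hx

theorem exists_frame (hC : Sm C c) (hc : Fintype.card σ = n + 1 + c) {x : σ → ℂ} (hx : x ∈ C)
    (h0 : x ≠ 0) : ∃ φ : (Fin n → ℂ) →ₗ[ℂ] (σ → ℂ), IsFrame C x φ := by
  obtain ⟨W, hW⟩ := (ℂ ∙ x).exists_isCompl
  have h1 : Disjoint (W ⊓ tangent C x) (ℂ ∙ x) := hW.disjoint.symm.mono_left inf_le_left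
  have h2 : (W ⊓ tangent C x) ⊔ (ℂ ∙ x) = tangent C x := by
    rw [sup_comm, ← sup_inf_assoc_of_le _ ((Submodule.span_singleton_le_iff_mem _ _).2
      (self_mem_tangent hC.toCn hx)), hW.sup_eq_top, top_inf_eq]
  have h3 := Submodule.finrank_sup_add_finrank_inf_eq (W ⊓ tangent C x) (ℂ ∙ x)
  rw [h2, h1.eq_bot, finrank_bot, finrank_span_singleton h0] at h3
  have h4 := dual_rank C x
  have h5 := hC.rk x hx h0
  let e : (Fin n → ℂ) ≃ₗ[ℂ] ↥(W ⊓ tangent C x) :=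
    LinearEquiv.ofFinrankEq _ _ (by rw [finrank_fin_fun]; omega)
  have h6 : LinearMap.range ((W ⊓ tangent C x).subtype.comp e.toLinearMap) = W ⊓ tangent C x := by
    rw [LinearMap.range_comp, LinearEquiv.range, Submodule.map_top, Submodule.range_subtype]
  exact ⟨_, Subtype.val_injective.comp e.injective, h6.symm ▸ h1, h6.symm ▸ h2⟩

theorem exists_dot_ne (hs : Submodule.span ℂ C = ⊤) {α : σ → ℂ} (h : α ≠ 0) :
    ∃ p ∈ C, α ⬝ᵥ p ≠ 0 := by
  classical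
  by_contra! hn
  have h1 := (span_dot (S := C) (v := α)).2 fun p hp => dotProduct_comm α p ▸ hn p hp
  exact h (funext fun i => by simpa using h1 (Pi.single i 1) (hs ▸ Submodule.mem_top))

end PartGKd

section PartGNm

variable {σ : Type} [Fintype σ] {C : Set (σ → ℂ)} {c : ℕ}

theorem nm_hom (hC : Cn C) (y : σ → ℂ) : Nm C y =
    Submodule.span ℂ {v | ∃ f ∈ vI C, ∃ d, f.IsHomogeneous (d + 1) ∧ grad f y = v} := by
  refine le_antisymm (Submodule.span_le.2 ?_) (Submodule.span_mono ?_)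
  · rintro v ⟨f, hf, rfl⟩
    refine hom_induction hC.homI
      (p := fun f => grad f y ∈ Submodule.span ℂ
        {v | ∃ f ∈ vI C, ∃ d, f.IsHomogeneous (d + 1) ∧ grad f y = v}) ?_ ?_ ?_ f hf
    · rw [grad_zero]
      exact Submodule.zero_mem _
    · intro f g hf hg
      rw [grad_add]
      exact Submodule.add_mem _ hf hg
    · intro f d hf hd
      cases d with
      | zero =>
        rw [grad_hom_zero hd]
        exact Submodule.zero_mem _
      | succ d => exact Submodule.subset_span ⟨f, hf, d, hd, rfl⟩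
  · rintro v ⟨f, hf, d, _, rfl⟩
    exact ⟨f, hf, rfl⟩

theorem mem_tangent_hom (hC : Cn C) {y v : σ → ℂ} : v ∈ tangent C y ↔
    ∀ f ∈ vI C, ∀ d, f.IsHomogeneous (d + 1) → grad f y ⬝ᵥ v = 0 := by
  rw [mem_tangent_nm, nm_hom hC, span_dot]
  constructor
  · intro h f hf d hd
    exact h _ ⟨f, hf, d, hd, rfl⟩
  · rintro h α ⟨f, hf, d, hd, rfl⟩
    exact h f hf d hd

theorem gnm_le (hC : Cn C) (a : ℂ) (y : σ → ℂ) : Nm C (a • y) ≤ Nm C y := by
  rw [nm_hom hC (a • y)]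
  refine Submodule.span_le.2 ?_
  rintro v ⟨f, hf, d, hd, rfl⟩
  rw [grad_smul_hom hd]
  exact Submodule.smul_mem _ _ (grad_mem_nm hf y)

theorem nm_smul (hC : Cn C) {a : ℂ} (ha : a ≠ 0) (y : σ → ℂ) : Nm C (a • y) = Nm C y := by
  refine le_antisymm (gnm_le hC a y) ?_
  have := gnm_le hC a⁻¹ (a • y)
  rwa [smul_smul, inv_mul_cancel₀ ha, one_smul] at this

theorem tangent_smul (hC : Cn C) {a : ℂ} (ha : a ≠ 0) (y : σ → ℂ) :
    tangent C (a • y) = tangent C y := by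
  ext v
  rw [mem_tangent_nm, mem_tangent_nm, nm_smul hC ha]

theorem alg_nm (hC : Sm C c) : Alg C (Nm C) c := by
  have key : ∀ z ∈ C, fb (Submodule.span (P σ)
      {q : σ → P σ | ∃ f ∈ vI C, ∃ d, f.IsHomogeneous (d + 1) ∧ (fun i => pderiv i f) = q} ⊔
        pw σ (vI C)) z = Nm C z := by
    intro z hz
    rw [fb_span_sup hz, nm_hom hC.toCn]
    congr 1
    ext v
    constructor
    · rintro ⟨q, ⟨f, hf, d, hd, rfl⟩, rfl⟩
      exact ⟨f, hf, d, hd, rfl⟩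
    · rintro ⟨f, hf, d, hd, rfl⟩
      exact ⟨_, ⟨f, hf, d, hd, rfl⟩, rfl⟩
  refine ⟨_, ⟨?_, le_sup_right, fun z hz h0 => ?_⟩, fun z hz _ => key z hz⟩
  · refine (homM_span ?_).sup (homM_pw hC.toCn.homI)
    rintro q ⟨f, _, d, hd, rfl⟩
    refine ⟨((d : ℤ), 0), fun i => ?_⟩
    have := hd.pderiv (i := i)
    simpa using isWH_w0.2 this
  · rw [key z hz]
    exact hC.rk z hz h0

end PartGNm

section PartGLoc0

variable {τ κ : Type} [Fintype τ] [Fintype κ]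

theorem gloc0_mem {z : τ → ℂ} {g : P τ} : g ∈ vI {z} ↔ eval z g = 0 := by
  simp

/-- the affine form with a given gradient -/
noncomputable def gloc0_L (z : τ → ℂ) : (τ → ℂ) →ₗ[ℂ] P τ :=
  Fintype.linearCombination ℂ fun a => X a - C (z a)

theorem gloc0_eval (z e : τ → ℂ) : eval z (gloc0_L z e) = 0 := by
  simp [gloc0_L, Fintype.linearCombination_apply, smul_eq_C_mul]

theorem gloc0_grad (z e : τ → ℂ) : grad (gloc0_L z e) z = e := by
  classical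
  ext i
  simp [gloc0_L, Fintype.linearCombination_apply, grad, pderiv_X, Pi.single_apply, smul_eq_C_mul]

theorem gloc0_taylor (z : τ → ℂ) (g : P τ) :
    g - C (eval z g) - gloc0_L z (grad g z) ∈ vI {z} ^ 2 := by
  classical
  induction g using MvPolynomial.induction_on with
  | C a =>
    rw [show grad (C a : P τ) z = 0 by ext i; simp [grad], map_zero]
    simp
  | add p q hp hq =>
    convert Ideal.add_mem _ hp hq using 1
    rw [grad_add, map_add, map_add, map_add]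
    ring
  | mul_X p i hp =>
    have h1 : gloc0_L z (grad (X i) z) = X i - C (z i) := by
      rw [show grad (X i : P τ) z = Pi.single i 1 by
        ext a; simp [grad, pderiv_X, Pi.single_apply, apply_ite (eval z), eq_comm]]
      simp [gloc0_L]
    have h2 : gloc0_L z (grad p z) * (X i - C (z i)) ∈ vI {z} ^ 2 := by
      rw [pow_two]
      exact Ideal.mul_mem_mul (gloc0_mem.2 (gloc0_eval _ _)) (gloc0_mem.2 (by simp))
    convert Ideal.add_mem _ (Ideal.mul_mem_right (X i) _ hp) h2 using 1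
    rw [grad_mul, map_add, map_smul, map_smul, h1, smul_eq_C_mul, smul_eq_C_mul, map_mul, map_mul,
      eval_X]
    ring

theorem mem_pt_sq {z : τ → ℂ} {g : P τ} (h0 : eval z g = 0) (h1 : grad g z = 0) :
    g ∈ vI {z} ^ 2 := by
  simpa [h0, h1] using gloc0_taylor z g

theorem cot {z : τ → ℂ} (f : κ → P τ) (h0 : ∀ i, eval z (f i) = 0)
    (hind : LinearIndependent ℂ fun i => grad (f i) z) :
    ∃ (m : ℕ) (y : Fin m → P τ), m + Fintype.card κ = Fintype.card τ ∧ (∀ i, eval z (y i) = 0) ∧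
      vI {z} ≤ Ideal.span (Set.range f) ⊔ Ideal.span (Set.range y) ⊔ vI {z} ^ 2 := by
  obtain ⟨T, hT⟩ := (Submodule.span ℂ (Set.range fun i => grad (f i) z)).exists_isCompl
  let b := Module.finBasis ℂ T
  refine ⟨_, fun t => gloc0_L z (b t), ?_, fun t => gloc0_eval _ _, fun g hg => ?_⟩
  · rw [← finrank_span_eq_card hind, add_comm, Submodule.finrank_add_eq_of_isCompl hT,
      finrank_fintype_fun_eq_card]
  set J := Ideal.span (Set.range f) ⊔ Ideal.span (Set.range fun t => gloc0_L z (b t))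
  have hJ : J ≤ vI {z} := sup_le (Ideal.span_le.2 (Set.range_subset_iff.2 fun i =>
    gloc0_mem.2 (h0 i))) (Ideal.span_le.2 (Set.range_subset_iff.2 fun i =>
      gloc0_mem.2 (gloc0_eval _ _)))
  have h1 : ⊤ ≤ (J.restrictScalars ℂ).map (gradL z) := by
    rw [← hT.sup_eq_top]
    refine sup_le (Submodule.span_le.2 (Set.range_subset_iff.2 fun i =>
      ⟨f i, Ideal.mem_sup_left (Ideal.subset_span ⟨i, rfl⟩), rfl⟩)) fun v hv => ?_
    rw [show v = T.subtype (∑ t, b.repr ⟨v, hv⟩ t • b t) by rw [b.sum_repr]; rfl, map_sum]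
    exact Submodule.sum_mem _ fun t _ => Submodule.smul_mem _ _
      ⟨_, Ideal.mem_sup_right (Ideal.subset_span ⟨t, rfl⟩), gloc0_grad _ _⟩
  obtain ⟨h, hh, e⟩ := h1 (Submodule.mem_top (x := gradL z g))
  rw [← add_sub_cancel h g]
  refine Submodule.add_mem_sup hh (mem_pt_sq (gloc0_mem.1 (sub_mem hg (hJ hh))) ?_)
  rw [← gradL_apply, map_sub, e, sub_self]

theorem nak {z : τ → ℂ} {J J' : Ideal (P τ)} (h : J ≤ J' ⊔ vI {z} * J) :
    ∃ h, eval z h ≠ 0 ∧ ∀ g ∈ J, h * g ∈ J' := by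
  obtain ⟨r, h1, h2⟩ := Submodule.exists_sub_one_mem_and_smul_le_of_fg_of_le_sup
    (IsNoetherian.noetherian J) le_rfl h
  refine ⟨r, fun e => ?_, fun g hg => h2 (Submodule.smul_mem_pointwise_smul g r J hg)⟩
  simpa [e] using gloc0_mem.1 h1

theorem jac {𝔭 : Ideal (P τ)} (hp : 𝔭.IsPrime) {z : τ → ℂ} (hz : z ∈ vZ 𝔭) (f : κ → P τ)
    (hf : ∀ i, f i ∈ 𝔭) (hind : LinearIndependent ℂ fun i => grad (f i) z) :
    dm 𝔭 + Fintype.card κ ≤ Fintype.card τ := by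
  obtain ⟨m, y, hm, hy, hle⟩ := cot f (fun i => mem_vZ.1 hz _ (hf i)) hind
  obtain ⟨𝔮, hq, hzq⟩ := exists_min_at (𝔞 := 𝔭 ⊔ Ideal.span (Set.range y))
    (mem_vZ_sup.2 ⟨hz, mem_vZ_span.2 (Set.forall_mem_range.2 hy)⟩)
  obtain ⟨h, h1, h2⟩ := nak (z := z) (J' := 𝔮) (hle.trans (sup_le_sup ((sup_le_sup_right
    (Ideal.span_le.2 (Set.range_subset_iff.2 hf)) _).trans hq.1.2) (pow_two _).le))
  have e : 𝔮 = vI {z} := le_antisymm (mem_vZ_iff_le.1 hzq) fun g hg =>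
    (hq.1.1.mem_or_mem (h2 g hg)).resolve_left fun hh => h1 (mem_vZ.1 hzq h hh)
  have h3 := cut hp y hq
  rw [e, dm_pt, Fintype.card_fin] at h3
  omega

theorem nm_rank_le {Z : Set (τ → ℂ)} (hp : (vI Z).IsPrime) {z : τ → ℂ} (hz : z ∈ Z) :
    dm (vI Z) + finrank ℂ (Nm Z z) ≤ Fintype.card τ := by
  obtain ⟨v, hv, -, hl⟩ := Submodule.exists_fun_fin_finrank_span_eq ℂ
    {v | ∃ f ∈ vI Z, grad f z = v}
  choose f h1 h2 using hv
  obtain rfl : v = fun i => grad (f i) z := funext fun i => (h2 i).symm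
  have h := jac hp (mem_vZ.2 fun g hg => mem_van.1 hg z hz) f h1 hl
  rwa [Fintype.card_fin] at h

end PartGLoc0

section PartGLoc

variable {τ κ : Type} [Fintype τ] [Fintype κ]

theorem gloc_mem {z : τ → ℂ} {g : P τ} : g ∈ vI {z} ↔ eval z g = 0 := by
  simp [aeval_eq_eval]

theorem gloc_ind {z : τ → ℂ} (m : ℕ) : ∀ (J 𝔭 : Ideal (P τ)) (y : Fin m → P τ), 𝔭.IsPrime →
    z ∈ vZ 𝔭 → J ≤ 𝔭 → m ≤ dm 𝔭 → (∀ i, eval z (y i) = 0) →
    vI {z} ≤ J ⊔ Ideal.span (Set.range y) ⊔ vI {z} ^ 2 →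
    ∃ h, eval z h ≠ 0 ∧ ∀ g ∈ 𝔭, h * g ∈ J := by
  induction m with
  | zero =>
    intro J 𝔭 y _ hz _ _ _ hm
    rw [Set.range_eq_empty, Ideal.span_empty, sup_bot_eq, pow_two] at hm
    obtain ⟨h, h0, hh⟩ := nak hm
    exact ⟨h, h0, fun g hg => hh g (mem_vZ_iff_le.1 hz hg)⟩
  | succ m ih =>
    intro J 𝔭 y hp hz hJ hd hy hm
    have hle := mem_vZ_iff_le.1 hz
    obtain ⟨t, ht⟩ : ∃ t, y t ∉ 𝔭 := by
      by_contra hc
      push Not at hc
      have h1 : vI {z} ≤ 𝔭 ⊔ vI {z} * vI {z} := by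
        rw [← pow_two]
        exact hm.trans (sup_le_sup_right (sup_le hJ (Ideal.span_le.2 (Set.range_subset_iff.2 hc))) _)
      obtain ⟨h, h0, hh⟩ := nak h1
      have h2 : vI {z} ≤ 𝔭 := fun g hg =>
        (hp.mem_or_mem (hh g hg)).resolve_left fun h3 => h0 (gloc_mem.1 (hle h3))
      rw [le_antisymm hle h2, dm_pt] at hd
      omega
    obtain ⟨𝔮, hq, hzq⟩ := exists_min_at (𝔞 := 𝔭 ⊔ Ideal.span (Set.range fun _ : Unit => y t))
      (y := z) (mem_vZ_sup.2 ⟨hz, mem_vZ_span.2 (by rintro _ ⟨_, rfl⟩; exact hy t)⟩)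
    have hc := cut hp _ hq
    rw [Fintype.card_unit] at hc
    have hq1 := hq.1.2
    rw [Set.range_const] at hq1
    obtain ⟨h, h0, hh⟩ := ih (J ⊔ Ideal.span {y t}) 𝔮 (fun i => y (t.succAbove i)) hq.1.1 hzq
      ((sup_le_sup_right hJ _).trans hq1) (by omega) (fun i => hy _) (hm.trans (sup_le_sup_right
        (sup_le (le_sup_left.trans le_sup_left) (Ideal.span_le.2 (by
          rintro _ ⟨i, rfl⟩
          rcases Fin.eq_self_or_eq_succAbove t i with rfl | ⟨j, rfl⟩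
          · exact Ideal.mem_sup_left (Ideal.mem_sup_right (Ideal.mem_span_singleton_self _))
          · exact Ideal.mem_sup_right (Ideal.subset_span ⟨j, rfl⟩)))) _))
    refine nak fun g hg => ?_
    obtain ⟨j, hj, b, hb, e⟩ := Submodule.mem_sup.1 (hh g (hq1 (Ideal.mem_sup_left hg)))
    obtain ⟨a, rfl⟩ := Ideal.mem_span_singleton'.1 hb
    have ha : a ∈ 𝔭 := (hp.mem_or_mem (x := a) (y := y t) (by
      rw [eq_sub_of_add_eq' e]
      exact 𝔭.sub_mem (𝔭.mul_mem_left _ hg) (hJ hj))).resolve_right ht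
    have e2 : g = C (eval z h)⁻¹ * (j + (y t * a - (h - C (eval z h)) * g)) := by
      have : C (eval z h)⁻¹ * C (eval z h) = (1 : P τ) := by
        rw [← C_mul, inv_mul_cancel₀ h0, C_1]
      linear_combination (-g) * this - C (eval z h)⁻¹ * e
    rw [e2]
    exact Ideal.mul_mem_left _ _ (Submodule.add_mem_sup hj (Ideal.sub_mem _
      (Ideal.mul_mem_mul (gloc_mem.2 (hy t)) ha) (Ideal.mul_mem_mul (gloc_mem.2 (by simp)) hg)))

theorem loc {𝔭 : Ideal (P τ)} (hp : 𝔭.IsPrime) {z : τ → ℂ} (hz : z ∈ vZ 𝔭) (f : κ → P τ)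
    (hf : ∀ i, f i ∈ 𝔭) (hind : LinearIndependent ℂ fun i => grad (f i) z)
    (hd : Fintype.card τ ≤ dm 𝔭 + Fintype.card κ) :
    ∃ h, eval z h ≠ 0 ∧ ∀ g ∈ 𝔭, h * g ∈ Ideal.span (Set.range f) := by
  obtain ⟨m, y, hm, hy, hle⟩ := cot f (fun i => mem_vZ.1 hz _ (hf i)) hind
  exact gloc_ind m _ 𝔭 y hp hz (Ideal.span_le.2 (Set.range_subset_iff.2 hf)) (by omega) hy hle

theorem Sm.loc {Z : Set (τ → ℂ)} {k : ℕ} (hZ : Sm Z k) {z : τ → ℂ} (hz : z ∈ Z) {f : Fin k → P τ}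
    (hf : Bas Z z f) : ∃ h, eval z h ≠ 0 ∧ ∀ g ∈ vI Z, h * g ∈ Ideal.span (Set.range f) :=
  H26.loc hZ.prime (hZ.closed.symm ▸ hz) f hf.1 hf.2 (by rw [Fintype.card_fin, hZ.dim])

end PartGLoc

section PartGMeet

variable {τ : Type} [Fintype τ]

theorem gmeet_dense {κ : Type} {𝔭 : Ideal (P τ)} (hp : 𝔭.IsPrime) {c : κ → τ}
    (hc : 𝔭.comap (rename c : P κ →ₐ[ℂ] P τ) ≤ ⊥) {f : P κ}
    (h : ∀ y ∈ vZ 𝔭, eval (y ∘ c) f = 0) : f = 0 := by
  refine (Ideal.mem_bot).1 (hc ?_)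
  rw [Ideal.mem_comap, ← vI_vZ hp]
  intro y hy
  rw [← h y hy, ← eval_rename]
  rfl

theorem gmeet_eval {κ ρ : Type} (s : κ → P ρ) (y : ρ → ℂ) (f : P κ) :
    eval y (aeval s f) = eval (fun i => eval y (s i)) f := by
  induction f using MvPolynomial.induction_on with
  | C a => simp
  | add p q hp hq => rw [map_add, map_add, map_add, hp, hq]
  | mul_X p i hp => rw [map_mul, map_mul, map_mul, hp, aeval_X, eval_X]

theorem gmeet_two {κ κ' : Type} {𝔭 𝔮 : Ideal (P τ)} (hp : 𝔭.IsPrime) (hq : 𝔮.IsPrime) {c : κ → τ}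
    {c' : κ' → τ} (hc : 𝔭.comap (rename c : P κ →ₐ[ℂ] P τ) ≤ ⊥)
    (hc' : 𝔮.comap (rename c' : P κ' →ₐ[ℂ] P τ) ≤ ⊥) {f : P (κ ⊕ κ')}
    (h : ∀ y ∈ vZ 𝔭, ∀ y' ∈ vZ 𝔮, eval (Sum.elim (y ∘ c) (y' ∘ c')) f = 0) : f = 0 := by
  have e1 : ∀ (a : κ → ℂ) (b : κ' → ℂ),
      eval b (aeval (Sum.elim (fun i => C (a i)) X) f) = eval (Sum.elim a b) f := fun a b => by
    rw [gmeet_eval]
    congr 2
    ext (i | i) <;> simp
  have e2 : ∀ (a : κ → ℂ) (b : κ' → ℂ),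
      eval a (aeval (Sum.elim X fun i => C (b i)) f) = eval (Sum.elim a b) f := fun a b => by
    rw [gmeet_eval]
    congr 2
    ext (i | i) <;> simp
  have s1 : ∀ y ∈ vZ 𝔭, ∀ b, eval (Sum.elim (y ∘ c) b) f = 0 := fun y hy b => by
    rw [← e1, gmeet_dense hq hc' fun y' hy' => (e1 _ _).trans (h y hy y' hy'), map_zero]
  refine MvPolynomial.funext fun x => ?_
  rw [← Sum.elim_comp_inl_inr x, ← e2,
    gmeet_dense hp hc fun y hy => (e2 _ _).trans (s1 y hy _), map_zero, map_zero]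

theorem gmeet_anti {ρ : Type} [Fintype ρ] {I J : Ideal (P ρ)} (h : I ≤ J) {y : ρ → ℂ}
    (hy : y ∈ vZ J) : y ∈ vZ I :=
  mem_vZ.2 fun f hf => mem_vZ.1 hy f (h hf)

theorem meet {𝔭 𝔮 : Ideal (P τ)} (hp : 𝔭.IsPrime) (hq : 𝔮.IsPrime) (h1 : HomI (w0 τ) 𝔭)
    (h2 : HomI (w0 τ) 𝔮) (h : Fintype.card τ < dm 𝔭 + dm 𝔮) :
    ∃ z, z ≠ 0 ∧ z ∈ vZ 𝔭 ∧ z ∈ vZ 𝔮 := by
  obtain ⟨c, -, hc⟩ := exists_indep 𝔭
  obtain ⟨c', -, hc'⟩ := exists_indep 𝔮
  rw [indep_iff_comap] at hc hc'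
  obtain ⟨𝔞, ha⟩ : ∃ 𝔞 : Ideal (P (τ ⊕ τ)),
      𝔞 = 𝔭.map (rename Sum.inl : P τ →ₐ[ℂ] P (τ ⊕ τ)) ⊔
        𝔮.map (rename Sum.inr : P τ →ₐ[ℂ] P (τ ⊕ τ)) := ⟨_, rfl⟩
  have hv : ∀ y, y ∈ vZ 𝔞 ↔ y ∘ Sum.inl ∈ vZ 𝔭 ∧ y ∘ Sum.inr ∈ vZ 𝔮 := fun y => by
    rw [ha, mem_vZ_sup, mem_vZ_ext, mem_vZ_ext]
  have hh : HomI (w0 (τ ⊕ τ)) 𝔞 := by
    rw [ha]
    exact (homI_map_rename (w := w0 (τ ⊕ τ)) Sum.inl h1).sup
      (homI_map_rename (w := w0 (τ ⊕ τ)) Sum.inr h2)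
  obtain ⟨𝔓, hP, hcm, -⟩ := pick (𝔞 := 𝔞) (Sum.map c c') Ideal.isPrime_bot {1} fun f hf => by
    by_contra hn
    refine hf ((Ideal.mem_bot).2 (gmeet_two hp hq hc hc' fun y hy y' hy' => ?_))
    by_contra h0
    refine hn ⟨Sum.elim y y', (hv _).2 ⟨hy, hy'⟩, ?_, 1, rfl, by simp⟩
    rwa [Sum.elim_comp_map]
  have hPp : 𝔓.IsPrime := hP.1.1
  have hd := card_le_dm ((indep_iff_comap _).2 hcm)
  rw [Fintype.card_sum, Fintype.card_fin, Fintype.card_fin] at hd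
  have h0 : (0 : τ ⊕ τ → ℂ) ∈ vZ (𝔓 ⊔ Ideal.span
      (Set.range fun j : τ => (X (Sum.inl j) - X (Sum.inr j) : P (τ ⊕ τ)))) := by
    refine mem_vZ_sup.2 ⟨zero_mem_vZ (adm_w0 _).posw (hmin hh hP) hPp.ne_top, mem_vZ_span.2 ?_⟩
    rintro _ ⟨j, rfl⟩
    simp
  obtain ⟨𝔓', hP', -⟩ := exists_min_at h0
  have hcut := cut hPp _ hP'
  obtain ⟨y, hy, hy0⟩ := exists_ne_pt hP'.1.1 (by omega) 0
  obtain ⟨hy1, hy2⟩ := mem_vZ_sup.1 (gmeet_anti hP'.1.2 hy)
  obtain ⟨hl, hr⟩ := (hv y).1 (gmeet_anti hP.1.2 hy1)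
  have he : y ∘ Sum.inr = y ∘ Sum.inl := by
    ext j
    have := mem_vZ_span.1 hy2 _ ⟨j, rfl⟩
    simp only [map_sub, eval_X] at this
    exact (sub_eq_zero.1 this).symm
  refine ⟨y ∘ Sum.inl, fun hz => hy0 ?_, hl, he ▸ hr⟩
  rw [← Sum.elim_comp_inl_inr y, he, hz]
  ext (j | j) <;> rfl

end PartGMeet

section PartGSat1

variable {τ : Type} [Fintype τ]

theorem gsat1_sup {I : Ideal (P τ)} {x p : P τ} :
    p ∈ I ⊔ Ideal.span {x} ↔ ∃ w, p - w * x ∈ I := by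
  rw [Submodule.mem_sup]
  constructor
  · rintro ⟨a, ha, b, hb, rfl⟩
    obtain ⟨w, rfl⟩ := Ideal.mem_span_singleton'.1 hb
    exact ⟨w, by simpa using ha⟩
  · rintro ⟨w, hw⟩
    exact ⟨_, hw, w * x, Ideal.mem_span_singleton'.2 ⟨w, rfl⟩, by ring⟩

theorem gsat1_hom {y : P τ} {e : ℕ} (he : 0 < e) (hy : y.IsHomogeneous e) :
    y ∈ Ideal.span (X '' Set.univ : Set (P τ)) := by
  refine mem_ideal_span_X_image.2 fun m hm => ?_
  by_contra h
  push Not at h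
  have h0 : m = 0 := Finsupp.ext fun i => h i trivial
  have := hy (mem_support_iff.1 hm)
  rw [h0, map_zero] at this
  omega

/-- no socle elements -/
def gsat1_Ns (I : Ideal (P τ)) : Prop :=
  ∀ u, (∀ m ∈ Ideal.span (X '' Set.univ : Set (P τ)), m * u ∈ I) → u ∈ I

theorem gsat1_a {I : Ideal (P τ)} {x : P τ} (hx : x ∈ Ideal.span (X '' Set.univ : Set (P τ)))
    (hn : ∀ p, p * x ∈ I → p ∈ I) : gsat1_Ns I :=
  fun u hu => hn u (mul_comm x u ▸ hu x hx)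

theorem gsat1_b {I : Ideal (P τ)} {x y : P τ} (hx : x ∈ Ideal.span (X '' Set.univ : Set (P τ)))
    (hnx : ∀ p, p * x ∈ I → p ∈ I) (hny : ∀ p, p * y ∈ I → p ∈ I)
    (h : gsat1_Ns (I ⊔ Ideal.span {x})) : gsat1_Ns (I ⊔ Ideal.span {y}) := by
  intro u hu
  obtain ⟨v, hv⟩ := gsat1_sup.1 (hu x hx)
  obtain ⟨t, ht⟩ := gsat1_sup.1 (h v fun m hm => by
    obtain ⟨w, hw⟩ := gsat1_sup.1 (hu m hm)
    refine gsat1_sup.2 ⟨w, hny _ ?_⟩
    have := I.sub_mem (I.mul_mem_left x hw) (I.mul_mem_left m hv)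
    convert this using 1
    ring)
  refine gsat1_sup.2 ⟨t, hnx _ ?_⟩
  have := I.add_mem hv (I.mul_mem_left y ht)
  convert this using 1
  ring

theorem gsat1_d {I : Ideal (P τ)} {x z : P τ} (hx : ∀ p, p * x ∈ I → p ∈ I)
    (hz : ∀ p, p * z ∈ I ⊔ Ideal.span {x} → p ∈ I ⊔ Ideal.span {x}) :
    ∀ p, p * x ∈ I ⊔ Ideal.span {z} → p ∈ I ⊔ Ideal.span {z} := by
  intro p hp
  obtain ⟨w, hw⟩ := gsat1_sup.1 hp
  obtain ⟨t, ht⟩ := gsat1_sup.1 (hz w (gsat1_sup.2 ⟨p, by simpa using I.neg_mem hw⟩))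
  refine gsat1_sup.2 ⟨t, hx _ ?_⟩
  have := I.add_mem hw (I.mul_mem_left z ht)
  convert this using 1
  ring

theorem gsat1_avoid {S : Set (Ideal (P τ))} (hS : S.Finite) (h : ∀ p ∈ S, ∃ i, X i ∉ p) :
    ∃ z : P τ, z.IsHomogeneous 1 ∧ ∀ p ∈ S, z ∉ p := by
  classical
  by_contra hc
  push Not at hc
  have := hS.to_subtype
  let L : (τ → ℂ) →ₗ[ℂ] P τ := Fintype.linearCombination ℂ X
  obtain ⟨p, hp⟩ := Subspace.exists_eq_top_of_iUnion_eq_univ (k := ℂ) (E := τ → ℂ)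
    (p := fun p : S => (p.1.restrictScalars ℂ).comap L) (Set.eq_univ_of_forall fun a => by
      obtain ⟨p, hp, hz⟩ := hc (L a) (by
        rw [Fintype.linearCombination_apply]
        exact IsHomogeneous.sum _ _ _ fun i _ =>
          (homogeneousSubmodule τ ℂ 1).smul_mem _ (isHomogeneous_X ℂ i))
      exact Set.mem_iUnion.2 ⟨⟨p, hp⟩, hz⟩)
  obtain ⟨i, hi⟩ := h p.1 p.2
  have h1 : Pi.single i (1 : ℂ) ∈ (p.1.restrictScalars ℂ).comap L := by
    rw [hp]; trivial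
  refine hi ?_
  simpa [L, Fintype.linearCombination_apply_single] using h1

theorem gsat1_ass {I : Ideal (P τ)} (h : gsat1_Ns I) :
    ∀ p ∈ associatedPrimes (P τ) (P τ ⧸ I), ∃ i, X i ∉ p := by
  intro p hp
  by_contra hc
  push Not at hc
  obtain ⟨hp1, x, rfl⟩ := isAssociatedPrime_iff.1 hp
  obtain ⟨u, rfl⟩ := Ideal.Quotient.mk_surjective x
  have key : ∀ m : P τ, m ∈ Submodule.colon (⊥ : Submodule (P τ) (P τ ⧸ I))
      {Ideal.Quotient.mk I u} ↔ m * u ∈ I := fun m => by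
    rw [Submodule.mem_colon_singleton, Submodule.mem_bot, ← Ideal.Quotient.eq_zero_iff_mem]
    rfl
  have hu : u ∈ I := h u fun m hm => (key m).1
    (Ideal.span_le.2 (by rintro _ ⟨i, -, rfl⟩; exact hc i) hm)
  exact hp1.ne_top ((Ideal.eq_top_iff_one _).2 ((key 1).2 (by simpa using hu)))

theorem gsat1_nz {I : Ideal (P τ)} {z : P τ}
    (h : ∀ p ∈ associatedPrimes (P τ) (P τ ⧸ I), z ∉ p) : ∀ q, q * z ∈ I → q ∈ I := by
  intro q hq
  by_contra hc
  have : z ∈ ⋃ p ∈ associatedPrimes (P τ) (P τ ⧸ I), (p : Set (P τ)) := by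
    rw [biUnion_associatedPrimes_eq_zero_divisors]
    refine ⟨Ideal.Quotient.mk I q, fun h0 => hc (Ideal.Quotient.eq_zero_iff_mem.1 h0), ?_⟩
    exact (Ideal.Quotient.eq_zero_iff_mem (a := z * q)).2 (mul_comm q z ▸ hq)
  obtain ⟨p, hp, hz⟩ := Set.mem_iUnion₂.1 this
  exact h p hp hz

theorem dp_swap (n : ℕ) {I : Ideal (P τ)} (hD : Dp (n + 1) I) {y : P τ} {e : ℕ} (he : 0 < e)
    (hy : y.IsHomogeneous e) (hn : ∀ p, p * y ∈ I → p ∈ I) : Dp n (I ⊔ Ideal.span {y}) := by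
  induction n generalizing I y e with
  | zero => trivial
  | succ n ih =>
    obtain ⟨x, ex, hex, hx, hnx, hD'⟩ := hD
    have hD'' := hD'
    obtain ⟨x', ex', hex', hx', hnx', -⟩ := hD''
    have n1 := gsat1_a (gsat1_hom hex hx) hnx
    have n2 := gsat1_a (gsat1_hom hex' hx') hnx'
    have n3 := gsat1_b (gsat1_hom hex hx) hnx hn n2
    obtain ⟨z, hz, hz'⟩ := gsat1_avoid (((associatedPrimes.finite (P τ) (P τ ⧸ I)).union
      (associatedPrimes.finite (P τ) (P τ ⧸ (I ⊔ Ideal.span {x})))).union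
      (associatedPrimes.finite (P τ) (P τ ⧸ (I ⊔ Ideal.span {y})))) (by
        rintro p ((h | h) | h)
        exacts [gsat1_ass n1 p h, gsat1_ass n2 p h, gsat1_ass n3 p h])
    have z2 := gsat1_nz fun p hp => hz' p (Or.inl (Or.inr hp))
    have z3 := gsat1_nz fun p hp => hz' p (Or.inr hp)
    have d1 := ih hD' one_pos hz z2
    rw [sup_right_comm] at d1
    have d2 := ih (I := I ⊔ Ideal.span {z}) ⟨x, ex, hex, hx, gsat1_d hnx z2, d1⟩ he hy
      (gsat1_d hn z3)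
    rw [sup_right_comm] at d2
    exact ⟨z, 1, one_pos, hz, z3, d2⟩

theorem gsat1_vars (n : ℕ) : ∀ s : Finset τ, s.card + n = Fintype.card τ →
    Dp n (Ideal.span (X '' (s : Set τ) : Set (P τ))) := by
  classical
  induction n with
  | zero => exact fun _ _ => trivial
  | succ n ih =>
    intro s hs
    obtain ⟨v, -, hv⟩ := Finset.exists_mem_notMem_of_card_lt_card
      (s := s) (t := Finset.univ) (by rw [Finset.card_univ]; omega)
    refine ⟨X v, 1, one_pos, isHomogeneous_X ℂ v, fun p hp => ?_, ?_⟩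
    · rw [mem_ideal_span_X_image] at hp ⊢
      intro m hm
      obtain ⟨i, hi, h⟩ := hp (m + Finsupp.single v 1) (by
        rw [MvPolynomial.mem_support_iff, coeff_mul_X]
        exact MvPolynomial.mem_support_iff.1 hm)
      have : i ≠ v := fun h => hv (h ▸ hi)
      exact ⟨i, hi, by simpa [Finsupp.single_apply, this.symm] using h⟩
    · have := ih (insert v s) (by rw [Finset.card_insert_of_notMem hv]; omega)
      rwa [Finset.coe_insert, Set.image_insert_eq, Ideal.span_insert, sup_comm] at this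

theorem dp_bot : Dp (Fintype.card τ) (⊥ : Ideal (P τ)) := by
  simpa using gsat1_vars (τ := τ) (Fintype.card τ) ∅ (by simp)

end PartGSat1

section PartGSat2

variable {τ : Type} [Fintype τ]

theorem gsat2_eval0 {f : P τ} {d : ℕ} (hd : 0 < d) (h : f.IsHomogeneous d) :
    eval (0 : τ → ℂ) f = 0 := by
  have := eval_smul_hom h 0 0
  rwa [zero_smul, zero_pow hd.ne', zero_mul] at this

theorem dp_dim (n : ℕ) {I : Ideal (P τ)} (hI' : HomI (w0 τ) I) (hD : Dp n I) {p : P τ} {d : ℕ}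
    (hp : p.IsHomogeneous d) (hn : p ∉ I) :
    ∃ 𝔮 : Ideal (P τ), 𝔮.IsPrime ∧ I.colon {p} ≤ 𝔮 ∧ n ≤ dm 𝔮 := by
  induction n generalizing I p d with
  | zero =>
    obtain ⟨𝔮, h1, h2⟩ := Ideal.exists_le_maximal (I.colon {p}) fun h =>
      hn (by simpa using mem_col.1 (h ▸ Submodule.mem_top : (1 : P τ) ∈ I.colon {p}))
    exact ⟨𝔮, h1.isPrime, h2, Nat.zero_le _⟩
  | succ n ih =>
    obtain ⟨x, e, he, hx, hz, hD'⟩ := hD
    have hxw := isWH_w0.2 hx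
    induction d using Nat.strong_induction_on generalizing p with
    | _ d ihd =>
      by_cases hm : p ∈ I ⊔ Ideal.span {x}
      · obtain ⟨i, hi, b, hb, hs⟩ := Submodule.mem_sup.1 hm
        obtain ⟨a, rfl⟩ := Ideal.mem_span_singleton'.1 hb
        have h1 := congrArg (weightedHomogeneousComponent (w0 τ) ((d : ℤ), 0)) hs
        rw [map_add, wc_mul hxw, (isWH_w0.2 hp).weightedHomogeneousComponent_same] at h1
        have hi' := hI' ((d : ℤ), 0) i hi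
        have hc := weightedHomogeneousComponent_isWeightedHomogeneous (w := w0 τ)
          (((d : ℤ), 0) - ((e : ℤ), 0)) a
        generalize weightedHomogeneousComponent (w0 τ) (((d : ℤ), 0) - ((e : ℤ), 0)) a = q at h1 hc
        generalize weightedHomogeneousComponent (w0 τ) ((d : ℤ), 0) i = j at h1 hi'
        have hq : q ∉ I := fun h => hn (h1 ▸ I.add_mem hi' (I.mul_mem_right _ h))
        rcases isWH_w0_cases hc with h0 | ⟨d', hd', hq'⟩
        · exact absurd (h0 ▸ I.zero_mem) hq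
        · have hlt : d' < d := by
            have := congrArg Prod.fst hd'
            simp only [Prod.fst_sub] at this
            omega
          obtain ⟨𝔮, h2, h3, h4⟩ := ihd d' hlt hq' hq
          refine ⟨𝔮, h2, fun r hr => h3 (mem_col.2 (hz _ ?_)), h4⟩
          have : r * q * x = r * p - r * j := by rw [← h1]; ring
          rw [this]
          exact I.sub_mem (mem_col.1 hr) (I.mul_mem_left _ hi')
      · obtain ⟨𝔮', h2, h3, h4⟩ := ih (hI'.sup_one hxw) hD' hp hm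
        have hle : I.colon {p} ≤ 𝔮' := fun r hr =>
          h3 (mem_col.2 (Submodule.mem_sup_left (mem_col.1 hr)))
        obtain ⟨𝔮, h5, h6⟩ := Ideal.exists_minimalPrimes_le hle
        have := h5.isPrime
        have hx' : x ∉ 𝔮 := fun h => by
          obtain ⟨y, hy, hy'⟩ := Ideal.exists_mul_mem_of_mem_minimalPrimes h5 h
          refine hy (mem_col.2 (hz _ ?_))
          have := mem_col.1 hy'
          rwa [mul_comm x y, mul_right_comm] at this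
        have hxq : x ∈ 𝔮' := h3 (mem_col.2 (Submodule.mem_sup_right
          (Ideal.mul_mem_right _ _ (Ideal.mem_span_singleton_self x))))
        have := dm_lt (lt_of_le_of_ne h6 fun h => hx' (h ▸ hxq))
        exact ⟨𝔮, h5.isPrime, h5.le, by omega⟩

theorem gsat2_dp {k : ℕ} (f : Fin k → P τ) (d : Fin k → ℕ) (hd : ∀ i, 0 < d i)
    (hf : ∀ i, (f i).IsHomogeneous (d i)) (hk : k < Fintype.card τ)
    (hdim : ∀ 𝔮 : Ideal (P τ), 𝔮.IsPrime → Ideal.span (Set.range f) ≤ 𝔮 →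
      dm 𝔮 + k ≤ Fintype.card τ) (s : Finset (Fin k)) :
    Dp (Fintype.card τ - s.card) (Ideal.span (f '' s)) := by
  classical
  have hH : ∀ t : Finset (Fin k), HomI (w0 τ) (Ideal.span (f '' t)) := fun t =>
    homI_span (by rintro _ ⟨i, -, rfl⟩; exact ⟨_, isWH_w0.2 (hf i)⟩)
  induction s using Finset.induction_on with
  | empty => simpa using dp_bot
  | insert a s ha ih =>
    have hc : (insert a s).card ≤ k := by simpa using (insert a s).card_le_univ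
    have hs : Ideal.span (f '' (insert a s : Finset (Fin k))) =
        Ideal.span (f '' s) ⊔ Ideal.span {f a} := by
      rw [Finset.coe_insert, Set.image_insert_eq, Ideal.span_insert, sup_comm]
    have hcard := Finset.card_insert_of_notMem ha
    rw [hs]
    refine dp_swap _ (by rwa [show Fintype.card τ - (insert a s).card + 1 =
      Fintype.card τ - s.card by omega]) (hd a) (hf a) ?_
    by_contra hcon
    have hnl : ¬ (Ideal.span (f '' s)).colon {f a} ≤ Ideal.span (f '' s) := fun h =>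
      hcon fun p hp => h (mem_col.2 hp)
    obtain ⟨p, e, h1, h2, h3⟩ := ((hH s).col (isWH_w0.2 (hf a))).exists_hom hnl
    rcases isWH_w0_cases h3 with h0 | ⟨d', -, hp⟩
    · exact h2 (h0 ▸ Submodule.zero_mem _)
    obtain ⟨𝔮, h4, h5, h6⟩ := dp_dim _ (hH s) ih hp h2
    have hle : Ideal.span (f '' (insert a s : Finset (Fin k))) ≤ 𝔮 := by
      rw [hs]
      refine sup_le ((le_col _ _).trans h5) ((Ideal.span_singleton_le_iff_mem _).2 (h5 ?_))
      exact mem_col.2 (mul_comm p (f a) ▸ mem_col.1 h1)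
    obtain ⟨𝔮₀, h7, h8⟩ := Ideal.exists_minimalPrimes_le hle
    have h9 := dm_anti h7.isPrime h4 h8
    have h0 : (0 : τ → ℂ) ∈ vZ (𝔮₀ ⊔ Ideal.span (Set.range
        fun j : ((insert a s)ᶜ : Finset (Fin k)) => f j)) :=
      mem_vZ_sup.2 ⟨zero_mem_vZ (adm_w0 τ).posw (hmin (hH _) h7) h7.isPrime.ne_top,
        mem_vZ_span.2 (by rintro _ ⟨j, rfl⟩; exact gsat2_eval0 (hd j) (hf j))⟩
    obtain ⟨𝔭, h10, -⟩ := exists_min_at h0
    have h11 := cut h7.isPrime _ h10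
    rw [Fintype.card_coe, Finset.card_compl, Fintype.card_fin] at h11
    have h12 := hdim 𝔭 h10.isPrime (Ideal.span_le.2 (by
      rintro _ ⟨j, rfl⟩
      refine h10.le ?_
      by_cases hj : j ∈ insert a s
      · exact Submodule.mem_sup_left (h7.le (Ideal.subset_span ⟨j, hj, rfl⟩))
      · exact Submodule.mem_sup_right (Ideal.subset_span ⟨⟨j, Finset.mem_compl.2 hj⟩, rfl⟩)))
    omega

theorem sat {k : ℕ} (f : Fin k → P τ) (d : Fin k → ℕ) (hd : ∀ i, 0 < d i)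
    (hf : ∀ i, (f i).IsHomogeneous (d i)) (hk : k < Fintype.card τ)
    (hdim : ∀ 𝔮 : Ideal (P τ), 𝔮.IsPrime → Ideal.span (Set.range f) ≤ 𝔮 →
      dm 𝔮 + k ≤ Fintype.card τ) {g : P τ} {N : ℕ}
    (hg : ∀ j, X j ^ N * g ∈ Ideal.span (Set.range f)) : g ∈ Ideal.span (Set.range f) := by
  have h := gsat2_dp f d hd hf hk hdim Finset.univ
  rw [Finset.coe_univ, Set.image_univ, Finset.card_univ, Fintype.card_fin,
    show Fintype.card τ - k = (Fintype.card τ - k - 1) + 1 by omega] at h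
  obtain ⟨x, e, he, hx, hz, -⟩ := h
  obtain ⟨M, hM⟩ : x ∈ ((Ideal.span (Set.range f)).colon {g}).radical := by
    refine mem_radical_of fun y hy => ?_
    have : y = 0 := funext fun j => by
      have := mem_vZ.1 hy _ (mem_col.2 (hg j))
      rw [map_pow, eval_X] at this
      exact eq_zero_of_pow_eq_zero this
    rw [this]
    exact gsat2_eval0 he hx
  have hM' := mem_col.1 hM
  clear hM
  induction M with
  | zero => simpa using hM'
  | succ M ih => exact ih (hz _ (by rwa [pow_succ, mul_right_comm] at hM'))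

end PartGSat2

section PartGCi

variable {τ : Type} [Fintype τ]

theorem ci_of_indep {Z : Set (τ → ℂ)} {k : ℕ} (hZ : Cn Z) (hk : dm (vI Z) + k = Fintype.card τ)
    (h2 : 2 * k < Fintype.card τ) (f : Fin k → P τ) (d : Fin k → ℕ) (hd : ∀ i, 0 < d i)
    (hf : ∀ i, (f i).IsHomogeneous (d i)) (hI' : ∀ i, f i ∈ vI Z)
    (hind : ∀ z ∈ Z, z ≠ 0 → LinearIndependent ℂ fun i => grad (f i) z) :
    vI Z = Ideal.span (Set.range f) := by
  classical
  have hJ : HomI (w0 τ) (Ideal.span (Set.range f)) :=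
    homI_span (by rintro _ ⟨i, rfl⟩; exact ⟨_, isWH_w0.2 (hf i)⟩)
  have hle : Ideal.span (Set.range f) ≤ vI Z := Ideal.span_le.2 (by rintro _ ⟨i, rfl⟩; exact hI' i)
  have hloc : ∀ z ∈ Z, z ≠ 0 →
      ∃ h, eval z h ≠ 0 ∧ ∀ g ∈ vI Z, h * g ∈ Ideal.span (Set.range f) := fun z hz h0 =>
    loc hZ.prime (by rw [hZ.closed]; exact hz) f hI' (hind z hz h0) (by simp [hk])
  have hA : ∀ 𝔮 ∈ (Ideal.span (Set.range f)).minimalPrimes, vI Z ≤ 𝔮 := by
    intro 𝔮 hq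
    have hc := cut (𝔮 := ⊥) (𝔭 := 𝔮) Ideal.isPrime_bot f (by rwa [bot_sup_eq])
    rw [dm_bot, Fintype.card_fin] at hc
    obtain ⟨z, h0, hz, hz'⟩ := meet hZ.prime hq.isPrime hZ.homI (hmin hJ hq) (by omega)
    rw [hZ.closed] at hz
    obtain ⟨h, hh, hg⟩ := hloc z hz h0
    intro g hg'
    exact (hq.isPrime.mem_or_mem (hq.le (hg g hg'))).resolve_left
      fun h' => hh (mem_vZ.1 hz' h h')
  have hdim : ∀ 𝔮 : Ideal (P τ), 𝔮.IsPrime → Ideal.span (Set.range f) ≤ 𝔮 →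
      dm 𝔮 + k ≤ Fintype.card τ := by
    intro 𝔮 hq h
    obtain ⟨𝔮', h1, h2⟩ := Ideal.exists_minimalPrimes_le h
    have := dm_anti hZ.prime hq ((hA 𝔮' h1).trans h2)
    omega
  have hrad : ∀ j, ∃ n : ℕ, (X j : P τ) ^ n ∈ (Ideal.span (Set.range f)).colon (vI Z : Set (P τ)) := by
    intro j
    refine mem_radical_of (𝔞 := (Ideal.span (Set.range f)).colon (vI Z : Set (P τ))) fun y hy => ?_
    have hy1 : y ∈ vZ (Ideal.span (Set.range f)) := mem_vZ.2 fun g hg =>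
      mem_vZ.1 hy g (Submodule.mem_colon.2 fun p _ => Ideal.mul_mem_right p _ hg)
    obtain ⟨𝔭, hp, hyp⟩ := exists_min_at hy1
    have hyZ : y ∈ Z := by
      rw [← hZ.closed]
      exact mem_vZ.2 fun g hg => mem_vZ.1 hyp g (hA 𝔭 hp hg)
    by_contra hne
    obtain ⟨h, hh, hg⟩ := hloc y hyZ (by rintro rfl; simp at hne)
    exact hh (mem_vZ.1 hy h (Submodule.mem_colon.2 fun p hp => hg p hp))
  choose n hn using hrad
  refine le_antisymm (fun g hg => sat f d hd hf (by omega) hdim (N := Finset.univ.sup n) fun j => ?_) hle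
  obtain ⟨m, hm⟩ := Nat.exists_eq_add_of_le (Finset.le_sup (f := n) (Finset.mem_univ j))
  rw [hm, add_comm, pow_add, mul_assoc]
  exact Ideal.mul_mem_left _ _ (Submodule.mem_colon.1 (hn j) g hg)

end PartGCi

section PartGZak

variable {τ ρ : Type} [Fintype τ] [Fintype ρ] {Z : Set (τ → ℂ)} {k : ℕ}

theorem sec_dim (hZ : Sm Z k) (π : P τ →ₐ[ℂ] P ρ) {𝔮 : Ideal (P ρ)} (hq : 𝔮.IsPrime) {y : ρ → ℂ}
    (hy : y ∈ vZ 𝔮) {z : τ → ℂ} (hz : z ∈ Z) (h0 : z ≠ 0) (hπ : ∀ f, eval y (π f) = eval z f) :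
    ∃ 𝔭 ∈ (𝔮 ⊔ (vI Z).map π).minimalPrimes, y ∈ vZ 𝔭 ∧ dm 𝔮 ≤ dm 𝔭 + k := by
  obtain ⟨f, hf⟩ := exists_bas hZ hz h0
  obtain ⟨h, hh, hl⟩ := hZ.loc hz hf
  have hya : y ∈ vZ (𝔮 ⊔ Ideal.span (Set.range fun i => π (f i))) := by
    refine mem_vZ_sup.2 ⟨hy, mem_vZ_span.2 ?_⟩
    rintro _ ⟨i, rfl⟩
    rw [hπ]
    exact mem_van.1 (hf.1 i) z hz
  obtain ⟨𝔭, hp, hyp⟩ := exists_min_at hya
  have hpp : 𝔭.IsPrime := hp.isPrime
  have hn : π h ∉ 𝔭 := fun hm => hh ((hπ h).symm.trans (mem_vZ.1 hyp _ hm))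
  have hsp : (Ideal.span (Set.range f)).map π ≤ 𝔭 := by
    rw [Ideal.map_span, ← Set.range_comp]
    exact le_sup_right.trans hp.le
  have hle : 𝔮 ⊔ (vI Z).map π ≤ 𝔭 := by
    refine sup_le (le_sup_left.trans hp.le) (Ideal.map_le_iff_le_comap.2 fun g hg => ?_)
    have h1 := hsp (Ideal.mem_map_of_mem π (hl g hg))
    rw [map_mul] at h1
    exact (hpp.mem_or_mem h1).resolve_left hn
  have hab : 𝔮 ⊔ Ideal.span (Set.range fun i => π (f i)) ≤ 𝔮 ⊔ (vI Z).map π := by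
    refine sup_le_sup_left (Ideal.span_le.2 ?_) _
    rintro _ ⟨i, rfl⟩
    exact Ideal.mem_map_of_mem π (hf.1 i)
  refine ⟨𝔭, ⟨⟨hpp, hle⟩, fun 𝔯 hr hrp => hp.2 ⟨hr.1, hab.trans hr.2⟩ hrp⟩, hyp, ?_⟩
  simpa using cut hq _ hp

theorem gzak_grad_X (i : τ) (w p : τ → ℂ) : grad (X i : P τ) w ⬝ᵥ p = p i := by
  classical
  simp [grad, dotProduct, pderiv_X, Pi.single_apply, apply_ite]

theorem gzak_quot (κ : (ρ → ℂ) →ₗ[ℂ] (τ → ℂ)) (s : ρ) (p : τ → ℂ) (G : P τ) :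
    ∃ R : P ρ, (∀ v, eval (κ v + v s • p) G = eval (κ v) G + v s * eval v R) ∧
      ∀ v, v s = 0 → eval v R = grad G (κ v) ⬝ᵥ p := by
  induction G using MvPolynomial.induction_on with
  | C a => exact ⟨0, fun v => by simp, fun v _ => by simp [grad, dotProduct]⟩
  | add G G' h h' =>
    obtain ⟨R, h1, h2⟩ := h
    obtain ⟨R', h1', h2'⟩ := h'
    refine ⟨R + R', fun v => ?_, fun v hv => ?_⟩
    · rw [map_add, map_add, map_add, h1, h1']
      ring
    · rw [map_add, grad_add, add_dotProduct, h2 v hv, h2' v hv]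
  | mul_X G i h =>
    obtain ⟨R, h1, h2⟩ := h
    refine ⟨R * (pull κ (X i) + X s * C (p i)) + pull κ G * C (p i), fun v => ?_, fun v hv => ?_⟩
    · simp only [map_add, map_mul, eval_pull, eval_X, eval_C, h1, Pi.add_apply, Pi.smul_apply,
        smul_eq_mul]
      ring
    · simp only [map_add, map_mul, eval_pull, eval_X, eval_C, h2 v hv, hv, grad_mul,
        add_dotProduct, smul_dotProduct, gzak_grad_X, smul_eq_mul]
      ring

theorem zak (hZ : Sm Z k) (κ : (ρ → ℂ) →ₗ[ℂ] (τ → ℂ)) {𝔮 : Ideal (P ρ)} (hq : 𝔮.IsPrime)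
    (hh : HomI (w0 ρ) 𝔮) (ho : ∀ y ∈ vZ 𝔮, κ y ∈ Z) {p : τ → ℂ} (hp : p ∈ Z) (h0 : p ≠ 0)
    (ht : ∀ y ∈ vZ 𝔮, y ≠ 0 → p ∉ tangent Z (κ y)) : dm 𝔮 ≤ k := by
  by_contra hc
  let s : ρ ⊕ Unit := Sum.inr ()
  let κ₀ : (ρ ⊕ Unit → ℂ) →ₗ[ℂ] (τ → ℂ) := κ.comp (LinearMap.funLeft ℂ ℂ Sum.inl)
  let κ' : (ρ ⊕ Unit → ℂ) →ₗ[ℂ] (τ → ℂ) := κ₀ + (LinearMap.proj s).smulRight p
  have hκ₀ : ∀ v, κ₀ v = κ (v ∘ Sum.inl) := fun v => rfl
  have hκ' : ∀ v, κ' v = κ₀ v + v s • p := fun v => rfl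
  have hq' := ext_prime Unit hq
  have hd := ext_dm Unit hq
  set 𝔮' := 𝔮.map (rename Sum.inl : P ρ →ₐ[ℂ] P (ρ ⊕ Unit)) with hq'def
  let y₀ : ρ ⊕ Unit → ℂ := Sum.elim 0 1
  have hy₀ : y₀ ∈ vZ 𝔮' := (mem_vZ_ext Sum.inl).2 (zero_mem_vZ (adm_w0 ρ).posw hh hq.ne_top)
  have hκy : κ' y₀ = p := by
    have h1 : y₀ ∘ Sum.inl = 0 := rfl
    have h2 : y₀ s = 1 := rfl
    rw [hκ', hκ₀, h1, h2, map_zero, zero_add, one_smul]
  obtain ⟨𝔓, hP, hyP, hdP⟩ := sec_dim hZ (pull κ') hq' hy₀ hp h0 fun f => by rw [eval_pull, hκy]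
  have hPp : 𝔓.IsPrime := hP.isPrime
  have hPh : HomI (w0 (ρ ⊕ Unit)) 𝔓 :=
    hmin ((homI_map_rename (w := w0 (ρ ⊕ Unit)) Sum.inl hh).sup
      (homI_map_pull κ' hZ.toCn.homI)) hP
  have hs : (X s : P (ρ ⊕ Unit)) ∉ 𝔓 := fun hm => by
    have h1 := mem_vZ.1 hyP _ hm
    rw [eval_X] at h1
    exact one_ne_zero h1
  have h00 : (0 : ρ ⊕ Unit → ℂ) ∈ vZ (𝔓 ⊔ Ideal.span {X s}) :=
    mem_vZ_sup.2 ⟨zero_mem_vZ (adm_w0 _).posw hPh hPp.ne_top, mem_vZ_span.2 fun f hf => by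
      rw [Set.mem_singleton_iff.1 hf, eval_X]
      rfl⟩
  obtain ⟨𝔓', hP', -⟩ := exists_min_at h00
  have hd' := dm_le_succ hP'
  rw [Fintype.card_unit] at hd
  obtain ⟨v, hv, hv0⟩ := exists_ne_pt hP'.isPrime (by omega) 0
  have hvs : v s = 0 := by
    have h1 := mem_vZ.1 hv (X s) (hP'.le (Ideal.mem_sup_right (Ideal.mem_span_singleton_self _)))
    rwa [eval_X] at h1
  have hvP : ∀ f ∈ 𝔓, eval v f = 0 := fun f hf => mem_vZ.1 hv f (hP'.le (Ideal.mem_sup_left hf))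
  have hvq : v ∈ vZ 𝔮' := mem_vZ.2 fun f hf => hvP f (hP.le (Ideal.mem_sup_left hf))
  refine ht (v ∘ Sum.inl) ((mem_vZ_ext Sum.inl).1 hvq) (fun h => hv0 ?_) (mem_tangent.2 fun G hG => ?_)
  · funext a
    rcases a with a | a
    · exact congrFun h a
    · exact hvs
  · obtain ⟨R, h1, h2⟩ := gzak_quot κ₀ s p G
    have h3 : pull κ' G - pull κ₀ G = X s * R := MvPolynomial.funext fun u => by
      rw [map_sub, map_mul, eval_pull, eval_pull, hκ', h1, eval_X]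
      ring
    have h4 : pull κ₀ G ∈ 𝔮' := by
      rw [← vI_vZ hq']
      refine mem_van.2 fun u hu => ?_
      rw [eval_pull]
      exact mem_van.1 hG _ (ho _ ((mem_vZ_ext Sum.inl).1 hu))
    have h5 : X s * R ∈ 𝔓 := by
      rw [← h3]
      exact 𝔓.sub_mem (hP.le (Ideal.mem_sup_right (Ideal.mem_map_of_mem _ hG)))
        (hP.le (Ideal.mem_sup_left h4))
    rw [← hκ₀, ← h2 v hvs]
    exact hvP R ((hPp.mem_or_mem h5).resolve_left hs)

end PartGZak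

section PartGGen

variable {ρ σ : Type} [Fintype ρ] [Fintype σ]

theorem ggen_hom {η F : Type} [Countable η] [Field F] [Algebra ℂ F] (φ : P η →ₐ[ℂ] F) :
    ∃ χ : P η →ₐ[ℂ] ℂ, ∀ p, φ p = 0 → χ p = 0 := by
  obtain ⟨𝔪, hm, hle⟩ := Ideal.exists_le_maximal (RingHom.ker φ) (RingHom.ker_ne_top φ)
  let _ : Field (P η ⧸ 𝔪) := Ideal.Quotient.field 𝔪
  have h1 : Module.rank ℂ (P η ⧸ 𝔪) ≤ Cardinal.aleph0 := by
    refine ((Ideal.Quotient.mkₐ ℂ 𝔪).toLinearMap.rank_le_of_surjective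
      (Ideal.Quotient.mkₐ_surjective ℂ 𝔪)).trans ?_
    rw [MvPolynomial.rank_eq]
    exact Cardinal.mk_le_aleph0
  have : Algebra.IsAlgebraic ℂ (P η ⧸ 𝔪) := ⟨fun x => by
    by_contra hx
    have h2 := (Transcendental.linearIndependent_sub_inv hx).cardinal_le_rank.trans h1
    rw [Cardinal.mk_complex] at h2
    exact absurd h2 (not_le.2 Cardinal.aleph0_lt_continuum)⟩
  let e := AlgEquiv.ofBijective (Algebra.ofId ℂ (P η ⧸ 𝔪))
    IsAlgClosed.algebraMap_bijective_of_isIntegral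
  refine ⟨e.symm.toAlgHom.comp (Ideal.Quotient.mkₐ ℂ 𝔪), fun p hp => ?_⟩
  have : Ideal.Quotient.mkₐ ℂ 𝔪 p = 0 := Ideal.Quotient.eq_zero_iff_mem.2 (hle hp)
  rw [AlgHom.comp_apply, this, map_zero]

theorem gen_avoid {𝔮 : Ideal (P ρ)} (hq : 𝔮.IsPrime) {S : Set (P ρ)} (hS' : S.Countable)
    (h : ∀ f ∈ S, f ∉ 𝔮) : ∃ y ∈ vZ 𝔮, ∀ f ∈ S, eval y f ≠ 0 := by
  have := hS'.to_subtype
  let ψ : P ρ →ₐ[ℂ] FractionRing (P ρ ⧸ 𝔮) :=
    (IsScalarTower.toAlgHom ℂ (P ρ ⧸ 𝔮) _).comp (Ideal.Quotient.mkₐ ℂ 𝔮)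
  have hψ : ∀ f, ψ f = 0 ↔ f ∈ 𝔮 := fun f =>
    (map_eq_zero_iff _ (IsFractionRing.injective (P ρ ⧸ 𝔮) _)).trans
      Ideal.Quotient.eq_zero_iff_mem
  let φ : P (ρ ⊕ S) →ₐ[ℂ] FractionRing (P ρ ⧸ 𝔮) :=
    aeval (Sum.elim (fun i => ψ (X i)) fun s => (ψ s)⁻¹)
  have hφ : ∀ f, φ (rename Sum.inl f) = ψ f := fun f => by
    have : φ.comp (rename Sum.inl) = ψ := MvPolynomial.algHom_ext fun i => by simp [φ]
    exact DFunLike.congr_fun this f
  obtain ⟨χ, hχ⟩ := ggen_hom φ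
  have hy : ∀ f, eval (fun i => χ (X (Sum.inl i))) f = χ (rename Sum.inl f) := fun f => by
    have : aeval (fun i => χ (X (Sum.inl i))) = χ.comp (rename Sum.inl) :=
      MvPolynomial.algHom_ext fun i => by simp
    exact DFunLike.congr_fun this f
  refine ⟨fun i => χ (X (Sum.inl i)), mem_vZ.2 fun f hf => ?_, fun f hf h0 => ?_⟩
  · rw [hy]
    exact hχ _ ((hφ f).trans ((hψ f).2 hf))
  · have h1 := hχ (rename Sum.inl f * X (Sum.inr ⟨f, hf⟩) - 1) (by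
      rw [map_sub, map_mul, hφ, map_one, aeval_X]
      exact sub_eq_zero.2 (mul_inv_cancel₀ fun h2 => h f hf ((hψ f).1 h2)))
    rw [map_sub, map_mul, ← hy, h0, map_one, zero_mul, zero_sub] at h1
    exact one_ne_zero (neg_eq_zero.1 h1)

theorem exists_field {S : Set (P ρ)} (hS' : S.Finite) : ∃ K : Subfield ℂ, Countable K ∧
    (∀ u : ℂ, IsAlgebraic K u → u ∈ K) ∧ ∀ f ∈ S, Ov K f := by
  let s : Set ℂ := ⋃ f ∈ S, Set.range fun d => f.coeff d
  have hs : s.Countable := hS'.countable.biUnion fun f _ => Set.countable_range _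
  have h0 : Countable (Subfield.closure s) := Cardinal.mk_le_aleph0_iff.1
    ((Subfield.cardinalMk_closure_le_max s).trans (max_le hs.le_aleph0 le_rfl))
  let L := algebraicClosure (Subfield.closure s) ℂ
  refine ⟨L.toSubfield, ?_, fun u hu => ?_, fun f hf d => ?_⟩
  · exact ((Algebraic.countable (Subfield.closure s) ℂ).mono fun x hx =>
      mem_algebraicClosure_iff.1 hx).to_subtype
  · have hu' : IsAlgebraic L u := hu
    exact mem_algebraicClosure_iff.2 (hu'.restrictScalars _)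
  · exact L.algebraMap_mem ⟨f.coeff d, Subfield.subset_closure (Set.mem_biUnion hf ⟨d, rfl⟩)⟩

theorem gen_gnr (K : Subfield ℂ) (hK : Countable K) {𝔮 : Ideal (P ρ)} (hq : 𝔮.IsPrime) (r : σ → ρ)
    {C : Set (σ → ℂ)} (h1 : 𝔮.comap (rename r : P σ →ₐ[ℂ] P ρ) ≤ vI C)
    (h2 : ∀ y ∈ vZ 𝔮, y ∘ r ∈ C) : ∃ y ∈ vZ 𝔮, Gnr K C (y ∘ r) := by
  have hc : {f : P σ | Ov K f}.Countable := by
    have : Countable (MvPolynomial σ K) := Cardinal.mk_le_aleph0_iff.1
      (MvPolynomial.cardinalMk_le_max.trans (by simp))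
    refine (Set.countable_range (MvPolynomial.map (σ := σ) K.subtype)).mono fun f hf => ?_
    refine mem_range_map_iff_coeffs_subset.2 fun a ha => ?_
    obtain ⟨d, -, rfl⟩ := mem_coeffs_iff.1 ha
    exact ⟨⟨_, hf d⟩, rfl⟩
  obtain ⟨y, hy, h⟩ := gen_avoid hq (S := rename r '' {f | Ov K f} ∩ {g | g ∉ 𝔮})
    ((hc.image _).mono Set.inter_subset_left) fun f hf => hf.2
  refine ⟨y, hy, h2 y hy, fun f hf h0 => h1 ?_⟩
  by_contra hn
  exact h _ ⟨⟨f, hf, rfl⟩, hn⟩ ((eval_rename _ _ _).trans h0)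

end PartGGen

section PartGDer

variable {σ : Type} [Fintype σ] {K : Subfield ℂ}

theorem gder_lift {F B : Type} [Field F] [CommRing B] (g : F →+* B) (π : B →+* ℂ)
    (hs : Function.Surjective π) (hn : IsNilpotent (RingHom.ker π)) :
    ∃ L : ℂ →+* B, (∀ u, π (L u) = u) ∧ ∀ t, L (π (g t)) = g t := by
  let : Algebra F ℂ := (π.comp g).toAlgebra
  let : Algebra F B := g.toAlgebra
  have : CharZero F := (π.comp g).charZero
  obtain ⟨s, hb⟩ := exists_isTranscendenceBasis F ℂ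
  have := hb.isAlgebraic_field
  have : Algebra.FormallySmooth F ℂ := .of_algebraicIndependent_of_isSeparable hb.1
  let π' : B →ₐ[F] ℂ := { π with commutes' := fun _ => rfl }
  let L := Algebra.FormallySmooth.liftOfSurjective (AlgHom.id F ℂ) π' hs hn
  exact ⟨L.toRingHom, fun u => Algebra.FormallySmooth.liftOfSurjective_apply _ π' hs hn u,
    fun t => L.commutes t⟩

theorem gder_lift' {R B : Type} [CommRing R] [CommRing B] (g : R →+* B) (π : B →+* ℂ)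
    (hg : ∀ f, π (g f) = 0 → g f = 0) (hu : ∀ b, π b ≠ 0 → IsUnit b)
    (hs : Function.Surjective π) (hn : IsNilpotent (RingHom.ker π)) :
    ∃ L : ℂ →+* B, (∀ u, π (L u) = u) ∧ ∀ t, L (π (g t)) = g t := by
  have : (RingHom.ker (π.comp g)).IsPrime := RingHom.ker_isPrime _
  have hφ : ∀ y : nonZeroDivisors (R ⧸ RingHom.ker (π.comp g)),
      IsUnit (Ideal.Quotient.lift (RingHom.ker (π.comp g)) g hg y) := by
    rintro ⟨y, hy⟩
    obtain ⟨f, rfl⟩ := Ideal.Quotient.mk_surjective y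
    exact hu _ fun h0 => nonZeroDivisors.ne_zero hy (Ideal.Quotient.eq_zero_iff_mem.2 h0)
  obtain ⟨L, h1, h2⟩ := gder_lift
    (IsLocalization.lift (S := FractionRing (R ⧸ RingHom.ker (π.comp g))) hφ) π hs hn
  refine ⟨L, h1, fun t => ?_⟩
  have := h2 (algebraMap _ _ (Ideal.Quotient.mk (RingHom.ker (π.comp g)) t))
  rwa [IsLocalization.lift_eq, Ideal.Quotient.lift_mk] at this

theorem gder_lift2 {R : Type} [CommRing R] (g : R →+* DualNumber ℂ)
    (hg : ∀ f, (g f).fst = 0 → (g f).snd = 0) :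
    ∃ L : ℂ →+* DualNumber ℂ, (∀ u, (L u).fst = u) ∧ ∀ t, L (g t).fst = g t :=
  gder_lift' g (TrivSqZeroExt.fstHom ℂ ℂ ℂ).toRingHom
    (fun f hf => TrivSqZeroExt.ext hf (hg f hf))
    (fun _ hb => TrivSqZeroExt.isUnit_iff_isUnit_fst.2 (Ne.isUnit hb))
    (fun u => ⟨TrivSqZeroExt.inl u, rfl⟩) ⟨2, by
      rw [pow_two, Ideal.zero_eq_bot, eq_bot_iff, Ideal.mul_le]
      intro r hr s hs
      have hr : r.fst = 0 := hr
      have hs : s.fst = 0 := hs
      exact TrivSqZeroExt.ext (by simp [hr]) (by simp [hr, hs])⟩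

theorem gder_dual' (x a : σ → ℂ) (w : σ → DualNumber ℂ) (hx : ∀ i, (w i).fst = x i)
    (ha : ∀ i, (w i).snd = a i) (f : MvPolynomial σ K) :
    (aeval w f).fst = aeval x f ∧ (aeval w f).snd = ∑ i, aeval x (pderiv i f) * a i := by
  classical
  induction f using MvPolynomial.induction_on with
  | C k => simp [TrivSqZeroExt.algebraMap_eq_inl']
  | add p q hp hq => simp [hp.1, hp.2, hq.1, hq.2, add_mul, Finset.sum_add_distrib]
  | mul_X p j hp =>
    refine ⟨by simp [hp.1, hx], ?_⟩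
    simp [hp.1, hp.2, hx, ha, mul_add, Finset.sum_add_distrib, pderiv_X, Pi.single_apply,
      Finset.mul_sum, mul_comm, mul_left_comm, apply_ite, add_comm]

theorem gder_dual (x a : σ → ℂ) (f : MvPolynomial σ K) :
    (aeval (fun i => (TrivSqZeroExt.inl (x i) + TrivSqZeroExt.inr (a i) : DualNumber ℂ)) f).fst =
      aeval x f ∧
    (aeval (fun i => (TrivSqZeroExt.inl (x i) + TrivSqZeroExt.inr (a i) : DualNumber ℂ)) f).snd =
      ∑ i, aeval x (pderiv i f) * a i :=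
  gder_dual' x a _ (fun i => by simp) (fun i => by simp) f

theorem der_core (x a : σ → ℂ)
    (h : ∀ f : MvPolynomial σ K, aeval x f = 0 → ∑ i, aeval x (pderiv i f) * a i = 0) :
    ∃ D : Derivation K ℂ ℂ, ∀ i, D (x i) = a i := by
  obtain ⟨ψ, e1, e2, e3⟩ : ∃ ψ : MvPolynomial σ K →+* DualNumber ℂ, (∀ f, (ψ f).fst = aeval x f) ∧
      (∀ f, (ψ f).snd = ∑ i, aeval x (pderiv i f) * a i) ∧ ∀ i, (ψ (X i)).snd = a i :=
    ⟨(aeval fun i => TrivSqZeroExt.inl (x i) + TrivSqZeroExt.inr (a i) :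
      MvPolynomial σ K →ₐ[K] DualNumber ℂ), fun f => (gder_dual x a f).1,
      fun f => (gder_dual x a f).2, fun i => by simp⟩
  obtain ⟨L, h1, h2⟩ := gder_lift2 ψ fun f hf => (e2 f).trans (h f ((e1 f).symm.trans hf))
  have h3 : ∀ f, L (aeval x f) = ψ f := fun f => by rw [← e1, h2]
  have hm : ∀ u v, (L (u * v)).snd = u * (L v).snd + v * (L u).snd := fun u v => by
    simp [h1, mul_comm]
  have hk : ∀ k : K, (L k).snd = 0 := fun k => by
    have := congrArg TrivSqZeroExt.snd (h3 (C k))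
    rw [e2, aeval_C] at this
    exact this.trans (by simp)
  refine ⟨Derivation.mk' ⟨⟨fun u => (L u).snd, fun u v => by simp⟩, fun k u => ?_⟩ hm, fun i => ?_⟩
  · show (L (k * u)).snd = k * (L u).snd
    rw [hm, hk, mul_zero, add_zero]
  · have := congrArg TrivSqZeroExt.snd (h3 (X i))
    simpa [e3] using this

theorem gder_map {f : P σ} : Ov K f ↔ ∃ g : MvPolynomial σ K, map K.subtype g = f := by
  constructor
  · intro hf
    refine mem_range_map_iff_coeffs_subset.2 fun c hc => ?_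
    obtain ⟨d, -, rfl⟩ := mem_coeffs_iff.1 hc
    exact ⟨⟨_, hf d⟩, rfl⟩
  · rintro ⟨g, rfl⟩ d
    rw [coeff_map]
    exact (g.coeff d).2

theorem gder_eval (y : σ → ℂ) (g : MvPolynomial σ K) : eval y (map K.subtype g) = aeval y g := by
  rw [eval_map]
  rfl

theorem der {C : Set (σ → ℂ)} {x a : σ → ℂ} (hx : Gnr K C x) (ha : a ∈ tangent C x) :
    ∃ D : Derivation K ℂ ℂ, ∀ i, D (x i) = a i :=
  der_core x a fun f hf => by
    simpa only [pderiv_map, gder_eval] using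
      ha _ (hx.2 _ (gder_map.2 ⟨f, rfl⟩) ((gder_eval x f).trans hf))

theorem der_ne (hK : ∀ u : ℂ, IsAlgebraic K u → u ∈ K) {u : ℂ}
    (h : ∀ D : Derivation K ℂ ℂ, D u = 0) : u ∈ K := by
  by_contra hu
  have ht : AlgebraicIndependent K fun _ : Unit => u :=
    algebraicIndependent_unique_type_iff.2 fun ha => hu (hK u ha)
  obtain ⟨D, hD⟩ := der_core (K := K) (fun _ : Unit => u) (fun _ => 1) fun f hf => by
    rw [ht.eq_zero_of_aeval_eq_zero f hf]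
    simp
  exact one_ne_zero ((hD ()).symm.trans (h D))

theorem der_eval (D : Derivation K ℂ ℂ) {f : P σ} (hf : Ov K f) (y : σ → ℂ) :
    D (eval y f) = grad f y ⬝ᵥ fun i => D (y i) := by
  classical
  obtain ⟨g, rfl⟩ := gder_map.1 hf
  simp only [grad, dotProduct, pderiv_map, gder_eval]
  clear hf
  induction g using MvPolynomial.induction_on with
  | C k => simp
  | add p q hp hq => simp [hp, hq, add_mul, Finset.sum_add_distrib]
  | mul_X p j hp =>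
    simp [hp, mul_add, Finset.sum_add_distrib, pderiv_X, Pi.single_apply, Finset.mul_sum,
      mul_comm, mul_left_comm, apply_ite, add_comm]

theorem Ov.pderiv {f : P σ} (hf : Ov K f) (i : σ) : Ov K (pderiv i f) := by
  obtain ⟨g, rfl⟩ := gder_map.1 hf
  exact gder_map.2 ⟨_, pderiv_map.symm⟩

theorem ov_X (K : Subfield ℂ) (i : σ) : Ov K (X i : P σ) := gder_map.2 ⟨X i, map_X _ i⟩

theorem ov_lin {α : σ → ℂ} (h : ∀ i, α i ∈ K) : Ov K (∑ i, C (α i) * X i : P σ) :=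
  gder_map.2 ⟨∑ i, C ⟨α i, h i⟩ * X i, by simp⟩

theorem der_dot (D : Derivation K ℂ ℂ) (α v : σ → ℂ) :
    D (α ⬝ᵥ v) = (fun i => D (α i)) ⬝ᵥ v + α ⬝ᵥ fun i => D (v i) := by
  simp [dotProduct, Finset.sum_add_distrib, mul_comm, add_comm]

theorem min_support (hK : ∀ u : ℂ, IsAlgebraic K u → u ∈ K) {A : Submodule ℂ (σ → ℂ)}
    (hA : ∀ D : Derivation K ℂ ℂ, ∀ α ∈ A, (fun s => D (α s)) ∈ A) (hne : A ≠ ⊥) :
    ∃ α ∈ A, α ≠ 0 ∧ ∀ s, α s ∈ K := by
  classical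
  obtain ⟨β, ⟨hβ, h0⟩, hmin⟩ := exists_minimalFor_of_wellFoundedLT (fun α => α ∈ A ∧ α ≠ 0)
    (fun α : σ → ℂ => Finset.univ.filter fun s => α s ≠ 0) ((Submodule.ne_bot_iff A).1 hne)
  obtain ⟨j, hj⟩ := Function.ne_iff.1 h0
  have hj : β j ≠ 0 := hj
  refine ⟨(β j)⁻¹ • β, A.smul_mem _ hβ, smul_ne_zero (inv_ne_zero hj) h0, fun s => der_ne hK ?_⟩
  intro D
  by_contra hD
  have := hmin (j := fun s => D (((β j)⁻¹ • β) s))
    ⟨hA D _ (A.smul_mem _ hβ), Function.ne_iff.2 ⟨s, hD⟩⟩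
    (fun t ht => by
      simp only [Finset.mem_filter, Finset.mem_univ, true_and] at ht ⊢
      exact fun h => ht (by simp [h]))
    (Finset.mem_filter.2 ⟨Finset.mem_univ j, hj⟩)
  refine (Finset.mem_filter.1 this).2 ?_
  show D ((β j)⁻¹ * β j) = 0
  rw [inv_mul_cancel₀ hj, D.map_one_eq_zero]

end PartGDer

end Pool.Agent.MP_429080_ag.H26
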