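import Pool.Agent.MP_429080_ag.CI.Bundle
import Pool.Agent.MP_429080_ag.CI.Lines

namespace Pool.Agent.MP_429080_ag.H26

open MvPolynomial Filter Module Pool.Agent.EGH Pool.Agent.MP_d171e3_nt

set_option linter.unusedSectionVars false

section PartGLev1

variable {σ : Type} [Fintype σ] {n c k : ℕ} {C : Set (σ → ℂ)} {x : σ → ℂ}
  {φ : (Fin n → ℂ) →ₗ[ℂ] (σ → ℂ)}

theorem glev1_zero {τ : Type} [Fintype τ] (Q : P τ) (y : τ → ℂ) :
    y ∈ vZ (Ideal.span (Set.range fun a => pderiv a Q)) ↔ grad Q y = 0 := by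
  rw [mem_vZ_span]
  refine ⟨fun hy => funext fun a => hy _ (Set.mem_range_self a), fun hy f hf => ?_⟩
  obtain ⟨a, rfl⟩ := hf
  exact congrFun hy a

theorem lev1 (h : Ctx C x φ c k) (hs : Submodule.span ℂ C = ⊤) (hc : c + 2 * k ≤ n) {G : P σ}
    (hG : G ∈ vI C) (hne : grad G x ≠ 0) {z : Fin n → ℂ} (hz : z ∈ lines C x φ) (h0 : z ≠ 0) :
    grad (tay x φ 2 G) z ≠ 0 := by
  intro hz0
  have hcn := h.cn
  let v : Fin n → P (Fin n) := fun a => pderiv a (tay x φ 2 G)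
  have hmem : ∀ y, y ∈ vZ (vI (lines C x φ) ⊔ Ideal.span (Set.range v)) ↔
      y ∈ lines C x φ ∧ grad (tay x φ 2 G) y = 0 := fun y => by
    rw [mem_vZ_sup, hcn.closed, glev1_zero]
  obtain ⟨𝔭, hp, hzp⟩ := exists_min_at ((hmem z).2 ⟨hz, hz0⟩)
  have hpp : 𝔭.IsPrime := hp.1.1
  have hsub : ∀ y ∈ vZ 𝔭, y ∈ lines C x φ ∧ grad (tay x φ 2 G) y = 0 := fun y hy =>
    (hmem y).1 (mem_vZ.2 fun f hf => mem_vZ.1 hy f (hp.1.2 hf))
  have hn : ∃ j, X (id j) ∉ 𝔭 := by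
    obtain ⟨j, hj⟩ := Function.ne_iff.1 h0
    exact ⟨j, fun hX => hj (by simpa using mem_vZ.1 hzp _ hX)⟩
  have h1 := cutk hcn (alg_nm h.smL) id h.prime (fun y hy => hcn.closed ▸ hy) v
    (fun y _ _ => grad_mem_nm (tay_mem h.sm.toCn hG 2) y) hp hn
  have hh : HomI (w0 (Fin n)) 𝔭 := by
    refine hmin (hcn.homI.sup (homI_span fun f hf => ?_)) hp
    obtain ⟨a, rfl⟩ := hf
    exact ⟨((1 : ℕ), 0), isWH_w0.2 (tay_hom 2 G).pderiv⟩
  have h2 := ext_dm Unit hpp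
  let κ : (Fin n ⊕ Unit → ℂ) →ₗ[ℂ] (σ → ℂ) :=
    (LinearMap.proj (Sum.inr ()) : (Fin n ⊕ Unit → ℂ) →ₗ[ℂ] ℂ).smulRight x +
      φ.comp (LinearMap.funLeft ℂ ℂ Sum.inl)
  have hκ : ∀ y, κ y = y (Sum.inr ()) • x + φ (y ∘ Sum.inl) := fun y => rfl
  obtain ⟨p, hpC, hpα⟩ := exists_dot_ne hs hne
  have h3 := zak h.sm κ (ext_prime Unit hpp) (homI_map_rename (w := w0 _) Sum.inl hh)
    (fun y hy => by
      have := (hsub _ ((mem_vZ_ext _).1 hy)).1 (y (Sum.inr ())) 1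
      rwa [one_smul] at this) hpC (fun hp0 => hpα (by rw [hp0, dotProduct_zero]))
    (fun y hy hy0 ht => hpα (mem_tangent_nm.1 ht _ (by
      obtain ⟨hl, hg⟩ := hsub _ ((mem_vZ_ext _).1 hy)
      rw [hκ]
      by_cases hw : y ∘ Sum.inl = 0
      · have hs0 : y (Sum.inr ()) ≠ 0 := fun hs0 => hy0 (funext fun i => by
          rcases i with i | i
          · exact congrFun hw i
          · exact hs0)
        rw [hw, map_zero, add_zero, nm_smul h.sm.toCn hs0]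
        exact grad_mem_nm hG x
      · refine psi0 h.sm hl (frame_indep h.frame h.ne hw) h.free hG
          (frame_kill h.frame (om_x hl hG 1) fun w => ?_) _
        rw [← grad_tay, hg, zero_dotProduct])))
  have h4 := h.dim
  rw [Fintype.card_unit] at h2
  omega

theorem indep_two (h : Ctx C x φ c k) (hs : Submodule.span ℂ C = ⊤) (hc : c + 2 * k ≤ n)
    {G : Fin c → P σ} (hG : Bas C x G) : Indep C x φ (fun _ => 2) G := by
  intro z hz h0
  rw [Fintype.linearIndependent_iff]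
  intro g hg
  have hm : ∀ m : MuT (fun _ : Fin c => 2), (m.2 : ℕ) = 0 := fun m => by
    have : (m.2 : ℕ) < 2 - 1 := m.2.2
    omega
  have hinj : Function.Injective fun m : MuT (fun _ : Fin c => 2) => m.1 := by
    rintro ⟨a, b⟩ ⟨a', b'⟩ hab
    obtain rfl : a = a' := hab
    exact congrArg _ (Fin.ext ((hm ⟨a, b⟩).trans (hm ⟨a, b'⟩).symm))
  refine Fintype.linearIndependent_iff.1 (hG.2.comp _ hinj) g ?_
  by_contra hne
  refine lev1 h hs hc (G := ∑ m, g m • G m.1)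
    (Submodule.sum_mem _ fun m _ => Submodule.smul_of_tower_mem _ _ (hG.1 m.1)) ?_ hz h0 ?_
  · rw [grad_sum]
    simpa only [grad_smul, Function.comp] using hne
  · rw [map_sum, grad_sum, ← hg]
    refine Finset.sum_congr rfl fun m _ => ?_
    rw [map_smul, grad_smul, hm m]

end PartGLev1

section PartGC1

variable {σ : Type} [Fintype σ] {n c k : ℕ} {C : Set (σ → ℂ)} {x : σ → ℂ}
  {φ : (Fin n → ℂ) →ₗ[ℂ] (σ → ℂ)}

theorem Ctx.fbN (h : Ctx C x φ c k) {z : Fin n → ℂ} (hz : z ∈ lines C x φ) :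
    fb (KN C x φ) z = Nm C (φ z) := by
  rw [KN, fb_span_sup hz, nm_hom h.sm.toCn]
  refine congrArg _ (Set.ext fun v => ⟨?_, ?_⟩)
  · rintro ⟨_, ⟨G, hG, d, hd, rfl⟩, rfl⟩
    exact ⟨G, hG, d, hd, by rw [ev_omP, om_top hd]⟩
  · rintro ⟨G, hG, d, hd, rfl⟩
    exact ⟨_, ⟨G, hG, d, hd, rfl⟩, by rw [ev_omP, om_top hd]⟩

theorem Ctx.vbN (h : Ctx C x φ c k) : VB (lines C x φ) (KN C x φ) c := by
  refine ⟨(homM_span ?_).sup (homM_pw h.cn.homI), le_sup_right, fun z hz h0 => ?_⟩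
  · rintro _ ⟨G, -, d, -, rfl⟩
    exact ⟨_, isH_omP G d⟩
  · rw [h.fbN hz]
    exact h.sm.rk _ (h.phi_mem hz h0).1 (h.phi_mem hz h0).2

theorem Ctx.algN (h : Ctx C x φ c k) : Alg (lines C x φ) (fun z => Nm C (φ z)) c :=
  ⟨_, h.vbN, fun _ hz _ => h.fbN hz⟩

theorem Ctx.vbW (h : Ctx C x φ c k) : VB (lines C x φ) (KW C x φ) (c + k) := by
  refine ⟨(homM_span ?_).sup (homM_pw h.cn.homI), le_sup_right, fun z hz h0 => ?_⟩
  · rintro _ ⟨G, -, d, rfl⟩
    exact ⟨_, isH_omP G d⟩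
  · have h1 := ann_rank (S := fb (KW C x φ) z) (T := W0 C x (φ z)) fun v => by
      rw [KW, fb_span_sup hz, span_dot, mem_W0]
      constructor
      · rintro H _ ⟨_, ⟨G, hG, j, rfl⟩, rfl⟩
        rw [ev_omP]
        exact H G hG j
      · intro H G hG j
        rw [← ev_omP]
        exact H _ ⟨_, ⟨G, hG, j, rfl⟩, rfl⟩
    have h2 := h.w0_rank hz h0
    have h3 := h.card
    omega

theorem gc1_ev {ρ : Type} (z : ρ → ℂ) (q q' : σ → P ρ) (a b : σ → ℂ) :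
    ev z (Sum.elim q q') ⬝ᵥ Sum.elim a b = ev z q ⬝ᵥ a + ev z q' ⬝ᵥ b := by
  simp [dotProduct, ev]

theorem gc1_ev0 {ρ : Type} (z : ρ → ℂ) (a : σ → ℂ) : ev z (0 : σ → P ρ) ⬝ᵥ a = 0 := by
  simp [dotProduct, ev]

theorem gc1_kill {z : Fin n → ℂ} (hz : z ∈ lines C x φ) {q q' : σ → P (Fin n)}
    (hq : Sum.elim q q' ∈ KK C x φ) {a b : σ → ℂ} (hp : Pair C x (φ z) a b) :
    ev z q ⬝ᵥ a + ev z q' ⬝ᵥ b = 0 := by
  have h1 : ev z (Sum.elim q q') ∈ fb (KK C x φ) z := mem_fb.2 ⟨_, hq, rfl⟩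
  rw [KK, fb_span_sup hz] at h1
  rw [← gc1_ev]
  refine span_dot.2 ?_ _ h1
  rintro _ ⟨_, ⟨G, hG, rfl | ⟨j, rfl⟩⟩, rfl⟩
  · rw [gc1_ev, gc1_ev0, ev_omP, add_zero]
    exact (pair_iff.1 hp G hG).1
  · rw [gc1_ev, ev_omP, ev_omP]
    exact (pair_iff.1 hp G hG).2 j

theorem gc1_gen {G : P σ} (hG : G ∈ vI C) :
    Sum.elim (omP x φ G 0) 0 ∈ KK C x φ ∧
      ∀ j, Sum.elim (omP x φ G (j + 1)) (omP x φ G j) ∈ KK C x φ :=
  ⟨Submodule.mem_sup_left (Submodule.subset_span ⟨G, hG, Or.inl rfl⟩),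
    fun j => Submodule.mem_sup_left (Submodule.subset_span ⟨G, hG, Or.inr ⟨j, rfl⟩⟩)⟩

theorem gc1_proj (e : σ → σ ⊕ σ) (he : e = Sum.inl ∨ e = Sum.inr) :
    (KK C x φ).map (LinearMap.funLeft _ _ e) = KW C x φ := by
  have gen : ∀ G ∈ vI C, ∀ j, omP x φ G j ∈ KW C x φ := fun G hG j =>
    Submodule.mem_sup_left (Submodule.subset_span ⟨G, hG, j, rfl⟩)
  refine le_antisymm (Submodule.map_le_iff_le_comap.2 (sup_le (Submodule.span_le.2 ?_)
    fun q hq => Submodule.mem_sup_right (mem_pw.2 fun i => mem_pw.1 hq _)))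
    (sup_le (Submodule.span_le.2 ?_) fun q hq => ⟨Sum.elim q q, Submodule.mem_sup_right
      (mem_pw.2 fun i => by rcases i with i | i <;> exact mem_pw.1 hq i),
      by rcases he with rfl | rfl <;> rfl⟩)
  · rintro _ ⟨G, hG, rfl | ⟨j, rfl⟩⟩ <;> rcases he with rfl | rfl
    exacts [gen G hG 0, (KW C x φ).zero_mem, gen G hG _, gen G hG _]
  · rintro _ ⟨G, hG, j, rfl⟩
    rcases he with rfl | rfl
    · rcases j with _ | j
      exacts [⟨_, (gc1_gen hG).1, rfl⟩, ⟨_, (gc1_gen hG).2 j, rfl⟩]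
    · exact ⟨_, (gc1_gen hG).2 j, rfl⟩

theorem Ctx.c1 (h : Ctx C x φ c k) (h2 : k + 2 ≤ n) :
    C1 (lines C x φ) (fun z => Nm C (φ z)) c k := by
  refine c1_of (K2 := KK C x φ) (L := Nm C x) h.cn (by have := h.dim; omega) h.vbN
    (fun z hz _ => h.fbN hz) h.vbW (h.sm.rk x h.mem h.ne)
    ((homM_span ?_).sup (homM_pw h.cn.homI)) le_sup_right (fun q => ?_) (fun q => ?_)
    (fun q hq z hz _ => nm_iff.2 fun v hv => ?_) (fun α hα => ?_)
    (fun q hq z hz h0 => nm_iff.2 fun v hv => ?_) fun q hq => ?_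
  · rintro _ ⟨G, -, rfl | ⟨j, rfl⟩⟩
    · refine ⟨(((0 : ℕ) : ℤ), 0), fun i => ?_⟩
      rcases i with i | i
      exacts [isH_omP G 0 i, isWeightedHomogeneous_zero _ _ _]
    · refine ⟨(((j + 1 : ℕ) : ℤ), 0), fun i => ?_⟩
      rcases i with i | i
      · exact isH_omP G (j + 1) i
      · have := isH_omP (x := x) (φ := φ) G j i
        simpa using this
  · rw [← gc1_proj _ (Or.inl rfl)]
    exact ⟨fun ⟨Q, hQ, e⟩ => ⟨Q ∘ Sum.inr, e ▸ (Sum.elim_comp_inl_inr Q).symm ▸ hQ⟩,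
      fun ⟨_, hQ⟩ => ⟨_, hQ, rfl⟩⟩
  · rw [← gc1_proj _ (Or.inr rfl)]
    exact ⟨fun ⟨Q, hQ, e⟩ => ⟨Q ∘ Sum.inl, e ▸ (Sum.elim_comp_inl_inr Q).symm ▸ hQ⟩,
      fun ⟨_, hQ⟩ => ⟨_, hQ, rfl⟩⟩
  · obtain ⟨b, hb⟩ := h.free (φ z) ((mem_lines h.sm.toCn).1 hz) v hv
    have := gc1_kill hz hq hb
    rwa [gc1_ev0, add_zero] at this
  · obtain ⟨G, hG, rfl⟩ := mem_nm.1 hα
    rw [← omP_zero (φ := φ)]
    exact (gc1_gen hG).1
  · obtain ⟨a, b, hp, e⟩ := span_pairs h.sm hz (frame_indep h.frame h.ne h0) h.free 0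
      (v := v) (by rwa [zero_smul, zero_add])
    have := gc1_kill hz hq hp
    rwa [gc1_ev0, zero_add, ← zero_add b, ← zero_smul ℂ a, ← e] at this
  · let f : (σ → P (Fin n)) →ₗ[P (Fin n)] (σ ⊕ σ → P (Fin n)) :=
      LinearMap.pi (Sum.elim (fun _ => 0) fun i => LinearMap.proj i)
    have hf : ∀ q, f q = Sum.elim (0 : σ → P (Fin n)) q := fun q => funext fun i => by rcases i with i | i <;> rfl
    rw [← hf]
    refine (sup_le (Submodule.span_le.2 ?_) fun q hq => ?_ : KN C x φ ≤ (KK C x φ).comap f) hq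
    · rintro _ ⟨G, hG, d, hd, rfl⟩
      have := (gc1_gen (x := x) (φ := φ) hG).2 d
      rwa [omP_high hd le_rfl, ← hf] at this
    · refine Submodule.mem_sup_right (mem_pw.2 fun i => ?_)
      rcases i with i | i
      exacts [zero_mem _, mem_pw.1 hq i]

end PartGC1

section PartGRoot1

variable {σ : Type} [Fintype σ] {n c k : ℕ} {C : Set (σ → ℂ)} {x : σ → ℂ}
  {φ : (Fin n → ℂ) →ₗ[ℂ] (σ → ℂ)} {b : Fin c → ℕ} {G : Fin c → P σ} {β : ℕ}

theorem groot1_deg {η : Type} [Fintype η] (γ : η → ℕ) (l : η) {f : P (Fin n)} {d e : ℕ}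
    (hf : f.IsHomogeneous d) (h : γ l + d = e) :
    (X (Sum.inr l) * rename Sum.inl f : P (Fin n ⊕ η)).IsWeightedHomogeneous (wt γ)
      ((e : ℤ), 1) := by
  have h1 : (rename Sum.inl f : P (Fin n ⊕ η)).IsWeightedHomogeneous (wt γ) ((d : ℤ), 0) :=
    isWH_rename Sum.inl (isWH_w0.2 hf)
  have h2 := (isWeightedHomogeneous_X ℂ (wt (τ := Fin n) γ) (Sum.inr l)).mul h1
  have h3 : wt (τ := Fin n) γ (Sum.inr l) + ((d : ℤ), 0) = ((e : ℤ), 1) := by
    rw [← h]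
    simp [wt]
  rwa [h3] at h2

theorem rv_deg (hβ : 2 ≤ β) (hb : ∀ i, b i ≤ β + 1) (a : Fin n) :
    (rv x φ b G β a).IsWeightedHomogeneous (wt (Sum.elim (fun _ => 0) (rg b β))) ((β : ℤ), 1) := by
  refine IsWeightedHomogeneous.add (IsWeightedHomogeneous.sum _ _ _ fun l _ => ?_)
    (IsWeightedHomogeneous.sum _ _ _ fun m _ => ?_)
  · exact groot1_deg _ _ (tay_hom _ _).pderiv (by simp)
  · refine groot1_deg _ _ (tay_hom _ _).pderiv ?_
    have h1 := m.2.2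
    have h2 := hb m.1
    simp only [Sum.elim_inr, rg]
    omega

theorem rps_deg (hβ : 2 ≤ β) (hb : ∀ i, b i ≤ β + 1) (s : σ) :
    (rps x φ b G β s).IsWeightedHomogeneous (wt (Sum.elim (fun _ => 0) (rg b β)))
      (((β - 1 : ℕ) : ℤ), 1) := by
  refine IsWeightedHomogeneous.add (IsWeightedHomogeneous.sum _ _ _ fun l _ => ?_)
    (IsWeightedHomogeneous.sum _ _ _ fun m _ => ?_)
  · exact groot1_deg _ _ (tay_hom _ _) (by simp)
  · refine groot1_deg _ _ (tay_hom _ _) ?_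
    have h1 := m.2.2
    have h2 := hb m.1
    simp only [Sum.elim_inr, rg]
    omega

theorem ev_rv (y : Fin n ⊕ (LaT b β ⊕ MuT b) → ℂ) : ev y (rv x φ b G β) =
    ∑ l : LaT b β, y (Sum.inr (Sum.inl l)) • grad (tay x φ (β + 1) (G l)) (y ∘ Sum.inl) +
      ∑ m : MuT b, y (Sum.inr (Sum.inr m)) • grad (tay x φ (m.2 + 2) (G m.1)) (y ∘ Sum.inl) := by
  ext a
  simp only [ev, rv, grad, map_add, map_sum, map_mul, eval_X, eval_rename, Pi.add_apply,
    Finset.sum_apply, Pi.smul_apply, smul_eq_mul]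

theorem ev_rps (y : Fin n ⊕ (LaT b β ⊕ MuT b) → ℂ) : ev y (rps x φ b G β) =
    ∑ l : LaT b β, y (Sum.inr (Sum.inl l)) • om x (φ (y ∘ Sum.inl)) (G l) (β - 1) +
      ∑ m : MuT b, y (Sum.inr (Sum.inr m)) • om x (φ (y ∘ Sum.inl)) (G m.1) m.2 := by
  ext a
  simp only [← ev_omP, ev, rps, map_add, map_sum, map_mul, eval_X, eval_rename, Pi.add_apply,
    Finset.sum_apply, Pi.smul_apply, smul_eq_mul]

theorem rps_mem (h : Ctx C x φ c k) (hβ : 2 ≤ β) (hG : Bas C x G)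
    {y : Fin n ⊕ (LaT b β ⊕ MuT b) → ℂ} (hz : y ∘ Sum.inl ∈ lines C x φ) (h0 : y ∘ Sum.inl ≠ 0)
    (hv : ev y (rv x φ b G β) = 0) : ev y (rps x φ b G β) ∈ Nm C (φ (y ∘ Sum.inl)) := by
  have h1 := psi h.sm hz (frame_indep h.frame h.ne h0) h.free (A := LaT b β ⊕ MuT b)
    (Sum.elim (fun l => G l) fun m => G m.1) (by rintro (l | m) <;> exact hG.1 _)
    (Sum.elim (fun _ => β - 1) fun m => m.2) (fun a => y (Sum.inr a)) ?_
  · rw [ev_rps]
    simpa only [Fintype.sum_sum_type, Sum.elim_inl, Sum.elim_inr] using h1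
  refine frame_kill h.frame ?_ fun w => ?_
  · rw [sum_dotProduct]
    refine Finset.sum_eq_zero fun a _ => ?_
    rw [smul_dotProduct, om_x hz (by rcases a with l | m <;> exact hG.1 _), smul_zero]
  · have h2 := congrArg (· ⬝ᵥ w) hv
    have h3 : β - 1 + 1 = β := by omega
    simp only [ev_rv, add_dotProduct, sum_dotProduct, smul_dotProduct, zero_dotProduct,
      grad_tay] at h2
    simpa only [Fintype.sum_sum_type, Sum.elim_inl, Sum.elim_inr, add_dotProduct, sum_dotProduct,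
      smul_dotProduct, h3] using h2

theorem groot1_ext {m m' : MuT b} (h1 : m.1 = m'.1) (h2 : (m.2 : ℕ) = m'.2) : m = m' := by
  obtain ⟨i, j⟩ := m
  obtain ⟨i', j'⟩ := m'
  obtain rfl : i = i' := h1
  obtain rfl : j = j' := Fin.ext h2
  rfl

theorem rps_ne (hf : IsFrame C x φ) (hβ : 2 ≤ β) (hb : ∀ i, b i ≤ β + 1) (hG : Bas C x G)
    (hI' : Indep C x φ b G) {y : Fin n ⊕ (LaT b β ⊕ MuT b) → ℂ} (hz : y ∘ Sum.inl ∈ lines C x φ)
    (h0 : y ∘ Sum.inl ≠ 0) (h1 : y ∘ Sum.inr ≠ 0) : ev y (rps x φ b G β) ≠ 0 := by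
  intro hv
  rw [ev_rps] at hv
  have h2 : ∑ l : LaT b β, y (Sum.inr (Sum.inl l)) • grad (tay x φ (β - 1 + 1) (G l)) (y ∘ Sum.inl) +
      ∑ m : MuT b, y (Sum.inr (Sum.inr m)) • grad (tay x φ (m.2 + 1) (G m.1)) (y ∘ Sum.inl) = 0 := by
    refine dotProduct_eq_zero _ fun w => ?_
    have h3 := congrArg (· ⬝ᵥ φ w) hv
    simpa only [add_dotProduct, sum_dotProduct, smul_dotProduct, zero_dotProduct, grad_tay] using h3
  let ι : LaT b β ⊕ {m : MuT b // 1 ≤ (m.2 : ℕ)} → MuT b :=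
    Sum.elim (fun l => ⟨l.1, ⟨β - 2, by have := l.2; omega⟩⟩)
      fun m => ⟨m.1.1, ⟨m.1.2 - 1, by have := m.1.2.2; omega⟩⟩
  have hι : Function.Injective ι := by
    rintro (l | m) (l' | m') e
    all_goals
      have e1 := congrArg (fun m : MuT b => m.1) e
      have e2 := congrArg (fun m : MuT b => (m.2 : ℕ)) e
      simp only [ι, Sum.elim_inl, Sum.elim_inr] at e1 e2
    · exact congrArg _ (Subtype.ext e1)
    · have h3 := m'.1.2.2
      have h4 := l.2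
      have h5 := m'.2
      rw [e1] at h4
      omega
    · have h3 := m.1.2.2
      have h4 := l'.2
      have h5 := m.2
      rw [← e1] at h4
      omega
    · have h3 := m.2
      have h4 := m'.2
      exact congrArg _ (Subtype.ext (groot1_ext e1 (by omega)))
  have h3 := Fintype.linearIndependent_iff.1 ((hI' _ hz h0).comp ι hι)
    (Sum.elim (fun l => y (Sum.inr (Sum.inl l))) fun m => y (Sum.inr (Sum.inr m.1))) (by
      rw [← h2, Fintype.sum_sum_type, ← Finset.sum_filter_of_ne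
        (p := fun m : MuT b => 1 ≤ (m.2 : ℕ)) (s := Finset.univ),
        Finset.sum_subtype (p := fun m : MuT b => 1 ≤ (m.2 : ℕ)) _ (by simp)]
      · refine congrArg₂ (· + ·) (Finset.sum_congr rfl fun l _ => ?_)
          (Finset.sum_congr rfl fun m _ => ?_)
        · have h3 : β - 1 + 1 = β - 2 + 2 := by omega
          simp only [h3, ι, Sum.elim_inl, Function.comp_apply]
        · have h3 : (m.1.2 : ℕ) - 1 + 2 = m.1.2 + 1 := by have := m.2; omega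
          simp only [h3, ι, Sum.elim_inr, Function.comp_apply]
      · intro m _ hm
        by_contra h3
        have h4 : (m.2 : ℕ) + 1 = 1 := by omega
        rw [h4, tay_one hf (hG.1 _), grad_zero, smul_zero] at hm
        exact hm rfl)
  have h4 : ∀ l : LaT b β, y (Sum.inr (Sum.inl l)) = 0 := fun l => h3 (Sum.inl l)
  have h5 : ∀ m : MuT b, 1 ≤ (m.2 : ℕ) → y (Sum.inr (Sum.inr m)) = 0 := fun m hm =>
    h3 (Sum.inr ⟨m, hm⟩)
  have h6 := Fintype.linearIndependent_iff.1 hG.2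
    (fun i => ∑ j : Fin (b i - 1), y (Sum.inr (Sum.inr ⟨i, j⟩))) (by
      rw [← hv, Fintype.sum_sigma]
      simp only [h4, zero_smul, Finset.sum_const_zero, zero_add, Finset.sum_smul]
      refine Finset.sum_congr rfl fun i _ => Finset.sum_congr rfl fun j _ => ?_
      by_cases hj : 1 ≤ (j : ℕ)
      · rw [h5 ⟨i, j⟩ hj, zero_smul, zero_smul]
      · have h6 : (j : ℕ) = 0 := by omega
        rw [h6, om_zero])
  refine h1 (funext ?_)
  rintro (l | ⟨i, j⟩)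
  · exact h4 l
  · by_cases hj : 1 ≤ (j : ℕ)
    · exact h5 ⟨i, j⟩ hj
    · have h7 := h6 i
      rw [Finset.sum_eq_single j (fun j' _ hj' => h5 ⟨i, j'⟩ (by
        by_contra h8
        exact hj' (Fin.ext (by simp only at h8; omega)))) (by simp)] at h7
      exact h7

theorem rv_elim (h : Ctx C x φ c k) (hI' : Indep C x φ b G)
    {𝔭 : Ideal (P (Fin n ⊕ (LaT b β ⊕ MuT b)))}
    (h1 : ∀ f ∈ vI (lines C x φ), rename Sum.inl f ∈ 𝔭) (h2 : ∀ a, rv x φ b G β a ∈ 𝔭) :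
    ∃ N : ℕ, ∀ j μ, ∃ f : P (Fin n ⊕ LaT b β),
      X (Sum.inl j) ^ N * X (Sum.inr (Sum.inr μ)) - rename (Sum.map id Sum.inl) f ∈ 𝔭 := by
  classical
  obtain ⟨N, B, hB⟩ := linv h.cn (fun (m : MuT b) a => pderiv a (tay x φ (m.2 + 2) (G m.1))) hI'
  refine ⟨N, fun j μ => ⟨-∑ l : LaT b β, X (Sum.inr l) *
    rename Sum.inl (∑ a, B j μ a * pderiv a (tay x φ (β + 1) (G l))), ?_⟩⟩
  have h3 := 𝔭.sub_mem (𝔭.sum_mem fun a (_ : a ∈ Finset.univ) =>
    𝔭.mul_mem_left (rename Sum.inl (B j μ a)) (h2 a))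
    (𝔭.sum_mem fun m (_ : m ∈ Finset.univ) =>
      𝔭.mul_mem_left (X (Sum.inr (Sum.inr m))) (h1 _ (hB j μ m)))
  convert h3 using 1
  have h4 : ∀ f : P (Fin n), rename (Sum.map id Sum.inl : Fin n ⊕ LaT b β → Fin n ⊕ (LaT b β ⊕ MuT b))
      (rename Sum.inl f) = rename Sum.inl f := fun f => by
    rw [rename_rename]
    rfl
  simp only [rv, map_neg, map_sum, map_mul, map_sub, rename_X, h4, Sum.map_inr, mul_add, mul_sub,
    Finset.mul_sum, Finset.sum_add_distrib, Finset.sum_sub_distrib, apply_ite (rename Sum.inl),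
    map_pow, map_zero, mul_ite, mul_zero, Finset.sum_ite_eq, Finset.mem_univ, if_true]
  rw [Finset.sum_comm (s := Finset.univ (α := Fin n)), Finset.sum_comm (s := Finset.univ (α := Fin n))]
  simp only [mul_left_comm (X _ : P (Fin n ⊕ (LaT b β ⊕ MuT b)))]
  ring

end PartGRoot1

section PartGRoot

variable {σ : Type} [Fintype σ] {n c k : ℕ} {C : Set (σ → ℂ)} {x : σ → ℂ}
  {φ : (Fin n → ℂ) →ₗ[ℂ] (σ → ℂ)} {b : Fin c → ℕ} {G : Fin c → P σ} {β : ℕ}

theorem groot_pt (hm : Hmax C x φ b G β) (a : LaT b β → ℂ) :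
    ∃ z ∈ lines C x φ, z ≠ 0 ∧ ∃ μ : MuT b → ℂ,
      ev (Sum.elim z (Sum.elim a μ)) (rv x φ b G β) = 0 := by
  obtain ⟨z, hz, h0, hs⟩ := hm (fun i => if e : b i = β then a ⟨i, e⟩ else 0)
    fun i hi => dif_neg hi
  obtain ⟨μ, hμ⟩ := (Submodule.mem_span_range_iff_exists_fun ℂ).1 hs
  refine ⟨z, hz, h0, -μ, ?_⟩
  simp only [map_sum, map_smul, grad_sum, grad_smul] at hμ
  rw [← Fintype.sum_subtype_add_sum_subtype (fun i => b i = β),
    Finset.sum_eq_zero (s := Finset.univ (α := {i // ¬ b i = β}))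
      fun i _ => by rw [dif_neg i.2, zero_smul], add_zero,
    Finset.sum_congr (s₁ := Finset.univ (α := LaT b β)) rfl fun i _ => by rw [dif_pos i.2]] at hμ
  simp only [ev_rv, Sum.elim_inr, Sum.elim_inl, Sum.elim_comp_inl, Pi.neg_apply, neg_smul,
    Finset.sum_neg_distrib, hμ, add_neg_cancel]

theorem root_step (h : Ctx C x φ c k) (h3 : 3 * k + 1 ≤ n) (hβ : 2 ≤ β) (hG : Bas C x G)
    (hb : ∀ i, 2 ≤ b i ∧ b i ≤ β + 1) (hI' : Indep C x φ b G) (hm : Hmax C x φ b G β) :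
    HasRoot (lines C x φ) (fun z => Nm C (φ z)) k c (β - 1) (Fintype.card (LaT b β)) := by
  have hZ := h.cn
  have hb' : ∀ i, b i ≤ β + 1 := fun i => (hb i).2
  have hq := ext_prime (LaT b β ⊕ MuT b) h.prime
  have hd := ext_dm (LaT b β ⊕ MuT b) h.prime
  have hh : HomI (wt (Sum.elim (fun _ => 0) (rg b β))) ((vI (lines C x φ)).map
      (rename Sum.inl : P (Fin n) →ₐ[ℂ] P (Fin n ⊕ (LaT b β ⊕ MuT b)))) :=
    homI_map_rename _ hZ.homI
  have hr : ∀ f ∈ vI (lines C x φ), rename Sum.inl f ∈ (vI (lines C x φ)).map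
      (rename Sum.inl : P (Fin n) →ₐ[ℂ] P (Fin n ⊕ (LaT b β ⊕ MuT b))) :=
    fun f hf => Ideal.mem_map_of_mem _ hf
  have ho : ∀ y, y ∈ vZ ((vI (lines C x φ)).map
      (rename Sum.inl : P (Fin n) →ₐ[ℂ] P (Fin n ⊕ (LaT b β ⊕ MuT b)))) ↔
      y ∘ Sum.inl ∈ lines C x φ := fun y => by rw [mem_vZ_ext, hZ.closed]
  generalize (vI (lines C x φ)).map
    (rename Sum.inl : P (Fin n) →ₐ[ℂ] P (Fin n ⊕ (LaT b β ⊕ MuT b))) = 𝔮 at hq hd hh hr ho
  obtain ⟨𝔭, hp, hc, u, ⟨j, rfl⟩, hj⟩ := pick (𝔞 := 𝔮 ⊔ Ideal.span (Set.range (rv x φ b G β)))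
    (Sum.inr ∘ Sum.inl) Ideal.isPrime_bot (Set.range fun j => X (Sum.inl j)) (by
      intro f hf
      obtain ⟨a, ha⟩ : ∃ a, eval a f ≠ 0 := by
        by_contra! hn
        exact hf (MvPolynomial.funext fun a => by simpa using hn a)
      obtain ⟨z, hz, h0, μ, e⟩ := groot_pt hm a
      obtain ⟨j, hj⟩ := Function.ne_iff.1 h0
      refine ⟨Sum.elim z (Sum.elim a μ), mem_vZ_sup.2 ⟨(ho _).2 hz, mem_vZ_span.2 ?_⟩, ha,
        _, ⟨j, rfl⟩, by simpa using hj⟩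
      rintro _ ⟨i, rfl⟩
      exact congrFun e i)
  have l1 : 𝔮 ≤ 𝔭 := le_sup_left.trans hp.1.2
  have l2 : ∀ a, rv x φ b G β a ∈ 𝔭 := fun a =>
    hp.1.2 (Ideal.mem_sup_right (Ideal.subset_span ⟨a, rfl⟩))
  have ovr : ∀ y ∈ vZ 𝔭, y ∘ Sum.inl ∈ lines C x φ := fun y hy =>
    (ho y).1 (mem_vZ.2 fun f hf => mem_vZ.1 hy f (l1 hf))
  have hk := cutk hZ (alg_nm h.smL) Sum.inl hq (fun y => (ho y).1) (rv x φ b G β) (fun y _ _ => by
    rw [ev_rv]
    refine add_mem (Submodule.sum_mem _ fun l _ => ?_) (Submodule.sum_mem _ fun l _ => ?_) <;>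
      exact Submodule.smul_mem _ _ (grad_mem_nm (tay_mem h.sm.toCn (hG.1 _) _) _)) hp ⟨j, hj⟩
  have hM : Fintype.card (Fin c) ≤ Fintype.card (MuT b) :=
    Fintype.card_le_of_surjective Sigma.fst fun i => ⟨⟨i, 0, by have := (hb i).1; omega⟩, rfl⟩
  refine ⟨LaT b β, MuT b, inferInstance, inferInstance, rg b β, 𝔭, rps x φ b G β, rfl, hp.1.1,
    hmin (hh.sup (homI_span ?_)) hp, ovr, ⟨j, hj⟩,
    rv_elim h hI' (fun f hf => l1 (hr f hf)) l2, rps_deg hβ hb',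
    fun y hy h0 => rps_mem h hβ hG (ovr y hy) h0 (ev_pw hy (mem_pw.2 l2)),
    fun y hy => rps_ne h.frame hβ hb' hG hI' (ovr y hy), (indep_iff_comap _).2 hc, ?_⟩
  · rintro _ ⟨a, rfl⟩
    exact ⟨_, rv_deg hβ hb' a⟩
  · have := h.dim
    rw [Fintype.card_sum] at hd
    rw [Fintype.card_fin] at hM
    omega

end PartGRoot

section PartGInd

variable {σ : Type} [Fintype σ] {n c k : ℕ} {C : Set (σ → ℂ)} {x : σ → ℂ}
  {φ : (Fin n → ℂ) →ₗ[ℂ] (σ → ℂ)}

theorem gind_card (b : Fin c → ℕ) : Fintype.card (MuT b) = ∑ i, (b i - 1) := by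
  simp [Fintype.card_sigma]

theorem card_le_of_indep (h : Ctx C x φ c k) {b : Fin c → ℕ} {G : Fin c → P σ} (hG : Bas C x G)
    (hI' : Indep C x φ b G) : ∑ i, (b i - 1) ≤ k := by
  obtain ⟨z, hz, h0⟩ := h.cn.ne
  have hl := hI' z hz h0
  have hm : ∀ m : MuT b, grad (tay x φ (m.2 + 2) (G m.1)) z ∈ Nm (lines C x φ) z := fun m =>
    grad_mem_nm (tay_mem h.sm.toCn (hG.1 _) _) z
  have hl' : LinearIndependent ℂ fun m : MuT b =>
      (⟨grad (tay x φ (m.2 + 2) (G m.1)) z, hm m⟩ : Nm (lines C x φ) z) :=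
    LinearIndependent.of_comp (Nm (lines C x φ) z).subtype hl
  have := hl'.fintype_card_le_finrank
  rwa [gind_card, h.smL.rk z hz h0] at this

theorem ci_of_count (h : Ctx C x φ c k) (h3 : 3 * k + 1 ≤ n) {b : Fin c → ℕ} {G : Fin c → P σ}
    (hG : Bas C x G) (hI' : Indep C x φ b G) (hk : ∑ i, (b i - 1) = k) :
    IsCI (lines C x φ) k := by
  have e : MuT b ≃ Fin k := Fintype.equivFinOfCardEq ((gind_card b).trans hk)
  refine ⟨fun i => tay x φ ((e.symm i).2 + 2) (G (e.symm i).1), fun i => (e.symm i).2 + 2,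
    fun i => tay_hom _ _, ?_⟩
  refine ci_of_indep h.cn h.card' (by rw [Fintype.card_fin]; omega) _
    (fun i => (e.symm i).2 + 2) (fun i => Nat.succ_pos _) (fun i => tay_hom _ _)
    (fun i => tay_mem h.sm.toCn (hG.1 _) _) fun z hz h0 => ?_
  exact (hI' z hz h0).comp e.symm e.symm.injective

theorem gind_zero (h : Ctx C x φ 0 k) : k = 0 := by
  obtain ⟨z, hz, h0⟩ := h.cn.ne
  have hb : (⊥ : Ideal (P σ)) = vI C := by
    refine eq_of_dm Ideal.isPrime_bot h.sm.prime bot_le ?_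
    have := h.sm.dim
    have h1 : dm (⊥ : Ideal (P σ)) ≤ Fintype.card σ := dm_le_card Ideal.isPrime_bot
    omega
  have hN : NT C x φ z = ⊥ := by
    rw [NT, Submodule.span_eq_bot]
    rintro v ⟨G, hG, j, rfl⟩
    rw [← hb, Ideal.mem_bot] at hG
    rw [hG, map_zero, grad_zero]
  have := h.nt_rank hz h0
  rw [hN, finrank_bot] at this
  omega

theorem gind_state (h : Ctx C x φ c k) (hs : Submodule.span ℂ C = ⊤) (h3 : 3 * k + 1 ≤ n)
    (h2 : c + 2 * k ≤ n) (β : ℕ) (hβ : 2 ≤ β) :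
    ∃ (b : Fin c → ℕ) (G : Fin c → P σ), Bas C x G ∧ (∀ i, 2 ≤ b i ∧ b i ≤ β) ∧
      Indep C x φ b G ∧ ∀ γ, γ + 1 < β →
        HasRoot (lines C x φ) (fun z => Nm C (φ z)) k c γ (Fintype.card (LaT b (γ + 1))) ∨
          Fintype.card (LaT b (γ + 1)) = 0 := by
  induction β, hβ using Nat.le_induction with
  | base =>
    obtain ⟨G, hG⟩ := exists_bas h.sm h.mem h.ne
    refine ⟨fun _ => 2, G, hG, fun _ => ⟨le_rfl, le_rfl⟩, indep_two h hs h2 hG, fun γ hγ => ?_⟩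
    refine Or.inr (Fintype.card_eq_zero_iff.2 ⟨fun i => ?_⟩)
    have := i.2
    simp only at this
    omega
  | succ β hβ ih =>
    obtain ⟨b, G, hG, hb, hI', hr⟩ := ih
    obtain ⟨b', G', hG', h1, h1', hI'', hm⟩ :=
      raise h.cn.ne hβ hG (fun i => (hb i).2.trans (Nat.le_succ β)) hI'
    have hb' : ∀ i, 2 ≤ b' i ∧ b' i ≤ β + 1 := fun i => by
      have := hb i
      by_cases hi : b i = β
      · have := h1' i hi
        omega
      · have := h1 i hi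
        omega
    refine ⟨b', G', hG', hb', hI'', fun γ hγ => ?_⟩
    by_cases he : γ + 1 = β
    · subst he
      exact Or.inl (root_step h h3 hβ hG' hb' hI'' hm)
    · have hc : Fintype.card (LaT b' (γ + 1)) = Fintype.card (LaT b (γ + 1)) := by
        refine Fintype.card_congr (Equiv.subtypeEquivRight fun i => ?_)
        by_cases hi : b i = β
        · have := h1' i hi
          omega
        · rw [h1 i hi]
      rw [hc]
      exact hr γ (by omega)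

theorem ci_point (h : Ctx C x φ c k) (hs : Submodule.span ℂ C = ⊤) (h3 : 3 * k + 1 ≤ n)
    (h2 : c + 2 * k ≤ n) : IsCI (lines C x φ) k := by
  obtain ⟨b, G, hG, hb, hI', hr⟩ := gind_state h hs h3 h2 (k + 2) (by omega)
  refine ci_of_count h h3 hG hI' ?_
  rcases Nat.eq_zero_or_pos c with rfl | hc
  · rw [gind_zero h]
    simp
  have hle := card_le_of_indep h hG hI'
  have hi : ∀ i, b i - 1 ≤ k := fun i =>
    (Finset.single_le_sum (f := fun i => b i - 1) (fun _ _ => Nat.zero_le _)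
      (Finset.mem_univ i)).trans hle
  have hk : 1 ≤ k := by
    have := hi ⟨0, hc⟩
    have := (hb ⟨0, hc⟩).1
    omega
  refine key h.cn h.card' h.algN hc (h.c1 (by omega)) (fun i => b i - 1) fun β => ?_
  by_cases hβ : β + 1 < k + 2
  · have he : Fintype.card {i // b i - 1 = β} = Fintype.card (LaT b (β + 1)) := by
      refine Fintype.card_congr (Equiv.subtypeEquivRight fun i => ?_)
      have := (hb i).1
      omega
    rw [he]
    exact hr β hβ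
  · refine Or.inr (Fintype.card_eq_zero_iff.2 ⟨fun i => ?_⟩)
    have := i.2
    have := hi i.1
    omega

end PartGInd

section PartAQuad

variable {τ : Type} [Fintype τ] {Z : Set (τ → ℂ)} {k : ℕ} {Q : P τ}

theorem nosing (hZ : Sm Z k) (hs : Submodule.span ℂ Z = ⊤) (h4 : 4 * k ≤ Fintype.card τ + 1)
    (hQ : Q.IsHomogeneous 2) (hI' : Q ∈ vI Z) {z : τ → ℂ} (hz : z ∈ Z) (h0 : z ≠ 0)
    (hg : grad Q z = 0) : Q = 0 := by
  classical
  obtain ⟨B, hB, hsy, hq⟩ := exists_polar hQ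
  have hr := quad_rank hZ hQ hI' hz h0 hg hB
  by_contra hne
  obtain ⟨z₁, hz₁, hα⟩ : ∃ z₁ ∈ Z, B z₁ ≠ 0 := by
    by_contra hc
    push Not at hc
    have h1 : Submodule.span ℂ Z ≤ LinearMap.ker B := Submodule.span_le.2 hc
    refine hne (MvPolynomial.funext fun v => ?_)
    have h2 := hq v
    rw [show B v = 0 from h1 (hs ▸ Submodule.mem_top)] at h2
    simpa using h2
  obtain ⟨e, he⟩ : ∃ e, B z₁ ⬝ᵥ e = 1 := by
    obtain ⟨i, hi⟩ := Function.ne_iff.1 hα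
    exact ⟨Pi.single i (B z₁ i)⁻¹, by rw [dotProduct_single]; exact mul_inv_cancel₀ hi⟩
  have h11 : B z₁ ⬝ᵥ z₁ = 0 := by rw [hq, mem_van.1 hI' _ hz₁, mul_zero]
  let b := Module.finBasis ℂ (LinearMap.ker B)
  let κ : (Fin (finrank ℂ (LinearMap.ker B)) ⊕ Fin 2 → ℂ) →ₗ[ℂ] (τ → ℂ) :=
    Fintype.linearCombination ℂ (Sum.elim (fun i => (b i : τ → ℂ)) ![z₁, e])
  have hκ : ∀ y, κ y = ((∑ i, y (Sum.inl i) • b i : LinearMap.ker B) : τ → ℂ) +
      (y (Sum.inr 0) • z₁ + y (Sum.inr 1) • e) := fun y => by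
    simp [κ, Fintype.linearCombination_apply, Fintype.sum_sum_type, Fin.sum_univ_two]
  have hBκ : ∀ y, B (κ y) = y (Sum.inr 0) • B z₁ + y (Sum.inr 1) • B e := fun y => by
    rw [hκ, map_add, LinearMap.map_coe_ker, zero_add, map_add, map_smul, map_smul]
  have hdot : ∀ y, B z₁ ⬝ᵥ κ y = y (Sum.inr 1) := fun y => by
    rw [hsy, hBκ, add_dotProduct, smul_dotProduct, smul_dotProduct, h11, hsy e, he]
    simp
  have hinj : ∀ y, κ y = 0 → y = 0 := by
    intro y hy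
    have h1 := hdot y
    rw [hy, dotProduct_zero] at h1
    have h2 := hBκ y
    rw [hy, map_zero, ← h1, zero_smul, add_zero] at h2
    have h3 := (smul_eq_zero.1 h2.symm).resolve_right hα
    have h5 := hκ y
    rw [hy, h3, ← h1, zero_smul, zero_smul, add_zero, add_zero] at h5
    have h6 := Fintype.linearIndependent_iff.1 b.linearIndependent _
      (Subtype.ext h5.symm : (∑ i, y (Sum.inl i) • b i : LinearMap.ker B) = 0)
    funext i
    rcases i with i | i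
    · exact h6 i
    · fin_cases i
      · exact h3
      · exact h1.symm
  have hQκ : pull κ Q = X (Sum.inr 1) * (X (Sum.inr 0) + C (eval e Q) * X (Sum.inr 1)) := by
    refine MvPolynomial.funext fun y => ?_
    have h1 := hq (κ y)
    rw [hBκ, add_dotProduct, smul_dotProduct, smul_dotProduct, hdot, hsy e, hBκ, add_dotProduct,
      smul_dotProduct, smul_dotProduct, he, hq] at h1
    simp only [eval_pull, map_mul, map_add, eval_X, eval_C, smul_eq_mul] at h1 ⊢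
    linear_combination (-1 / 2 : ℂ) * h1
  have hy₀ : κ (Pi.single (Sum.inr 0) 1) = z₁ := by simp [hκ]
  obtain ⟨𝔭, hp, hy, hd⟩ := sec_dim hZ (pull κ) Ideal.isPrime_bot
    (y := Pi.single (Sum.inr 0) 1) (mem_vZ.2 fun f hf => by rw [Ideal.mem_bot.1 hf, map_zero])
    hz₁ (fun h => hα (by rw [h, map_zero])) (fun f => by rw [eval_pull, hy₀])
  rw [bot_sup_eq] at hp
  have hpp := hp.1.1
  have ho : ∀ y ∈ vZ 𝔭, κ y ∈ Z := fun y h => hZ.closed ▸
    (mem_vZ_map (pull κ) (eval_pull κ y)).1 (mem_vZ.2 fun f hf => mem_vZ.1 h f (hp.1.2 hf))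
  have hb : X (Sum.inr 1) ∈ 𝔭 := by
    have h1 := hp.1.2 (Ideal.mem_map_of_mem (pull κ) hI')
    rw [hQκ] at h1
    exact (hpp.mem_or_mem h1).resolve_right fun h => by simpa using mem_vZ.1 hy _ h
  have hcl := alg_closed hZ.toCn (alg_nm hZ) κ hpp ho (B z₁) (g := X (Sum.inr 0))
    (fun h => by simpa using mem_vZ.1 hy _ h) (fun y h ha _ => by
      have h1 := mem_vZ.1 h _ hb
      rw [eval_X] at h1 ha
      have h2 := grad_mem_nm hI' (κ y)
      rw [← hB, hBκ, h1, zero_smul, add_zero] at h2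
      exact (Submodule.smul_mem_iff _ ha).1 h2)
  obtain ⟨p, hpZ, hpd⟩ := exists_dot_ne hs hα
  have hk := zak hZ κ hpp (hmin (homI_map_pull κ hZ.toCn.homI) hp) ho hpZ
    (fun h => hpd (by rw [h, dotProduct_zero])) fun y h hy0 ht =>
      hpd (mem_tangent_nm.1 ht _ (hcl y h fun h' => hy0 (hinj y h')))
  rw [dm_bot] at hd
  simp only [Fintype.card_sum, Fintype.card_fin] at hd
  omega

end PartAQuad

section PartFinal

variable {σ : Type} [Fintype σ] {n c k : ℕ} {C : Set (σ → ℂ)}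

theorem general_and (hp : (vI C).IsPrime) {p q r : (σ → ℂ) → Prop} (h1 : General C p)
    (h2 : General C q) (h : ∀ x ∈ C, x ≠ 0 → p x → q x → r x) : General C r := by
  obtain ⟨f, hf, h1⟩ := h1
  obtain ⟨g, hg, h2⟩ := h2
  refine ⟨f * g, fun hm => (hp.mem_or_mem hm).elim hf hg, fun x hx he h0 => ?_⟩
  rw [map_mul, mul_ne_zero_iff] at he
  exact h x hx h0 (h1 x hx he.1 h0) (h2 x hx he.2 h0)

theorem mk_ctx (hC : Sm C c) (hc : Fintype.card σ = n + 1 + c) (h3 : 3 * k + 1 ≤ n) {x : σ → ℂ}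
    (hx : x ∈ C) (h0 : x ≠ 0) (hf : Free C x) {φ : (Fin n → ℂ) →ₗ[ℂ] (σ → ℂ)} (hφ : IsFrame C x φ)
    (hp : (vanishingIdeal ℂ (lines C x φ)).IsPrime) (hd : affDim (lines C x φ) + k = n) :
    Ctx C x φ c k := by
  refine ⟨hC, hc, hx, h0, hf, hφ, hp, ?_, by omega⟩
  rw [kd hp] at hd
  exact_mod_cast hd

theorem thmB (hC : IsSmoothCone C n) (hs : Submodule.span ℂ C = ⊤)
    (hc : Fintype.card σ = n + 1 + c)
    (hL : General C fun x => ∀ φ : (Fin n → ℂ) →ₗ[ℂ] (σ → ℂ), IsFrame C x φ →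
      (vanishingIdeal ℂ (lines C x φ)).IsPrime ∧ affDim (lines C x φ) + k = n)
    (h3 : 3 * k + 1 ≤ n) (h2 : c + 2 * k ≤ n) :
    General C fun x => ∀ φ : (Fin n → ℂ) →ₗ[ℂ] (σ → ℂ), IsFrame C x φ → IsCI (lines C x φ) k := by
  have hS := sm_of_smoothCone hC hc
  exact general_and hC.irreducible hL (general_free hS.toCn) fun x hx h0 hp hf φ hφ =>
    ci_point (mk_ctx hS hc h3 hx h0 hf hφ (hp φ hφ).1 (hp φ hφ).2) hs h3 h2

theorem codim_le (hC : IsSmoothCone C n) (hs : Submodule.span ℂ C = ⊤)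
    (hc : Fintype.card σ = n + 1 + c)
    (hL : General C fun x => ∀ φ : (Fin n → ℂ) →ₗ[ℂ] (σ → ℂ), IsFrame C x φ →
      (vanishingIdeal ℂ (lines C x φ)).IsPrime ∧ affDim (lines C x φ) + k = n ∧
        Submodule.span ℂ (lines C x φ) = ⊤)
    (h3 : 3 * k + 1 ≤ n) (h4 : 4 * k ≤ n + 1) : c ≤ k := by
  have hS := sm_of_smoothCone hC hc
  refine cod_le (n := n) hS hs (general_and hC.irreducible hL (general_free hS.toCn)
    fun x hx h0 hp hf => ?_)
  obtain ⟨φ, hφ⟩ := exists_frame hS hc hx h0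
  have h := mk_ctx hS hc h3 hx h0 hf hφ (hp φ hφ).1 (hp φ hφ).2.1
  obtain ⟨z, hz, hz0⟩ := h.cn.ne
  exact ⟨φ, hφ, (hp φ hφ).2.2, ⟨z, hz, hz0, (h.smL.rk z hz hz0).le⟩, fun F hF z hz hz0 hg =>
    nosing h.smL (hp φ hφ).2.2 (by simpa using h4) (tay_hom 2 F) (tay_mem hS.toCn hF 2) hz hz0 hg⟩

theorem thmA {N : ℕ} (hN : Fintype.card σ = N) (hC : IsSmoothCone C n)
    (hs : Submodule.span ℂ C = ⊤)
    (hL : General C fun x => ∀ φ : (Fin n → ℂ) →ₗ[ℂ] (σ → ℂ), IsFrame C x φ →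
      (vanishingIdeal ℂ (lines C x φ)).IsPrime ∧ affDim (lines C x φ) + k = n ∧
        Submodule.span ℂ (lines C x φ) = ⊤)
    (h3 : 3 * k + 1 ≤ n) (h4 : 4 * k ≤ n + 1) : N ≤ n + 1 + k ∧
    General C fun x => ∀ φ : (Fin n → ℂ) →ₗ[ℂ] (σ → ℂ), IsFrame C x φ → IsCI (lines C x φ) k := by
  have h1 : dm (vI C) = n + 1 := by
    have := hC.dim
    rw [kd hC.irreducible] at this
    exact_mod_cast this
  have h2 := dm_le_card hC.irreducible
  obtain ⟨c, hc⟩ : ∃ c, Fintype.card σ = n + 1 + c := ⟨Fintype.card σ - (n + 1), by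
    change dm (vI C) ≤ _ at h2
    omega⟩
  have h5 := codim_le hC hs hc hL h3 h4
  refine ⟨by omega, thmB hC hs hc ?_ h3 (by omega)⟩
  obtain ⟨f, hf, h⟩ := hL
  exact ⟨f, hf, fun x hx he h0 φ hφ => ⟨(h x hx he h0 φ hφ).1, (h x hx he h0 φ hφ).2.1⟩⟩

end PartFinal

end Pool.Agent.MP_429080_ag.H26
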